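import Pool.Agent.H891WLC.Defs

set_option autoImplicit false

namespace Pool.Agent.H891WLC

/-- every nonempty subset of `B` contains a vertex with at most one neighbour in that subset
(for finite graphs: `B` induces a forest) -/
def For1 {V : Type} (G : SimpleGraph V) (B : Set V) : Prop :=
  ∀ Z : Set V, Z ⊆ B → Z.Nonempty → ∃ z ∈ Z, ∀ x ∈ Z, ∀ y ∈ Z, G.Adj z x → G.Adj z y → x = y

/-- the next crossing pair: `p = (a,d)`, `a ∈ A`, `d ∉ A`; rotate across the face `F a d x` -/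
def Nxt {V : Type} (T : Tri V) (A : Set V) (p q : V × V) : Prop :=
  (T.F p.1 p.2 q.2 ∧ q.1 = p.1 ∧ q.2 ∉ A) ∨ (T.F p.1 p.2 q.1 ∧ q.2 = p.2 ∧ q.1 ∈ A)

/-- star-triangle transform of `G` at the vertices of `S` (a graph on the vertices outside `S`) -/
def HS {V : Type} (G : SimpleGraph V) (S : Set V) : SimpleGraph V where
  Adj x y := x ≠ y ∧ x ∉ S ∧ y ∉ S ∧ (G.Adj x y ∨ ∃ v ∈ S, G.Adj v x ∧ G.Adj v y)
  symm := ⟨by
    rintro x y ⟨h, hx, hy, h'⟩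
    exact ⟨h.symm, hy, hx, h'.elim (fun a => Or.inl a.symm) (fun ⟨v, hv, a, b⟩ => Or.inr ⟨v, hv, b, a⟩)⟩⟩
  loopless := ⟨by rintro x ⟨h, _⟩; exact h rfl⟩

/-- pairwise distance at least three -/
def Sparse {V : Type} (G : SimpleGraph V) (S : Set V) : Prop :=
  ∀ v ∈ S, ∀ w ∈ S, v ≠ w → ¬ G.Adj v w ∧ ∀ x, ¬ (G.Adj v x ∧ G.Adj w x)

/-- every vertex has exactly three neighbours -/
def Cub {V : Type} (G : SimpleGraph V) : Prop :=
  ∀ v, ∃ a b c, a ≠ b ∧ b ≠ c ∧ a ≠ c ∧ ∀ x, G.Adj v x ↔ x = a ∨ x = b ∨ x = c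

/-- cyclic enumeration of the crossing pairs of `A` and its complement -/
structure CycE {V : Type} (T : Tri V) (A : Set V) (N : ℕ) (e : ℕ → V × V) : Prop where
  pos : 0 < N
  mem : ∀ i, (e i).1 ∈ A ∧ (e i).2 ∉ A ∧ T.G.Adj (e i).1 (e i).2
  nxt : ∀ i, Nxt T A (e i) (e (i + 1))
  per : ∀ i, e (i + N) = e i
  inj : ∀ i j, i < N → j < N → e i = e j → i = j
  surj : ∀ q : V × V, q.1 ∈ A → q.2 ∉ A → T.G.Adj q.1 q.2 → ∃ i, i < N ∧ e i = q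

/-- two indices with different values are separated by a set whose index set is an interval -/
def SepA {V : Type} (N : ℕ) (c : ℕ → V) (A : Set V) : Prop :=
  ∀ a b, a < N → b < N → c a ≠ c b → ∃ (C : Set V) (I J : ℕ), C ⊆ A ∧ I ≤ J ∧ J ≤ N ∧
    (∀ i, i < N → (c i ∈ C ↔ I ≤ i ∧ i < J)) ∧ ((I ≤ a ∧ a < J) ↔ ¬ (I ≤ b ∧ b < J))

/-- `T'` is `T` with a new vertex `s` stacked into the face `f s`, for every `s` -/
def IsStack {V S : Type} (T : Tri V) (f : S → V × V × V) (T' : Tri (V ⊕ S)) : Prop :=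
  (∀ a b c, T'.F (Sum.inl a) (Sum.inl b) (Sum.inl c) ↔
    T.F a b c ∧ ∀ s, ¬ IsRot (f s).1 (f s).2.1 (f s).2.2 a b c) ∧
  (∀ s a b, T'.F (Sum.inr s) (Sum.inl a) (Sum.inl b) ↔ ∃ c, IsRot (f s).1 (f s).2.1 (f s).2.2 a b c) ∧
  (∀ s t x, ¬ T'.F (Sum.inr s) (Sum.inr t) x)

end Pool.Agent.H891WLC
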