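import Pool.Agent.H891FSS.Defs

set_option autoImplicit false

namespace Pool.Agent.H891WLC

/-- `T'` is `T` with the fans (apex `c s`, rim `a s 0, …, a s (m s)`) replaced by stars with new centres `s` -/
def IsFan {V S : Type} (T : Tri V) (c : S → V) (m : S → ℕ) (a : S → ℕ → V) (T' : Tri (V ⊕ S)) : Prop :=
  (∀ x y w, T'.F (Sum.inl x) (Sum.inl y) (Sum.inl w) ↔
    T.F x y w ∧ ∀ s i, i < m s → ¬ IsRot (c s) (a s i) (a s (i + 1)) x y w) ∧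
  (∀ s x y, T'.F (Sum.inr s) (Sum.inl x) (Sum.inl y) ↔
    (∃ i, i < m s ∧ x = a s i ∧ y = a s (i + 1)) ∨ (x = c s ∧ y = a s 0) ∨ (x = a s (m s) ∧ y = c s)) ∧
  (∀ s r x, ¬ T'.F (Sum.inr s) (Sum.inr r) x)

end Pool.Agent.H891WLC
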