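import Pool.Agent.H891FSS.Defs

set_option autoImplicit false

namespace Pool.Agent.H891WLC

namespace W_FD_CUT

/-- arc of the link of `v` from `a` (included) to `b` (excluded) -/
def Arc {U : Type} (T : Tri U) (v a b x : U) : Prop :=
  Relation.ReflTransGen (fun p q => T.F v p q ∧ q ≠ b) a x

theorem rot2 {U : Type} (T : Tri U) {x y z : U} (h : T.F x y z) : T.F z x y :=
  T.rot _ _ _ (T.rot _ _ _ h)

theorem uniq_pred {U : Type} (T : Tri U) {v x x' y : U} (h : T.F v x y) (h' : T.F v x' y) :
    x = x' := T.uniq _ _ _ _ (rot2 T h) (rot2 T h')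

theorem ne3 {U : Type} (T : Tri U) {x y z : U} (h : T.F x y z) : x ≠ y ∧ y ≠ z ∧ z ≠ x :=
  ⟨T.ne _ _ _ h, T.ne _ _ _ (T.rot _ _ _ h), T.ne _ _ _ (rot2 T h)⟩

structure Hyp {U : Type} (T : Tri U) (v a b : U) : Prop where
  ha : ∃ l, T.F v a l
  hb : ∃ l, T.F v b l
  hab : a ≠ b
  nab : ∀ c, ¬ T.F a b c
  nba : ∀ c, ¬ T.F b a c

theorem Hyp.symm {U : Type} {T : Tri U} {v a b : U} (h : Hyp T v a b) : Hyp T v b a :=
  ⟨h.hb, h.ha, h.hab.symm, h.nba, h.nab⟩

theorem Hyp.va {U : Type} {T : Tri U} {v a b : U} (h : Hyp T v a b) : v ≠ a := by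
  obtain ⟨l, hl⟩ := h.ha
  exact T.ne _ _ _ hl

theorem arc_self {U : Type} (T : Tri U) (v a b : U) : Arc T v a b a := Relation.ReflTransGen.refl

theorem not_arc_end {U : Type} {T : Tri U} {v a b : U} (hab : a ≠ b) : ¬ Arc T v a b b := by
  intro h
  rcases Relation.ReflTransGen.cases_tail h with h | ⟨c, _, _, hc⟩
  · exact hab h.symm
  · exact hc rfl

theorem arc_disj {U : Type} {T : Tri U} {v a b x : U} (hab : a ≠ b) (h : Arc T v a b x) :
    ¬ Arc T v b a x := by
  induction h with
  | refl => exact not_arc_end hab.symm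
  | tail h1 h2 ih =>
    intro hq
    rcases Relation.ReflTransGen.cases_tail hq with h | ⟨c, hc, hc1, hc2⟩
    · exact h2.2 h
    · have := uniq_pred T hc1 h2.1
      subst this
      exact ih hc

theorem arc_cover {U : Type} {T : Tri U} {v a b x : U} (h : Hyp T v a b) (hx : ∃ y, T.F v x y) :
    Arc T v a b x ∨ Arc T v b a x := by
  obtain ⟨l, hl⟩ := h.ha
  obtain ⟨y, hy⟩ := hx
  have hp := T.link v a l x y hl hy
  clear hy
  induction hp with
  | refl => exact Or.inl (arc_self T v a b)
  | @tail c d h1 h2 ih =>
    rcases ih with ih | ih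
    · by_cases hd : d = b
      · subst hd; exact Or.inr (arc_self _ _ _ _)
      · exact Or.inl (ih.tail ⟨h2, hd⟩)
    · by_cases hd : d = a
      · subst hd; exact Or.inl (arc_self _ _ _ _)
      · exact Or.inr (ih.tail ⟨h2, hd⟩)

theorem pred_end {U : Type} {T : Tri U} {v a b w : U} (h : Hyp T v a b) (hw : T.F v w b) :
    Arc T v a b w := by
  obtain ⟨l, hl⟩ := h.ha
  obtain ⟨l', hl'⟩ := h.hb
  have hp := T.link v a l b l' hl hl'
  have key : ∀ x, Relation.ReflTransGen (fun x y => T.F v x y) a x →
      Arc T v a b x ∨ ∃ w, Arc T v a b w ∧ T.F v w b := by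
    intro x hx
    induction hx with
    | refl => exact Or.inl (arc_self T v a b)
    | @tail c d h1 h2 ih =>
      rcases ih with ih | ih
      · by_cases hd : d = b
        · subst hd; exact Or.inr ⟨c, ih, h2⟩
        · exact Or.inl (ih.tail ⟨h2, hd⟩)
      · exact Or.inr ih
  rcases key b hp with h1 | ⟨w', hw1, hw2⟩
  · exact absurd h1 (not_arc_end h.hab)
  · rw [uniq_pred T hw hw2]; exact hw1

theorem arc_pred {U : Type} {T : Tri U} {v a b x w : U} (h : Arc T v a b x) (hx : x ≠ a)
    (hw : T.F v w x) : Arc T v a b w := by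
  rcases Relation.ReflTransGen.cases_tail h with h | ⟨c, hc, hc1, hc2⟩
  · exact absurd h hx
  · rw [uniq_pred T hw hc1]; exact hc

theorem arc_pred' {U : Type} {T : Tri U} {v a b x w : U} (h : Hyp T v a b) (hx : Arc T v a b x ∨ x = b)
    (hxa : x ≠ a) (hw : T.F v w x) : Arc T v a b w := by
  rcases hx with hx | rfl
  · exact arc_pred hx hxa hw
  · exact pred_end h hw

/-- faces `(none, x, y)` -/
def S2 {U : Type} (T : Tri U) (v a b x y : U) : Prop :=
  (T.F v x y ∧ Arc T v a b x) ∨ (x = b ∧ y = a)

/-- faces without `none` -/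
def S3 {U : Type} (T : Tri U) (v a b x y w : U) : Prop :=
  (T.F x y w ∧ (x = v → Arc T v b a y) ∧ (y = v → Arc T v b a w) ∧ (w = v → Arc T v b a x)) ∨
    IsRot v a b x y w

/-- the new faces -/
def FF {U : Type} (T : Tri U) (v a b : U) : Option U → Option U → Option U → Prop
  | some x, some y, some w => S3 T v a b x y w
  | none, some x, some y => S2 T v a b x y
  | some x, none, some y => S2 T v a b y x
  | some x, some y, none => S2 T v a b x y
  | none, none, _ => False
  | none, some _, none => False
  | some _, none, none => False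

theorem FF_rot {U : Type} {T : Tri U} {v a b : U} :
    ∀ p q r, FF T v a b p q r → FF T v a b q r p := by
  intro p q r h
  match p, q, r, h with
  | some x, some y, some w, h =>
    rcases h with ⟨h, h1, h2, h3⟩ | h
    · exact Or.inl ⟨T.rot _ _ _ h, h2, h3, h1⟩
    · refine Or.inr ?_
      rcases h with ⟨e1, e2, e3⟩ | ⟨e1, e2, e3⟩ | ⟨e1, e2, e3⟩
      · exact Or.inr (Or.inl ⟨e2, e3, e1⟩)
      · exact Or.inr (Or.inr ⟨e2, e3, e1⟩)
      · exact Or.inl ⟨e2, e3, e1⟩
  | none, some x, some y, h => exact h
  | some x, none, some y, h => exact h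
  | some x, some y, none, h => exact h

theorem S2_ne {U : Type} {T : Tri U} {v a b x y : U} (H : Hyp T v a b) (h : S2 T v a b x y) :
    x ≠ y ∧ x ≠ v ∧ y ≠ v := by
  rcases h with ⟨h, -⟩ | ⟨rfl, rfl⟩
  · have := ne3 T h
    exact ⟨this.2.1, this.1.symm, this.2.2⟩
  · exact ⟨H.hab.symm, H.symm.va.symm, H.va.symm⟩

theorem FF_ne {U : Type} {T : Tri U} {v a b : U} (H : Hyp T v a b) :
    ∀ p q r, FF T v a b p q r → p ≠ q := by
  intro p q r h
  match p, q, r, h with
  | some x, some y, some w, h =>
    intro e
    have e : x = y := Option.some.inj e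
    subst e
    rcases h with ⟨h, -⟩ | h
    · exact T.ne _ _ _ h rfl
    · rcases h with ⟨e1, e2, e3⟩ | ⟨e1, e2, e3⟩ | ⟨e1, e2, e3⟩
      · exact H.va (e1.symm.trans e2)
      · exact H.hab (e1.symm.trans e2)
      · exact H.symm.va (e2.symm.trans e1)
  | none, some x, some y, h => simp
  | some x, none, some y, h => simp
  | some x, some y, none, h =>
    intro e
    exact (S2_ne H h).1 (Option.some.inj e)

theorem S23 {U : Type} {T : Tri U} {v a b x y w : U} (H : Hyp T v a b) (h : S3 T v a b x y w)
    (h' : S2 T v a b x y) : False := by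
  have hne := S2_ne H h'
  rcases h' with ⟨h', hP⟩ | ⟨rfl, rfl⟩
  · rcases h with ⟨h, -, -, h3⟩ | h
    · have hw : w = v := T.uniq _ _ _ _ h (T.rot _ _ _ h')
      exact arc_disj H.hab hP (h3 hw)
    · rcases h with ⟨e1, e2, e3⟩ | ⟨e1, e2, e3⟩ | ⟨e1, e2, e3⟩
      · exact hne.2.1 e1
      · subst e1 e2
        exact H.nab _ (T.rot _ _ _ h')
      · exact hne.2.2 e2
  · rcases h with ⟨h, -⟩ | h
    · exact H.nba _ h
    · rcases h with ⟨e1, e2, e3⟩ | ⟨e1, e2, e3⟩ | ⟨e1, e2, e3⟩
      · exact hne.2.1 e1
      · exact H.hab e1.symm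
      · exact hne.2.2 e2

theorem S3_mixed {U : Type} {T : Tri U} {v a b x y w w' : U} (H : Hyp T v a b)
    (h : T.F x y w ∧ (x = v → Arc T v b a y) ∧ (y = v → Arc T v b a w) ∧ (w = v → Arc T v b a x))
    (h' : IsRot v a b x y w') : False := by
  obtain ⟨h, h1, h2, h3⟩ := h
  rcases h' with ⟨e1, e2, e3⟩ | ⟨e1, e2, e3⟩ | ⟨e1, e2, e3⟩
  · subst e1 e2
    exact not_arc_end H.hab.symm (h1 rfl)
  · subst e1 e2
    exact H.nab _ h
  · subst e1 e2
    exact arc_disj H.hab (pred_end H (T.rot _ _ _ h)) (h2 rfl)

theorem FF_uniq {U : Type} {T : Tri U} {v a b : U} (H : Hyp T v a b) :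
    ∀ p q r s, FF T v a b p q r → FF T v a b p q s → r = s := by
  intro p q r s h h'
  match p, q, r, h with
  | some x, some y, some w, h =>
    match s, h' with
    | some w', h' =>
      congr 1
      rcases h with h | h
      · rcases h' with h' | h'
        · exact T.uniq _ _ _ _ h.1 h'.1
        · exact absurd h' fun h' => S3_mixed H h h'
      · rcases h' with h' | h'
        · exact absurd h fun h => S3_mixed H h' h
        · rcases h with ⟨e1, e2, e3⟩ | ⟨e1, e2, e3⟩ | ⟨e1, e2, e3⟩ <;>
          rcases h' with ⟨f1, f2, f3⟩ | ⟨f1, f2, f3⟩ | ⟨f1, f2, f3⟩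
          · exact e3.trans f3.symm
          · exact absurd (e1.symm.trans f1) H.va
          · exact absurd (e1.symm.trans f1) H.symm.va
          · exact absurd (f1.symm.trans e1) H.va
          · exact e3.trans f3.symm
          · exact absurd (e1.symm.trans f1) H.hab
          · exact absurd (f1.symm.trans e1) H.symm.va
          · exact absurd (f1.symm.trans e1) H.hab
          · exact e3.trans f3.symm
    | none, h' => exact absurd h' fun h' => S23 H h h'
  | some x, some y, none, h =>
    match s, h' with
    | some w', h' => exact absurd h fun h => S23 H h' h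
    | none, h' => rfl
  | none, some x, some y, h =>
    match s, h' with
    | some y', h' =>
      congr 1
      rcases h with ⟨h, hP⟩ | ⟨e1, e2⟩
      · rcases h' with ⟨h', hP'⟩ | ⟨f1, f2⟩
        · exact T.uniq _ _ _ _ h h'
        · subst f1
          exact absurd hP (not_arc_end H.hab)
      · rcases h' with ⟨h', hP'⟩ | ⟨f1, f2⟩
        · subst e1
          exact absurd hP' (not_arc_end H.hab)
        · exact e2.trans f2.symm
  | some x, none, some y, h =>
    match s, h' with
    | some y', h' =>
      congr 1
      rcases h with ⟨hF, hP⟩ | ⟨e1, e2⟩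
      · rcases h' with ⟨hF', hP'⟩ | ⟨f1, f2⟩
        · exact uniq_pred T hF hF'
        · rw [f2] at hF
          exact absurd (pred_end H.symm hF) (arc_disj H.hab hP)
      · rcases h' with ⟨hF', hP'⟩ | ⟨f1, f2⟩
        · rw [e2] at hF'
          exact absurd (pred_end H.symm hF') (arc_disj H.hab hP')
        · exact e1.trans f1.symm

theorem key_edge {U : Type} {T : Tri U} {v a b : U} (H : Hyp T v a b) {x y w : U} (hx : x ≠ v)
    (hy : y ≠ v) (h : T.F x y w) : ∃ r, FF T v a b (some x) (some y) r := by
  by_cases hw : w = v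
  · subst hw
    rcases arc_cover H ⟨y, rot2 T h⟩ with hP | hQ
    · exact ⟨none, Or.inl ⟨rot2 T h, hP⟩⟩
    · exact ⟨some w, Or.inl ⟨h, fun e => absurd e hx, fun e => absurd e hy, fun _ => hQ⟩⟩
  · exact ⟨some w, Or.inl ⟨h, fun e => absurd e hx, fun e => absurd e hy, fun e => absurd e hw⟩⟩

theorem pred_exists {U : Type} (T : Tri U) {v x y : U} (h : T.F v x y) : ∃ w, T.F v w x := by
  obtain ⟨d, hd⟩ := T.opp _ _ _ h
  exact ⟨d, T.rot _ _ _ hd⟩

theorem succ_exists {U : Type} (T : Tri U) {v x y : U} (h : T.F v x y) : ∃ w, T.F v y w := by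
  obtain ⟨d, hd⟩ := T.opp _ _ _ (rot2 T h)
  exact ⟨d, hd⟩

theorem FF_opp {U : Type} {T : Tri U} {v a b : U} (H : Hyp T v a b) :
    ∀ p q r, FF T v a b p q r → ∃ d, FF T v a b q p d := by
  intro p q r h
  match p, q, r, h with
  | some x, some y, some w, h =>
    rcases h with ⟨hF, h1, h2, h3⟩ | h
    · obtain ⟨n1, n2, n3⟩ := ne3 T hF
      by_cases hx : x = v
      · subst hx
        have hQ := h1 rfl
        obtain ⟨d0, hd0⟩ := pred_exists T hF
        by_cases hyb : y = b
        · subst hyb
          exact ⟨some a, Or.inr (Or.inr (Or.inr ⟨rfl, rfl, rfl⟩))⟩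
        · have hq := arc_pred hQ hyb hd0
          refine ⟨some d0, Or.inl ⟨rot2 T hd0, fun e => absurd e n1.symm, fun _ => hq, fun e => ?_⟩⟩
          exact absurd e.symm (ne3 T hd0).1
      · by_cases hy : y = v
        · subst hy
          have hQ := h2 rfl
          have hwx : T.F y w x := T.rot _ _ _ hF
          obtain ⟨d0, hd0⟩ := succ_exists T hwx
          by_cases hxa : x = a
          · subst hxa
            exact ⟨some b, Or.inr (Or.inl ⟨rfl, rfl, rfl⟩)⟩
          · have hq : Arc T y b a x := hQ.tail ⟨hwx, hxa⟩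
            refine ⟨some d0, Or.inl ⟨hd0, fun _ => hq, fun e => absurd e hx, fun e => ?_⟩⟩
            exact absurd e (ne3 T hd0).2.2
        · obtain ⟨d0, hd0⟩ := T.opp _ _ _ hF
          exact key_edge H hy hx hd0
    · rcases h with ⟨rfl, rfl, rfl⟩ | ⟨rfl, rfl, rfl⟩ | ⟨rfl, rfl, rfl⟩
      · obtain ⟨l, hl⟩ := H.ha
        obtain ⟨d0, hd0⟩ := pred_exists T hl
        refine ⟨some d0, Or.inl ⟨rot2 T hd0, fun e => absurd e H.va.symm,
          fun _ => pred_end H.symm hd0, fun e => ?_⟩⟩
        exact absurd e.symm (ne3 T hd0).1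
      · exact ⟨none, Or.inr ⟨rfl, rfl⟩⟩
      · obtain ⟨l, hl⟩ := H.hb
        refine ⟨some l, Or.inl ⟨hl, fun _ => arc_self _ _ _ _, fun e => absurd e H.symm.va.symm,
          fun e => ?_⟩⟩
        exact absurd e (ne3 T hl).2.2
  | none, some x, some y, h =>
    rcases h with ⟨h, hP⟩ | ⟨rfl, rfl⟩
    · by_cases hxa : x = a
      · subst hxa
        exact ⟨some b, Or.inr ⟨rfl, rfl⟩⟩
      · obtain ⟨d, hd⟩ := pred_exists T h
        exact ⟨some d, Or.inl ⟨hd, arc_pred hP hxa hd⟩⟩
    · obtain ⟨l, hl⟩ := H.hb
      obtain ⟨d, hd⟩ := pred_exists T hl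
      exact ⟨some d, Or.inl ⟨hd, pred_end H hd⟩⟩
  | some x, none, some y, h =>
    rcases h with ⟨h, hP⟩ | ⟨rfl, rfl⟩
    · by_cases hxb : x = b
      · subst hxb
        exact ⟨some a, Or.inr ⟨rfl, rfl⟩⟩
      · obtain ⟨d, hd⟩ := succ_exists T h
        exact ⟨some d, Or.inl ⟨hd, hP.tail ⟨h, hxb⟩⟩⟩
    · obtain ⟨l, hl⟩ := H.ha
      exact ⟨some l, Or.inl ⟨hl, arc_self _ _ _ _⟩⟩
  | some x, some y, none, h =>
    have hne := S2_ne H h
    rcases h with ⟨h, hP⟩ | ⟨rfl, rfl⟩
    · obtain ⟨d0, hd0⟩ := T.opp _ _ _ (T.rot _ _ _ h)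
      exact key_edge H hne.2.2 hne.2.1 hd0
    · exact ⟨some v, Or.inr (Or.inr (Or.inl ⟨rfl, rfl, rfl⟩))⟩

theorem arc_hub {U : Type} {T : Tri U} {v a b : U} (H : Hyp T v a b) (M : Option U → Option U → Prop)
    (h1 : ∀ y w, Arc T v a b y → T.F v y w → M (some y) (some w)) (h2 : M (some b) (some a))
    (y y' : U) (hy : (Arc T v a b y ∧ ∃ w, T.F v y w) ∨ y = b) (hy' : Arc T v a b y' ∨ y' = b) :
    Relation.ReflTransGen M (some y) (some y') := by
  have toB : ∀ y, (∃ w, T.F v y w) → Arc T v a b y → Relation.ReflTransGen M (some y) (some b) := by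
    intro y hw hy
    obtain ⟨w, hw⟩ := hw
    obtain ⟨l, hl⟩ := H.hb
    have hp := T.link v y w b l hw hl
    have key : ∀ z, Relation.ReflTransGen (fun x y => T.F v x y) y z →
        (Relation.ReflTransGen M (some y) (some z) ∧ Arc T v a b z) ∨
          Relation.ReflTransGen M (some y) (some b) := by
      intro z hz
      induction hz with
      | refl => exact Or.inl ⟨Relation.ReflTransGen.refl, hy⟩
      | @tail c d _ hcd ih =>
        rcases ih with ⟨ih1, ih2⟩ | ih
        · have hs := h1 c d ih2 hcd
          by_cases hd : d = b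
          · subst hd
            exact Or.inr (ih1.tail hs)
          · exact Or.inl ⟨ih1.tail hs, ih2.tail ⟨hcd, hd⟩⟩
        · exact Or.inr ih
    rcases key b hp with ⟨-, h⟩ | h
    · exact absurd h (not_arc_end H.hab)
    · exact h
  have fromA : ∀ y', Arc T v a b y' → Relation.ReflTransGen M (some a) (some y') := by
    intro y' hy'
    have key : Relation.ReflTransGen M (some a) (some y') ∧ Arc T v a b y' := by
      induction hy' with
      | refl => exact ⟨Relation.ReflTransGen.refl, arc_self _ _ _ _⟩
      | @tail c d hc hcd ih => exact ⟨ih.1.tail (h1 c d ih.2 hcd.1), ih.2.tail hcd⟩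
    exact key.1
  have hyb : Relation.ReflTransGen M (some y) (some b) := by
    rcases hy with ⟨h, hw⟩ | rfl
    · exact toB y hw h
    · exact Relation.ReflTransGen.refl
  have hya : Relation.ReflTransGen M (some y) (some a) := hyb.tail h2
  rcases hy' with h | rfl
  · exact hya.trans (fromA y' h)
  · exact hyb

theorem FF_link {U : Type} {T : Tri U} {v a b : U} (H : Hyp T v a b) :
    ∀ p q r q' r', FF T v a b p q r → FF T v a b p q' r' →
      Relation.ReflTransGen (fun x y => FF T v a b p x y) q q' := by
  classical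
  intro p q r q' r' h h'
  obtain ⟨la, hla⟩ := H.ha
  obtain ⟨lb, hlb⟩ := H.hb
  obtain ⟨ma, hma⟩ := pred_exists T hla
  obtain ⟨mb, hmb⟩ := pred_exists T hlb
  match p, h, h' with
  | none, h, h' =>
    have dom : ∀ q r, FF T v a b none q r → ∃ y, q = some y ∧ ((Arc T v a b y ∧ ∃ w, T.F v y w) ∨ y = b) := by
      intro q r h
      match q, r, h with
      | some x, some y, h =>
        rcases h with ⟨h, hP⟩ | ⟨e1, e2⟩
        · exact ⟨x, rfl, Or.inl ⟨hP, _, h⟩⟩
        · exact ⟨x, rfl, Or.inr e1⟩
    obtain ⟨y, rfl, hy⟩ := dom _ _ h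
    obtain ⟨y', rfl, hy'⟩ := dom _ _ h'
    refine arc_hub H _ ?_ (Or.inr ⟨rfl, rfl⟩) y y' hy (hy'.imp (fun h => h.1) id)
    intro y w hP hw
    exact Or.inl ⟨hw, hP⟩
  | some x, h, h' =>
    by_cases hxv : x = v
    · subst hxv
      have dom : ∀ q r, FF T x a b (some x) q r →
          ∃ y, q = some y ∧ ((Arc T x b a y ∧ ∃ w, T.F x y w) ∨ y = a) := by
        intro q r h
        match q, r, h with
        | some y, some w, h =>
          rcases h with ⟨h, h1, -⟩ | h
          · exact ⟨y, rfl, Or.inl ⟨h1 rfl, _, h⟩⟩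
          · rcases h with ⟨e1, e2, e3⟩ | ⟨e1, e2, e3⟩ | ⟨e1, e2, e3⟩
            · exact ⟨y, rfl, Or.inr e2⟩
            · exact absurd e1 H.va
            · exact absurd e1 H.symm.va
        | none, some y, h => exact absurd rfl (S2_ne H h).2.2
        | some y, none, h => exact absurd rfl (S2_ne H h).2.1
      obtain ⟨y, rfl, hy⟩ := dom _ _ h
      obtain ⟨y', rfl, hy'⟩ := dom _ _ h'
      refine arc_hub H.symm _ ?_ ?_ y y' hy (hy'.imp (fun h => h.1) id)
      · intro y w hQ hw
        have n := ne3 T hw
        exact Or.inl ⟨hw, fun _ => hQ, fun e => absurd e n.1.symm, fun e => absurd e n.2.2⟩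
      · exact Or.inr (Or.inl ⟨rfl, rfl, rfl⟩)
    · by_cases hxa : x = a
      · subst hxa
        have lift : ∀ y w, T.F x y w →
            Relation.ReflTransGen (fun q r => FF T v x b (some x) q r) (some y) (some w) := by
          intro y w hw
          have n := ne3 T hw
          by_cases hwv : w = v
          · subst hwv
            refine Relation.ReflTransGen.head (b := none) ?_ (Relation.ReflTransGen.head (b := some b) ?_
              (Relation.ReflTransGen.single ?_))
            · exact Or.inl ⟨rot2 T hw, arc_self _ _ _ _⟩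
            · exact Or.inr ⟨rfl, rfl⟩
            · exact Or.inr (Or.inr (Or.inl ⟨rfl, rfl, rfl⟩))
          · refine Relation.ReflTransGen.single (Or.inl ⟨hw, fun e => absurd e hxv, fun e => ?_,
              fun e => absurd e hwv⟩)
            subst e
            exact pred_end H.symm (T.rot _ _ _ hw)
        have hav : T.F x v ma := rot2 T hma
        have hlav : T.F x la v := T.rot _ _ _ hla
        have s1 : FF T v x b (some x) none (some b) := Or.inr ⟨rfl, rfl⟩
        have s2 : FF T v x b (some x) (some b) (some v) := Or.inr (Or.inr (Or.inl ⟨rfl, rfl, rfl⟩))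
        have s0 : FF T v x b (some x) (some la) none := Or.inl ⟨hla, arc_self _ _ _ _⟩
        have liftR : ∀ y y', Relation.ReflTransGen (fun q r => T.F x q r) y y' →
            Relation.ReflTransGen (fun q r => FF T v x b (some x) q r) (some y) (some y') := by
          intro y y' hyy
          induction hyy with
          | refl => exact Relation.ReflTransGen.refl
          | tail _ h2 ih => exact ih.trans (lift _ _ h2)
        have dom : ∀ q r, FF T v x b (some x) q r →
            (∃ y w, q = some y ∧ T.F x y w) ∨ q = none ∨ q = some b := by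
          intro q r h
          match q, r, h with
          | some y, some w, h =>
            rcases h with ⟨h, -⟩ | h
            · exact Or.inl ⟨y, w, rfl, h⟩
            · rcases h with ⟨e1, e2, e3⟩ | ⟨e1, e2, e3⟩ | ⟨e1, e2, e3⟩
              · exact absurd e1 hxv
              · exact Or.inr (Or.inr (by rw [e2]))
              · exact absurd e1 H.hab
          | none, some y, h => exact Or.inr (Or.inl rfl)
          | some y, none, h =>
            rcases h with ⟨h, hP⟩ | ⟨e1, e2⟩
            · exact Or.inl ⟨y, v, rfl, T.rot _ _ _ h⟩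
            · exact absurd e1 H.hab
        have toV : ∀ q r, FF T v x b (some x) q r →
            Relation.ReflTransGen (fun q r => FF T v x b (some x) q r) q (some v) := by
          intro q r h
          rcases dom q r h with ⟨y, w, rfl, hw⟩ | rfl | rfl
          · exact liftR _ _ (T.link x y w v ma hw hav)
          · exact Relation.ReflTransGen.head s1 (Relation.ReflTransGen.single s2)
          · exact Relation.ReflTransGen.single s2
        have fromV : ∀ q r, FF T v x b (some x) q r →
            Relation.ReflTransGen (fun q r => FF T v x b (some x) q r) (some v) q := by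
          intro q r h
          have hn : Relation.ReflTransGen (fun q r => FF T v x b (some x) q r) (some v) none :=
            (liftR _ _ (T.link x v ma la v hav hlav)).tail s0
          rcases dom q r h with ⟨y, w, rfl, hw⟩ | rfl | rfl
          · exact liftR _ _ (T.link x v ma y w hav hw)
          · exact hn
          · exact hn.tail s1
        exact (toV _ _ h).trans (fromV _ _ h')
      · by_cases hxb : x = b
        · subst hxb
          have s1 : FF T v a x (some x) (some v) (some a) := Or.inr (Or.inr (Or.inr ⟨rfl, rfl, rfl⟩))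
          have s2 : FF T v a x (some x) (some a) none := Or.inr ⟨rfl, rfl⟩
          have lift : ∀ y w, T.F x y w →
              Relation.ReflTransGen (fun q r => FF T v a x (some x) q r) (some y) (some w) := by
            intro y w hw
            have n := ne3 T hw
            by_cases hyv : y = v
            · subst hyv
              refine Relation.ReflTransGen.head s1 (Relation.ReflTransGen.head s2
                (Relation.ReflTransGen.single ?_))
              exact Or.inl ⟨T.rot _ _ _ hw, pred_end H (T.rot _ _ _ hw)⟩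
            · refine Relation.ReflTransGen.single (Or.inl ⟨hw, fun e => absurd e hxv,
                fun e => absurd e hyv, fun e => ?_⟩)
              exact arc_self _ _ _ _
          have hav : T.F x v mb := rot2 T hmb
          have s0 : FF T v a x (some x) none (some mb) := Or.inl ⟨hmb, pred_end H hmb⟩
          have liftR : ∀ y y', Relation.ReflTransGen (fun q r => T.F x q r) y y' →
              Relation.ReflTransGen (fun q r => FF T v a x (some x) q r) (some y) (some y') := by
            intro y y' hyy
            induction hyy with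
            | refl => exact Relation.ReflTransGen.refl
            | tail _ h2 ih => exact ih.trans (lift _ _ h2)
          have dom : ∀ q r, FF T v a x (some x) q r →
              (∃ y w, q = some y ∧ T.F x y w) ∨ q = none ∨ q = some a := by
            intro q r h
            match q, r, h with
            | some y, some w, h =>
              rcases h with ⟨h, -⟩ | h
              · exact Or.inl ⟨y, w, rfl, h⟩
              · rcases h with ⟨e1, e2, e3⟩ | ⟨e1, e2, e3⟩ | ⟨e1, e2, e3⟩
                · exact absurd e1 hxv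
                · exact absurd e1 hxa
                · exact Or.inl ⟨y, mb, rfl, by rw [e2]; exact hav⟩
            | none, some y, h => exact Or.inr (Or.inl rfl)
            | some y, none, h =>
              rcases h with ⟨h, hP⟩ | ⟨e1, e2⟩
              · exact Or.inl ⟨y, v, rfl, T.rot _ _ _ h⟩
              · exact Or.inr (Or.inr (by rw [e2]))
          obtain ⟨nb, hnb⟩ := succ_exists T hav
          have toV0 : Relation.ReflTransGen (fun q r => FF T v a x (some x) q r) (some mb) (some v) :=
            liftR _ _ (T.link x mb nb v mb hnb hav)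
          have toV : ∀ q r, FF T v a x (some x) q r →
              Relation.ReflTransGen (fun q r => FF T v a x (some x) q r) q (some v) := by
            intro q r h
            rcases dom q r h with ⟨y, w, rfl, hw⟩ | rfl | rfl
            · exact liftR _ _ (T.link x y w v mb hw hav)
            · exact Relation.ReflTransGen.head s0 toV0
            · exact Relation.ReflTransGen.head s2 (Relation.ReflTransGen.head s0 toV0)
          have fromV : ∀ q r, FF T v a x (some x) q r →
              Relation.ReflTransGen (fun q r => FF T v a x (some x) q r) (some v) q := by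
            intro q r h
            rcases dom q r h with ⟨y, w, rfl, hw⟩ | rfl | rfl
            · exact liftR _ _ (T.link x v mb y w hav hw)
            · exact Relation.ReflTransGen.head s1 (Relation.ReflTransGen.single s2)
            · exact Relation.ReflTransGen.single s1
          exact (toV _ _ h).trans (fromV _ _ h')
        · -- generic vertex
          let g : U → Option U := fun y => if y = v then (if Arc T v a b x then none else some v) else some y
          have lift : ∀ y w, T.F x y w → FF T v a b (some x) (g y) (g w) := by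
            intro y w hw
            have n := ne3 T hw
            by_cases hyv : y = v
            · subst hyv
              have hwv : w ≠ y := n.2.1.symm
              have hwx : T.F y w x := T.rot _ _ _ hw
              by_cases hP : Arc T y a b x
              · have hPw := arc_pred hP hxa hwx
                simp only [g, if_true, if_pos hP, if_neg hwv]
                exact Or.inl ⟨hwx, hPw⟩
              · have hQ : Arc T y b a x := by
                  rcases arc_cover H (succ_exists T hwx) with h | h
                  · exact absurd h hP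
                  · exact h
                have hQw := arc_pred hQ hxb hwx
                simp only [g, if_true, if_neg hP, if_neg hwv]
                exact Or.inl ⟨hw, fun e => absurd e hxv, fun _ => hQw, fun e => absurd e hwv⟩
            · by_cases hwv : w = v
              · subst hwv
                have hxy : T.F w x y := rot2 T hw
                by_cases hP : Arc T w a b x
                · simp only [g, if_true, if_pos hP, if_neg hyv]
                  exact Or.inl ⟨hxy, hP⟩
                · have hQ : Arc T w b a x := by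
                    rcases arc_cover H ⟨_, hxy⟩ with h | h
                    · exact absurd h hP
                    · exact h
                  simp only [g, if_true, if_neg hP, if_neg hyv]
                  exact Or.inl ⟨hw, fun e => absurd e hxv, fun e => absurd e hyv, fun _ => hQ⟩
              · simp only [g, if_neg hyv, if_neg hwv]
                exact Or.inl ⟨hw, fun e => absurd e hxv, fun e => absurd e hyv, fun e => absurd e hwv⟩
          have dom : ∀ q r, FF T v a b (some x) q r → ∃ y w, T.F x y w ∧ q = g y := by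
            intro q r h
            match q, r, h with
            | some y, some w, h =>
              rcases h with ⟨hF, h1, h2, h3⟩ | h
              · refine ⟨y, w, hF, ?_⟩
                by_cases hyv : y = v
                · subst hyv
                  have hQ := (h2 rfl).tail ⟨T.rot _ _ _ hF, hxa⟩
                  have hP : ¬ Arc T y a b x := fun hP => arc_disj H.hab hP hQ
                  simp only [g, if_true, if_neg hP]
                · simp only [g, if_neg hyv]
              · rcases h with ⟨e1, e2, e3⟩ | ⟨e1, e2, e3⟩ | ⟨e1, e2, e3⟩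
                · exact absurd e1 hxv
                · exact absurd e1 hxa
                · exact absurd e1 hxb
            | none, some w, h =>
              rcases h with ⟨h, hP⟩ | ⟨e1, e2⟩
              · refine ⟨v, w, rot2 T h, ?_⟩
                have hPx : Arc T v a b x := hP.tail ⟨h, hxb⟩
                simp only [g, if_true, if_pos hPx]
              · exact absurd e2 hxa
            | some y, none, h =>
              have hne := S2_ne H h
              rcases h with ⟨h, hP⟩ | ⟨e1, e2⟩
              · refine ⟨y, v, T.rot _ _ _ h, ?_⟩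
                simp only [g, if_neg hne.2.2]
              · exact absurd e1 hxb
          obtain ⟨y, w, hyw, rfl⟩ := dom _ _ h
          obtain ⟨y', w', hyw', rfl⟩ := dom _ _ h'
          have key : ∀ z, Relation.ReflTransGen (fun q r => T.F x q r) y z →
              Relation.ReflTransGen (fun q r => FF T v a b (some x) q r) (g y) (g z) := by
            intro z hz
            induction hz with
            | refl => exact Relation.ReflTransGen.refl
            | tail _ h2 ih => exact ih.tail (lift _ _ h2)
          exact key _ (T.link x y w y' w' hyw hyw')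

theorem FF_conn {U : Type} {T : Tri U} {v a b : U} (H : Hyp T v a b) :
    ∀ p q, Relation.ReflTransGen (fun x y => ∃ z, FF T v a b x y z) p q := by
  obtain ⟨la, hla⟩ := H.ha
  have hsym : ∀ p q, Relation.ReflTransGen (fun x y => ∃ z, FF T v a b x y z) p q →
      Relation.ReflTransGen (fun x y => ∃ z, FF T v a b x y z) q p := by
    intro p q h
    induction h with
    | refl => exact Relation.ReflTransGen.refl
    | tail _ h2 ih =>
      obtain ⟨z, hz⟩ := h2
      exact Relation.ReflTransGen.head (FF_opp H _ _ _ hz) ih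
  have hva : Relation.ReflTransGen (fun x y => ∃ z, FF T v a b x y z) (some v) (some a) :=
    Relation.ReflTransGen.single ⟨some b, Or.inr (Or.inl ⟨rfl, rfl, rfl⟩)⟩
  have hna : Relation.ReflTransGen (fun x y => ∃ z, FF T v a b x y z) none (some a) :=
    Relation.ReflTransGen.single ⟨some la, Or.inl ⟨hla, arc_self _ _ _ _⟩⟩
  have hvy : ∀ y w, T.F v y w →
      Relation.ReflTransGen (fun x y => ∃ z, FF T v a b x y z) (some v) (some y) := by
    intro y w h
    have n := ne3 T h
    rcases arc_cover H ⟨w, h⟩ with hP | hQ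
    · exact (hva.trans (hsym _ _ hna)).tail ⟨some w, Or.inl ⟨h, hP⟩⟩
    · exact Relation.ReflTransGen.single ⟨some w, Or.inl ⟨h, fun _ => hQ, fun e => absurd e n.1.symm,
        fun e => absurd e n.2.2⟩⟩
  have hall : ∀ x y, (∃ z, T.F x y z) →
      Relation.ReflTransGen (fun x y => ∃ z, FF T v a b x y z) (some x) (some y) := by
    rintro x y ⟨z, h⟩
    by_cases hx : x = v
    · subst hx
      exact hvy y z h
    · by_cases hy : y = v
      · subst hy
        obtain ⟨d, hd⟩ := T.opp _ _ _ h
        exact hsym _ _ (hvy x d hd)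
      · exact Relation.ReflTransGen.single (key_edge H hx hy h)
  have hsome : ∀ x y, Relation.ReflTransGen (fun x y => ∃ z, FF T v a b x y z) (some x) (some y) := by
    intro x y
    have := T.conn x y
    induction this with
    | refl => exact Relation.ReflTransGen.refl
    | tail _ h2 ih => exact ih.trans (hall _ _ h2)
  intro p q
  match p, q with
  | some x, some y => exact hsome x y
  | none, some y => exact hna.trans (hsome a y)
  | some x, none => exact (hsome x a).trans (hsym _ _ hna)
  | none, none => exact Relation.ReflTransGen.refl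

open Classical in
/-- relabelling of the old faces -/
noncomputable def rel {U : Type} (T : Tri U) (v a b : U) (t : U × U × U) :
    Option U × Option U × Option U :=
  if t.1 = v ∧ Arc T v a b t.2.1 then (none, some t.2.1, some t.2.2)
  else if t.2.1 = v ∧ Arc T v a b t.2.2 then (some t.1, none, some t.2.2)
  else if t.2.2 = v ∧ Arc T v a b t.1 then (some t.1, some t.2.1, none)
  else (some t.1, some t.2.1, some t.2.2)

theorem rel_cases {U : Type} (T : Tri U) (v a b : U) (t : U × U × U) :
    (t.1 = v ∧ Arc T v a b t.2.1 ∧ rel T v a b t = (none, some t.2.1, some t.2.2)) ∨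
    (t.2.1 = v ∧ Arc T v a b t.2.2 ∧ rel T v a b t = (some t.1, none, some t.2.2)) ∨
    (t.2.2 = v ∧ Arc T v a b t.1 ∧ rel T v a b t = (some t.1, some t.2.1, none)) ∨
    (¬ (t.1 = v ∧ Arc T v a b t.2.1) ∧ ¬ (t.2.1 = v ∧ Arc T v a b t.2.2) ∧
      ¬ (t.2.2 = v ∧ Arc T v a b t.1) ∧ rel T v a b t = (some t.1, some t.2.1, some t.2.2)) := by
  unfold rel
  split_ifs with h1 h2 h3
  · exact Or.inl ⟨h1.1, h1.2, rfl⟩
  · exact Or.inr (Or.inl ⟨h2.1, h2.2, rfl⟩)
  · exact Or.inr (Or.inr (Or.inl ⟨h3.1, h3.2, rfl⟩))
  · exact Or.inr (Or.inr (Or.inr ⟨h1, h2, h3, rfl⟩))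

theorem rel_inj {U : Type} (T : Tri U) (v a b : U) : Function.Injective (rel T v a b) := by
  rintro ⟨x, y, w⟩ ⟨x', y', w'⟩ h
  rcases rel_cases T v a b (x, y, w) with ⟨e, -, h1⟩ | ⟨e, -, h1⟩ | ⟨e, -, h1⟩ | ⟨e, -, -, h1⟩ <;>
  rcases rel_cases T v a b (x', y', w') with ⟨e', -, h2⟩ | ⟨e', -, h2⟩ | ⟨e', -, h2⟩ | ⟨e', -, -, h2⟩ <;>
  rw [h1, h2] at h <;> simp only [Prod.mk.injEq, Option.some.injEq, reduceCtorEq, false_and,
    and_false, true_and, and_true] at h e e' ⊢
  · exact ⟨e.trans e'.symm, h⟩
  · exact ⟨h.1, e.trans e'.symm, h.2⟩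
  · exact ⟨h.1, h.2, e.trans e'.symm⟩
  · exact h

/-- the six additional faces -/
def six {U : Type} (v a b : U) : Set (Option U × Option U × Option U) :=
  {(some v, some a, some b), (some a, some b, some v), (some b, some v, some a),
    (none, some b, some a), (some b, some a, none), (some a, none, some b)}

theorem six_card {U : Type} {v a b : U} (h1 : v ≠ a) (h2 : v ≠ b) (h3 : a ≠ b) :
    (six v a b).ncard = 6 := by
  classical
  have : six v a b = (({(some v, some a, some b), (some a, some b, some v), (some b, some v, some a),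
    (none, some b, some a), (some b, some a, none), (some a, none, some b)} :
      Finset (Option U × Option U × Option U)) : Set _) := by
    simp [six]
  rw [this, Set.ncard_coe_finset]
  repeat rw [Finset.card_insert_of_notMem]
  · simp
  all_goals simp [h1, h2, h3, h1.symm, h2.symm, h3.symm]

theorem FF_set {U : Type} {T : Tri U} {v a b : U} (H : Hyp T v a b) :
    {t : Option U × Option U × Option U | FF T v a b t.1 t.2.1 t.2.2} =
      rel T v a b '' {t | T.F t.1 t.2.1 t.2.2} ∪ six v a b := by
  ext ⟨p, q, r⟩
  constructor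
  · intro h
    match p, q, r, h with
    | some x, some y, some w, h =>
      rcases h with ⟨h, h1, h2, h3⟩ | h
      · refine Or.inl ⟨(x, y, w), h, ?_⟩
        rcases rel_cases T v a b (x, y, w) with ⟨e, hP, -⟩ | ⟨e, hP, -⟩ | ⟨e, hP, -⟩ | ⟨-, -, -, h4⟩
        · exact absurd (h1 e) (arc_disj H.hab hP)
        · exact absurd (h2 e) (arc_disj H.hab hP)
        · exact absurd (h3 e) (arc_disj H.hab hP)
        · exact h4
      · right
        rcases h with ⟨rfl, rfl, rfl⟩ | ⟨rfl, rfl, rfl⟩ | ⟨rfl, rfl, rfl⟩ <;> simp [six]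
    | none, some x, some y, h =>
      rcases h with ⟨h, hP⟩ | ⟨rfl, rfl⟩
      · refine Or.inl ⟨(v, x, y), h, ?_⟩
        simp [rel, hP]
      · right; simp [six]
    | some x, none, some y, h =>
      rcases h with ⟨h, hP⟩ | ⟨rfl, rfl⟩
      · refine Or.inl ⟨(x, v, y), rot2 T h, ?_⟩
        have hx : x ≠ v := (ne3 T h).2.2
        simp [rel, hP, hx]
      · right; simp [six]
    | some x, some y, none, h =>
      have hne := S2_ne H h
      rcases h with ⟨h, hP⟩ | ⟨rfl, rfl⟩
      · refine Or.inl ⟨(x, y, v), T.rot _ _ _ h, ?_⟩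
        simp [rel, hP, hne.2.1, hne.2.2]
      · right; simp [six]
  · rintro (⟨⟨x, y, w⟩, h, he⟩ | h)
    · change T.F x y w at h
      have n := ne3 T h
      rcases rel_cases T v a b (x, y, w) with ⟨e, hP, h4⟩ | ⟨e, hP, h4⟩ | ⟨e, hP, h4⟩ | ⟨c1, c2, c3, h4⟩
      · rw [← he, h4]
        change x = v at e
        subst e
        exact Or.inl ⟨h, hP⟩
      · rw [← he, h4]
        change y = v at e
        subst e
        exact Or.inl ⟨T.rot _ _ _ h, hP⟩
      · rw [← he, h4]
        change w = v at e
        subst e
        exact Or.inl ⟨rot2 T h, hP⟩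
      · rw [← he, h4]
        refine Or.inl ⟨h, fun e => ?_, fun e => ?_, fun e => ?_⟩
        · change x = v at e
          subst e
          rcases arc_cover H ⟨_, h⟩ with h' | h'
          · exact absurd ⟨rfl, h'⟩ c1
          · exact h'
        · change y = v at e
          subst e
          rcases arc_cover H ⟨_, T.rot _ _ _ h⟩ with h' | h'
          · exact absurd ⟨rfl, h'⟩ c2
          · exact h'
        · change w = v at e
          subst e
          rcases arc_cover H ⟨_, rot2 T h⟩ with h' | h'
          · exact absurd ⟨rfl, h'⟩ c3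
          · exact h'
    · simp only [six, Set.mem_insert_iff, Set.mem_singleton_iff, Prod.mk.injEq] at h
      rcases h with ⟨rfl, rfl, rfl⟩ | ⟨rfl, rfl, rfl⟩ | ⟨rfl, rfl, rfl⟩ | ⟨rfl, rfl, rfl⟩ |
        ⟨rfl, rfl, rfl⟩ | ⟨rfl, rfl, rfl⟩
      · exact Or.inr (Or.inl ⟨rfl, rfl, rfl⟩)
      · exact Or.inr (Or.inr (Or.inl ⟨rfl, rfl, rfl⟩))
      · exact Or.inr (Or.inr (Or.inr ⟨rfl, rfl, rfl⟩))
      · exact Or.inr ⟨rfl, rfl⟩
      · exact Or.inr ⟨rfl, rfl⟩
      · exact Or.inr ⟨rfl, rfl⟩

theorem FF_disj {U : Type} {T : Tri U} {v a b : U} (H : Hyp T v a b) :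
    Disjoint (rel T v a b '' {t | T.F t.1 t.2.1 t.2.2}) (six v a b) := by
  rw [Set.disjoint_left]
  rintro _ ⟨⟨x, y, w⟩, h, rfl⟩ h6
  change T.F x y w at h
  have hr := T.rot _ _ _ h
  have hr2 := rot2 T h
  rcases rel_cases T v a b (x, y, w) with ⟨e, -, h4⟩ | ⟨e, -, h4⟩ | ⟨e, -, h4⟩ | ⟨e, -, -, h4⟩ <;>
  · rw [h4] at h6
    simp only [six, Set.mem_insert_iff, Set.mem_singleton_iff, Prod.mk.injEq, Option.some.injEq,
      reduceCtorEq, false_and, and_false, true_and, and_true, or_false, false_or] at h6 e
    first
    | (obtain ⟨e1, e2⟩ := h6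
       subst e1 e2
       first
       | exact H.nab _ h
       | exact H.nab _ hr
       | exact H.nab _ hr2
       | exact H.nba _ h
       | exact H.nba _ hr
       | exact H.nba _ hr2)
    | (rcases h6 with ⟨e1, e2, e3⟩ | ⟨e1, e2, e3⟩ | ⟨e1, e2, e3⟩ <;>
       · subst e1 e2 e3
         first
         | exact H.nab _ h
         | exact H.nab _ hr
         | exact H.nab _ hr2)

theorem FF_euler {U : Type} [Fintype U] [DecidableEq U] {T : Tri U} {v a b : U} (H : Hyp T v a b) :
    Nat.card {t : Option U × Option U × Option U // FF T v a b t.1 t.2.1 t.2.2} + 12 =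
      6 * Nat.card (Option U) := by
  have h1 : Nat.card {t : Option U × Option U × Option U // FF T v a b t.1 t.2.1 t.2.2} =
      {t : Option U × Option U × Option U | FF T v a b t.1 t.2.1 t.2.2}.ncard := rfl
  have h2 : Nat.card {t : U × U × U // T.F t.1 t.2.1 t.2.2} =
      {t : U × U × U | T.F t.1 t.2.1 t.2.2}.ncard := rfl
  have h3 := T.euler
  rw [h2] at h3
  rw [h1, FF_set H, Set.ncard_union_eq (FF_disj H) (Set.toFinite _) (Set.toFinite _),
    Set.ncard_image_of_injective _ (rel_inj T v a b), six_card H.va H.symm.va H.hab]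
  have h4 : Nat.card (Option U) = Nat.card U + 1 := by
    simp [Nat.card_eq_fintype_card]
  rw [h4]
  omega

end W_FD_CUT

open W_FD_CUT in
theorem FD_CUT {U : Type} [Fintype U] [DecidableEq U] (T : Tri U) (v a b : U) (ha : T.G.Adj v a) (hb : T.G.Adj v b)
    (hab : a ≠ b) (nab : ¬ T.G.Adj a b) : ∃ T' : Tri (Option U),
    (∀ x y, x ≠ v → y ≠ v → T.G.Adj x y → T'.G.Adj (some x) (some y)) ∧
    (∀ x y z, x ≠ v → y ≠ v → z ≠ v → T.F x y z → T'.F (some x) (some y) (some z)) ∧
    (∀ x y, T'.G.Adj (some x) (some y) → T.G.Adj x y ∨ (x = a ∧ y = b) ∨ (x = b ∧ y = a)) ∧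
    T'.F (some v) (some a) (some b) ∧
    (∀ x y, Relation.ReflTransGen (fun p q => T.F v p q ∧ q ≠ a) b x → x ≠ a → T.F v x y →
      T'.F (some v) (some x) (some y)) := by
  have H : Hyp T v a b := ⟨ha, hb, hab, fun c h => nab ⟨c, h⟩, fun c h => nab (T.opp _ _ _ h)⟩
  let T' : Tri (Option U) :=
    { F := FF T v a b
      rot := FF_rot
      ne := FF_ne H
      uniq := FF_uniq H
      opp := FF_opp H
      link := fun p q r q' r' h h' => FF_link H p q r q' r' h h'
      conn := FF_conn H
      euler := FF_euler H }
  refine ⟨T', ?_, ?_, ?_, ?_, ?_⟩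
  · rintro x y hx hy ⟨w, h⟩
    exact key_edge H hx hy h
  · intro x y z hx hy hz h
    exact Or.inl ⟨h, fun e => absurd e hx, fun e => absurd e hy, fun e => absurd e hz⟩
  · rintro x y ⟨r, h⟩
    match r, h with
    | some w, h =>
      rcases h with ⟨h, -⟩ | h
      · exact Or.inl ⟨w, h⟩
      · rcases h with ⟨rfl, rfl, rfl⟩ | ⟨rfl, rfl, rfl⟩ | ⟨rfl, rfl, rfl⟩
        · exact Or.inl ha
        · exact Or.inr (Or.inl ⟨rfl, rfl⟩)
        · exact Or.inl (SimpleGraph.Adj.symm hb)
    | none, h =>
      rcases h with ⟨h, -⟩ | h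
      · exact Or.inl ⟨v, T.rot _ _ _ h⟩
      · exact Or.inr (Or.inr h)
  · exact Or.inr (Or.inl ⟨rfl, rfl, rfl⟩)
  · intro x y hx hxa h
    have n := ne3 T h
    exact Or.inl ⟨h, fun _ => hx, fun e => absurd e n.1.symm, fun e => absurd e n.2.2⟩


end Pool.Agent.H891WLC
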