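import Pool.Agent.H891FSS.Defs

set_option autoImplicit false

namespace Pool.Agent.H891WLC

namespace W_FD_UNST

variable {U : Type} (T : Tri U) (v a b c : U)

theorem link3 (h1 : T.F v a b) (h2 : T.F v b c) (h3 : T.F v c a) (x y : U) (h : T.F v x y) :
    (x = a ∧ y = b) ∨ (x = b ∧ y = c) ∨ (x = c ∧ y = a) := by
  have key : ∀ x, Relation.ReflTransGen (fun x y => T.F v x y) a x → x = a ∨ x = b ∨ x = c := by
    intro x hx
    induction hx with
    | refl => exact Or.inl rfl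
    | tail _ hs ih =>
      rcases ih with ih | ih | ih
      · rw [ih] at hs
        exact Or.inr (Or.inl (T.uniq _ _ _ _ hs h1))
      · rw [ih] at hs
        exact Or.inr (Or.inr (T.uniq _ _ _ _ hs h2))
      · rw [ih] at hs
        exact Or.inl (T.uniq _ _ _ _ hs h3)
  rcases key x (T.link v a b x y h1 h) with hx | hx | hx
  · rw [hx] at h
    exact Or.inl ⟨hx, T.uniq _ _ _ _ h h1⟩
  · rw [hx] at h
    exact Or.inr (Or.inl ⟨hx, T.uniq _ _ _ _ h h2⟩)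
  · rw [hx] at h
    exact Or.inr (Or.inr ⟨hx, T.uniq _ _ _ _ h h3⟩)

theorem dist6 (h1 : T.F v a b) (h2 : T.F v b c) (h3 : T.F v c a) :
    a ≠ b ∧ b ≠ c ∧ c ≠ a ∧ a ≠ v ∧ b ≠ v ∧ c ≠ v :=
  ⟨T.ne _ _ _ (T.rot _ _ _ h1), T.ne _ _ _ (T.rot _ _ _ h2), T.ne _ _ _ (T.rot _ _ _ h3),
    (T.ne _ _ _ h1).symm, (T.ne _ _ _ h2).symm, (T.ne _ _ _ h3).symm⟩

theorem rotF (h1 : T.F v a b) (h2 : T.F v b c) (h3 : T.F v c a) (x y z : U)
    (h : IsRot a b c x y z) : T.F x y v := by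
  rcases h with ⟨hx, hy, _⟩ | ⟨hx, hy, _⟩ | ⟨hx, hy, _⟩
  · rw [hx, hy]
    exact T.rot _ _ _ h1
  · rw [hx, hy]
    exact T.rot _ _ _ h2
  · rw [hx, hy]
    exact T.rot _ _ _ h3

theorem Frot (h1 : T.F v a b) (h2 : T.F v b c) (h3 : T.F v c a) (x y : U) (h : T.F x y v) :
    ∃ z, z ≠ v ∧ IsRot a b c x y z := by
  obtain ⟨_, _, _, da, db, dc⟩ := dist6 T v a b c h1 h2 h3
  have h' := T.rot _ _ _ (T.rot _ _ _ h)
  rcases link3 T v a b c h1 h2 h3 x y h' with ⟨hx, hy⟩ | ⟨hx, hy⟩ | ⟨hx, hy⟩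
  · exact ⟨c, dc, Or.inl ⟨hx, hy, rfl⟩⟩
  · exact ⟨a, da, Or.inr (Or.inl ⟨hx, hy, rfl⟩)⟩
  · exact ⟨b, db, Or.inr (Or.inr ⟨hx, hy, rfl⟩)⟩

theorem adj_iff (h1 : T.F v a b) (h2 : T.F v b c) (h3 : T.F v c a) (x y : U) :
    (∃ z, z ≠ v ∧ (T.F x y z ∨ IsRot a b c x y z)) ↔ ∃ z, T.F x y z := by
  constructor
  · rintro ⟨z, _, h | h⟩
    · exact ⟨z, h⟩
    · exact ⟨v, rotF T v a b c h1 h2 h3 x y z h⟩
  · rintro ⟨z, h⟩
    by_cases hz : z = v
    · rw [hz] at h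
      obtain ⟨w, hw, hr⟩ := Frot T v a b c h1 h2 h3 x y h
      exact ⟨w, hw, Or.inr hr⟩
    · exact ⟨z, hz, Or.inl h⟩

theorem succ3 (h1 : T.F v a b) (h2 : T.F v b c) (h3 : T.F v c a) (u x w : U) (h : T.F u x v)
    (hw : T.F u v w) : IsRot a b c u x w := by
  obtain ⟨ab, bc, ca, _, _, _⟩ := dist6 T v a b c h1 h2 h3
  have h' := T.rot _ _ _ (T.rot _ _ _ h)
  have hw' := T.rot _ _ _ hw
  rcases link3 T v a b c h1 h2 h3 u x h' with ⟨hx, hy⟩ | ⟨hx, hy⟩ | ⟨hx, hy⟩ <;>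
    rcases link3 T v a b c h1 h2 h3 w u hw' with ⟨kx, ky⟩ | ⟨kx, ky⟩ | ⟨kx, ky⟩
  · exact absurd (hx.symm.trans ky) ab
  · exact absurd (hx.symm.trans ky) ca.symm
  · exact Or.inl ⟨hx, hy, kx⟩
  · exact Or.inr (Or.inl ⟨hx, hy, kx⟩)
  · exact absurd (hx.symm.trans ky) bc
  · exact absurd (hx.symm.trans ky) ab.symm
  · exact absurd (hx.symm.trans ky) bc.symm
  · exact Or.inr (Or.inr ⟨hx, hy, kx⟩)
  · exact absurd (hx.symm.trans ky) ca

theorem path_link (h1 : T.F v a b) (h2 : T.F v b c) (h3 : T.F v c a) (u x : {x : U // x ≠ v})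
    (z : U) (h : Relation.ReflTransGen (fun x y => T.F u.1 x y) x.1 z) :
    (∀ hz : z ≠ v, Relation.ReflTransGen (fun x y : {x : U // x ≠ v} =>
      T.F u.1 x.1 y.1 ∨ IsRot a b c u.1 x.1 y.1) x ⟨z, hz⟩) ∧
    (z = v → ∀ (w : U) (hw : w ≠ v), T.F u.1 v w →
      Relation.ReflTransGen (fun x y : {x : U // x ≠ v} =>
      T.F u.1 x.1 y.1 ∨ IsRot a b c u.1 x.1 y.1) x ⟨w, hw⟩) := by
  induction h with
  | refl => exact ⟨fun _ => Relation.ReflTransGen.refl, fun hz => absurd hz x.2⟩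
  | tail _ hs ih =>
    rename_i p q _
    constructor
    · intro hz'
      by_cases hz : p = v
      · rw [hz] at hs
        exact ih.2 hz q hz' hs
      · exact (ih.1 hz).tail (Or.inl hs)
    · intro hz' w hw hvw
      have hz : p ≠ v := by
        intro hp
        rw [hp, hz'] at hs
        exact T.ne _ _ _ (T.rot _ _ _ hs) rfl
      rw [hz'] at hs
      exact (ih.1 hz).tail (Or.inr (succ3 T v a b c h1 h2 h3 _ _ _ hs hvw))

theorem path_conn (h1 : T.F v a b) (h2 : T.F v b c) (h3 : T.F v c a) (hav : a ≠ v)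
    (x : {x : U // x ≠ v}) (z : U)
    (h : Relation.ReflTransGen (fun x y => ∃ w, T.F x y w) x.1 z) :
    (∀ hz : z ≠ v, Relation.ReflTransGen (fun x y : {x : U // x ≠ v} =>
      ∃ w : {x : U // x ≠ v}, T.F x.1 y.1 w.1 ∨ IsRot a b c x.1 y.1 w.1) x ⟨z, hz⟩) ∧
    (z = v → Relation.ReflTransGen (fun x y : {x : U // x ≠ v} =>
      ∃ w : {x : U // x ≠ v}, T.F x.1 y.1 w.1 ∨ IsRot a b c x.1 y.1 w.1) x ⟨a, hav⟩) := by
  obtain ⟨_, _, _, _, hbv, hcv⟩ := dist6 T v a b c h1 h2 h3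
  induction h with
  | refl => exact ⟨fun _ => Relation.ReflTransGen.refl, fun hz => absurd hz x.2⟩
  | tail _ hs ih =>
    rename_i p q _
    obtain ⟨w, hs⟩ := hs
    constructor
    · intro hz'
      by_cases hz : p = v
      · have hA := ih.2 hz
        rw [hz] at hs
        rcases link3 T v a b c h1 h2 h3 q w hs with ⟨hq, _⟩ | ⟨hq, _⟩ | ⟨hq, _⟩
        · subst hq
          exact hA
        · subst hq
          exact hA.tail ⟨⟨c, hcv⟩, Or.inr (Or.inl ⟨rfl, rfl, rfl⟩)⟩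
        · subst hq
          exact (hA.tail (b := ⟨a, hav⟩) (c := ⟨b, hbv⟩)
            ⟨⟨q, hcv⟩, Or.inr (Or.inl ⟨rfl, rfl, rfl⟩)⟩).tail
            ⟨⟨a, hav⟩, Or.inr (Or.inr (Or.inl ⟨rfl, rfl, rfl⟩))⟩
      · obtain ⟨w', hw', hF⟩ := (adj_iff T v a b c h1 h2 h3 p q).2 ⟨w, hs⟩
        exact (ih.1 hz).tail ⟨⟨w', hw'⟩, hF⟩
    · intro hz'
      have hz : p ≠ v := by
        intro hp
        rw [hp, hz'] at hs
        exact T.ne _ _ _ hs rfl
      rw [hz'] at hs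
      obtain ⟨d, hd⟩ := T.opp _ _ _ hs
      have hP := ih.1 hz
      rcases link3 T v a b c h1 h2 h3 p d hd with ⟨hq, _⟩ | ⟨hq, _⟩ | ⟨hq, _⟩
      · subst hq
        exact hP
      · subst hq
        exact (hP.tail (b := ⟨p, hz⟩) (c := ⟨c, hcv⟩)
          ⟨⟨a, hav⟩, Or.inr (Or.inr (Or.inl ⟨rfl, rfl, rfl⟩))⟩).tail
          ⟨⟨p, hz⟩, Or.inr (Or.inr (Or.inr ⟨rfl, rfl, rfl⟩))⟩
      · subst hq
        exact hP.tail ⟨⟨b, hbv⟩, Or.inr (Or.inr (Or.inr ⟨rfl, rfl, rfl⟩))⟩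

theorem card_faces [Fintype U] (h1 : T.F v a b) (h2 : T.F v b c) (h3 : T.F v c a) :
    Nat.card {t : {x : U // x ≠ v} × {x : U // x ≠ v} × {x : U // x ≠ v} //
      T.F t.1.1 t.2.1.1 t.2.2.1 ∨ IsRot a b c t.1.1 t.2.1.1 t.2.2.1} + 12 =
      6 * Nat.card {x : U // x ≠ v} := by
  classical
  obtain ⟨ab, bc, ca, av, bv, cv⟩ := dist6 T v a b c h1 h2 h3
  have he := T.euler
  set S : Finset (U × U × U) := Finset.univ.filter (fun t => T.F t.1 t.2.1 t.2.2) with hS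
  set S0 : Finset (U × U × U) := Finset.univ.filter
    (fun t => t.1 ≠ v ∧ t.2.1 ≠ v ∧ t.2.2 ≠ v ∧ T.F t.1 t.2.1 t.2.2) with hS0
  set S' : Finset (U × U × U) := Finset.univ.filter
    (fun t => t.1 ≠ v ∧ t.2.1 ≠ v ∧ t.2.2 ≠ v ∧
      (T.F t.1 t.2.1 t.2.2 ∨ IsRot a b c t.1 t.2.1 t.2.2)) with hS'
  have hcS : Nat.card {t : U × U × U // T.F t.1 t.2.1 t.2.2} = S.card := by
    rw [Nat.card_eq_fintype_card, Fintype.card_subtype]
  have hcS' : Nat.card {t : {x : U // x ≠ v} × {x : U // x ≠ v} × {x : U // x ≠ v} //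
      T.F t.1.1 t.2.1.1 t.2.2.1 ∨ IsRot a b c t.1.1 t.2.1.1 t.2.2.1} = S'.card := by
    have e : {t : {x : U // x ≠ v} × {x : U // x ≠ v} × {x : U // x ≠ v} //
        T.F t.1.1 t.2.1.1 t.2.2.1 ∨ IsRot a b c t.1.1 t.2.1.1 t.2.2.1} ≃
        {t : U × U × U // t ∈ S'} :=
      { toFun := fun t => ⟨(t.1.1.1, t.1.2.1.1, t.1.2.2.1), by
          rw [hS', Finset.mem_filter]
          exact ⟨Finset.mem_univ _, t.1.1.2, t.1.2.1.2, t.1.2.2.2, t.2⟩⟩
        invFun := fun t => ⟨(⟨t.1.1, (Finset.mem_filter.1 t.2).2.1⟩,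
          ⟨t.1.2.1, (Finset.mem_filter.1 t.2).2.2.1⟩,
          ⟨t.1.2.2, (Finset.mem_filter.1 t.2).2.2.2.1⟩), (Finset.mem_filter.1 t.2).2.2.2.2⟩
        left_inv := fun t => rfl
        right_inv := fun t => rfl }
    rw [Nat.card_congr e, Nat.card_eq_fintype_card, Fintype.card_coe]
  have hU : Nat.card {x : U // x ≠ v} + 1 = Nat.card U := by
    rw [Nat.card_eq_fintype_card, Nat.card_eq_fintype_card]
    have := Fintype.card_subtype_compl (fun x : U => x = v)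
    rw [Fintype.card_subtype_eq] at this
    have hpos : 0 < Fintype.card U := Fintype.card_pos_iff.2 ⟨v⟩
    have e2 : Fintype.card {x : U // x ≠ v} = Fintype.card {x : U // ¬ x = v} := rfl
    omega
  have k1 : S = S0 ∪ ({(v, a, b), (a, b, v), (b, v, a), (v, b, c), (b, c, v), (c, v, b),
      (v, c, a), (c, a, v), (a, v, c)} : Finset (U × U × U)) := by
    ext ⟨x, y, z⟩
    simp only [hS, hS0, Finset.mem_filter, Finset.mem_univ, true_and, Finset.mem_union,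
      Finset.mem_insert, Finset.mem_singleton, Prod.mk.injEq]
    constructor
    · intro h
      by_cases hx : x = v
      · rw [hx] at h
        rcases link3 T v a b c h1 h2 h3 y z h with ⟨hy, hz⟩ | ⟨hy, hz⟩ | ⟨hy, hz⟩ <;>
          simp [hx, hy, hz]
      · by_cases hy : y = v
        · rw [hy] at h
          rcases link3 T v a b c h1 h2 h3 z x (T.rot _ _ _ h) with
            ⟨hz, hx'⟩ | ⟨hz, hx'⟩ | ⟨hz, hx'⟩ <;> simp [hx', hy, hz]
        · by_cases hz : z = v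
          · rw [hz] at h
            rcases link3 T v a b c h1 h2 h3 x y (T.rot _ _ _ (T.rot _ _ _ h)) with
              ⟨hx', hy'⟩ | ⟨hx', hy'⟩ | ⟨hx', hy'⟩ <;> simp [hx', hy', hz]
          · exact Or.inl ⟨hx, hy, hz, h⟩
    · rintro (h | h | h | h | h | h | h | h | h | h)
      · exact h.2.2.2
      · rw [h.1, h.2.1, h.2.2]; exact h1
      · rw [h.1, h.2.1, h.2.2]; exact T.rot _ _ _ h1
      · rw [h.1, h.2.1, h.2.2]; exact T.rot _ _ _ (T.rot _ _ _ h1)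
      · rw [h.1, h.2.1, h.2.2]; exact h2
      · rw [h.1, h.2.1, h.2.2]; exact T.rot _ _ _ h2
      · rw [h.1, h.2.1, h.2.2]; exact T.rot _ _ _ (T.rot _ _ _ h2)
      · rw [h.1, h.2.1, h.2.2]; exact h3
      · rw [h.1, h.2.1, h.2.2]; exact T.rot _ _ _ h3
      · rw [h.1, h.2.1, h.2.2]; exact T.rot _ _ _ (T.rot _ _ _ h3)
  have k2 : S' = S0 ∪ ({(a, b, c), (b, c, a), (c, a, b)} : Finset (U × U × U)) := by
    ext ⟨x, y, z⟩
    simp only [hS', hS0, Finset.mem_filter, Finset.mem_univ, true_and, Finset.mem_union,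
      Finset.mem_insert, Finset.mem_singleton, Prod.mk.injEq]
    constructor
    · rintro ⟨hx, hy, hz, h | h⟩
      · exact Or.inl ⟨hx, hy, hz, h⟩
      · exact Or.inr h
    · rintro (h | h)
      · exact ⟨h.1, h.2.1, h.2.2.1, Or.inl h.2.2.2⟩
      · refine ⟨?_, ?_, ?_, Or.inr h⟩ <;>
          rcases h with ⟨hx, hy, hz⟩ | ⟨hx, hy, hz⟩ | ⟨hx, hy, hz⟩ <;>
            simp only [hx, hy, hz] <;> assumption
  have d1 : Disjoint S0 ({(v, a, b), (a, b, v), (b, v, a), (v, b, c), (b, c, v), (c, v, b),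
      (v, c, a), (c, a, v), (a, v, c)} : Finset (U × U × U)) := by
    rw [Finset.disjoint_left]
    rintro ⟨x, y, z⟩ h h'
    simp only [hS0, Finset.mem_filter, Finset.mem_univ, true_and] at h
    simp only [Finset.mem_insert, Finset.mem_singleton, Prod.mk.injEq] at h'
    obtain ⟨hx, hy, hz, _⟩ := h
    rcases h' with h | h | h | h | h | h | h | h | h
    · exact hx h.1
    · exact hz h.2.2
    · exact hy h.2.1
    · exact hx h.1
    · exact hz h.2.2
    · exact hy h.2.1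
    · exact hx h.1
    · exact hz h.2.2
    · exact hy h.2.1
  have d2 : Disjoint S0 ({(a, b, c), (b, c, a), (c, a, b)} : Finset (U × U × U)) := by
    rw [Finset.disjoint_left]
    rintro ⟨x, y, z⟩ h h'
    simp only [hS0, Finset.mem_filter, Finset.mem_univ, true_and] at h
    simp only [Finset.mem_insert, Finset.mem_singleton, Prod.mk.injEq] at h'
    obtain ⟨hx, hy, hz, hF⟩ := h
    exact hz (T.uniq _ _ _ _ hF (rotF T v a b c h1 h2 h3 x y z h'))
  have c1 : ({(v, a, b), (a, b, v), (b, v, a), (v, b, c), (b, c, v), (c, v, b),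
      (v, c, a), (c, a, v), (a, v, c)} : Finset (U × U × U)).card = 9 := by
    have := ab.symm
    have := bc.symm
    have := ca.symm
    have := av.symm
    have := bv.symm
    have := cv.symm
    rw [Finset.card_insert_of_notMem, Finset.card_insert_of_notMem, Finset.card_insert_of_notMem,
      Finset.card_insert_of_notMem, Finset.card_insert_of_notMem, Finset.card_insert_of_notMem,
      Finset.card_insert_of_notMem, Finset.card_insert_of_notMem, Finset.card_singleton] <;>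
      simp [*]
  have c2 : ({(a, b, c), (b, c, a), (c, a, b)} : Finset (U × U × U)).card = 3 := by
    have := ab.symm
    have := bc.symm
    have := ca.symm
    rw [Finset.card_insert_of_notMem, Finset.card_insert_of_notMem, Finset.card_singleton] <;>
      simp [*]
  rw [hcS, k1, Finset.card_union_of_disjoint d1, c1] at he
  rw [hcS', k2, Finset.card_union_of_disjoint d2, c2]
  omega

end W_FD_UNST

open W_FD_UNST in
theorem FD_UNST {U : Type} [Fintype U] [DecidableEq U] (T : Tri U) (hU : 5 ≤ Nat.card U) (v a b c : U)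
    (h1 : T.F v a b) (h2 : T.F v b c) (h3 : T.F v c a) : ∃ T' : Tri {x : U // x ≠ v},
    (∀ x y : {x : U // x ≠ v}, T'.G.Adj x y ↔ T.G.Adj x.1 y.1) ∧
    (∀ x y z : {x : U // x ≠ v}, T'.F x y z ↔ T.F x.1 y.1 z.1 ∨ IsRot a b c x.1 y.1 z.1) := by
  obtain ⟨ab, bc, ca, av, bv, cv⟩ := dist6 T v a b c h1 h2 h3
  have hadj : ∀ x y : {x : U // x ≠ v}, (∃ z : {x : U // x ≠ v},
      T.F x.1 y.1 z.1 ∨ IsRot a b c x.1 y.1 z.1) ↔ ∃ z, T.F x.1 y.1 z := by
    intro x y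
    rw [← adj_iff T v a b c h1 h2 h3 x.1 y.1]
    constructor
    · rintro ⟨z, hz⟩
      exact ⟨z.1, z.2, hz⟩
    · rintro ⟨z, hz, h⟩
      exact ⟨⟨z, hz⟩, h⟩
  refine ⟨{ F := fun x y z => T.F x.1 y.1 z.1 ∨ IsRot a b c x.1 y.1 z.1
            rot := ?_
            ne := ?_
            uniq := ?_
            opp := ?_
            link := ?_
            conn := ?_
            euler := ?_ }, hadj, fun x y z => Iff.rfl⟩
  · rintro x y z (h | h)
    · exact Or.inl (T.rot _ _ _ h)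
    · right
      rcases h with ⟨hx, hy, hz⟩ | ⟨hx, hy, hz⟩ | ⟨hx, hy, hz⟩
      · exact Or.inr (Or.inl ⟨hy, hz, hx⟩)
      · exact Or.inr (Or.inr ⟨hy, hz, hx⟩)
      · exact Or.inl ⟨hy, hz, hx⟩
  · intro x y z h hxy
    have hxy' : x.1 = y.1 := congrArg Subtype.val hxy
    rcases h with h | h
    · exact T.ne _ _ _ h hxy'
    · exact T.ne _ _ _ (rotF T v a b c h1 h2 h3 _ _ _ h) hxy'
  · rintro x y z w (h | h) (h' | h')
    · exact Subtype.ext (T.uniq _ _ _ _ h h')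
    · exact absurd (T.uniq _ _ _ _ h (rotF T v a b c h1 h2 h3 _ _ _ h')) z.2
    · exact absurd (T.uniq _ _ _ _ h' (rotF T v a b c h1 h2 h3 _ _ _ h)) w.2
    · apply Subtype.ext
      rcases h with ⟨hx, hy, hz⟩ | ⟨hx, hy, hz⟩ | ⟨hx, hy, hz⟩ <;>
        rcases h' with ⟨kx, ky, kz⟩ | ⟨kx, ky, kz⟩ | ⟨kx, ky, kz⟩
      · exact hz.trans kz.symm
      · exact absurd (hx.symm.trans kx) ab
      · exact absurd (hx.symm.trans kx) ca.symm
      · exact absurd (hx.symm.trans kx) ab.symm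
      · exact hz.trans kz.symm
      · exact absurd (hx.symm.trans kx) bc
      · exact absurd (hx.symm.trans kx) ca
      · exact absurd (hx.symm.trans kx) bc.symm
      · exact hz.trans kz.symm
  · intro x y z h
    obtain ⟨w, hw⟩ := (hadj x y).1 ⟨z, h⟩
    obtain ⟨d, hd⟩ := T.opp _ _ _ hw
    exact (hadj y x).2 ⟨d, hd⟩
  · intro u x y z w h h'
    obtain ⟨y', hy'⟩ := (hadj u x).1 ⟨y, h⟩
    obtain ⟨w', hw'⟩ := (hadj u z).1 ⟨w, h'⟩
    exact (path_link T v a b c h1 h2 h3 u x z.1 (T.link _ _ _ _ _ hy' hw')).1 z.2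
  · intro x y
    exact (path_conn T v a b c h1 h2 h3 av x y.1 (T.conn x.1 y.1)).1 y.2
  · exact card_faces T v a b c h1 h2 h3


end Pool.Agent.H891WLC
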