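import Pool.Agent.H891FSS.Defs
import Pool.Agent.H891WLC.tri_conn3

set_option autoImplicit false

namespace Pool.Agent.H891WLC

namespace W_FS_GNE

end W_FS_GNE

open W_FS_GNE in
theorem FS_GNE {V : Type} [Finite V] (T : Tri V) (hV : 4 ≤ Nat.card V) (x y g h : V)
    (h1 : T.F x y g) (h2 : T.F y x h) : g ≠ h := by
  intro hgh
  subst hgh
  have hxg : T.F x g y := T.rot _ _ _ h2
  have key0 : ∀ z, Relation.ReflTransGen (fun a b => T.F x a b) y z → z = y ∨ z = g := by
    intro z hr
    induction hr with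
    | refl => exact Or.inl rfl
    | tail _ hbc ih =>
      rcases ih with rfl | rfl
      · exact Or.inr (T.uniq _ _ _ _ hbc h1)
      · exact Or.inl (T.uniq _ _ _ _ hbc hxg)
  have key : ∀ z, T.G.Adj x z → z = y ∨ z = g := by
    rintro z ⟨c, hc⟩
    exact key0 z (T.link x y g z c h1 hc)
  have hxy : x ≠ y := T.ne _ _ _ h1
  have hxg' : x ≠ g := T.ne _ _ _ hxg
  obtain ⟨w, hw⟩ : ∃ w, w ∉ ({x, y, g} : Set V) := by
    by_contra hcon
    push Not at hcon
    have h3 : (Set.univ : Set V) ⊆ {x, y, g} := fun w _ => hcon w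
    have h4 := Set.ncard_le_ncard h3 (Set.toFinite _)
    rw [Set.ncard_univ] at h4
    have h5 : ({x, y, g} : Set V).ncard ≤ 3 := by
      refine (Set.ncard_insert_le _ _).trans ?_
      have := (Set.ncard_insert_le y {g})
      rw [Set.ncard_singleton] at this
      omega
    omega
  simp only [Set.mem_insert_iff, Set.mem_singleton_iff, not_or] at hw
  obtain ⟨hwx, hwy, hwg⟩ := hw
  have hc := (tri_conn3 T y g).2 x (by simp [hxy, hxg']) w (by simp [hwy, hwg])
  rcases Relation.ReflTransGen.cases_head hc with h6 | ⟨z, ⟨hz1, hz2⟩, _⟩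
  · exact hwx h6.symm
  · rcases key z hz1 with rfl | rfl
    · simp at hz2
    · simp at hz2


end Pool.Agent.H891WLC
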