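import Pool.Agent.H891FSS.Defs
import Pool.Agent.H891FSS.FS_GNE

set_option autoImplicit false

namespace Pool.Agent.H891WLC

namespace W_FS_SUBEDGE

/-- the link of the new vertex -/
def L {V : Type} (x y g h a b : V) : Prop :=
  (a = g ∧ b = x) ∨ (a = x ∧ b = h) ∨ (a = h ∧ b = y) ∨ (a = y ∧ b = g)

/-- the new faces -/
def NF {V : Type} (T : Tri V) (x y g h : V) : Option V → Option V → Option V → Prop
  | some a, some b, some c => T.F a b c ∧ ¬ IsRot x y g a b c ∧ ¬ IsRot y x h a b c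
  | none, some a, some b => L x y g h a b
  | some b, none, some a => L x y g h a b
  | some a, some b, none => L x y g h a b
  | none, none, _ => False
  | none, some _, none => False
  | some _, none, none => False

structure Cx {V : Type} (T : Tri V) (x y g h : V) : Prop where
  h1 : T.F x y g
  h2 : T.F y x h
  gh : g ≠ h
  xy : x ≠ y
  yg : y ≠ g
  gx : g ≠ x
  xh : x ≠ h
  hy : h ≠ y
  h3 : T.F y g x
  h4 : T.F g x y
  h5 : T.F x h y
  h6 : T.F h y x

theorem cx_mk {V : Type} [Finite V] (T : Tri V) (hV : 4 ≤ Nat.card V) (x y g h : V)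
    (h1 : T.F x y g) (h2 : T.F y x h) : Cx T x y g h := by
  have h3 := T.rot _ _ _ h1
  have h4 := T.rot _ _ _ h3
  have h5 := T.rot _ _ _ h2
  have h6 := T.rot _ _ _ h5
  exact ⟨h1, h2, FS_GNE T hV x y g h h1 h2, T.ne _ _ _ h1, T.ne _ _ _ h3, T.ne _ _ _ h4,
    T.ne _ _ _ h5, T.ne _ _ _ h6, h3, h4, h5, h6⟩

section

variable {V : Type} {T : Tri V} {x y g h : V}

theorem L_ne (c : Cx T x y g h) {a b : V} (hl : L x y g h a b) : a ≠ b := by
  have := c.gx; have := c.xh; have := c.hy; have := c.yg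
  unfold L at hl
  grind

theorem L_uniq (c : Cx T x y g h) {a b b' : V} (hl : L x y g h a b) (hl' : L x y g h a b') :
    b = b' := by
  have := c.gx; have := c.xh; have := c.hy; have := c.yg; have := c.xy; have := c.gh
  unfold L at hl hl'
  grind

theorem L_uniq' (c : Cx T x y g h) {a a' b : V} (hl : L x y g h a b) (hl' : L x y g h a' b) :
    a = a' := by
  have := c.gx; have := c.xh; have := c.hy; have := c.yg; have := c.xy; have := c.gh
  unfold L at hl hl'
  grind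

theorem L_succ {a b : V} (hl : L x y g h a b) : ∃ d, L x y g h b d := by
  unfold L at hl ⊢
  rcases hl with ⟨-, rfl⟩ | ⟨-, rfl⟩ | ⟨-, rfl⟩ | ⟨-, rfl⟩
  · exact ⟨h, Or.inr (Or.inl ⟨rfl, rfl⟩)⟩
  · exact ⟨y, Or.inr (Or.inr (Or.inl ⟨rfl, rfl⟩))⟩
  · exact ⟨g, Or.inr (Or.inr (Or.inr ⟨rfl, rfl⟩))⟩
  · exact ⟨x, Or.inl ⟨rfl, rfl⟩⟩

theorem L_pred {a b : V} (hl : L x y g h a b) : ∃ d, L x y g h d a := by
  unfold L at hl ⊢
  rcases hl with ⟨rfl, -⟩ | ⟨rfl, -⟩ | ⟨rfl, -⟩ | ⟨rfl, -⟩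
  · exact ⟨y, Or.inr (Or.inr (Or.inr ⟨rfl, rfl⟩))⟩
  · exact ⟨g, Or.inl ⟨rfl, rfl⟩⟩
  · exact ⟨x, Or.inr (Or.inl ⟨rfl, rfl⟩)⟩
  · exact ⟨h, Or.inr (Or.inr (Or.inl ⟨rfl, rfl⟩))⟩

/-- the third vertex of an old face over a link edge -/
theorem L_old (c : Cx T x y g h) {a b d : V} (hl : L x y g h a b) (hF : T.F a b d) :
    IsRot x y g a b d ∨ IsRot y x h a b d := by
  unfold IsRot
  rcases hl with ⟨rfl, rfl⟩ | ⟨rfl, rfl⟩ | ⟨rfl, rfl⟩ | ⟨rfl, rfl⟩
  · exact Or.inl (Or.inr (Or.inr ⟨rfl, rfl, T.uniq _ _ _ _ hF c.h4⟩))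
  · exact Or.inr (Or.inr (Or.inl ⟨rfl, rfl, T.uniq _ _ _ _ hF c.h5⟩))
  · exact Or.inr (Or.inr (Or.inr ⟨rfl, rfl, T.uniq _ _ _ _ hF c.h6⟩))
  · exact Or.inl (Or.inr (Or.inl ⟨rfl, rfl, T.uniq _ _ _ _ hF c.h3⟩))

theorem L_ex (c : Cx T x y g h) {a b : V} (hl : L x y g h a b) : ∃ d, T.F a b d := by
  rcases hl with ⟨rfl, rfl⟩ | ⟨rfl, rfl⟩ | ⟨rfl, rfl⟩ | ⟨rfl, rfl⟩
  · exact ⟨_, c.h4⟩
  · exact ⟨_, c.h5⟩
  · exact ⟨_, c.h6⟩
  · exact ⟨_, c.h3⟩

theorem rot_L {a b d : V} (hr : IsRot x y g a b d ∨ IsRot y x h a b d) :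
    L x y g h a b ∨ (a = x ∧ b = y) ∨ (a = y ∧ b = x) := by
  unfold IsRot at hr
  unfold L
  rcases hr with (⟨h1, h2, h3⟩ | ⟨h1, h2, h3⟩ | ⟨h1, h2, h3⟩) |
    (⟨h1, h2, h3⟩ | ⟨h1, h2, h3⟩ | ⟨h1, h2, h3⟩)
  · exact Or.inr (Or.inl ⟨h1, h2⟩)
  · exact Or.inl (Or.inr (Or.inr (Or.inr ⟨h1, h2⟩)))
  · exact Or.inl (Or.inl ⟨h1, h2⟩)
  · exact Or.inr (Or.inr ⟨h1, h2⟩)
  · exact Or.inl (Or.inr (Or.inl ⟨h1, h2⟩))
  · exact Or.inl (Or.inr (Or.inr (Or.inl ⟨h1, h2⟩)))

theorem xy_old (c : Cx T x y g h) {a b d : V} (he : (a = x ∧ b = y) ∨ (a = y ∧ b = x))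
    (hF : T.F a b d) : IsRot x y g a b d ∨ IsRot y x h a b d := by
  unfold IsRot
  rcases he with ⟨rfl, rfl⟩ | ⟨rfl, rfl⟩
  · exact Or.inl (Or.inl ⟨rfl, rfl, T.uniq _ _ _ _ hF c.h1⟩)
  · exact Or.inr (Or.inl ⟨rfl, rfl, T.uniq _ _ _ _ hF c.h2⟩)

theorem L_opp (c : Cx T x y g h) {a b : V} (hl : L x y g h a b) :
    ¬ (L x y g h b a ∨ (b = x ∧ a = y) ∨ (b = y ∧ a = x)) := by
  have := c.gx; have := c.xh; have := c.hy; have := c.yg; have := c.xy; have := c.gh
  unfold L at hl ⊢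
  grind

theorem IsRot_rot {o₁ o₂ o₃ a b c : V} : IsRot o₁ o₂ o₃ a b c ↔ IsRot o₁ o₂ o₃ b c a := by
  unfold IsRot
  constructor
  · rintro (⟨h1, h2, h3⟩ | ⟨h1, h2, h3⟩ | ⟨h1, h2, h3⟩)
    · exact Or.inr (Or.inl ⟨h2, h3, h1⟩)
    · exact Or.inr (Or.inr ⟨h2, h3, h1⟩)
    · exact Or.inl ⟨h2, h3, h1⟩
  · rintro (⟨h1, h2, h3⟩ | ⟨h1, h2, h3⟩ | ⟨h1, h2, h3⟩)
    · exact Or.inr (Or.inr ⟨h3, h1, h2⟩)
    · exact Or.inl ⟨h3, h1, h2⟩
    · exact Or.inr (Or.inl ⟨h3, h1, h2⟩)

theorem NF_rot (a b c : Option V) (hf : NF T x y g h a b c) : NF T x y g h b c a := by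
  rcases a with _ | a <;> rcases b with _ | b <;> rcases c with _ | c <;> simp only [NF] at hf ⊢
  · exact hf
  · exact hf
  · exact hf
  · exact ⟨T.rot _ _ _ hf.1, fun hr => hf.2.1 (IsRot_rot.2 hr), fun hr => hf.2.2 (IsRot_rot.2 hr)⟩

theorem NF_ne (cx : Cx T x y g h) (a b c : Option V) (hf : NF T x y g h a b c) : a ≠ b := by
  rcases a with _ | a <;> rcases b with _ | b <;> rcases c with _ | c <;> simp only [NF] at hf
  · simp
  · simp
  · exact fun e => L_ne cx hf (Option.some_injective _ e)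
  · exact fun e => T.ne _ _ _ hf.1 (Option.some_injective _ e)

theorem NF_uniq (cx : Cx T x y g h) (a b c d : Option V) (hf : NF T x y g h a b c)
    (hf' : NF T x y g h a b d) : c = d := by
  rcases a with _ | a <;> rcases b with _ | b <;> rcases c with _ | c <;> rcases d with _ | d <;>
    simp only [NF] at hf hf'
  · rw [L_uniq cx hf hf']
  · rw [L_uniq' cx hf hf']
  · rfl
  · exact ((L_old cx hf hf'.1).elim hf'.2.1 hf'.2.2).elim
  · exact ((L_old cx hf' hf.1).elim hf.2.1 hf.2.2).elim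
  · rw [T.uniq _ _ _ _ hf.1 hf'.1]

theorem NF_of {a b c : V} (hf : T.F a b c)
    (hn : ¬ ((a = x ∧ b = y) ∨ (a = y ∧ b = x))) : ∃ d, NF T x y g h (some a) (some b) d := by
  by_cases hl : L x y g h a b
  · exact ⟨none, hl⟩
  · refine ⟨some c, hf, fun hr => ?_, fun hr => ?_⟩
    · exact (rot_L (Or.inl hr)).elim hl hn
    · exact (rot_L (Or.inr hr)).elim hl hn

theorem NF_opp (cx : Cx T x y g h) (a b c : Option V) (hf : NF T x y g h a b c) :
    ∃ d, NF T x y g h b a d := by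
  rcases a with _ | a <;> rcases b with _ | b <;> rcases c with _ | c <;> simp only [NF] at hf
  · obtain ⟨d, hd⟩ := L_pred hf
    exact ⟨some d, hd⟩
  · obtain ⟨d, hd⟩ := L_succ hf
    exact ⟨some d, hd⟩
  · obtain ⟨e, he⟩ := L_ex cx hf
    obtain ⟨d, hd⟩ := T.opp _ _ _ he
    exact NF_of hd (fun hn => L_opp cx hf (Or.inr hn))
  · obtain ⟨d, hd⟩ := T.opp _ _ _ hf.1
    apply NF_of hd
    intro hn
    have : (a = x ∧ b = y) ∨ (a = y ∧ b = x) := hn.elim (fun h => Or.inr ⟨h.2, h.1⟩)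
      (fun h => Or.inl ⟨h.2, h.1⟩)
    exact (xy_old cx this hf.1).elim hf.2.1 hf.2.2

open Classical in
/-- the replacement in the links -/
noncomputable def ph (x y v p : V) : Option V :=
  if (v = x ∧ p = y) ∨ (v = y ∧ p = x) then none else some p

theorem ph_some {v p : V} (hn : ¬ ((v = x ∧ p = y) ∨ (v = y ∧ p = x))) : ph x y v p = some p :=
  if_neg hn

theorem ph_none {v p : V} (hn : (v = x ∧ p = y) ∨ (v = y ∧ p = x)) : ph x y v p = none :=
  if_pos hn

/-- one step of the link -/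
theorem link_step (cx : Cx T x y g h) {v p q : V} (hF : T.F v p q) :
    Relation.ReflTransGen (fun a b => NF T x y g h (some v) a b) (ph x y v p) (ph x y v q) := by
  have hgx := cx.gx; have hxh := cx.xh; have hhy := cx.hy; have hyg := cx.yg
  have hxy := cx.xy; have hgh := cx.gh
  by_cases hr : IsRot x y g v p q ∨ IsRot y x h v p q
  · rcases hr with (⟨rfl, rfl, rfl⟩ | ⟨rfl, rfl, rfl⟩ | ⟨rfl, rfl, rfl⟩) |
      (⟨rfl, rfl, rfl⟩ | ⟨rfl, rfl, rfl⟩ | ⟨rfl, rfl, rfl⟩)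
    · rw [ph_none (Or.inl ⟨rfl, rfl⟩), ph_some (by tauto)]
      exact Relation.ReflTransGen.single (Or.inl ⟨rfl, rfl⟩)
    · rw [ph_none (p := q) (Or.inr ⟨rfl, rfl⟩), ph_some (by tauto)]
      exact Relation.ReflTransGen.single (Or.inr (Or.inr (Or.inr ⟨rfl, rfl⟩)))
    · rw [ph_some (by tauto), ph_some (by tauto)]
      exact (Relation.ReflTransGen.single (b := none) (Or.inl ⟨rfl, rfl⟩)).tail
        (Or.inr (Or.inr (Or.inr ⟨rfl, rfl⟩)))
    · rw [ph_none (Or.inr ⟨rfl, rfl⟩), ph_some (by tauto)]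
      exact Relation.ReflTransGen.single (Or.inr (Or.inr (Or.inl ⟨rfl, rfl⟩)))
    · rw [ph_none (p := q) (Or.inl ⟨rfl, rfl⟩), ph_some (by tauto)]
      exact Relation.ReflTransGen.single (Or.inr (Or.inl ⟨rfl, rfl⟩))
    · rw [ph_some (by tauto), ph_some (by tauto)]
      exact (Relation.ReflTransGen.single (b := none) (Or.inr (Or.inr (Or.inl ⟨rfl, rfl⟩)))).tail
        (Or.inr (Or.inl ⟨rfl, rfl⟩))
  · have hp : ¬ ((v = x ∧ p = y) ∨ (v = y ∧ p = x)) := fun he => hr (xy_old cx he hF)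
    have hq : ¬ ((v = x ∧ q = y) ∨ (v = y ∧ q = x)) := by
      intro he
      have h3 := xy_old cx (a := q) (b := v) (d := p)
        (he.elim (fun a => Or.inr ⟨a.2, a.1⟩) (fun a => Or.inl ⟨a.2, a.1⟩))
        (T.rot _ _ _ (T.rot _ _ _ hF))
      exact hr (h3.elim (fun a => Or.inl (IsRot_rot.1 a)) (fun a => Or.inr (IsRot_rot.1 a)))
    rw [ph_some hp, ph_some hq]
    exact Relation.ReflTransGen.single
      ⟨hF, fun a => hr (Or.inl a), fun a => hr (Or.inr a)⟩

theorem link_path (cx : Cx T x y g h) {v p q : V}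
    (hF : Relation.ReflTransGen (fun a b => T.F v a b) p q) :
    Relation.ReflTransGen (fun a b => NF T x y g h (some v) a b) (ph x y v p) (ph x y v q) := by
  induction hF with
  | refl => exact Relation.ReflTransGen.refl
  | tail _ h2 ih => exact ih.trans (link_step cx h2)

/-- every element of the new link is related to the old link -/
theorem link_end (cx : Cx T x y g h) {v : V} {a b : Option V} (hf : NF T x y g h (some v) a b) :
    ∃ p q p' q', T.F v p q ∧ T.F v p' q' ∧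
      Relation.ReflTransGen (fun a b => NF T x y g h (some v) a b) a (ph x y v p) ∧
      Relation.ReflTransGen (fun a b => NF T x y g h (some v) a b) (ph x y v p') a := by
  have hgx := cx.gx; have hxh := cx.xh; have hhy := cx.hy; have hyg := cx.yg
  have hxy := cx.xy; have hgh := cx.gh
  rcases a with _ | a <;> rcases b with _ | b <;> simp only [NF] at hf
  · rcases hf with ⟨rfl, rfl⟩ | ⟨rfl, rfl⟩ | ⟨rfl, rfl⟩ | ⟨rfl, rfl⟩
    · refine ⟨y, b, y, b, cx.h1, cx.h1, ?_, ?_⟩ <;> rw [ph_none (Or.inl ⟨rfl, rfl⟩)]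
    · obtain ⟨d, hd⟩ := T.opp _ _ _ cx.h5
      refine ⟨b, d, y, b, hd, cx.h6, ?_, ?_⟩
      · rw [ph_some (by tauto)]
        exact Relation.ReflTransGen.single (Or.inr (Or.inl ⟨rfl, rfl⟩))
      · rw [ph_some (by tauto)]
        exact Relation.ReflTransGen.single (Or.inr (Or.inr (Or.inl ⟨rfl, rfl⟩)))
    · refine ⟨x, b, x, b, cx.h2, cx.h2, ?_, ?_⟩ <;> rw [ph_none (Or.inr ⟨rfl, rfl⟩)]
    · obtain ⟨d, hd⟩ := T.opp _ _ _ cx.h3
      refine ⟨b, d, x, b, hd, cx.h4, ?_, ?_⟩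
      · rw [ph_some (by tauto)]
        exact Relation.ReflTransGen.single (Or.inr (Or.inr (Or.inr ⟨rfl, rfl⟩)))
      · rw [ph_some (by tauto)]
        exact Relation.ReflTransGen.single (Or.inl ⟨rfl, rfl⟩)
  · obtain ⟨d, hd⟩ := L_ex cx hf
    have hn : ¬ ((v = x ∧ a = y) ∨ (v = y ∧ a = x)) := by
      unfold L at hf
      grind
    refine ⟨a, d, a, d, hd, hd, ?_, ?_⟩ <;> rw [ph_some hn]
  · have hn : ¬ ((v = x ∧ a = y) ∨ (v = y ∧ a = x)) := fun he =>
      (xy_old cx he hf.1).elim hf.2.1 hf.2.2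
    refine ⟨a, b, a, b, hf.1, hf.1, ?_, ?_⟩ <;> rw [ph_some hn]

theorem NF_link (cx : Cx T x y g h) (v a b c d : Option V) (hf : NF T x y g h v a b)
    (hf' : NF T x y g h v c d) :
    Relation.ReflTransGen (fun p q => NF T x y g h v p q) a c := by
  rcases v with _ | v
  · have s1 : NF T x y g h none (some g) (some x) := Or.inl ⟨rfl, rfl⟩
    have s2 : NF T x y g h none (some x) (some h) := Or.inr (Or.inl ⟨rfl, rfl⟩)
    have s3 : NF T x y g h none (some h) (some y) := Or.inr (Or.inr (Or.inl ⟨rfl, rfl⟩))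
    have s4 : NF T x y g h none (some y) (some g) := Or.inr (Or.inr (Or.inr ⟨rfl, rfl⟩))
    have t1 : Relation.ReflTransGen (fun p q => NF T x y g h none p q) (some g) (some x) :=
      Relation.ReflTransGen.single s1
    have t2 : Relation.ReflTransGen (fun p q => NF T x y g h none p q) (some x) (some h) :=
      Relation.ReflTransGen.single s2
    have t3 : Relation.ReflTransGen (fun p q => NF T x y g h none p q) (some h) (some y) :=
      Relation.ReflTransGen.single s3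
    have t4 : Relation.ReflTransGen (fun p q => NF T x y g h none p q) (some y) (some g) :=
      Relation.ReflTransGen.single s4
    have hin : ∀ a b : Option V, NF T x y g h none a b →
        a = some g ∨ a = some x ∨ a = some h ∨ a = some y := by
      intro a b hab
      rcases a with _ | a <;> rcases b with _ | b <;> simp only [NF] at hab
      rcases hab with ⟨rfl, -⟩ | ⟨rfl, -⟩ | ⟨rfl, -⟩ | ⟨rfl, -⟩
      · exact Or.inl rfl
      · exact Or.inr (Or.inl rfl)
      · exact Or.inr (Or.inr (Or.inl rfl))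
      · exact Or.inr (Or.inr (Or.inr rfl))
    have k1 : Relation.ReflTransGen (fun p q => NF T x y g h none p q) a (some g) := by
      rcases hin a b hf with rfl | rfl | rfl | rfl
      · exact Relation.ReflTransGen.refl
      · exact (t2.trans t3).trans t4
      · exact t3.trans t4
      · exact t4
    have k2 : Relation.ReflTransGen (fun p q => NF T x y g h none p q) (some g) c := by
      rcases hin c d hf' with rfl | rfl | rfl | rfl
      · exact Relation.ReflTransGen.refl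
      · exact t1
      · exact t1.trans t2
      · exact (t1.trans t2).trans t3
    exact k1.trans k2
  · obtain ⟨p, q, -, -, hpq, -, e1, -⟩ := link_end cx hf
    obtain ⟨-, -, p', q', -, hpq', -, e2⟩ := link_end cx hf'
    exact (e1.trans (link_path cx (T.link v p q p' q' hpq hpq'))).trans e2

theorem NF_conn (cx : Cx T x y g h) (u v : Option V) :
    Relation.ReflTransGen (fun p q => ∃ z, NF T x y g h p q z) u v := by
  have n1 : NF T x y g h (some x) none (some g) := Or.inl ⟨rfl, rfl⟩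
  have n2 : NF T x y g h none (some x) (some h) := Or.inr (Or.inl ⟨rfl, rfl⟩)
  have n3 : NF T x y g h (some y) none (some h) := Or.inr (Or.inr (Or.inl ⟨rfl, rfl⟩))
  have n4 : NF T x y g h none (some y) (some g) := Or.inr (Or.inr (Or.inr ⟨rfl, rfl⟩))
  have st : ∀ p q z, T.F p q z →
      Relation.ReflTransGen (fun p q => ∃ z, NF T x y g h p q z) (some p) (some q) := by
    intro p q z hz
    by_cases hn : (p = x ∧ q = y) ∨ (p = y ∧ q = x)
    · rcases hn with ⟨rfl, rfl⟩ | ⟨rfl, rfl⟩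
      · exact (Relation.ReflTransGen.single (b := none) ⟨_, n1⟩).tail ⟨_, n4⟩
      · exact (Relation.ReflTransGen.single (b := none) ⟨_, n3⟩).tail ⟨_, n2⟩
    · exact Relation.ReflTransGen.single (NF_of hz hn)
  have old : ∀ p q : V,
      Relation.ReflTransGen (fun p q => ∃ z, NF T x y g h p q z) (some p) (some q) := by
    intro p q
    have := T.conn p q
    induction this with
    | refl => exact Relation.ReflTransGen.refl
    | tail _ h2 ih =>
      obtain ⟨z, hz⟩ := h2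
      exact ih.trans (st _ _ _ hz)
  have e1 : ∀ p : Option V,
      Relation.ReflTransGen (fun p q => ∃ z, NF T x y g h p q z) p (some x) := by
    intro p
    rcases p with _ | p
    · exact Relation.ReflTransGen.single ⟨_, n2⟩
    · exact old p x
  have e2 : ∀ p : Option V,
      Relation.ReflTransGen (fun p q => ∃ z, NF T x y g h p q z) (some x) p := by
    intro p
    rcases p with _ | p
    · exact Relation.ReflTransGen.single ⟨_, n1⟩
    · exact old x p
  exact (e1 u).trans (e2 v)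


theorem L_card (cx : Cx T x y g h) : {t : V × V | L x y g h t.1 t.2}.ncard = 4 := by
  have hgx := cx.gx; have hxh := cx.xh; have hhy := cx.hy; have hyg := cx.yg
  have hxy := cx.xy; have hgh := cx.gh
  have e : {t : V × V | L x y g h t.1 t.2} = {(g, x), (x, h), (h, y), (y, g)} := by
    ext ⟨a, b⟩
    simp only [L, Set.mem_ofPred_eq, Set.mem_insert_iff, Set.mem_singleton_iff, Prod.mk.injEq]
  rw [e, Set.ncard_insert_of_notMem, Set.ncard_insert_of_notMem, Set.ncard_pair]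
  · intro e
    rw [Prod.mk.injEq] at e
    exact hhy e.1
  · simp only [Set.mem_insert_iff, Set.mem_singleton_iff, Prod.mk.injEq]
    tauto
  · simp only [Set.mem_insert_iff, Set.mem_singleton_iff, Prod.mk.injEq]
    tauto

theorem R_card {a b c : V} (hab : a ≠ b) (hbc : b ≠ c) (_hca : c ≠ a) :
    {t : V × V × V | IsRot a b c t.1 t.2.1 t.2.2}.ncard = 3 := by
  have e : {t : V × V × V | IsRot a b c t.1 t.2.1 t.2.2} = {(a, b, c), (b, c, a), (c, a, b)} := by
    ext ⟨p, q, r⟩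
    simp only [IsRot, Set.mem_ofPred_eq, Set.mem_insert_iff, Set.mem_singleton_iff, Prod.mk.injEq]
  rw [e, Set.ncard_insert_of_notMem, Set.ncard_pair]
  · intro e
    rw [Prod.mk.injEq] at e
    exact hbc e.1
  · simp only [Set.mem_insert_iff, Set.mem_singleton_iff, Prod.mk.injEq]
    tauto

theorem F_card [Finite V] (cx : Cx T x y g h) : {t : V × V × V | T.F t.1 t.2.1 t.2.2}.ncard =
    {t : V × V × V | T.F t.1 t.2.1 t.2.2 ∧ ¬ IsRot x y g t.1 t.2.1 t.2.2 ∧
      ¬ IsRot y x h t.1 t.2.1 t.2.2}.ncard + 6 := by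
  have hgx := cx.gx; have hxh := cx.xh; have hhy := cx.hy; have hyg := cx.yg
  have hxy := cx.xy; have hgh := cx.gh
  have e : {t : V × V × V | T.F t.1 t.2.1 t.2.2} =
      {t : V × V × V | T.F t.1 t.2.1 t.2.2 ∧ ¬ IsRot x y g t.1 t.2.1 t.2.2 ∧
      ¬ IsRot y x h t.1 t.2.1 t.2.2} ∪ ({t : V × V × V | IsRot x y g t.1 t.2.1 t.2.2} ∪
      {t : V × V × V | IsRot y x h t.1 t.2.1 t.2.2}) := by
    ext ⟨p, q, r⟩
    simp only [Set.mem_ofPred_eq, Set.mem_union]
    constructor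
    · intro hF
      by_cases r1 : IsRot x y g p q r
      · exact Or.inr (Or.inl r1)
      · by_cases r2 : IsRot y x h p q r
        · exact Or.inr (Or.inr r2)
        · exact Or.inl ⟨hF, r1, r2⟩
    · rintro (hF | hr | hr)
      · exact hF.1
      · rcases hr with ⟨rfl, rfl, rfl⟩ | ⟨rfl, rfl, rfl⟩ | ⟨rfl, rfl, rfl⟩
        · exact cx.h1
        · exact cx.h3
        · exact cx.h4
      · rcases hr with ⟨rfl, rfl, rfl⟩ | ⟨rfl, rfl, rfl⟩ | ⟨rfl, rfl, rfl⟩
        · exact cx.h2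
        · exact cx.h5
        · exact cx.h6
  rw [e, Set.ncard_union_eq, Set.ncard_union_eq, R_card hxy hyg hgx, R_card hxy.symm hxh hhy]
  · rw [Set.disjoint_left]
    rintro ⟨p, q, r⟩ hp hq
    simp only [IsRot, Set.mem_ofPred_eq] at hp hq
    grind
  · rw [Set.disjoint_left]
    rintro ⟨p, q, r⟩ hp hq
    exact hq.elim hp.2.1 hp.2.2

theorem NF_card [Finite V] (cx : Cx T x y g h) :
    {t : Option V × Option V × Option V | NF T x y g h t.1 t.2.1 t.2.2}.ncard =
    {t : V × V × V | T.F t.1 t.2.1 t.2.2 ∧ ¬ IsRot x y g t.1 t.2.1 t.2.2 ∧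
      ¬ IsRot y x h t.1 t.2.1 t.2.2}.ncard + 12 := by
  have e : {t : Option V × Option V × Option V | NF T x y g h t.1 t.2.1 t.2.2} =
      (fun t : V × V × V => (some t.1, some t.2.1, some t.2.2)) ''
        {t : V × V × V | T.F t.1 t.2.1 t.2.2 ∧ ¬ IsRot x y g t.1 t.2.1 t.2.2 ∧
          ¬ IsRot y x h t.1 t.2.1 t.2.2} ∪
      ((fun t : V × V => ((none : Option V), some t.1, some t.2)) ''
        {t : V × V | L x y g h t.1 t.2} ∪
      ((fun t : V × V => (some t.2, (none : Option V), some t.1)) ''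
        {t : V × V | L x y g h t.1 t.2} ∪
      (fun t : V × V => (some t.1, some t.2, (none : Option V))) ''
        {t : V × V | L x y g h t.1 t.2})) := by
    ext ⟨p, q, r⟩
    simp only [Set.mem_union, Set.mem_image, Set.mem_ofPred_eq]
    constructor
    · intro hf
      rcases p with _ | a <;> rcases q with _ | b <;> rcases r with _ | c <;>
        simp only [NF] at hf
      · exact Or.inr (Or.inl ⟨(b, c), hf, rfl⟩)
      · exact Or.inr (Or.inr (Or.inl ⟨(c, a), hf, rfl⟩))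
      · exact Or.inr (Or.inr (Or.inr ⟨(a, b), hf, rfl⟩))
      · exact Or.inl ⟨(a, b, c), hf, rfl⟩
    · rintro (⟨⟨a, b, c⟩, hf, he⟩ | ⟨⟨a, b⟩, hf, he⟩ | ⟨⟨a, b⟩, hf, he⟩ | ⟨⟨a, b⟩, hf, he⟩) <;>
        (simp only [Prod.mk.injEq] at he; obtain ⟨rfl, rfl, rfl⟩ := he; exact hf)
  rw [e, Set.ncard_union_eq, Set.ncard_union_eq, Set.ncard_union_eq,
    Set.ncard_image_of_injective, Set.ncard_image_of_injective, Set.ncard_image_of_injective,
    Set.ncard_image_of_injective, L_card cx]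
  · rintro ⟨a, b⟩ ⟨c, d⟩ he
    simp only [Prod.mk.injEq, Option.some.injEq, and_true] at he
    exact Prod.ext he.1 he.2
  · rintro ⟨a, b⟩ ⟨c, d⟩ he
    simp only [Prod.mk.injEq, Option.some.injEq, true_and] at he
    exact Prod.ext he.2 he.1
  · rintro ⟨a, b⟩ ⟨c, d⟩ he
    simp only [Prod.mk.injEq, Option.some.injEq, true_and] at he
    exact Prod.ext he.1 he.2
  · rintro ⟨a, b, b'⟩ ⟨c, d, d'⟩ he
    simp only [Prod.mk.injEq, Option.some.injEq] at he
    obtain ⟨rfl, rfl, rfl⟩ := he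
    rfl
  · rw [Set.disjoint_left]
    rintro _ ⟨t, -, rfl⟩ ⟨s, -, he⟩
    simp at he
  · rw [Set.disjoint_left]
    rintro _ ⟨t, -, rfl⟩ (⟨s, -, he⟩ | ⟨s, -, he⟩) <;> simp at he
  · rw [Set.disjoint_left]
    rintro _ ⟨t, -, rfl⟩ (⟨s, -, he⟩ | ⟨s, -, he⟩ | ⟨s, -, he⟩) <;> simp at he

theorem NF_euler [Finite V] (cx : Cx T x y g h) :
    Nat.card {t : Option V × Option V × Option V // NF T x y g h t.1 t.2.1 t.2.2} + 12 =
      6 * Nat.card (Option V) := by
  have e1 : Nat.card {t : Option V × Option V × Option V // NF T x y g h t.1 t.2.1 t.2.2} =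
    {t : Option V × Option V × Option V | NF T x y g h t.1 t.2.1 t.2.2}.ncard := rfl
  have e2 : Nat.card {t : V × V × V // T.F t.1 t.2.1 t.2.2} =
    {t : V × V × V | T.F t.1 t.2.1 t.2.2}.ncard := rfl
  have e3 := T.euler
  have e4 := F_card cx
  have e5 := NF_card cx
  have e6 : Nat.card (Option V) = Nat.card V + 1 := Finite.card_option
  rw [e1, e5, e6]
  rw [e2, e4] at e3
  omega

/-- the new triangulation -/
def NT [Finite V] (cx : Cx T x y g h) : Tri (Option V) where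
  F := NF T x y g h
  rot := NF_rot
  ne := NF_ne cx
  uniq := NF_uniq cx
  opp := NF_opp cx
  link := NF_link cx
  conn := NF_conn cx
  euler := NF_euler cx

end

end W_FS_SUBEDGE

open W_FS_SUBEDGE in
theorem FS_SUBEDGE {V : Type} [Fintype V] [DecidableEq V] (T : Tri V) (hV : 4 ≤ Nat.card V) (x y g h : V)
    (h1 : T.F x y g) (h2 : T.F y x h) : ∃ T' : Tri (Option V),
    (∀ a b c, T'.F (some a) (some b) (some c) ↔ T.F a b c ∧ ¬ IsRot x y g a b c ∧ ¬ IsRot y x h a b c) ∧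
    (∀ a b, T'.F none (some a) (some b) ↔
      (a = g ∧ b = x) ∨ (a = x ∧ b = h) ∨ (a = h ∧ b = y) ∨ (a = y ∧ b = g)) ∧
    (∀ a, ¬ T'.F none none a) ∧
    (∀ a b, T'.G.Adj (some a) (some b) ↔ T.G.Adj a b ∧ ¬ (a = x ∧ b = y) ∧ ¬ (a = y ∧ b = x)) ∧
    (∀ a, T'.G.Adj none (some a) ↔ a = x ∨ a = y ∨ a = g ∨ a = h) := by
  have cx := cx_mk T hV x y g h h1 h2
  refine ⟨NT cx, fun a b c => Iff.rfl, fun a b => Iff.rfl, fun a => ?_, fun a b => ?_, fun a => ?_⟩
  · rcases a with _ | a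
    · exact fun hf => hf
    · exact fun hf => hf
  · constructor
    · rintro ⟨c, hc⟩
      rcases c with _ | c
      · have hl : L x y g h a b := hc
        obtain ⟨d, hd⟩ := L_ex cx hl
        have hgx := cx.gx; have hxh := cx.xh; have hhy := cx.hy; have hyg := cx.yg
        have hxy := cx.xy; have hgh := cx.gh
        refine ⟨⟨d, hd⟩, ?_, ?_⟩
        · unfold L at hl
          grind
        · unfold L at hl
          grind
      · have hc' : T.F a b c ∧ ¬ IsRot x y g a b c ∧ ¬ IsRot y x h a b c := hc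
        exact ⟨⟨c, hc'.1⟩, fun he => (xy_old cx (Or.inl he) hc'.1).elim hc'.2.1 hc'.2.2,
          fun he => (xy_old cx (Or.inr he) hc'.1).elim hc'.2.1 hc'.2.2⟩
    · rintro ⟨⟨c, hc⟩, n1, n2⟩
      exact NF_of hc (fun he => he.elim n1 n2)
  · constructor
    · rintro ⟨c, hc⟩
      rcases c with _ | c
      · exact hc.elim
      · have hl : L x y g h a c := hc
        rcases hl with ⟨e, -⟩ | ⟨e, -⟩ | ⟨e, -⟩ | ⟨e, -⟩
        · exact Or.inr (Or.inr (Or.inl e))
        · exact Or.inl e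
        · exact Or.inr (Or.inr (Or.inr e))
        · exact Or.inr (Or.inl e)
    · rintro (rfl | rfl | rfl | rfl)
      · exact ⟨some h, Or.inr (Or.inl ⟨rfl, rfl⟩)⟩
      · exact ⟨some g, Or.inr (Or.inr (Or.inr ⟨rfl, rfl⟩))⟩
      · exact ⟨some x, Or.inl ⟨rfl, rfl⟩⟩
      · exact ⟨some y, Or.inr (Or.inr (Or.inl ⟨rfl, rfl⟩))⟩


end Pool.Agent.H891WLC
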