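import Pool.Agent.H891FSS.Defs
import Pool.Agent.H891FSS.FS_GNE
import Pool.Agent.H891FSS.FS_SUBEDGE

set_option autoImplicit false

namespace Pool.Agent.H891WLC

namespace W_FS_SUBALL

def Concl {V : Type} (T : Tri V) (P : V → V → Prop) : Prop :=
    ∃ (V' : Type) (_ : Fintype V') (ι : V → V') (T' : Tri V'), Function.Injective ι ∧
    (∀ x y, T'.G.Adj (ι x) (ι y) ↔ T.G.Adj x y ∧ ¬ P x y) ∧
    (∀ a b c, T.F a b c → ¬ P a b → ¬ P b c → ¬ P c a → T'.F (ι a) (ι b) (ι c)) ∧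
    (∀ a b c, T'.F a b c → (∃ x y, P x y ∧ (a = ι x ∨ b = ι x ∨ c = ι x)) ∨
      (∃ a' b' c', a = ι a' ∧ b = ι b' ∧ c = ι c' ∧ T.F a' b' c')) ∧
    (∀ m, (∀ x, m ≠ ι x) → ∃ x y, P x y ∧ T'.G.Adj m (ι x) ∧ T'.G.Adj m (ι y))

theorem base {V : Type} [Fintype V] (T : Tri V) (P : V → V → Prop) (h0 : ∀ x y, ¬ P x y) : Concl T P := by
  refine ⟨V, inferInstance, id, T, Function.injective_id, ?_, ?_, ?_, ?_⟩
  · intro x y
    exact ⟨fun h => ⟨h, h0 x y⟩, fun h => h.1⟩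
  · intro a b c h _ _ _
    exact h
  · intro a b c h
    exact Or.inr ⟨a, b, c, rfl, rfl, rfl, h⟩
  · intro m hm
    exact absurd rfl (hm m)

/-- the remaining pairs after subdividing `x y` -/
def P1 {V : Type} (P : V → V → Prop) (x y : V) (a b : Option V) : Prop :=
  ∃ a' b', a = some a' ∧ b = some b' ∧ P a' b' ∧ ¬ (a' = x ∧ b' = y) ∧ ¬ (a' = y ∧ b' = x)

theorem P1_some {V : Type} (P : V → V → Prop) (x y : V) (a b : V) :
    P1 P x y (some a) (some b) ↔ P a b ∧ ¬ (a = x ∧ b = y) ∧ ¬ (a = y ∧ b = x) := by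
  constructor
  · rintro ⟨a', b', ha, hb, h⟩
    obtain rfl := Option.some_injective _ ha
    obtain rfl := Option.some_injective _ hb
    exact h
  · intro h
    exact ⟨a, b, rfl, rfl, h⟩

theorem P1_card {V : Type} [Fintype V] (P : V → V → Prop) (x y : V) (hxy : P x y) :
    {e : Option V × Option V | P1 P x y e.1 e.2}.ncard < {e : V × V | P e.1 e.2}.ncard := by
  have h1 : {e : Option V × Option V | P1 P x y e.1 e.2} ⊆
      (fun e : V × V => ((some e.1 : Option V), (some e.2 : Option V))) '' ({e : V × V | P e.1 e.2} \ {(x, y)}) := by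
    rintro ⟨a, b⟩ ⟨a', b', ha, hb, hP, hn, _⟩
    simp only at ha hb
    subst ha
    subst hb
    refine ⟨(a', b'), ⟨hP, ?_⟩, rfl⟩
    intro h
    have h' : (a', b') = (x, y) := h
    rw [Prod.mk.injEq] at h'
    exact hn h'
  have h2 := Set.ncard_le_ncard h1 (Set.toFinite _)
  have h3 := Set.ncard_image_le (f := fun e : V × V => ((some e.1 : Option V), (some e.2 : Option V)))
    (s := {e : V × V | P e.1 e.2} \ {(x, y)}) (Set.toFinite _)
  have h4 : ({e : V × V | P e.1 e.2} \ {(x, y)}).ncard < {e : V × V | P e.1 e.2}.ncard := by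
    apply Set.ncard_lt_ncard _ (Set.toFinite _)
    refine ⟨Set.sdiff_subset, ?_⟩
    intro h
    have := h (show (x, y) ∈ {e : V × V | P e.1 e.2} from hxy)
    exact this.2 rfl
  omega

theorem face_cases {V : Type} (T : Tri V) (P : V → V → Prop) (x y g h : V) (T1 : Tri (Option V))
    (hxy : P x y) (hyx : P y x)
    (c1 : ∀ a b c, T1.F (some a) (some b) (some c) ↔ T.F a b c ∧ ¬ IsRot x y g a b c ∧ ¬ IsRot y x h a b c)
    (c2 : ∀ a b, T1.F none (some a) (some b) ↔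
      (a = g ∧ b = x) ∨ (a = x ∧ b = h) ∨ (a = h ∧ b = y) ∨ (a = y ∧ b = g))
    (c3 : ∀ a, ¬ T1.F none none a) (a b c : Option V) (hF : T1.F a b c) :
    (∃ x y, P x y ∧ (a = some x ∨ b = some x ∨ c = some x)) ∨
      (∃ a' b' c', a = some a' ∧ b = some b' ∧ c = some c' ∧ T.F a' b' c') := by
  have key : ∀ a b : V, T1.F none (some a) (some b) → ∃ x y, P x y ∧ (a = x ∨ b = x) := by
    intro a b hab
    rcases (c2 a b).1 hab with ⟨h1, h2⟩ | ⟨h1, h2⟩ | ⟨h1, h2⟩ | ⟨h1, h2⟩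
    · exact ⟨x, y, hxy, Or.inr h2⟩
    · exact ⟨x, y, hxy, Or.inl h1⟩
    · exact ⟨y, x, hyx, Or.inr h2⟩
    · exact ⟨y, x, hyx, Or.inl h1⟩
  rcases a with _ | a
  · rcases b with _ | b
    · exact absurd hF (c3 c)
    · rcases c with _ | c
      · exact absurd (T1.rot _ _ _ (T1.rot _ _ _ hF)) (c3 _)
      · obtain ⟨p, q, hpq, hh⟩ := key b c hF
        left
        refine ⟨p, q, hpq, ?_⟩
        rcases hh with rfl | rfl
        · exact Or.inr (Or.inl rfl)
        · exact Or.inr (Or.inr rfl)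
  · rcases b with _ | b
    · rcases c with _ | c
      · exact absurd (T1.rot _ _ _ hF) (c3 _)
      · obtain ⟨p, q, hpq, hh⟩ := key c a (T1.rot _ _ _ hF)
        left
        refine ⟨p, q, hpq, ?_⟩
        rcases hh with rfl | rfl
        · exact Or.inr (Or.inr rfl)
        · exact Or.inl rfl
    · rcases c with _ | c
      · obtain ⟨p, q, hpq, hh⟩ := key a b (T1.rot _ _ _ (T1.rot _ _ _ hF))
        left
        refine ⟨p, q, hpq, ?_⟩
        rcases hh with rfl | rfl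
        · exact Or.inl rfl
        · exact Or.inr (Or.inl rfl)
      · right
        exact ⟨a, b, c, rfl, rfl, rfl, ((c1 a b c).1 hF).1⟩

theorem step {V : Type} [Fintype V] (T : Tri V) (hV : 4 ≤ Nat.card V) (P : V → V → Prop)
    (hsym : ∀ x y, P x y → P y x) (hadj : ∀ x y, P x y → T.G.Adj x y) (x y : V) (hxy : P x y)
    (IH : ∀ (T1 : Tri (Option V)) (Q : Option V → Option V → Prop),
      4 ≤ Nat.card (Option V) → (∀ a b, Q a b → Q b a) → (∀ a b, Q a b → T1.G.Adj a b) →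
      {e : Option V × Option V | Q e.1 e.2}.ncard < {e : V × V | P e.1 e.2}.ncard → Concl T1 Q) : Concl T P := by
  classical
  obtain ⟨g, hg⟩ := hadj x y hxy
  obtain ⟨h, hh⟩ := T.opp _ _ _ hg
  obtain ⟨T1, c1, c2, c3, c4, c5⟩ := FS_SUBEDGE T hV x y g h hg hh
  have hcard : 4 ≤ Nat.card (Option V) := by
    rw [Nat.card_eq_fintype_card, Fintype.card_option, ← Nat.card_eq_fintype_card]
    omega
  have hQs : ∀ a b, P1 P x y a b → P1 P x y b a := by
    rintro a b ⟨a', b', ha, hb, hP, hn1, hn2⟩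
    exact ⟨b', a', hb, ha, hsym _ _ hP, fun hc => hn2 ⟨hc.2, hc.1⟩, fun hc => hn1 ⟨hc.2, hc.1⟩⟩
  have hQa : ∀ a b, P1 P x y a b → T1.G.Adj a b := by
    rintro a b ⟨a', b', rfl, rfl, hP, hn1, hn2⟩
    exact (c4 a' b').2 ⟨hadj _ _ hP, hn1, hn2⟩
  obtain ⟨V', fV', ι1, T', hinj, d2, d3, d4, d5⟩ := IH T1 (P1 P x y) hcard hQs hQa (P1_card P x y hxy)
  refine ⟨V', fV', fun v => ι1 (some v), T', ?_, ?_, ?_, ?_, ?_⟩
  · intro a b hab
    exact Option.some_injective _ (hinj hab)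
  · intro a b
    rw [d2, c4, P1_some]
    constructor
    · rintro ⟨⟨h1, h2, h3⟩, h4⟩
      exact ⟨h1, fun hP => h4 ⟨hP, h2, h3⟩⟩
    · rintro ⟨h1, h2⟩
      refine ⟨⟨h1, ?_, ?_⟩, fun hc => h2 hc.1⟩
      · rintro ⟨rfl, rfl⟩
        exact h2 hxy
      · rintro ⟨rfl, rfl⟩
        exact h2 (hsym _ _ hxy)
  · intro a b c hF hab hbc hca
    have hyx := hsym _ _ hxy
    have h1 : T1.F (some a) (some b) (some c) := by
      rw [c1]
      refine ⟨hF, ?_, ?_⟩
      · rintro (⟨rfl, rfl, rfl⟩ | ⟨rfl, rfl, rfl⟩ | ⟨rfl, rfl, rfl⟩)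
        · exact hab hxy
        · exact hca hxy
        · exact hbc hxy
      · rintro (⟨rfl, rfl, rfl⟩ | ⟨rfl, rfl, rfl⟩ | ⟨rfl, rfl, rfl⟩)
        · exact hab hyx
        · exact hca hyx
        · exact hbc hyx
    apply d3 _ _ _ h1
    · rw [P1_some]
      exact fun hc => hab hc.1
    · rw [P1_some]
      exact fun hc => hbc hc.1
    · rw [P1_some]
      exact fun hc => hca hc.1
  · intro a b c hF
    rcases d4 a b c hF with ⟨p, q, ⟨p', q', rfl, rfl, hpq, _⟩, hh'⟩ | ⟨a1, b1, c1', ha, hb, hc, hF1⟩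
    · exact Or.inl ⟨p', q', hpq, hh'⟩
    · rcases face_cases T P x y g h T1 hxy (hsym _ _ hxy) c1 c2 c3 a1 b1 c1' hF1 with
        ⟨p, q, hpq, hh'⟩ | ⟨a', b', c', ha', hb', hc', hF'⟩
      · left
        refine ⟨p, q, hpq, ?_⟩
        rcases hh' with rfl | rfl | rfl
        · exact Or.inl ha
        · exact Or.inr (Or.inl hb)
        · exact Or.inr (Or.inr hc)
      · right
        subst ha' hb' hc'
        exact ⟨a', b', c', ha, hb, hc, hF'⟩
  · intro m hm
    by_cases hmn : m = ι1 none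
    · refine ⟨x, y, hxy, ?_, ?_⟩
      · rw [hmn, d2]
        refine ⟨(c5 x).2 (Or.inl rfl), ?_⟩
        rintro ⟨a', b', ha, _⟩
        exact absurd ha (by simp)
      · rw [hmn, d2]
        refine ⟨(c5 y).2 (Or.inr (Or.inl rfl)), ?_⟩
        rintro ⟨a', b', ha, _⟩
        exact absurd ha (by simp)
    · obtain ⟨p, q, ⟨p', q', rfl, rfl, hpq, _⟩, hp, hq⟩ := d5 m (by
        intro v
        rcases v with _ | v
        · exact hmn
        · exact hm v)
      exact ⟨p', q', hpq, hp, hq⟩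

theorem main (n : ℕ) : ∀ (V : Type) [Fintype V] (T : Tri V) (P : V → V → Prop),
    4 ≤ Nat.card V → (∀ x y, P x y → P y x) → (∀ x y, P x y → T.G.Adj x y) →
    {e : V × V | P e.1 e.2}.ncard < n → Concl T P := by
  induction n with
  | zero =>
    intro V _ T P _ _ _ h
    exact absurd h (Nat.not_lt_zero _)
  | succ n ih =>
    intro V _ T P hV hsym hadj hn
    by_cases h0 : ∃ x y, P x y
    · obtain ⟨x, y, hxy⟩ := h0
      apply step T hV P hsym hadj x y hxy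
      intro T1 Q h1 h2 h3 h4
      exact ih (Option V) T1 Q h1 h2 h3 (by omega)
    · apply base
      intro x y hxy
      exact h0 ⟨x, y, hxy⟩

end W_FS_SUBALL

open W_FS_SUBALL in
theorem FS_SUBALL {V : Type} [Fintype V] (T : Tri V) (hV : 4 ≤ Nat.card V) (P : V → V → Prop)
    (hsym : ∀ x y, P x y → P y x) (hadj : ∀ x y, P x y → T.G.Adj x y) :
    ∃ (V' : Type) (_ : Fintype V') (ι : V → V') (T' : Tri V'), Function.Injective ι ∧
    (∀ x y, T'.G.Adj (ι x) (ι y) ↔ T.G.Adj x y ∧ ¬ P x y) ∧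
    (∀ a b c, T.F a b c → ¬ P a b → ¬ P b c → ¬ P c a → T'.F (ι a) (ι b) (ι c)) ∧
    (∀ a b c, T'.F a b c → (∃ x y, P x y ∧ (a = ι x ∨ b = ι x ∨ c = ι x)) ∨
      (∃ a' b' c', a = ι a' ∧ b = ι b' ∧ c = ι c' ∧ T.F a' b' c')) ∧
    (∀ m, (∀ x, m ≠ ι x) → ∃ x y, P x y ∧ T'.G.Adj m (ι x) ∧ T'.G.Adj m (ι y)) := by
  exact main _ V T P hV hsym hadj (Nat.lt_succ_self _)


end Pool.Agent.H891WLC
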