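import Pool.Agent.H891FSS.Defs
import Pool.Agent.H891FSS.FS_SUBALL
import Pool.Agent.H891FSS.FD_CUT
import Pool.Agent.H891FSS.FD_UNST

set_option autoImplicit false

namespace Pool.Agent.H891WLC

namespace W_FD_STEP
open Relation

lemma splitA {α : Type} {R : α → α → Prop} (a : α) {b c : α} (h : ReflTransGen R b c) :
    ReflTransGen (fun p q => R p q ∧ q ≠ a) b c ∨ ReflTransGen (fun p q => R p q ∧ q ≠ a) a c := by
  induction h with
  | refl => exact Or.inl ReflTransGen.refl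
  | @tail x y _ hxy ih =>
    by_cases hy : y = a
    · subst hy; exact Or.inr ReflTransGen.refl
    · rcases ih with h | h
      · exact Or.inl (h.tail ⟨hxy, hy⟩)
      · exact Or.inr (h.tail ⟨hxy, hy⟩)

lemma lemC {α : Type} {R : α → α → Prop} (hu : ∀ x y z, R x y → R x z → y = z) {a b c : α}
    (hba : b ≠ a) (h1 : ReflTransGen (fun p q => R p q ∧ q ≠ a) b c)
    (h2 : ReflTransGen (fun p q => R p q ∧ q ≠ b) b a) :
    ReflTransGen (fun p q => R p q ∧ q ≠ b) c a ∧ c ≠ a := by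
  induction h1 with
  | refl => exact ⟨h2, hba⟩
  | @tail x y _ hxy ih =>
    obtain ⟨ih1, ih2⟩ := ih
    refine ⟨?_, hxy.2⟩
    rcases Relation.ReflTransGen.cases_head ih1 with he | ⟨z, hz, hza⟩
    · exact absurd he ih2
    · rw [hu _ _ _ hxy.1 hz.1]; exact hza

lemma firstHit {α : Type} {R : α → α → Prop} {a c : α} (h : ReflTransGen R c a) :
    ReflTransGen (fun p q => R p q ∧ p ≠ a) c a := by
  induction h using Relation.ReflTransGen.head_induction_on with
  | refl => exact ReflTransGen.refl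
  | @head x z hxz _ ih =>
    by_cases hx : x = a
    · subst hx; exact ReflTransGen.refl
    · exact ReflTransGen.head ⟨hxz, hx⟩ ih

lemma dich {V : Type} (T : Tri V) (v a b c : V) (hb : T.G.Adj v b) (hc : T.G.Adj v c) :
    ReflTransGen (fun p q => T.F v p q ∧ q ≠ a) b c ∨
      ReflTransGen (fun p q => T.F v p q ∧ q ≠ a) c b := by
  obtain ⟨b', hb'⟩ := hb
  obtain ⟨c', hc'⟩ := hc
  rcases splitA a (T.link v b b' c c' hb' hc') with h1 | h1
  · exact Or.inl h1
  · rcases splitA a (T.link v c c' b b' hc' hb') with h2 | h2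
    · exact Or.inr h2
    · have hr : Relator.RightUnique (fun p q => T.F v p q ∧ q ≠ a) := by
        intro x y z hy hz
        exact T.uniq _ _ _ _ hy.1 hz.1
      exact (Relation.ReflTransGen.total_of_right_unique hr h1 h2).symm

lemma chain2 {V : Type} (T1 : Tri V) (T2 : Tri (Option V)) (v a b c : V) (hab : a ≠ b)
    (hva : T1.G.Adj v a) (hvc : T1.G.Adj v c)
    (hch : ReflTransGen (fun p q => T1.F v p q ∧ q ≠ a) b c)
    (g1 : ∀ x y, ReflTransGen (fun p q => T1.F v p q ∧ q ≠ a) b x → x ≠ a → T1.F v x y →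
      T2.F (some v) (some x) (some y)) :
    ReflTransGen (fun p q => T2.F (some v) p q ∧ q ≠ some b) (some c) (some a) := by
  obtain ⟨a', ha'⟩ := hva
  obtain ⟨c', hc'⟩ := hvc
  have h : ReflTransGen (fun p q => T1.F v p q ∧ q ≠ b) c a := by
    rcases splitA b (T1.link v c c' a a' hc' ha') with h | h
    · exact h
    · exact (lemC (R := fun p q => T1.F v p q) (fun x y z h1 h2 => T1.uniq _ _ _ _ h1 h2) hab.symm hch h).1
  have h' := firstHit h
  have key : ∀ x, ReflTransGen (fun p q => (T1.F v p q ∧ q ≠ b) ∧ p ≠ a) x a →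
      ReflTransGen (fun p q => T1.F v p q ∧ q ≠ a) b x →
      ReflTransGen (fun p q => T2.F (some v) p q ∧ q ≠ some b) (some x) (some a) := by
    intro x hx
    induction hx using Relation.ReflTransGen.head_induction_on with
    | refl => intro _; exact ReflTransGen.refl
    | @head x z hxz _ ih =>
      intro hbx
      have hstep : T2.F (some v) (some x) (some z) ∧ (some z : Option V) ≠ some b :=
        ⟨g1 x z hbx hxz.2 hxz.1.1, fun he => hxz.1.2 (Option.some.inj he)⟩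
      by_cases hz : z = a
      · subst hz; exact ReflTransGen.single hstep
      · exact ReflTransGen.head hstep (ih (hbx.tail ⟨hxz.1.1, hz⟩))
  exact key c h' hch

lemma core {U V' : Type} [Fintype U] [Fintype V'] (T : Tri U) (H : SimpleGraph U)
    (T1 : Tri V') (ι : U → V') (hι : Function.Injective ι) (hcard : 4 ≤ Nat.card V')
    (A1 : ∀ x y, H.Adj x y → T1.G.Adj (ι x) (ι y))
    (A2 : ∀ x y z, T.F x y z → H.Adj x y → H.Adj y z → H.Adj z x → T1.F (ι x) (ι y) (ι z))
    (v a b c : U) (hab : a ≠ b) (hbc : b ≠ c) (hac : a ≠ c)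
    (hv : ∀ x, H.Adj v x ↔ x = a ∨ x = b ∨ x = c)
    (n1 : ¬ T1.G.Adj (ι a) (ι b)) (n2 : ¬ T1.G.Adj (ι b) (ι c)) (n3 : ¬ T1.G.Adj (ι a) (ι c))
    (hch : ReflTransGen (fun p q => T1.F (ι v) p q ∧ q ≠ ι a) (ι b) (ι c)) :
    ∃ (U' : Type) (_ : Fintype U') (j : {x : U // x ≠ v} → U') (T' : Tri U'), Function.Injective j ∧
      4 ≤ Nat.card U' ∧
      (∀ x y : {x : U // x ≠ v}, (HS H {v}).Adj x.1 y.1 → T'.G.Adj (j x) (j y)) ∧
      (∃ a' b' c' : {x : U // x ≠ v}, T'.F (j a') (j b') (j c') ∧ ∀ x, H.Adj v x ↔ x = a'.1 ∨ x = b'.1 ∨ x = c'.1) ∧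
      (∀ x y z : {x : U // x ≠ v}, T.F x.1 y.1 z.1 → H.Adj x.1 y.1 → H.Adj y.1 z.1 → H.Adj z.1 x.1 →
        T'.F (j x) (j y) (j z)) := by
  classical
  have Hva : H.Adj v a := (hv a).2 (Or.inl rfl)
  have Hvb : H.Adj v b := (hv b).2 (Or.inr (Or.inl rfl))
  have Hvc : H.Adj v c := (hv c).2 (Or.inr (Or.inr rfl))
  have hva := A1 _ _ Hva
  have hvb := A1 _ _ Hvb
  have hvc := A1 _ _ Hvc
  have iab : ι a ≠ ι b := hι.ne hab
  have ibc : ι b ≠ ι c := hι.ne hbc
  have iac : ι a ≠ ι c := hι.ne hac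
  obtain ⟨T2, c2, f2, d2, e2, g2⟩ := FD_CUT T1 (ι v) (ι a) (ι b) hva hvb iab n1
  have hchain := chain2 T1 T2 (ι v) (ι a) (ι b) (ι c) iab hva hvc hch g2
  -- second cut
  have q2b : T2.G.Adj (some (ι v)) (some (ι b)) := (T2.G.adj_comm _ _).1 ⟨_, T2.rot _ _ _ (T2.rot _ _ _ e2)⟩
  have q2c : T2.G.Adj (some (ι v)) (some (ι c)) := by
    obtain ⟨y, hy⟩ := hvc
    exact ⟨_, g2 _ _ hch iac.symm hy⟩
  have sbc : (some (ι b) : Option V') ≠ some (ι c) := fun h => ibc (Option.some.inj h)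
  have sab : (some (ι a) : Option V') ≠ some (ι b) := fun h => iab (Option.some.inj h)
  have sac : (some (ι a) : Option V') ≠ some (ι c) := fun h => iac (Option.some.inj h)
  have m2 : ¬ T2.G.Adj (some (ι b)) (some (ι c)) := by
    intro h
    rcases d2 _ _ h with h | ⟨h, _⟩ | ⟨_, h⟩
    · exact n2 h
    · exact iab h.symm
    · exact iac h.symm
  obtain ⟨T3, c3, f3, d3, e3, g3⟩ := FD_CUT T2 (some (ι v)) (some (ι b)) (some (ι c)) q2b q2c sbc m2
  have F3ab : T3.F (some (some (ι v))) (some (some (ι a))) (some (some (ι b))) :=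
    g3 _ _ hchain sab e2
  have q3c : T3.G.Adj (some (some (ι v))) (some (some (ι c))) :=
    (T3.G.adj_comm _ _).1 ⟨_, T3.rot _ _ _ (T3.rot _ _ _ e3)⟩
  have q3a : T3.G.Adj (some (some (ι v))) (some (some (ι a))) := ⟨_, F3ab⟩
  have tbc : (some (some (ι b)) : Option (Option V')) ≠ some (some (ι c)) := fun h => sbc (Option.some.inj h)
  have tac : (some (some (ι a)) : Option (Option V')) ≠ some (some (ι c)) := fun h => sac (Option.some.inj h)
  have m3 : ¬ T3.G.Adj (some (some (ι c))) (some (some (ι a))) := by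
    intro h
    rcases d3 _ _ h with h | ⟨h, _⟩ | ⟨_, h⟩
    · rcases d2 _ _ h with h | ⟨h, _⟩ | ⟨h, _⟩
      · exact n3 ((T1.G.adj_comm _ _).1 h)
      · exact iac h.symm
      · exact ibc h.symm
    · exact sbc h.symm
    · exact sab h
  obtain ⟨T4, c4, f4, d4, e4, g4⟩ := FD_CUT T3 (some (some (ι v))) (some (some (ι c))) (some (some (ι a)))
    q3c q3a tac.symm m3
  have F4ab : T4.F (some (some (some (ι v)))) (some (some (some (ι a)))) (some (some (some (ι b)))) :=
    g4 _ _ ReflTransGen.refl tac F3ab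
  have F4bc : T4.F (some (some (some (ι v)))) (some (some (some (ι b)))) (some (some (some (ι c)))) :=
    g4 _ _ (ReflTransGen.single ⟨F3ab, tbc⟩) tbc e3
  have hcard4 : Nat.card (Option (Option (Option V'))) = Nat.card V' + 3 := by
    simp [Nat.card_eq_fintype_card, Fintype.card_option]
  obtain ⟨T5, hA5, hF5⟩ := FD_UNST T4 (by rw [hcard4]; omega) (some (some (some (ι v))))
    (some (some (some (ι a)))) (some (some (some (ι b)))) (some (some (some (ι c)))) F4ab F4bc e4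
  have hsne : ∀ x : {x : U // x ≠ v}, (some (some (some (ι x.1))) : Option (Option (Option V'))) ≠
      some (some (some (ι v))) := by
    intro x h
    exact x.2 (hι (Option.some.inj (Option.some.inj (Option.some.inj h))))
  let j : {x : U // x ≠ v} → {x : Option (Option (Option V')) // x ≠ some (some (some (ι v)))} :=
    fun x => ⟨some (some (some (ι x.1))), hsne x⟩
  have keepAdj : ∀ x y : {x : U // x ≠ v}, T1.G.Adj (ι x.1) (ι y.1) → T5.G.Adj (j x) (j y) := by
    intro x y h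
    rw [hA5]
    have hx1 : ι x.1 ≠ ι v := hι.ne x.2
    have hy1 : ι y.1 ≠ ι v := hι.ne y.2
    have hx2 : (some (ι x.1) : Option V') ≠ some (ι v) := fun h => hx1 (Option.some.inj h)
    have hy2 : (some (ι y.1) : Option V') ≠ some (ι v) := fun h => hy1 (Option.some.inj h)
    have hx3 : (some (some (ι x.1)) : Option (Option V')) ≠ some (some (ι v)) := fun h => hx2 (Option.some.inj h)
    have hy3 : (some (some (ι y.1)) : Option (Option V')) ≠ some (some (ι v)) := fun h => hy2 (Option.some.inj h)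
    exact c4 _ _ hx3 hy3 (c3 _ _ hx2 hy2 (c2 _ _ hx1 hy1 h))
  have a4 : T4.G.Adj (some (some (some (ι a)))) (some (some (some (ι b)))) := ⟨_, T4.rot _ _ _ F4ab⟩
  have b4 : T4.G.Adj (some (some (some (ι b)))) (some (some (some (ι c)))) := ⟨_, T4.rot _ _ _ F4bc⟩
  have c4' : T4.G.Adj (some (some (some (ι c)))) (some (some (some (ι a)))) := ⟨_, T4.rot _ _ _ e4⟩
  refine ⟨_, inferInstance, j, T5, ?_, ?_, ?_, ?_, ?_⟩
  · intro x y h
    have h1 := congrArg Subtype.val h
    exact Subtype.ext (hι (Option.some.inj (Option.some.inj (Option.some.inj h1))))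
  · have h1 : Nat.card {x : Option (Option (Option V')) // x ≠ some (some (some (ι v)))} + 1 =
        Nat.card (Option (Option (Option V'))) := by
      have h2 := Fintype.card_subtype_compl (fun x : Option (Option (Option V')) => x = some (some (some (ι v))))
      have h3 : Fintype.card {x : Option (Option (Option V')) // x = some (some (some (ι v)))} = 1 :=
        Fintype.card_subtype_eq _
      rw [h3] at h2
      rw [Nat.card_eq_fintype_card, Nat.card_eq_fintype_card]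
      have h4 : 0 < Fintype.card (Option (Option (Option V'))) := Fintype.card_pos
      have h5 : Fintype.card {x : Option (Option (Option V')) // x ≠ some (some (some (ι v)))} =
          Fintype.card (Option (Option (Option V'))) - 1 := by
        rw [← h2]
      omega
    omega
  · rintro x y ⟨hxy, _, _, h | ⟨w, hw, hwx, hwy⟩⟩
    · exact keepAdj x y (A1 _ _ h)
    · rw [Set.mem_singleton_iff] at hw
      subst hw
      rw [hA5]
      show T4.G.Adj (some (some (some (ι x.1)))) (some (some (some (ι y.1))))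
      rcases (hv _).1 hwx with h1 | h1 | h1 <;> rcases (hv _).1 hwy with h2 | h2 | h2 <;>
        rw [h1, h2] <;>
        first
          | exact absurd (h1.trans h2.symm) hxy
          | exact a4
          | exact (T4.G.adj_comm _ _).1 a4
          | exact b4
          | exact (T4.G.adj_comm _ _).1 b4
          | exact c4'
          | exact (T4.G.adj_comm _ _).1 c4'
  · refine ⟨⟨a, Hva.ne'⟩, ⟨b, Hvb.ne'⟩, ⟨c, Hvc.ne'⟩, ?_, hv⟩
    rw [hF5]
    exact Or.inr (Or.inl ⟨rfl, rfl, rfl⟩)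
  · intro x y z hF h1 h2 h3
    rw [hF5]
    left
    have hx1 : ι x.1 ≠ ι v := hι.ne x.2
    have hy1 : ι y.1 ≠ ι v := hι.ne y.2
    have hz1 : ι z.1 ≠ ι v := hι.ne z.2
    have hx2 : (some (ι x.1) : Option V') ≠ some (ι v) := fun h => hx1 (Option.some.inj h)
    have hy2 : (some (ι y.1) : Option V') ≠ some (ι v) := fun h => hy1 (Option.some.inj h)
    have hz2 : (some (ι z.1) : Option V') ≠ some (ι v) := fun h => hz1 (Option.some.inj h)
    have hx3 : (some (some (ι x.1)) : Option (Option V')) ≠ some (some (ι v)) := fun h => hx2 (Option.some.inj h)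
    have hy3 : (some (some (ι y.1)) : Option (Option V')) ≠ some (some (ι v)) := fun h => hy2 (Option.some.inj h)
    have hz3 : (some (some (ι z.1)) : Option (Option V')) ≠ some (some (ι v)) := fun h => hz2 (Option.some.inj h)
    exact f4 _ _ _ hx3 hy3 hz3 (f3 _ _ _ hx2 hy2 hz2 (f2 _ _ _ hx1 hy1 hz1 (A2 _ _ _ hF h1 h2 h3)))

end W_FD_STEP

open W_FD_STEP in
theorem FD_STEP {U : Type} [Fintype U] (T : Tri U) (hU : 4 ≤ Nat.card U) (H : SimpleGraph U)
    (hH : ∀ x y, H.Adj x y → T.G.Adj x y) (v a b c : U) (hab : a ≠ b) (hbc : b ≠ c) (hac : a ≠ c)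
    (hv : ∀ x, H.Adj v x ↔ x = a ∨ x = b ∨ x = c) (nab : ¬ H.Adj a b) (nbc : ¬ H.Adj b c) (nac : ¬ H.Adj a c) :
    ∃ (U' : Type) (_ : Fintype U') (j : {x : U // x ≠ v} → U') (T' : Tri U'), Function.Injective j ∧
      4 ≤ Nat.card U' ∧
      (∀ x y : {x : U // x ≠ v}, (HS H {v}).Adj x.1 y.1 → T'.G.Adj (j x) (j y)) ∧
      (∃ a' b' c' : {x : U // x ≠ v}, T'.F (j a') (j b') (j c') ∧ ∀ x, H.Adj v x ↔ x = a'.1 ∨ x = b'.1 ∨ x = c'.1) ∧
      (∀ x y z : {x : U // x ≠ v}, T.F x.1 y.1 z.1 → H.Adj x.1 y.1 → H.Adj y.1 z.1 → H.Adj z.1 x.1 →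
        T'.F (j x) (j y) (j z)) := by
  let P : U → U → Prop := fun x y => T.G.Adj x y ∧ ¬ H.Adj x y ∧
    (x = v ∨ y = v ∨ ((x = a ∨ x = b ∨ x = c) ∧ (y = a ∨ y = b ∨ y = c)))
  have hsym : ∀ x y, P x y → P y x := by
    rintro x y ⟨h1, h2, h3⟩
    refine ⟨h1.symm, fun h => h2 h.symm, ?_⟩
    rcases h3 with h | h | ⟨h, h'⟩
    · exact Or.inr (Or.inl h)
    · exact Or.inl h
    · exact Or.inr (Or.inr ⟨h', h⟩)
  obtain ⟨V', hV', ι, T1, hι, s1, s2, _, _⟩ := FS_SUBALL T hU P hsym (fun x y h => h.1)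
  haveI := hV'
  have hcard : 4 ≤ Nat.card V' := hU.trans (Nat.card_le_card_of_injective ι hι)
  have A1 : ∀ x y, H.Adj x y → T1.G.Adj (ι x) (ι y) := fun x y h => (s1 x y).2 ⟨hH _ _ h, fun hp => hp.2.1 h⟩
  have A2 : ∀ x y z, T.F x y z → H.Adj x y → H.Adj y z → H.Adj z x → T1.F (ι x) (ι y) (ι z) :=
    fun x y z hF h1 h2 h3 => s2 x y z hF (fun hp => hp.2.1 h1) (fun hp => hp.2.1 h2) (fun hp => hp.2.1 h3)
  have n1 : ¬ T1.G.Adj (ι a) (ι b) := fun h => ((s1 a b).1 h).2
    ⟨((s1 a b).1 h).1, nab, Or.inr (Or.inr ⟨Or.inl rfl, Or.inr (Or.inl rfl)⟩)⟩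
  have n2 : ¬ T1.G.Adj (ι b) (ι c) := fun h => ((s1 b c).1 h).2
    ⟨((s1 b c).1 h).1, nbc, Or.inr (Or.inr ⟨Or.inr (Or.inl rfl), Or.inr (Or.inr rfl)⟩)⟩
  have n3 : ¬ T1.G.Adj (ι a) (ι c) := fun h => ((s1 a c).1 h).2
    ⟨((s1 a c).1 h).1, nac, Or.inr (Or.inr ⟨Or.inl rfl, Or.inr (Or.inr rfl)⟩)⟩
  have hvb := A1 _ _ ((hv b).2 (Or.inr (Or.inl rfl)))
  have hvc := A1 _ _ ((hv c).2 (Or.inr (Or.inr rfl)))
  rcases dich T1 (ι v) (ι a) (ι b) (ι c) hvb hvc with h | h
  · exact core T H T1 ι hι hcard A1 A2 v a b c hab hbc hac hv n1 n2 n3 h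
  · exact core T H T1 ι hι hcard A1 A2 v a c b hac hbc.symm hab
      (fun x => by rw [hv x]; constructor <;> (rintro (h | h | h) <;> simp [h]))
      n3 (fun h => n2 h.symm) n1 h


end Pool.Agent.H891WLC
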