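import Pool.Agent.H891FSS.Defs
import Pool.Agent.H891FSS.FD_STEP

set_option autoImplicit false

namespace Pool.Agent.H891WLC

namespace W_FD_BUILD0

theorem aux {U : Type} [Fintype U] (T : Tri U) (hU : 4 ≤ Nat.card U) (H : SimpleGraph U)
    (hH : ∀ x y, H.Adj x y → T.G.Adj x y) (S : Set U) (hfin : S.Finite) :
    Sparse H S → 
    (∀ v ∈ S, ∃ a b c, a ≠ b ∧ b ≠ c ∧ a ≠ c ∧ ∀ x, H.Adj v x ↔ x = a ∨ x = b ∨ x = c) →
    (∀ v ∈ S, ∀ x y, H.Adj v x → H.Adj v y → ¬ H.Adj x y) →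
    ∃ (U' : Type) (_ : Fintype U') (j : {x : U // x ∉ S} → U') (T0 : Tri U'), Function.Injective j ∧
      4 ≤ Nat.card U' ∧
      (∀ x y : {x : U // x ∉ S}, (HS H S).Adj x.1 y.1 → T0.G.Adj (j x) (j y)) ∧
      (∀ v ∈ S, ∃ a b c : {x : U // x ∉ S}, T0.F (j a) (j b) (j c) ∧
        ∀ x, H.Adj v x ↔ x = a.1 ∨ x = b.1 ∨ x = c.1) := by
  refine Set.Finite.induction_on (motive := fun S _ => Sparse H S → 
    (∀ v ∈ S, ∃ a b c, a ≠ b ∧ b ≠ c ∧ a ≠ c ∧ ∀ x, H.Adj v x ↔ x = a ∨ x = b ∨ x = c) →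
    (∀ v ∈ S, ∀ x y, H.Adj v x → H.Adj v y → ¬ H.Adj x y) →
    ∃ (U' : Type) (_ : Fintype U') (j : {x : U // x ∉ S} → U') (T0 : Tri U'), Function.Injective j ∧
      4 ≤ Nat.card U' ∧
      (∀ x y : {x : U // x ∉ S}, (HS H S).Adj x.1 y.1 → T0.G.Adj (j x) (j y)) ∧
      (∀ v ∈ S, ∃ a b c : {x : U // x ∉ S}, T0.F (j a) (j b) (j c) ∧
        ∀ x, H.Adj v x ↔ x = a.1 ∨ x = b.1 ∨ x = c.1)) S hfin ?_ ?_
  · intro _ _ _
    refine ⟨U, inferInstance, Subtype.val, T, Subtype.val_injective, hU, ?_, ?_⟩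
    · rintro x y ⟨_, _, _, h | ⟨v, hv, _⟩⟩
      · exact hH _ _ h
      · exact absurd hv (Set.notMem_empty v)
    · intro v hv; exact absurd hv (Set.notMem_empty v)
  · intro v S hvS hfin ih hS h3 hT
    have hsub : ∀ s ∈ S, s ∈ insert v S := fun s hs => Set.mem_insert_of_mem v hs
    have hvI : v ∈ insert v S := Set.mem_insert v S
    obtain ⟨U1, F1, j1, T1, j1inj, hU1, hadj1, hface1⟩ := ih
      (fun s hs w hw hne => hS s (hsub s hs) w (hsub w hw) hne)
      (fun s hs => h3 s (hsub s hs)) (fun s hs => hT s (hsub s hs))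
    obtain ⟨a, b, c, hab, hbc, hac, hN⟩ := h3 v hvI
    have hne : ∀ s ∈ S, s ≠ v := fun s hs h => hvS (h ▸ hs)
    have hnb : ∀ x, H.Adj v x → x ∉ S := by
      intro x hx hxS
      exact (hS x (hsub x hxS) v hvI (hne x hxS)).1 hx.symm
    have hns : ∀ s ∈ S, ¬ H.Adj s v := fun s hs h => (hS s (hsub s hs) v hvI (hne s hs)).1 h
    have hcn : ∀ s ∈ S, ∀ x, H.Adj v x → ¬ H.Adj s x := fun s hs x hx h =>
      (hS s (hsub s hs) v hvI (hne s hs)).2 x ⟨h, hx⟩
    have haA : H.Adj v a := (hN a).2 (Or.inl rfl)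
    have hbA : H.Adj v b := (hN b).2 (Or.inr (Or.inl rfl))
    have hcA : H.Adj v c := (hN c).2 (Or.inr (Or.inr rfl))
    let v' : {x : U // x ∉ S} := ⟨v, hvS⟩
    let H1 : SimpleGraph U1 :=
      { Adj := fun p q => ∃ x y : {x : U // x ∉ S}, j1 x = p ∧ j1 y = q ∧ (HS H S).Adj x.1 y.1
        symm := ⟨by
          rintro p q ⟨x, y, hx, hy, h⟩
          exact ⟨y, x, hy, hx, h.symm⟩⟩
        loopless := ⟨by
          rintro p ⟨x, y, hx, hy, h⟩
          have : x = y := j1inj (hx.trans hy.symm)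
          subst this
          exact (HS H S).irrefl h⟩ }
    have hH1 : ∀ x y : {x : U // x ∉ S}, H1.Adj (j1 x) (j1 y) ↔ (HS H S).Adj x.1 y.1 := by
      intro x y
      constructor
      · rintro ⟨x', y', hx, hy, h⟩
        rw [← j1inj hx, ← j1inj hy]; exact h
      · intro h
        exact ⟨x, y, rfl, rfl, h⟩
    have hsv : ∀ y : {x : U // x ∉ S}, (HS H S).Adj v y.1 ↔ H.Adj v y.1 := by
      intro y
      constructor
      · rintro ⟨_, _, _, h | ⟨s, hs, h1, _⟩⟩
        · exact h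
        · exact absurd h1 (hns s hs)
      · intro h
        exact ⟨h.ne, hvS, y.2, Or.inl h⟩
    have hH1v : ∀ y : {x : U // x ∉ S}, H1.Adj (j1 v') (j1 y) ↔ H.Adj v y.1 := by
      intro y
      rw [hH1]; exact hsv y
    have hH1v' : ∀ p, H1.Adj (j1 v') p → ∃ y : {x : U // x ∉ S}, j1 y = p ∧ H.Adj v y.1 := by
      rintro p ⟨x, y, hx, hy, h⟩
      have : x = v' := j1inj hx
      subst this
      exact ⟨y, hy, (hsv y).1 h⟩
    have hnadj : ∀ x y : {x : U // x ∉ S}, H.Adj v x.1 → H.Adj v y.1 → ¬ H1.Adj (j1 x) (j1 y) := by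
      intro x y hx hy h
      rw [hH1] at h
      obtain ⟨_, _, _, h | ⟨s, hs, h1, _⟩⟩ := h
      · exact hT v hvI _ _ hx hy h
      · exact hcn s hs _ hx h1
    let a' : {x : U // x ∉ S} := ⟨a, hnb a haA⟩
    let b' : {x : U // x ∉ S} := ⟨b, hnb b hbA⟩
    let c' : {x : U // x ∉ S} := ⟨c, hnb c hcA⟩
    obtain ⟨U2, F2, j2, T2, j2inj, hU2, hadj2, ⟨p, q, r, hpqr, hpqrN⟩, hkeep⟩ :=
      FD_STEP T1 hU1 H1 (by
        rintro x y ⟨x', y', rfl, rfl, h⟩
        exact hadj1 _ _ h) (j1 v') (j1 a') (j1 b') (j1 c')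
        (fun h => hab (congrArg Subtype.val (j1inj h)))
        (fun h => hbc (congrArg Subtype.val (j1inj h)))
        (fun h => hac (congrArg Subtype.val (j1inj h)))
        (by
          intro x
          constructor
          · intro h
            obtain ⟨y, rfl, hy⟩ := hH1v' x h
            rcases (hN y.1).1 hy with h | h | h
            · left; congr 1; exact Subtype.ext h
            · right; left; congr 1; exact Subtype.ext h
            · right; right; congr 1; exact Subtype.ext h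
          · rintro (rfl | rfl | rfl)
            · exact (hH1v a').2 haA
            · exact (hH1v b').2 hbA
            · exact (hH1v c').2 hcA)
        (hnadj a' b' haA hbA) (hnadj b' c' hbA hcA) (hnadj a' c' haA hcA)
    have hI : ∀ x : {x : U // x ∉ insert v S}, x.1 ∉ S := fun x h => x.2 (hsub _ h)
    have hIv : ∀ x : {x : U // x ∉ insert v S}, x.1 ≠ v := fun x h => x.2 (by rw [h]; exact hvI)
    let k : {x : U // x ∉ insert v S} → {x : U1 // x ≠ j1 v'} := fun x =>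
      ⟨j1 ⟨x.1, hI x⟩, fun h => hIv x (congrArg Subtype.val (j1inj h))⟩
    have hkv : ∀ x, (k x).1 = j1 ⟨x.1, hI x⟩ := fun x => rfl
    refine ⟨U2, F2, fun x => j2 (k x), T2, ?_, hU2, ?_, ?_⟩
    · intro x y h
      have h1 := congrArg Subtype.val (j2inj h)
      rw [hkv, hkv] at h1
      have h2 := congrArg Subtype.val (j1inj h1)
      exact Subtype.ext h2
    · intro x y hxy
      apply hadj2
      obtain ⟨hne', hx, hy, hor⟩ := hxy
      refine ⟨?_, ?_, ?_, ?_⟩
      · rw [hkv, hkv]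
        intro h
        have h2 := congrArg (fun t : {x : U // x ∉ S} => t.1) (j1inj h)
        exact hne' h2
      · exact (k x).2
      · exact (k y).2
      · rw [hkv, hkv]
        rcases hor with h | ⟨s, hs, h1, h2⟩
        · left
          rw [hH1]
          exact ⟨hne', hI x, hI y, Or.inl h⟩
        · rcases Set.mem_insert_iff.1 hs with rfl | hs
          · right
            exact ⟨j1 v', rfl, (hH1v _).2 h1, (hH1v _).2 h2⟩
          · left
            rw [hH1]
            exact ⟨hne', hI x, hI y, Or.inr ⟨s, hs, h1, h2⟩⟩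
    · intro s hs
      rcases Set.mem_insert_iff.1 hs with rfl | hsS
      · -- the new vertex
        have key : ∀ p : {x : U1 // x ≠ j1 v'}, H1.Adj (j1 v') p.1 →
            ∃ x : {x : U // x ∉ insert s S}, k x = p ∧ H.Adj s x.1 := by
          intro p hp
          obtain ⟨y, hy, hvy⟩ := hH1v' _ hp
          refine ⟨⟨y.1, ?_⟩, ?_, hvy⟩
          · intro h
            rcases Set.mem_insert_iff.1 h with h | h
            · exact hvy.ne h.symm
            · exact y.2 h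
          · exact Subtype.ext hy
        obtain ⟨x, hx, hxA⟩ := key p ((hpqrN p.1).2 (Or.inl rfl))
        obtain ⟨y, hy, hyA⟩ := key q ((hpqrN q.1).2 (Or.inr (Or.inl rfl)))
        obtain ⟨z, hz, hzA⟩ := key r ((hpqrN r.1).2 (Or.inr (Or.inr rfl)))
        refine ⟨x, y, z, by show T2.F (j2 (k x)) (j2 (k y)) (j2 (k z)); rw [hx, hy, hz]; exact hpqr, ?_⟩
        intro w
        constructor
        · intro hw
          have h1 := (hpqrN _).1 ((hH1v ⟨w, hnb w hw⟩).2 hw)
          rw [← hx, ← hy, ← hz, hkv, hkv, hkv] at h1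
          rcases h1 with h | h | h
          · left; exact congrArg Subtype.val (j1inj h)
          · right; left; exact congrArg Subtype.val (j1inj h)
          · right; right; exact congrArg Subtype.val (j1inj h)
        · rintro (rfl | rfl | rfl)
          · exact hxA
          · exact hyA
          · exact hzA
      · obtain ⟨x, y, z, hF, hNs⟩ := hface1 s hsS
        have hx : H.Adj s x.1 := (hNs _).2 (Or.inl rfl)
        have hy : H.Adj s y.1 := (hNs _).2 (Or.inr (Or.inl rfl))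
        have hz : H.Adj s z.1 := (hNs _).2 (Or.inr (Or.inr rfl))
        have hnot : ∀ x : {x : U // x ∉ S}, H.Adj s x.1 → x.1 ∉ insert v S := by
          intro x hx h
          rcases Set.mem_insert_iff.1 h with h | h
          · rw [h] at hx; exact hns s hsS hx
          · exact x.2 h
        have hF2 := T1.rot _ _ _ hF
        have hF3 := T1.rot _ _ _ hF2
        have hxy : x.1 ≠ y.1 := fun h => T1.ne _ _ _ hF (congrArg j1 (Subtype.ext h))
        have hyz : y.1 ≠ z.1 := fun h => T1.ne _ _ _ hF2 (congrArg j1 (Subtype.ext h))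
        have hzx : z.1 ≠ x.1 := fun h => T1.ne _ _ _ hF3 (congrArg j1 (Subtype.ext h))
        refine ⟨⟨x.1, hnot x hx⟩, ⟨y.1, hnot y hy⟩, ⟨z.1, hnot z hz⟩, ?_, hNs⟩
        apply hkeep
        · exact hF
        · exact (hH1 x y).2 ⟨hxy, x.2, y.2, Or.inr ⟨s, hsS, hx, hy⟩⟩
        · exact (hH1 y z).2 ⟨hyz, y.2, z.2, Or.inr ⟨s, hsS, hy, hz⟩⟩
        · exact (hH1 z x).2 ⟨hzx, z.2, x.2, Or.inr ⟨s, hsS, hz, hx⟩⟩

end W_FD_BUILD0

open W_FD_BUILD0 in
theorem FD_BUILD0 {U : Type} [Fintype U] (T : Tri U) (hU : 4 ≤ Nat.card U) (H : SimpleGraph U)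
    (hH : ∀ x y, H.Adj x y → T.G.Adj x y) (S : Set U) (hS : Sparse H S)
    (h3 : ∀ v ∈ S, ∃ a b c, a ≠ b ∧ b ≠ c ∧ a ≠ c ∧ ∀ x, H.Adj v x ↔ x = a ∨ x = b ∨ x = c)
    (hT : ∀ v ∈ S, ∀ x y, H.Adj v x → H.Adj v y → ¬ H.Adj x y) :
    ∃ (U' : Type) (_ : Fintype U') (j : {x : U // x ∉ S} → U') (T0 : Tri U'), Function.Injective j ∧
      4 ≤ Nat.card U' ∧
      (∀ x y : {x : U // x ∉ S}, (HS H S).Adj x.1 y.1 → T0.G.Adj (j x) (j y)) ∧
      (∀ v ∈ S, ∃ a b c : {x : U // x ∉ S}, T0.F (j a) (j b) (j c) ∧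
        ∀ x, H.Adj v x ↔ x = a.1 ∨ x = b.1 ∨ x = c.1) := by
  exact aux T hU H hH S (Set.toFinite S) hS h3 hT


end Pool.Agent.H891WLC
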