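import Pool.Agent.H891FSS.Defs

set_option autoImplicit false

namespace Pool.Agent.H891WLC

namespace W_FD_COL

theorem add_vertex {U : Type} (K : SimpleGraph U) (A : Set U) (z : U) (h : For1 K A)
    (h1 : ∀ x ∈ A, ∀ y ∈ A, K.Adj z x → K.Adj z y → x = y) : For1 K (insert z A) := by
  intro Z hZ hne
  by_cases hz : z ∈ Z
  · refine ⟨z, hz, fun x hx y hy hzx hzy => ?_⟩
    have hx' : x ∈ A := (hZ hx).resolve_left (fun e => hzx.ne e.symm)
    have hy' : y ∈ A := (hZ hy).resolve_left (fun e => hzy.ne e.symm)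
    exact h1 x hx' y hy' hzx hzy
  · exact h Z (fun x hx => (hZ hx).resolve_left (fun e => hz (e ▸ hx))) hne

theorem deg3 {U : Type} [Finite U] (H : SimpleGraph U) (S : Set U)
    (hS : ∀ v ∈ S, ∀ w ∈ S, v ≠ w → ¬ H.Adj v w ∧ (∀ x, ¬ (H.Adj v x ∧ H.Adj w x)) ∧
      ∀ x y, H.Adj v x → H.Adj w y → ¬ H.Adj x y)
    (hd : ∀ v, Set.ncard {x | H.Adj v x} ≤ 3) (Z : Set U) (hZ : Z.Nonempty) :
    ∃ z ∈ Z, Set.ncard {x | x ∈ Z ∧ (HS H S).Adj z x} ≤ 3 := by
  by_cases h1 : ∃ z ∈ Z, z ∈ S ∨ ∀ v ∈ S, ¬ H.Adj z v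
  · obtain ⟨z, hz, h2⟩ := h1
    refine ⟨z, hz, le_trans (Set.ncard_le_ncard (t := {x | H.Adj z x}) ?_ (Set.toFinite _)) (hd z)⟩
    rintro x ⟨hx, hzx⟩
    rcases h2 with h2 | h2
    · exact absurd h2 hzx.2.1
    · rcases hzx.2.2.2 with h3 | ⟨v, hv, h3, h4⟩
      · exact h3
      · exact absurd h3.symm (h2 v hv)
  · push Not at h1
    obtain ⟨z, hz⟩ := hZ
    obtain ⟨hzS, v, hv, hzv⟩ := h1 z hz
    refine ⟨z, hz, le_trans (Set.ncard_le_ncard (t := {x | H.Adj v x}) ?_ (Set.toFinite _)) (hd v)⟩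
    rintro x ⟨hx, hzx⟩
    rcases hzx.2.2.2 with h3 | ⟨w, hw, h3, h4⟩
    · obtain ⟨hxS, w, hw, hxw⟩ := h1 x hx
      by_cases hvw : v = w
      · show H.Adj v x
        rw [hvw]
        exact hxw.symm
      · exact absurd h3 ((hS v hv w hw hvw).2.2 z x hzv.symm hxw.symm)
    · by_cases hvw : v = w
      · show H.Adj v x
        rw [hvw]
        exact h4
      · exact absurd ⟨hzv.symm, h3⟩ ((hS v hv w hw hvw).2.1 z)

theorem col_ind {U : Type} [Finite U] (K : SimpleGraph U)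
    (h3 : ∀ Z : Set U, Z.Nonempty → ∃ z ∈ Z, Set.ncard {x | x ∈ Z ∧ K.Adj z x} ≤ 3) :
    ∀ (n : ℕ) (Z : Set U), Z.ncard = n → ∃ A ⊆ Z, For1 K A ∧ For1 K (Z \ A) := by
  intro n
  induction n with
  | zero =>
    intro Z hZ
    have hZ0 : Z = ∅ := (Set.ncard_eq_zero (Set.toFinite _)).1 hZ
    refine ⟨∅, Set.empty_subset _, ?_, ?_⟩
    · intro W hW hne
      obtain ⟨w, hw⟩ := hne
      exact absurd (hW hw) (Set.notMem_empty _)
    · intro W hW hne
      obtain ⟨w, hw⟩ := hne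
      have := (hW hw).1
      rw [hZ0] at this
      exact absurd this (Set.notMem_empty _)
  | succ n ih =>
    intro Z hZ
    have hne : Z.Nonempty := by
      rw [Set.nonempty_iff_ne_empty]
      rintro rfl
      simp at hZ
    obtain ⟨z, hz, hdeg⟩ := h3 Z hne
    obtain ⟨A, hAZ, hA, hB⟩ := ih (Z \ {z}) (by
      rw [Set.ncard_sdiff_singleton_of_mem hz, hZ]
      rfl)
    have hzA : z ∉ A := fun h => (hAZ h).2 rfl
    obtain ⟨N, hN⟩ : ∃ N, N = {x | x ∈ Z ∧ K.Adj z x} := ⟨_, rfl⟩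
    rw [← hN] at hdeg
    have hcard : (N ∩ A).ncard + (N ∩ ((Z \ {z}) \ A)).ncard ≤ 3 := by
      rw [← Set.ncard_union_eq (by
        rw [Set.disjoint_left]
        rintro x ⟨_, hx⟩ ⟨_, _, hx'⟩
        exact hx' hx) (Set.toFinite _) (Set.toFinite _)]
      refine le_trans (Set.ncard_le_ncard ?_ (Set.toFinite _)) hdeg
      rintro x (hx | hx)
      · exact hx.1
      · exact hx.1
    rcases le_or_gt (N ∩ A).ncard 1 with hc | hc
    · refine ⟨insert z A, Set.insert_subset hz (hAZ.trans Set.sdiff_subset), ?_, ?_⟩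
      · apply add_vertex K A z hA
        intro x hx y hy hzx hzy
        refine (Set.ncard_le_one_iff (Set.toFinite _)).1 hc ?_ ?_
        · rw [hN]
          exact ⟨⟨(hAZ hx).1, hzx⟩, hx⟩
        · rw [hN]
          exact ⟨⟨(hAZ hy).1, hzy⟩, hy⟩
      · have he : Z \ insert z A = (Z \ {z}) \ A := by
          ext x
          simp only [Set.mem_sdiff, Set.mem_insert_iff, Set.mem_singleton_iff]
          tauto
        rw [he]
        exact hB
    · have hc2 : (N ∩ ((Z \ {z}) \ A)).ncard ≤ 1 := by omega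
      refine ⟨A, hAZ.trans Set.sdiff_subset, hA, ?_⟩
      have he : Z \ A = insert z ((Z \ {z}) \ A) := by
        ext x
        simp only [Set.mem_sdiff, Set.mem_insert_iff, Set.mem_singleton_iff]
        constructor
        · rintro ⟨h1, h2⟩
          by_cases h4 : x = z
          · exact Or.inl h4
          · exact Or.inr ⟨⟨h1, h4⟩, h2⟩
        · rintro (rfl | ⟨⟨h1, h4⟩, h2⟩)
          · exact ⟨hz, hzA⟩
          · exact ⟨h1, h2⟩
      rw [he]
      apply add_vertex K _ z hB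
      intro x hx y hy hzx hzy
      refine (Set.ncard_le_one_iff (Set.toFinite _)).1 hc2 ?_ ?_
      · rw [hN]
        exact ⟨⟨hx.1.1, hzx⟩, hx⟩
      · rw [hN]
        exact ⟨⟨hy.1.1, hzy⟩, hy⟩


end W_FD_COL

open W_FD_COL in
theorem FD_COL {U : Type} [Finite U] (H : SimpleGraph U) (S : Set U)
    (hS : ∀ v ∈ S, ∀ w ∈ S, v ≠ w → ¬ H.Adj v w ∧ (∀ x, ¬ (H.Adj v x ∧ H.Adj w x)) ∧
      ∀ x y, H.Adj v x → H.Adj w y → ¬ H.Adj x y)
    (hd : ∀ v, Set.ncard {x | H.Adj v x} ≤ 3) :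
    ∃ A : Set U, For1 (HS H S) A ∧ For1 (HS H S) Aᶜ := by
  obtain ⟨A, _, hA, hB⟩ := col_ind (HS H S) (deg3 H S hS hd) _ Set.univ rfl
  refine ⟨A, hA, ?_⟩
  rw [Set.compl_eq_univ_sdiff]
  exact hB


end Pool.Agent.H891WLC
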