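import Pool.Agent.H891FSS.Defs

set_option autoImplicit false

namespace Pool.Agent.H891WLC

namespace W_FS_MSTACK

variable {V S : Type}

theorem rot_rot {o1 o2 o3 a b c : V} (h : IsRot o1 o2 o3 a b c) : IsRot o1 o2 o3 b c a := by
  unfold IsRot at *
  tauto

theorem rot_first {o1 o2 o3 a b c b' c' : V} (h12 : o1 ≠ o2) (h23 : o2 ≠ o3) (h31 : o3 ≠ o1)
    (h : IsRot o1 o2 o3 a b c) (h' : IsRot o1 o2 o3 a b' c') : b = b' ∧ c = c' := by
  unfold IsRot at h h'
  rcases h with ⟨h1, h2, h3⟩ | ⟨h1, h2, h3⟩ | ⟨h1, h2, h3⟩ <;>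
    rcases h' with ⟨h4, h5, h6⟩ | ⟨h4, h5, h6⟩ | ⟨h4, h5, h6⟩
  · exact ⟨h2.trans h5.symm, h3.trans h6.symm⟩
  · exact absurd (h1.symm.trans h4) h12
  · exact absurd (h4.symm.trans h1) h31
  · exact absurd (h4.symm.trans h1) h12
  · exact ⟨h2.trans h5.symm, h3.trans h6.symm⟩
  · exact absurd (h1.symm.trans h4) h23
  · exact absurd (h1.symm.trans h4) h31
  · exact absurd (h4.symm.trans h1) h23
  · exact ⟨h2.trans h5.symm, h3.trans h6.symm⟩

theorem rot_same {o1 o2 o3 p1 p2 p3 a b c : V} (h : IsRot o1 o2 o3 a b c)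
    (h' : IsRot p1 p2 p3 a b c) : IsRot o1 o2 o3 p1 p2 p3 := by
  unfold IsRot at h h' ⊢
  rcases h' with ⟨h4, h5, h6⟩ | ⟨h4, h5, h6⟩ | ⟨h4, h5, h6⟩
  · rw [h4, h5, h6] at h; exact h
  · rw [h4, h5, h6] at h; tauto
  · rw [h4, h5, h6] at h; tauto

theorem rot_mem {o1 o2 o3 a b c a' b' c' : V} (h : IsRot o1 o2 o3 a b c)
    (h' : IsRot o1 o2 o3 a' b' c') : a' = a ∨ a' = b ∨ a' = c := by
  unfold IsRot at h h'
  rcases h with ⟨h1, h2, h3⟩ | ⟨h1, h2, h3⟩ | ⟨h1, h2, h3⟩ <;>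
    rcases h' with ⟨h4, h5, h6⟩ | ⟨h4, h5, h6⟩ | ⟨h4, h5, h6⟩ <;>
    rw [h1, h2, h3, h4] <;> tauto

/-- the new faces -/
def FF (T : Tri V) (f : S → V × V × V) : V ⊕ S → V ⊕ S → V ⊕ S → Prop
  | .inl a, .inl b, .inl c => T.F a b c ∧ ∀ s, ¬ IsRot (f s).1 (f s).2.1 (f s).2.2 a b c
  | .inr s, .inl a, .inl b => ∃ c, IsRot (f s).1 (f s).2.1 (f s).2.2 a b c
  | .inl a, .inl b, .inr s => ∃ c, IsRot (f s).1 (f s).2.1 (f s).2.2 a b c
  | .inl b, .inr s, .inl a => ∃ c, IsRot (f s).1 (f s).2.1 (f s).2.2 a b c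
  | .inr _, .inr _, _ => False
  | .inr _, .inl _, .inr _ => False
  | .inl _, .inr _, .inr _ => False

section
variable (T : Tri V) (f : S → V × V × V) (hf : ∀ s, T.F (f s).1 (f s).2.1 (f s).2.2)

include hf

theorem R_F {s : S} {a b c : V} (h : IsRot (f s).1 (f s).2.1 (f s).2.2 a b c) : T.F a b c := by
  rcases h with ⟨h1, h2, h3⟩ | ⟨h1, h2, h3⟩ | ⟨h1, h2, h3⟩
  · rw [h1, h2, h3]; exact hf s
  · rw [h1, h2, h3]; exact T.rot _ _ _ (hf s)
  · rw [h1, h2, h3]; exact T.rot _ _ _ (T.rot _ _ _ (hf s))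

theorem R_first {s : S} {a b c b' c' : V} (h : IsRot (f s).1 (f s).2.1 (f s).2.2 a b c)
    (h' : IsRot (f s).1 (f s).2.1 (f s).2.2 a b' c') : b = b' ∧ c = c' :=
  rot_first (T.ne _ _ _ (hf s)) (T.ne _ _ _ (T.rot _ _ _ (hf s)))
    (T.ne _ _ _ (T.rot _ _ _ (T.rot _ _ _ (hf s)))) h h'

variable (hd : ∀ s t, s ≠ t → ¬ IsRot (f s).1 (f s).2.1 (f s).2.2 (f t).1 (f t).2.1 (f t).2.2)

include hd

theorem R_inj {s t : S} {a b c c' : V} (h : IsRot (f s).1 (f s).2.1 (f s).2.2 a b c)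
    (h' : IsRot (f t).1 (f t).2.1 (f t).2.2 a b c') : s = t := by
  have hc : c = c' := T.uniq a b c c' (R_F T f hf h) (R_F T f hf h')
  subst hc
  by_contra hst
  exact hd s t hst (rot_same h h')

omit hd hf in
theorem FF_rot (x y z : V ⊕ S) (h : FF T f x y z) : FF T f y z x := by
  match x, y, z, h with
  | .inl a, .inl b, .inl c, h =>
    exact ⟨T.rot _ _ _ h.1, fun s hs => h.2 s (rot_rot (rot_rot hs))⟩
  | .inr s, .inl a, .inl b, h => exact h
  | .inl a, .inl b, .inr s, h => exact h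
  | .inl b, .inr s, .inl a, h => exact h
  | .inr _, .inr _, .inl _, h => exact h.elim
  | .inr _, .inr _, .inr _, h => exact h.elim
  | .inr _, .inl _, .inr _, h => exact h.elim
  | .inl _, .inr _, .inr _, h => exact h.elim

omit hd in
/-- an old directed edge -/
theorem FF_old {a b : V} {z : V ⊕ S} (h : FF T f (.inl a) (.inl b) z) : ∃ c, T.F a b c := by
  match z, h with
  | .inl c, h => exact ⟨c, h.1⟩
  | .inr s, h =>
    obtain ⟨c, hc⟩ := h
    exact ⟨c, R_F T f hf hc⟩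

omit hd hf in
theorem FF_new {a b c : V} (h : T.F a b c) : ∃ z, FF T f (.inl a) (.inl b) z := by
  by_cases hs : ∃ s, IsRot (f s).1 (f s).2.1 (f s).2.2 a b c
  · obtain ⟨s, hs⟩ := hs
    exact ⟨.inr s, c, hs⟩
  · push Not at hs
    exact ⟨.inl c, h, hs⟩

omit hd in
theorem FF_ne (x y z : V ⊕ S) (h : FF T f x y z) : x ≠ y := by
  match x, y, z, h with
  | .inl a, .inl b, z, h =>
    obtain ⟨c, hc⟩ := FF_old T f hf h
    intro he
    exact T.ne _ _ _ hc (Sum.inl_injective he)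
  | .inr s, .inl a, .inl b, h => exact Sum.inr_ne_inl
  | .inl b, .inr s, .inl a, h => exact Sum.inl_ne_inr
  | .inr _, .inr _, .inl _, h => exact h.elim
  | .inr _, .inr _, .inr _, h => exact h.elim
  | .inr _, .inl _, .inr _, h => exact h.elim
  | .inl _, .inr _, .inr _, h => exact h.elim

theorem FF_uniq (x y z w : V ⊕ S) (h : FF T f x y z) (h' : FF T f x y w) : z = w := by
  match x, y, z, w, h, h' with
  | .inl a, .inl b, .inl c, .inl d, h, h' => rw [T.uniq a b c d h.1 h'.1]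
  | .inl a, .inl b, .inl c, .inr s, h, h' =>
    exfalso
    obtain ⟨c', hc'⟩ := h'
    have := T.uniq a b c c' h.1 (R_F T f hf hc')
    rw [← this] at hc'
    exact h.2 s hc'
  | .inl a, .inl b, .inr s, .inl c, h', h =>
    exfalso
    obtain ⟨c', hc'⟩ := h'
    have := T.uniq a b c c' h.1 (R_F T f hf hc')
    rw [← this] at hc'
    exact h.2 s hc'
  | .inl a, .inl b, .inr s, .inr t, h, h' =>
    obtain ⟨c, hc⟩ := h
    obtain ⟨c', hc'⟩ := h'
    rw [R_inj T f hf hd hc hc']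
  | .inl b, .inr s, .inl a, .inl a', h, h' =>
    obtain ⟨c, hc⟩ := h
    obtain ⟨c', hc'⟩ := h'
    rw [(R_first T f hf (rot_rot hc) (rot_rot hc')).2]
  | .inr s, .inl a, .inl b, .inl b', h, h' =>
    obtain ⟨c, hc⟩ := h
    obtain ⟨c', hc'⟩ := h'
    rw [(R_first T f hf hc hc').1]
  | .inl _, .inr _, .inr _, _, h, _ => exact h.elim
  | .inl _, .inr _, .inl _, .inr _, _, h => exact h.elim
  | .inr _, .inl _, .inr _, _, h, _ => exact h.elim
  | .inr _, .inl _, .inl _, .inr _, _, h => exact h.elim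
  | .inr _, .inr _, _, _, h, _ => exact h.elim

omit hd in
theorem FF_opp (x y z : V ⊕ S) (h : FF T f x y z) : ∃ w, FF T f y x w := by
  match x, y, z, h with
  | .inl a, .inl b, z, h =>
    obtain ⟨c, hc⟩ := FF_old T f hf h
    obtain ⟨d, hd'⟩ := T.opp _ _ _ hc
    exact FF_new T f hd'
  | .inr s, .inl a, .inl b, h =>
    obtain ⟨c, hc⟩ := h
    exact ⟨.inl c, b, rot_rot (rot_rot hc)⟩
  | .inl b, .inr s, .inl a, h =>
    obtain ⟨c, hc⟩ := h
    exact ⟨.inl c, a, rot_rot hc⟩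
  | .inr _, .inr _, .inl _, h => exact h.elim
  | .inr _, .inr _, .inr _, h => exact h.elim
  | .inr _, .inl _, .inr _, h => exact h.elim
  | .inl _, .inr _, .inr _, h => exact h.elim

omit hd hf in
theorem FF_link_step (v x y : V) (h : T.F v x y) :
    Relation.ReflTransGen (fun a b => FF T f (.inl v) a b) (.inl x) (.inl y) := by
  by_cases hs : ∃ s, IsRot (f s).1 (f s).2.1 (f s).2.2 v x y
  · obtain ⟨s, hs⟩ := hs
    have h1 : FF T f (.inl v) (.inl x) (.inr s) := ⟨y, hs⟩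
    have h2 : FF T f (.inl v) (.inr s) (.inl y) := ⟨x, rot_rot (rot_rot hs)⟩
    exact (Relation.ReflTransGen.single h1).tail h2
  · push Not at hs
    exact Relation.ReflTransGen.single (⟨h, hs⟩ : FF T f (.inl v) (.inl x) (.inl y))

omit hd hf in
theorem FF_link_path (v x y : V) (h : Relation.ReflTransGen (fun a b => T.F v a b) x y) :
    Relation.ReflTransGen (fun a b => FF T f (.inl v) a b) (.inl x) (.inl y) := by
  induction h with
  | refl => exact Relation.ReflTransGen.refl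
  | tail _ h2 ih => exact ih.trans (FF_link_step T f v _ _ h2)

omit hd in
theorem FF_link_out (v : V) (a b : V ⊕ S) (h : FF T f (.inl v) a b) :
    ∃ a0 b0, T.F v a0 b0 ∧
      Relation.ReflTransGen (fun x y => FF T f (.inl v) x y) a (.inl a0) := by
  match a, b, h with
  | .inl a, b, h =>
    obtain ⟨c, hc⟩ := FF_old T f hf h
    exact ⟨a, c, hc, Relation.ReflTransGen.refl⟩
  | .inr s, .inl y, h =>
    obtain ⟨c, hc⟩ := h
    obtain ⟨d, hd'⟩ := T.opp _ _ _ (R_F T f hf hc)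
    exact ⟨y, d, hd', Relation.ReflTransGen.single
      (⟨c, hc⟩ : FF T f (.inl v) (.inr s) (.inl y))⟩
  | .inr _, .inr _, h => exact h.elim

omit hd in
theorem FF_link_in (v : V) (a b : V ⊕ S) (h : FF T f (.inl v) a b) :
    ∃ a0 b0, T.F v a0 b0 ∧
      Relation.ReflTransGen (fun x y => FF T f (.inl v) x y) (.inl a0) a := by
  match a, b, h with
  | .inl a, b, h =>
    obtain ⟨c, hc⟩ := FF_old T f hf h
    exact ⟨a, c, hc, Relation.ReflTransGen.refl⟩
  | .inr s, .inl y, h =>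
    obtain ⟨c, hc⟩ := h
    have h1 := rot_rot hc
    exact ⟨c, y, R_F T f hf h1, Relation.ReflTransGen.single
      (⟨y, h1⟩ : FF T f (.inl v) (.inl c) (.inr s))⟩
  | .inr _, .inr _, h => exact h.elim

omit hd in
theorem FF_link (v a b c d : V ⊕ S) (h : FF T f v a b) (h' : FF T f v c d) :
    Relation.ReflTransGen (fun x y => FF T f v x y) a c := by
  match v, h, h' with
  | .inl v, h, h' =>
    obtain ⟨a0, b0, h1, h2⟩ := FF_link_out T f hf v a b h
    obtain ⟨c0, d0, h3, h4⟩ := FF_link_in T f hf v c d h'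
    exact (h2.trans (FF_link_path T f v a0 c0 (T.link v a0 b0 c0 d0 h1 h3))).trans h4
  | .inr s, h, h' =>
    match a, b, c, d, h, h' with
    | .inl a, .inl b, .inl c, .inl d, h, h' =>
      obtain ⟨z, hz⟩ := h
      obtain ⟨w, hw⟩ := h'
      have s1 : FF T f (.inr s) (.inl a) (.inl b) := ⟨z, hz⟩
      have s2 : FF T f (.inr s) (.inl b) (.inl z) := ⟨a, rot_rot hz⟩
      rcases rot_mem hz hw with rfl | rfl | rfl
      · exact Relation.ReflTransGen.refl
      · exact Relation.ReflTransGen.single s1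
      · exact (Relation.ReflTransGen.single s1).tail s2
    | .inr _, _, _, _, h, _ => exact h.elim
    | .inl _, .inr _, _, _, h, _ => exact h.elim
    | .inl _, .inl _, .inr _, _, _, h => exact h.elim
    | .inl _, .inl _, .inl _, .inr _, _, h => exact h.elim

omit hd hf in
theorem FF_conn_old (u v : V) :
    Relation.ReflTransGen (fun x y => ∃ z, FF T f x y z) (.inl u) (.inl v) := by
  have h := T.conn u v
  induction h with
  | refl => exact Relation.ReflTransGen.refl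
  | tail _ h2 ih =>
    obtain ⟨z, hz⟩ := h2
    exact ih.tail (FF_new T f hz)

omit hd hf in
theorem FF_conn (u v : V ⊕ S) : Relation.ReflTransGen (fun x y => ∃ z, FF T f x y z) u v := by
  have h1 : ∀ u : V ⊕ S, ∃ u0 : V,
      Relation.ReflTransGen (fun x y => ∃ z, FF T f x y z) u (.inl u0) ∧
      Relation.ReflTransGen (fun x y => ∃ z, FF T f x y z) (.inl u0) u := by
    rintro (u | s)
    · exact ⟨u, Relation.ReflTransGen.refl, Relation.ReflTransGen.refl⟩
    · refine ⟨(f s).1, Relation.ReflTransGen.single ?_, Relation.ReflTransGen.single ?_⟩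
      · exact ⟨.inl (f s).2.1, (f s).2.2, Or.inl ⟨rfl, rfl, rfl⟩⟩
      · exact ⟨.inl (f s).2.2, (f s).2.1, Or.inr (Or.inr ⟨rfl, rfl, rfl⟩)⟩
  obtain ⟨u0, a1, _⟩ := h1 u
  obtain ⟨v0, _, b2⟩ := h1 v
  exact (a1.trans (FF_conn_old T f u0 v0)).trans b2

end

/-- rotations -/
def PP (f : S → V × V × V) (p : S × Fin 3) : V × V × V :=
  ![((f p.1).1, (f p.1).2.1, (f p.1).2.2), ((f p.1).2.1, (f p.1).2.2, (f p.1).1),
    ((f p.1).2.2, (f p.1).1, (f p.1).2.1)] p.2

theorem PP_rot (f : S → V × V × V) (s : S) (i : Fin 3) :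
    IsRot (f s).1 (f s).2.1 (f s).2.2 (PP f (s, i)).1 (PP f (s, i)).2.1 (PP f (s, i)).2.2 := by
  fin_cases i
  · exact Or.inl ⟨rfl, rfl, rfl⟩
  · exact Or.inr (Or.inl ⟨rfl, rfl, rfl⟩)
  · exact Or.inr (Or.inr ⟨rfl, rfl, rfl⟩)

theorem PP_surj (f : S → V × V × V) (s : S) (a b c : V)
    (h : IsRot (f s).1 (f s).2.1 (f s).2.2 a b c) : ∃ i, PP f (s, i) = (a, b, c) := by
  rcases h with ⟨h1, h2, h3⟩ | ⟨h1, h2, h3⟩ | ⟨h1, h2, h3⟩
  · exact ⟨0, by rw [h1, h2, h3]; rfl⟩
  · exact ⟨1, by rw [h1, h2, h3]; rfl⟩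
  · exact ⟨2, by rw [h1, h2, h3]; rfl⟩

theorem PP_first (T : Tri V) (f : S → V × V × V) (hf : ∀ s, T.F (f s).1 (f s).2.1 (f s).2.2)
    (s : S) (i j : Fin 3) (h : (PP f (s, i)).1 = (PP f (s, j)).1) : i = j := by
  have h12 := T.ne _ _ _ (hf s)
  have h23 := T.ne _ _ _ (T.rot _ _ _ (hf s))
  have h31 := T.ne _ _ _ (T.rot _ _ _ (T.rot _ _ _ (hf s)))
  fin_cases i <;> fin_cases j
  · rfl
  · exact absurd h h12
  · exact absurd h.symm h31
  · exact absurd h.symm h12
  · rfl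
  · exact absurd h h23
  · exact absurd h h31
  · exact absurd h.symm h23
  · rfl

/-- unstacked faces -/
abbrev UU (T : Tri V) (f : S → V × V × V) : Type :=
  {t : V × V × V // T.F t.1 t.2.1 t.2.2 ∧
    ∀ s, ¬ IsRot (f s).1 (f s).2.1 (f s).2.2 t.1 t.2.1 t.2.2}

theorem card_old [Finite V] [Finite S] (T : Tri V) (f : S → V × V × V)
    (hf : ∀ s, T.F (f s).1 (f s).2.1 (f s).2.2)
    (hd : ∀ s t, s ≠ t → ¬ IsRot (f s).1 (f s).2.1 (f s).2.2 (f t).1 (f t).2.1 (f t).2.2) :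
    Nat.card {t : V × V × V // T.F t.1 t.2.1 t.2.2} = Nat.card (UU T f) + 3 * Nat.card S := by
  let Φ : UU T f ⊕ (S × Fin 3) → {t : V × V × V // T.F t.1 t.2.1 t.2.2} := fun x =>
    match x with
    | .inl u => ⟨u.1, u.2.1⟩
    | .inr p => ⟨PP f p, R_F T f hf (PP_rot f p.1 p.2)⟩
  have hΦ : Function.Bijective Φ := by
    constructor
    · rintro (u | ⟨s, i⟩) (v | ⟨t, j⟩) h
      · have h' : (Φ (.inl u)).1 = (Φ (.inl v)).1 := congrArg Subtype.val h
        have h'' : u.1 = v.1 := h'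
        rw [Subtype.ext h'']
      · exfalso
        have h' : u.1 = PP f (t, j) := congrArg Subtype.val h
        apply u.2.2 t
        rw [h']
        exact PP_rot f t j
      · exfalso
        have h' : PP f (s, i) = v.1 := congrArg Subtype.val h
        apply v.2.2 s
        rw [← h']
        exact PP_rot f s i
      · have h' : PP f (s, i) = PP f (t, j) := congrArg Subtype.val h
        have h1 := PP_rot f s i
        have h2 := PP_rot f t j
        rw [← h'] at h2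
        have hst := R_inj T f hf hd h1 h2
        subst hst
        have hij := PP_first T f hf s i j (by rw [h'])
        rw [hij]
    · rintro ⟨⟨a, b, c⟩, ht⟩
      by_cases hs : ∃ s, IsRot (f s).1 (f s).2.1 (f s).2.2 a b c
      · obtain ⟨s, hs⟩ := hs
        obtain ⟨i, hi⟩ := PP_surj f s a b c hs
        exact ⟨.inr (s, i), Subtype.ext hi⟩
      · push Not at hs
        exact ⟨.inl ⟨(a, b, c), ht, hs⟩, rfl⟩
  rw [← Nat.card_congr (Equiv.ofBijective Φ hΦ), Nat.card_sum, Nat.card_prod, Nat.card_fin]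
  ring

theorem card_new [Finite V] [Finite S] (T : Tri V) (f : S → V × V × V)
    (hf : ∀ s, T.F (f s).1 (f s).2.1 (f s).2.2)
    (hd : ∀ s t, s ≠ t → ¬ IsRot (f s).1 (f s).2.1 (f s).2.2 (f t).1 (f t).2.1 (f t).2.2) :
    Nat.card {t : (V ⊕ S) × (V ⊕ S) × (V ⊕ S) // FF T f t.1 t.2.1 t.2.2} =
      Nat.card (UU T f) + 9 * Nat.card S := by
  let Φ : UU T f ⊕ ((S × Fin 3) ⊕ ((S × Fin 3) ⊕ (S × Fin 3))) →
      {t : (V ⊕ S) × (V ⊕ S) × (V ⊕ S) // FF T f t.1 t.2.1 t.2.2} := fun x =>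
    match x with
    | .inl u => ⟨(.inl u.1.1, .inl u.1.2.1, .inl u.1.2.2), u.2⟩
    | .inr (.inl p) => ⟨(.inr p.1, .inl (PP f p).1, .inl (PP f p).2.1), (PP f p).2.2,
        PP_rot f p.1 p.2⟩
    | .inr (.inr (.inl p)) => ⟨(.inl (PP f p).1, .inl (PP f p).2.1, .inr p.1), (PP f p).2.2,
        PP_rot f p.1 p.2⟩
    | .inr (.inr (.inr p)) => ⟨(.inl (PP f p).2.1, .inr p.1, .inl (PP f p).1), (PP f p).2.2,
        PP_rot f p.1 p.2⟩
  have hΦ : Function.Bijective Φ := by
    constructor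
    · rintro (u | p | p | p) (v | q | q | q) h <;>
        have h' := congrArg Subtype.val h <;>
        simp only [Φ, Prod.mk.injEq, reduceCtorEq, Sum.inl.injEq, Sum.inr.injEq, false_and,
          and_false] at h'
      · have : u.1 = v.1 := Prod.ext h'.1 (Prod.ext h'.2.1 h'.2.2)
        rw [Subtype.ext this]
      · obtain ⟨s, i⟩ := p
        obtain ⟨t, j⟩ := q
        obtain ⟨h1, h2, h3⟩ := h'
        have h1' : s = t := h1
        subst h1'
        rw [PP_first T f hf s i j h2]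
      · obtain ⟨s, i⟩ := p
        obtain ⟨t, j⟩ := q
        obtain ⟨h1, h2, h3⟩ := h'
        have h3' : s = t := h3
        subst h3'
        rw [PP_first T f hf s i j h1]
      · obtain ⟨s, i⟩ := p
        obtain ⟨t, j⟩ := q
        obtain ⟨h1, h2, h3⟩ := h'
        have h2' : s = t := h2
        subst h2'
        rw [PP_first T f hf s i j h3]
    · rintro ⟨⟨x, y, z⟩, ht⟩
      match x, y, z, ht with
      | .inl a, .inl b, .inl c, ht => exact ⟨.inl ⟨(a, b, c), ht⟩, rfl⟩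
      | .inr s, .inl a, .inl b, ht =>
        obtain ⟨c, hc⟩ := ht
        obtain ⟨i, hi⟩ := PP_surj f s a b c hc
        refine ⟨.inr (.inl (s, i)), Subtype.ext ?_⟩
        show ((.inr s, .inl (PP f (s, i)).1, .inl (PP f (s, i)).2.1) :
          (V ⊕ S) × (V ⊕ S) × (V ⊕ S)) = _
        rw [hi]
      | .inl a, .inl b, .inr s, ht =>
        obtain ⟨c, hc⟩ := ht
        obtain ⟨i, hi⟩ := PP_surj f s a b c hc
        refine ⟨.inr (.inr (.inl (s, i))), Subtype.ext ?_⟩
        show ((.inl (PP f (s, i)).1, .inl (PP f (s, i)).2.1, .inr s) :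
          (V ⊕ S) × (V ⊕ S) × (V ⊕ S)) = _
        rw [hi]
      | .inl b, .inr s, .inl a, ht =>
        obtain ⟨c, hc⟩ := ht
        obtain ⟨i, hi⟩ := PP_surj f s a b c hc
        refine ⟨.inr (.inr (.inr (s, i))), Subtype.ext ?_⟩
        show ((.inl (PP f (s, i)).2.1, .inr s, .inl (PP f (s, i)).1) :
          (V ⊕ S) × (V ⊕ S) × (V ⊕ S)) = _
        rw [hi]
      | .inr _, .inr _, .inl _, h => exact h.elim
      | .inr _, .inr _, .inr _, h => exact h.elim
      | .inr _, .inl _, .inr _, h => exact h.elim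
      | .inl _, .inr _, .inr _, h => exact h.elim
  rw [← Nat.card_congr (Equiv.ofBijective Φ hΦ), Nat.card_sum, Nat.card_sum, Nat.card_sum,
    Nat.card_prod, Nat.card_fin]
  ring

end W_FS_MSTACK

open W_FS_MSTACK in
theorem FS_MSTACK {V S : Type} [Fintype V] [Fintype S] (T : Tri V) (f : S → V × V × V)
    (hf : ∀ s, T.F (f s).1 (f s).2.1 (f s).2.2)
    (hd : ∀ s t, s ≠ t → ¬ IsRot (f s).1 (f s).2.1 (f s).2.2 (f t).1 (f t).2.1 (f t).2.2) :
    ∃ T' : Tri (V ⊕ S), IsStack T f T' := by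
  refine ⟨{ F := FF T f
            rot := FF_rot T f
            ne := FF_ne T f hf
            uniq := FF_uniq T f hf hd
            opp := FF_opp T f hf
            link := FF_link T f hf
            conn := FF_conn T f
            euler := ?_ }, ?_, ?_, ?_⟩
  · rw [card_new T f hf hd, Nat.card_sum]
    have h1 := card_old T f hf hd
    have h2 := T.euler
    omega
  · intro a b c
    exact Iff.rfl
  · intro s a b
    exact Iff.rfl
  · intro s t x h
    exact h


end Pool.Agent.H891WLC
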