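import Pool.Agent.H891FSS.Defs

set_option autoImplicit false

namespace Pool.Agent.H891WLC

namespace W_FS_STADJ

end W_FS_STADJ

open W_FS_STADJ in
theorem FS_STADJ {V S : Type} (T : Tri V) (f : S → V × V × V) (T' : Tri (V ⊕ S)) (h : IsStack T f T') :
    (∀ a b, T.G.Adj a b → T'.G.Adj (Sum.inl a) (Sum.inl b)) ∧
    (∀ s, T'.G.Adj (Sum.inr s) (Sum.inl (f s).1) ∧ T'.G.Adj (Sum.inr s) (Sum.inl (f s).2.1) ∧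
      T'.G.Adj (Sum.inr s) (Sum.inl (f s).2.2)) := by
  obtain ⟨h1, h2, h3⟩ := h
  constructor
  · rintro a b ⟨c, hc⟩
    by_cases hs : ∃ s, IsRot (f s).1 (f s).2.1 (f s).2.2 a b c
    · obtain ⟨s, hs⟩ := hs
      exact ⟨Sum.inr s, T'.rot _ _ _ ((h2 s a b).2 ⟨c, hs⟩)⟩
    · exact ⟨Sum.inl c, (h1 a b c).2 ⟨hc, fun s hs' => hs ⟨s, hs'⟩⟩⟩
  · intro s
    refine ⟨⟨Sum.inl (f s).2.1, (h2 s _ _).2 ⟨(f s).2.2, Or.inl ⟨rfl, rfl, rfl⟩⟩⟩,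
      ⟨Sum.inl (f s).2.2, (h2 s _ _).2 ⟨(f s).1, Or.inr (Or.inl ⟨rfl, rfl, rfl⟩)⟩⟩,
      ⟨Sum.inl (f s).1, (h2 s _ _).2 ⟨(f s).2.1, Or.inr (Or.inr ⟨rfl, rfl, rfl⟩)⟩⟩⟩


end Pool.Agent.H891WLC
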