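import Pool.Agent.H891FSS.Defs
import Pool.Agent.H891FSS.FS_MSTACK
import Pool.Agent.H891FSS.FS_STADJ

set_option autoImplicit false

namespace Pool.Agent.H891WLC

namespace W_FD_PEND

end W_FD_PEND

open W_FD_PEND in
theorem FD_PEND {U : Type} [Fintype U] (T : Tri U) (hU : 4 ≤ Nat.card U) (v : U) :
    ∃ T' : Tri (U ⊕ Unit), (∀ x y, T.G.Adj x y → T'.G.Adj (Sum.inl x) (Sum.inl y)) ∧
      T'.G.Adj (Sum.inr ()) (Sum.inl v) := by
  obtain ⟨x, y, hxy⟩ : ∃ x y, T.F v x y := by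
    have hnt : Nontrivial U := by
      rw [← Finite.one_lt_card_iff_nontrivial]
      omega
    obtain ⟨u, hu⟩ := exists_ne v
    rcases Relation.ReflTransGen.cases_head (T.conn v u) with h | ⟨w, ⟨z, hz⟩, _⟩
    · exact absurd h.symm hu
    · exact ⟨w, z, hz⟩
  obtain ⟨T', hT'⟩ := FS_MSTACK T (fun _ : Unit => (v, x, y)) (fun _ => hxy) (fun s t hst => absurd rfl hst)
  obtain ⟨h1, h2⟩ := FS_STADJ T _ T' hT'
  exact ⟨T', h1, (h2 ()).1⟩


end Pool.Agent.H891WLC
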