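import Pool.Agent.H891FSS.Defs
import Pool.Agent.H891FSS.FD_PEND

set_option autoImplicit false

namespace Pool.Agent.H891WLC

namespace W_FD_DUM

/-- pendant vertex -/
def pend {U : Type} (H : SimpleGraph U) (v : U) : SimpleGraph (U ⊕ Unit) where
  Adj p q := match p, q with
    | Sum.inl x, Sum.inl y => H.Adj x y
    | Sum.inl x, Sum.inr _ => x = v
    | Sum.inr _, Sum.inl y => y = v
    | Sum.inr _, Sum.inr _ => False
  symm := ⟨by
    rintro (x | x) (y | y) h
    · exact SimpleGraph.Adj.symm h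
    · exact h
    · exact h
    · exact h⟩
  loopless := ⟨by
    rintro (x | x) h
    · exact H.loopless.irrefl x h
    · exact h⟩

lemma pend_ll {U : Type} (H : SimpleGraph U) (v x y : U) :
    (pend H v).Adj (Sum.inl x) (Sum.inl y) ↔ H.Adj x y := Iff.rfl
lemma pend_lr {U : Type} (H : SimpleGraph U) (v x : U) (u : Unit) :
    (pend H v).Adj (Sum.inl x) (Sum.inr u) ↔ x = v := Iff.rfl
lemma pend_rl {U : Type} (H : SimpleGraph U) (v x : U) (u : Unit) :
    (pend H v).Adj (Sum.inr u) (Sum.inl x) ↔ x = v := Iff.rfl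
lemma pend_rr {U : Type} (H : SimpleGraph U) (v : U) (u u' : Unit) :
    (pend H v).Adj (Sum.inr u) (Sum.inr u') ↔ False := Iff.rfl

lemma deg_pend_ne {U : Type} [Fintype U] (H : SimpleGraph U) (v w : U) (hw : w ≠ v) :
    Set.ncard {x | (pend H v).Adj (Sum.inl w) x} = Set.ncard {x | H.Adj w x} := by
  have h : {x | (pend H v).Adj (Sum.inl w) x} = Sum.inl '' {x | H.Adj w x} := by
    ext p
    rcases p with x | u
    · simp [pend_ll]
    · simp [pend_lr, hw]
  rw [h, Set.ncard_image_of_injective _ Sum.inl_injective]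

lemma deg_pend_eq {U : Type} [Fintype U] (H : SimpleGraph U) (v : U) :
    Set.ncard {x | (pend H v).Adj (Sum.inl v) x} = Set.ncard {x | H.Adj v x} + 1 := by
  have h : {x | (pend H v).Adj (Sum.inl v) x} = insert (Sum.inr ()) (Sum.inl '' {x | H.Adj v x}) := by
    ext p
    rcases p with x | u
    · simp [pend_ll]
    · simp [pend_lr]
  rw [h, Set.ncard_insert_of_notMem (by simp) (Set.toFinite _),
    Set.ncard_image_of_injective _ Sum.inl_injective]

theorem main (n : ℕ) : ∀ (U : Type) (_ : Fintype U) (T : Tri U) (_ : 4 ≤ Nat.card U) (H : SimpleGraph U)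
    (_ : ∀ x y, H.Adj x y → T.G.Adj x y) (S : Finset U) (_ : ∀ v ∈ S, Set.ncard {x | H.Adj v x} ≤ 3)
    (_ : ∑ v ∈ S, (3 - Set.ncard {x | H.Adj v x}) = n),
    ∃ (U' : Type) (_ : Fintype U') (ι : U → U') (T' : Tri U') (H' : SimpleGraph U'), Function.Injective ι ∧
      (∀ x y, H'.Adj x y → T'.G.Adj x y) ∧ (∀ x y, H'.Adj (ι x) (ι y) ↔ H.Adj x y) ∧
      (∀ v ∈ S, Set.ncard {x | H'.Adj (ι v) x} = 3) ∧
      (∀ x, x ∉ S → ∀ m, H'.Adj (ι x) m → ∃ y, m = ι y) ∧
      (∀ m, (∀ x, m ≠ ι x) → ∃ v ∈ S, ∀ p, H'.Adj m p ↔ p = ι v) := by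
  classical
  induction n with
  | zero =>
    intro U _ T hU H hH S hd hn
    refine ⟨U, inferInstance, id, T, H, Function.injective_id, hH, fun x y => Iff.rfl, ?_, ?_, ?_⟩
    · intro v hv
      have h1 := (Finset.sum_eq_zero_iff.mp hn) v hv
      have h2 := hd v hv
      have : Set.ncard {x | H.Adj v x} = 3 := by omega
      exact this
    · intro x _ m _
      exact ⟨m, rfl⟩
    · intro m hm
      exact absurd rfl (hm m)
  | succ n ih =>
    intro U _ T hU H hH S hd hn
    obtain ⟨v, hv, hv2⟩ := Finset.exists_ne_zero_of_sum_ne_zero (by rw [hn]; exact Nat.succ_ne_zero n)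
    obtain ⟨T1, hT1, hT2⟩ := FD_PEND T hU v
    have hcard : 4 ≤ Nat.card (U ⊕ Unit) := by
      rw [Nat.card_eq_fintype_card] at hU ⊢
      rw [Fintype.card_sum]
      omega
    have hH1 : ∀ x y, (pend H v).Adj x y → T1.G.Adj x y := by
      rintro (x | x) (y | y) h
      · exact hT1 x y (hH x y h)
      · have h' : x = v := h
        subst h'
        exact SimpleGraph.Adj.symm hT2
      · have h' : y = v := h
        subst h'
        exact hT2
      · exact h.elim
    have hdeg : ∀ w, Set.ncard {x | (pend H v).Adj (Sum.inl w) x} =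
        Set.ncard {x | H.Adj w x} + if w = v then 1 else 0 := by
      intro w
      by_cases hw : w = v
      · subst hw
        rw [deg_pend_eq, if_pos rfl]
      · rw [deg_pend_ne H v w hw, if_neg hw, Nat.add_zero]
    have hd1 : ∀ w ∈ S.map ⟨Sum.inl, Sum.inl_injective⟩,
        Set.ncard {x | (pend H v).Adj w x} ≤ 3 := by
      intro w hw
      rw [Finset.mem_map] at hw
      obtain ⟨w', hw', rfl⟩ := hw
      have h1 := hdeg w'
      have h2 := hd w' hw'
      have h3 : Set.ncard {x | (pend H v).Adj (Sum.inl w') x} ≤ 3 := by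
        rw [h1]
        split_ifs with h
        · subst h
          omega
        · omega
      exact h3
    have hn1 : ∑ w ∈ S.map ⟨Sum.inl, Sum.inl_injective⟩,
        (3 - Set.ncard {x | (pend H v).Adj w x}) = n := by
      rw [Finset.sum_map]
      have h1 : ∑ w ∈ S, (3 - Set.ncard {x | H.Adj w x}) =
          ∑ w ∈ S, ((3 - Set.ncard {x | (pend H v).Adj (Sum.inl w) x}) + if w = v then 1 else 0) := by
        refine Finset.sum_congr rfl fun w hw => ?_
        rw [hdeg w]
        split_ifs with h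
        · subst h
          omega
        · omega
      rw [Finset.sum_add_distrib, Finset.sum_ite_eq' S v, if_pos hv, hn] at h1
      have h2 := Nat.succ_injective h1
      rw [h2]
      rfl
    obtain ⟨U', hU', ι1, T', H', hinj, hT', hι, h3, hout, hnew⟩ :=
      ih (U ⊕ Unit) inferInstance T1 hcard (pend H v) hH1 _ hd1 hn1
    refine ⟨U', hU', fun x => ι1 (Sum.inl x), T', H', hinj.comp Sum.inl_injective, hT',
      fun x y => hι _ _, ?_, ?_, ?_⟩
    · intro w hw
      exact h3 (Sum.inl w) (Finset.mem_map.mpr ⟨w, hw, rfl⟩)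
    · intro x hx m hm
      have hx1 : (Sum.inl x : U ⊕ Unit) ∉ S.map ⟨Sum.inl, Sum.inl_injective⟩ := by
        intro hc
        rw [Finset.mem_map] at hc
        obtain ⟨w', hw', hw2⟩ := hc
        have hw3 : w' = x := Sum.inl_injective hw2
        exact hx (hw3 ▸ hw')
      obtain ⟨y, rfl⟩ := hout _ hx1 m hm
      rcases y with y | y
      · exact ⟨y, rfl⟩
      · have h4 := (hι _ _).mp hm
        have h5 : x = v := h4
        exact absurd (h5 ▸ hv) hx
    · intro m hm
      by_cases hr : ∃ y, m = ι1 y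
      · obtain ⟨y, rfl⟩ := hr
        rcases y with y | y
        · exact absurd rfl (hm y)
        · refine ⟨v, hv, fun p => ⟨fun hp => ?_, ?_⟩⟩
          · have hy1 : (Sum.inr y : U ⊕ Unit) ∉ S.map ⟨Sum.inl, Sum.inl_injective⟩ := by
              intro hc
              rw [Finset.mem_map] at hc
              obtain ⟨w', _, hw2⟩ := hc
              exact absurd hw2 (by simp)
            obtain ⟨z, rfl⟩ := hout _ hy1 p hp
            have h4 := (hι _ _).mp hp
            rcases z with z | z
            · have h5 : z = v := h4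
              rw [h5]
            · exact h4.elim
          · rintro rfl
            exact (hι _ _).mpr rfl
      · push Not at hr
        obtain ⟨v1, hv1, hp⟩ := hnew m hr
        rw [Finset.mem_map] at hv1
        obtain ⟨v2, hv2, rfl⟩ := hv1
        exact ⟨v2, hv2, hp⟩

end W_FD_DUM

open W_FD_DUM in
theorem FD_DUM {U : Type} [Fintype U] (T : Tri U) (hU : 4 ≤ Nat.card U) (H : SimpleGraph U)
    (hH : ∀ x y, H.Adj x y → T.G.Adj x y) (S : Finset U) (hd : ∀ v ∈ S, Set.ncard {x | H.Adj v x} ≤ 3) :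
    ∃ (U' : Type) (_ : Fintype U') (ι : U → U') (T' : Tri U') (H' : SimpleGraph U'), Function.Injective ι ∧
      (∀ x y, H'.Adj x y → T'.G.Adj x y) ∧ (∀ x y, H'.Adj (ι x) (ι y) ↔ H.Adj x y) ∧
      (∀ v ∈ S, Set.ncard {x | H'.Adj (ι v) x} = 3) ∧
      (∀ x, x ∉ S → ∀ m, H'.Adj (ι x) m → ∃ y, m = ι y) ∧
      (∀ m, (∀ x, m ≠ ι x) → ∃ v ∈ S, ∀ p, H'.Adj m p ↔ p = ι v) := by
  exact main _ U inferInstance T hU H hH S hd rfl


end Pool.Agent.H891WLC
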