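import Pool.Agent.H891FSS.Defs

set_option autoImplicit false

namespace Pool.Agent.H891WLC

namespace W_FS_FOREST

theorem mem_of_rtg {V : Type} (G : SimpleGraph V) (A : Set V) {u v : V} (hu : u ∈ A)
    (h : Relation.ReflTransGen (fun x y => G.Adj x y ∧ y ∈ A) u v) : v ∈ A := by
  induction h with
  | refl => exact hu
  | tail _ h _ => exact h.2

theorem symm_rtg {V : Type} (G : SimpleGraph V) (A : Set V) {u v : V} (hu : u ∈ A)
    (h : Relation.ReflTransGen (fun x y => G.Adj x y ∧ y ∈ A) u v) :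
    Relation.ReflTransGen (fun x y => G.Adj x y ∧ y ∈ A) v u := by
  induction h with
  | refl => exact Relation.ReflTransGen.refl
  | tail h1 h2 ih =>
    exact Relation.ReflTransGen.head ⟨h2.1.symm, mem_of_rtg G A hu h1⟩ ih

theorem link_conn {V : Type} (T : Tri V) (B : Set V) (z : V)
    (hz : ∀ x ∈ B, ∀ y ∈ B, T.G.Adj z x → T.G.Adj z y → x = y) (x y : V)
    (hx : T.G.Adj z x) (hy : T.G.Adj z y) (hxB : x ∉ B) (hyB : y ∉ B) :
    Relation.ReflTransGen (fun a b => T.G.Adj a b ∧ b ∈ Bᶜ) x y := by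
  have hn : ∀ a b, T.F z a b → T.G.Adj a b ∧ T.G.Adj z b := fun a b h =>
    ⟨⟨z, T.rot _ _ _ h⟩, T.G.symm.symm _ _ (⟨a, T.rot _ _ _ (T.rot _ _ _ h)⟩ : T.G.Adj b z)⟩
  obtain ⟨x', hx'⟩ := hx
  obtain ⟨y', hy'⟩ := hy
  by_cases hq : ∃ q ∈ B, T.G.Adj z q
  · obtain ⟨q, hqB, s, hs⟩ := hq
    have hsn := hn q s hs
    have hsq : s ≠ q := fun e => T.ne q s z (T.rot z q s hs) e.symm
    have hsB : s ∉ B := fun h => hsq (hz s h q hqB hsn.2 ⟨s, hs⟩)
    obtain ⟨s', hs'⟩ := hsn.2
    have key : ∀ w, Relation.ReflTransGen (fun a b => T.F z a b) s w →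
        w = q ∨ Relation.ReflTransGen (fun a b => T.G.Adj a b ∧ b ∈ Bᶜ) s w := by
      intro w h
      induction h with
      | refl => right; exact Relation.ReflTransGen.refl
      | @tail b c h1 h2 ih =>
        rcases ih with rfl | ih
        · right
          rw [T.uniq z _ c s h2 hs]
        · by_cases hc : c = q
          · left; exact hc
          · right
            exact ih.tail ⟨(hn b c h2).1, fun hcB => hc (hz c hcB q hqB (hn b c h2).2 ⟨s, hs⟩)⟩
    have go : ∀ w w', T.F z w w' → w ∉ B →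
        Relation.ReflTransGen (fun a b => T.G.Adj a b ∧ b ∈ Bᶜ) s w := fun w w' hw hwB =>
      (key w (T.link z s s' w w' hs' hw)).resolve_left (fun e => hwB (e ▸ hqB))
    exact (symm_rtg _ _ hsB (go x x' hx' hxB)).trans (go y y' hy' hyB)
  · push Not at hq
    refine Relation.ReflTransGen.mono ?_ _ _ (T.link z x x' y y' hx' hy')
    intro a b hab
    exact ⟨(hn a b hab).1, fun hb => hq b hb (hn a b hab).2⟩

theorem main {V : Type} [Finite V] (T : Tri V) : ∀ (n : ℕ) (B : Set V), B.ncard = n →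
    For1 T.G B → Conn T.G Bᶜ := by
  have hcard : 1 < Nat.card V := by
    have := T.euler
    omega
  have hnt : Nontrivial V := Finite.one_lt_card_iff_nontrivial.1 hcard
  intro n
  induction n with
  | zero =>
    intro B hB0 hB
    have hBe : B = ∅ := (Set.ncard_eq_zero (Set.toFinite B)).1 hB0
    subst hBe
    rw [Set.compl_empty]
    refine ⟨Set.univ_nonempty, fun u _ v _ => ?_⟩
    refine Relation.ReflTransGen.mono ?_ _ _ (T.conn u v)
    intro a b h
    exact ⟨h, Set.mem_univ _⟩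
  | succ n ih =>
    intro B hBn hB
    have hne : B.Nonempty := by
      rw [← Set.ncard_pos (Set.toFinite B)]
      omega
    obtain ⟨z, hzB, hz⟩ := hB B (Set.Subset.refl B) hne
    have hcard0 : (B \ {z}).ncard = n := by
      have := Set.ncard_sdiff_singleton_add_one hzB (Set.toFinite B)
      omega
    have hF0 : For1 T.G (B \ {z}) := fun Z hZ hZn => hB Z (hZ.trans Set.sdiff_subset) hZn
    obtain ⟨-, hc⟩ := ih (B \ {z}) hcard0 hF0
    obtain ⟨w, hw⟩ := exists_ne z
    obtain ⟨x, c, hx⟩ : ∃ x c, T.F z x c := by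
      rcases Relation.ReflTransGen.cases_head (T.conn z w) with h | ⟨x, ⟨c, h⟩, -⟩
      · exact absurd h.symm hw
      · exact ⟨x, c, h⟩
    have hcz : T.G.Adj c z := ⟨x, T.rot _ _ _ (T.rot _ _ _ hx)⟩
    have hzc : T.G.Adj z c := SimpleGraph.Adj.symm hcz
    have hxc : x ≠ c := T.ne x c z (T.rot _ _ _ hx)
    refine ⟨?_, ?_⟩
    · by_cases hxB : x ∈ B
      · exact ⟨c, fun hcB => hxc (hz x hxB c hcB ⟨c, hx⟩ hzc)⟩
      · exact ⟨x, hxB⟩
    · intro u hu v hv
      have huz : u ≠ z := fun e => hu (e ▸ hzB)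
      have hvz : v ≠ z := fun e => hv (e ▸ hzB)
      have mem0 : ∀ a, a ∉ B → a ∈ (B \ {z})ᶜ := fun a ha h => ha h.1
      have key : ∀ w, Relation.ReflTransGen (fun x y => T.G.Adj x y ∧ y ∈ (B \ {z})ᶜ) u w →
          (w ≠ z → Relation.ReflTransGen (fun x y => T.G.Adj x y ∧ y ∈ Bᶜ) u w) ∧
          (w = z → ∀ x, T.G.Adj z x → x ∉ B →
            Relation.ReflTransGen (fun x y => T.G.Adj x y ∧ y ∈ Bᶜ) u x) := by
        intro w h
        induction h with
        | refl => exact ⟨fun _ => Relation.ReflTransGen.refl, fun e => absurd e huz⟩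
        | @tail a b h1 h2 ih =>
          refine ⟨fun hb => ?_, fun hb => ?_⟩
          · have hbB : b ∉ B := fun hbB => h2.2 ⟨hbB, hb⟩
            by_cases ha : a = z
            · subst ha
              exact ih.2 rfl b h2.1 hbB
            · exact (ih.1 ha).tail ⟨h2.1, hbB⟩
          · subst hb
            intro x hx hxB
            have ha : a ≠ b := h2.1.ne
            have haR := ih.1 ha
            have haB : a ∉ B := mem_of_rtg T.G Bᶜ hu haR
            exact haR.trans (link_conn T B b hz a x h2.1.symm hx haB hxB)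
      exact (key v (hc u (mem0 u hu) v (mem0 v hv))).1 hvz

end W_FS_FOREST

open W_FS_FOREST in
theorem FS_FOREST {V : Type} [Finite V] (T : Tri V) (B : Set V) (hB : For1 T.G B) : Conn T.G Bᶜ :=
  W_FS_FOREST.main T B.ncard B rfl hB


end Pool.Agent.H891WLC
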