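import Pool.Agent.H891FSS.Defs

set_option autoImplicit false

namespace Pool.Agent.H891WLC

namespace W_FS_SPT

theorem acyc_of_for1 {V : Type} (Q₀ : SimpleGraph V) (C : Set V)
    (hE : ∀ x y, Q₀.Adj x y → x ∈ C ∧ y ∈ C) (hf : For1 Q₀ C) : Q₀.IsAcyclic := by
  intro v c hc
  have hnb : ∀ z ∈ c.support, ∃ x y, x ≠ y ∧ x ∈ c.support ∧ y ∈ c.support ∧ Q₀.Adj z x ∧ Q₀.Adj z y := by
    intro z hz
    have h2 := hc.ncard_neighborSet_toSubgraph_eq_two hz
    obtain ⟨x, y, hxy, hs⟩ := Set.ncard_eq_two.mp h2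
    have hx : x ∈ c.toSubgraph.neighborSet z := by rw [hs]; simp
    have hy : y ∈ c.toSubgraph.neighborSet z := by rw [hs]; simp
    have hx' : c.toSubgraph.Adj z x := hx
    have hy' : c.toSubgraph.Adj z y := hy
    refine ⟨x, y, hxy, ?_, ?_, hx'.adj_sub, hy'.adj_sub⟩
    · have := c.toSubgraph.edge_vert hx'.symm
      simpa using this
    · have := c.toSubgraph.edge_vert hy'.symm
      simpa using this
  obtain ⟨z, hz, hz'⟩ := hf {x | x ∈ c.support} (by
    intro x hx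
    obtain ⟨a, b, _, _, _, h1, _⟩ := hnb x hx
    exact (hE _ _ h1).1) ⟨v, by simp⟩
  obtain ⟨x, y, hxy, hx, hy, h1, h2⟩ := hnb z hz
  exact hxy (hz' x hx y hy h1 h2)

theorem for1_of_acyc {V : Type} [Finite V] (Q : SimpleGraph V) (C : Set V) (hQ : Q.IsAcyclic) :
    For1 Q C := by
  intro Z hZC hZ
  obtain ⟨r, hr⟩ := hZ
  have hA : (Q.induce Z).IsAcyclic := hQ.induce Z
  let r' : Z := ⟨r, hr⟩
  have hfin : Set.Finite {z : Z | (Q.induce Z).Reachable r' z} := Set.toFinite _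
  obtain ⟨z, hz, hmax⟩ := Set.exists_max_image {z : Z | (Q.induce Z).Reachable r' z}
    (fun z => (Q.induce Z).dist r' z) hfin ⟨r', SimpleGraph.Reachable.refl _⟩
  obtain ⟨p, hp, hpl⟩ := SimpleGraph.Reachable.exists_path_of_dist hz
  have key : ∀ x : Z, (Q.induce Z).Adj z x → x = p.penultimate := by
    intro x hx
    have hrx : (Q.induce Z).Reachable r' x := SimpleGraph.Reachable.trans hz hx.reachable
    obtain ⟨q, hq, hql⟩ := hrx.exists_path_of_dist
    by_cases hv : z ∈ q.support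
    · exfalso
      have := hA.path_concat hp hq hx hv
      have h1 := hmax x hrx
      rw [← hql, ← hpl, this, SimpleGraph.Walk.length_concat] at h1
      omega
    · have := hA.mem_support_of_ne_mem_support_of_adj_of_isPath hp hq hx hv
      exact hA.eq_penultimate_of_adj_end hp hx this
  refine ⟨z.1, z.2, ?_⟩
  intro x hx y hy h1 h2
  have e1 := key ⟨x, hx⟩ h1
  have e2 := key ⟨y, hy⟩ h2
  have := e1.trans e2.symm
  exact congrArg Subtype.val this

end W_FS_SPT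

open W_FS_SPT in
theorem FS_SPT {V : Type} [Finite V] (G Q₀ : SimpleGraph V) (C : Set V) (hC : Conn G C) (h0 : Q₀ ≤ G)
    (hE : ∀ x y, Q₀.Adj x y → x ∈ C ∧ y ∈ C) (hf : For1 Q₀ C) :
    ∃ Q : SimpleGraph V, Q₀ ≤ Q ∧ Q ≤ G ∧ (∀ x y, Q.Adj x y → x ∈ C ∧ y ∈ C) ∧ For1 Q C ∧ Conn Q C := by
  let G' : SimpleGraph V :=
    { Adj := fun x y => G.Adj x y ∧ x ∈ C ∧ y ∈ C
      symm := ⟨fun x y h => ⟨h.1.symm, h.2.2, h.2.1⟩⟩
      loopless := ⟨fun x h => G.loopless.irrefl x h.1⟩ }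
  have h0' : Q₀ ≤ G' := by
    intro x y h
    exact ⟨h0 h, (hE _ _ h).1, (hE _ _ h).2⟩
  obtain ⟨F, hF1, hF2, hF3, hF4⟩ :=
    G'.exists_isAcyclic_reachable_eq_le_of_le_of_isAcyclic h0' (acyc_of_for1 Q₀ C hE hf)
  refine ⟨F, hF1, ?_, ?_, for1_of_acyc F C hF3, hC.1, ?_⟩
  · intro x y h
    exact (hF2 h).1
  · intro x y h
    exact (hF2 h).2
  · intro u hu v hv
    have h1 := hC.2 u hu v hv
    have h2 : G'.Reachable u v := by
      have aux : ∀ w, Relation.ReflTransGen (fun x y => G.Adj x y ∧ y ∈ C) u w → w ∈ C ∧ G'.Reachable u w := by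
        intro w hw
        induction hw with
        | refl => exact ⟨hu, SimpleGraph.Reachable.refl _⟩
        | tail h hxy ih =>
          refine ⟨hxy.2, ih.2.trans ?_⟩
          exact SimpleGraph.Adj.reachable (G := G') ⟨hxy.1, ih.1, hxy.2⟩
      exact (aux v h1).2
    rw [← hF4] at h2
    rw [SimpleGraph.reachable_iff_reflTransGen] at h2
    exact Relation.ReflTransGen.mono (p := fun x y => F.Adj x y ∧ y ∈ C)
      (fun x y h => (⟨h, (hF2 h).2.2⟩ : F.Adj x y ∧ y ∈ C)) _ _ h2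


end Pool.Agent.H891WLC
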