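import Pool.Agent.H891FSS.Defs
import Pool.Agent.H891WLC.STRIP

set_option autoImplicit false

namespace Pool.Agent.H891WLC

namespace W_FS_CYC

theorem adjR {V : Type} (T : Tri V) {a b c : V} (h : T.F a b c) : T.G.Adj a c := by
  have h1 := T.rot _ _ _ (T.rot _ _ _ h)
  obtain ⟨d, hd⟩ := T.opp _ _ _ h1
  exact ⟨d, hd⟩

theorem adjL {V : Type} (T : Tri V) {a b c : V} (h : T.F a b c) : T.G.Adj c b := by
  have h1 := T.rot _ _ _ h
  obtain ⟨d, hd⟩ := T.opp _ _ _ h1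
  exact ⟨d, hd⟩

/-- the crossing pairs -/
def P {V : Type} (T : Tri V) (A : Set V) : Type :=
  {q : V × V // q.1 ∈ A ∧ q.2 ∉ A ∧ T.G.Adj q.1 q.2}

theorem ex_nxt {V : Type} (T : Tri V) (A : Set V) (p : P T A) : ∃ q : P T A, Nxt T A p.1 q.1 := by
  obtain ⟨⟨a, d⟩, ha, hd, ⟨x, hx⟩⟩ := p
  by_cases hxA : x ∈ A
  · exact ⟨⟨(x, d), hxA, hd, adjL T hx⟩, Or.inr ⟨hx, rfl, hxA⟩⟩
  · exact ⟨⟨(a, x), ha, hxA, adjR T hx⟩, Or.inl ⟨hx, rfl, hxA⟩⟩

theorem nxt_det {V : Type} (T : Tri V) (A : Set V) (p q q' : V × V) (h : Nxt T A p q)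
    (h' : Nxt T A p q') : q = q' := by
  rcases h with ⟨h1, h2, h3⟩ | ⟨h1, h2, h3⟩ <;> rcases h' with ⟨k1, k2, k3⟩ | ⟨k1, k2, k3⟩
  · exact Prod.ext (h2.trans k2.symm) (T.uniq _ _ _ _ h1 k1)
  · exact absurd k3 (T.uniq _ _ _ _ h1 k1 ▸ h3)
  · exact absurd h3 (T.uniq _ _ _ _ k1 h1 ▸ k3)
  · exact Prod.ext (T.uniq _ _ _ _ h1 k1) (h2.trans k2.symm)

theorem nxt_inj {V : Type} (T : Tri V) (A : Set V) (p p' q : V × V) (hp : p.1 ∈ A) (hp2 : p.2 ∉ A)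
    (hp' : p'.1 ∈ A) (hp2' : p'.2 ∉ A) (h : Nxt T A p q)
    (h' : Nxt T A p' q) : p = p' := by
  rcases h with ⟨h1, h2, h3⟩ | ⟨h1, h2, h3⟩ <;> rcases h' with ⟨k1, k2, k3⟩ | ⟨k1, k2, k3⟩
  · have e1 : p.1 = p'.1 := h2.symm.trans k2
    have f1 := T.rot _ _ _ (T.rot _ _ _ h1)
    have f2 := T.rot _ _ _ (T.rot _ _ _ k1)
    rw [← e1] at f2
    exact Prod.ext e1 (T.uniq _ _ _ _ f1 f2)
  · have f1 := T.rot _ _ _ (T.rot _ _ _ h1)
    have f2 := T.rot _ _ _ k1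
    rw [← k2, h2] at f2
    have := T.uniq _ _ _ _ f1 f2
    rw [this] at hp2
    exact absurd hp' hp2
  · have f1 := T.rot _ _ _ (T.rot _ _ _ k1)
    have f2 := T.rot _ _ _ h1
    rw [← h2, k2] at f2
    have := T.uniq _ _ _ _ f1 f2
    rw [this] at hp2'
    exact absurd hp hp2'
  · have e1 : p.2 = p'.2 := h2.symm.trans k2
    have f1 := T.rot _ _ _ h1
    have f2 := T.rot _ _ _ k1
    rw [← e1] at f2
    exact Prod.ext (T.uniq _ _ _ _ f1 f2) e1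

end W_FS_CYC

open W_FS_CYC in
theorem FS_CYC {V : Type} [Finite V] (T : Tri V) (A : Set V) (hA : Conn T.G A) (hB : Conn T.G Aᶜ)
    (e₀ : V × V) (h1 : e₀.1 ∈ A) (h2 : e₀.2 ∉ A) (h3 : T.G.Adj e₀.1 e₀.2) :
    ∃ (N : ℕ) (e : ℕ → V × V), e 0 = e₀ ∧ CycE T A N e := by
  haveI : Finite (P T A) := by unfold P; infer_instance
  choose σ hσ using ex_nxt T A
  have hinj : Function.Injective σ := by
    intro p p' hpp
    apply Subtype.ext
    have k1 := hσ p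
    have k2 := hσ p'
    rw [← hpp] at k2
    exact nxt_inj T A _ _ _ p.2.1 p.2.2.1 p'.2.1 p'.2.2.1 k1 k2
  let x₀ : P T A := ⟨e₀, h1, h2, h3⟩
  have hmem : x₀ ∈ Function.periodicPts σ := Function.Injective.mem_periodicPts hinj x₀
  have hpos : 0 < Function.minimalPeriod σ x₀ := Function.minimalPeriod_pos_of_mem_periodicPts hmem
  refine ⟨Function.minimalPeriod σ x₀, fun i => (σ^[i] x₀).1, rfl, hpos, ?_, ?_, ?_, ?_, ?_⟩
  · intro i
    exact (σ^[i] x₀).2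
  · intro i
    show Nxt T A (σ^[i] x₀).1 (σ^[i+1] x₀).1
    rw [Function.iterate_succ_apply']
    exact hσ _
  · intro i
    show (σ^[i + Function.minimalPeriod σ x₀] x₀).1 = (σ^[i] x₀).1
    rw [Function.iterate_add_apply, Function.iterate_minimalPeriod]
  · intro i j hi hj hij
    exact Function.iterate_injOn_Iio_minimalPeriod hi hj (Subtype.ext hij)
  · intro q hq1 hq2 hq3
    have hr := STRIP T A hA hB e₀.1 e₀.2 q.1 q.2 h1 h2 hq1 hq2 h3 hq3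
    have key : ∀ r : V × V, Relation.ReflTransGen (fun (p q : V × V) =>
      (T.F p.1 p.2 q.2 ∧ q.1 = p.1 ∧ q.2 ∉ A) ∨ (T.F p.1 p.2 q.1 ∧ q.2 = p.2 ∧ q.1 ∈ A)) (e₀.1, e₀.2) r →
      ∃ n : ℕ, (σ^[n] x₀).1 = r := by
      intro r hr
      induction hr with
      | refl => exact ⟨0, rfl⟩
      | tail hab hbc ih =>
        obtain ⟨n, hn⟩ := ih
        refine ⟨n + 1, ?_⟩
        rw [Function.iterate_succ_apply']
        have := hσ (σ^[n] x₀)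
        rw [hn] at this
        exact nxt_det T A _ _ _ this hbc
    obtain ⟨n, hn⟩ := key _ hr
    refine ⟨n % Function.minimalPeriod σ x₀, Nat.mod_lt _ hpos, ?_⟩
    show (σ^[n % Function.minimalPeriod σ x₀] x₀).1 = q
    rw [Function.iterate_mod_minimalPeriod_eq, hn]


end Pool.Agent.H891WLC
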