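import Pool.Agent.H891FSS.Defs

set_option autoImplicit false

namespace Pool.Agent.H891WLC

namespace W_FS_GEOM

open Classical in
/-- the sign of a vertex -/
noncomputable def sg {V : Type} (A : Set V) (v : V) : ℝ := if v ∈ A then 1 else -1

/-- the position of a vertex -/
noncomputable def ps {V : Type} (X Y : V → ℝ) (A : Set V) (v : V) : ℝ × ℝ := (X v / Y v, sg A v / Y v)

theorem sg_mem {V : Type} {A : Set V} {v : V} (h : v ∈ A) : sg A v = 1 := by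
  unfold sg; rw [if_pos h]

theorem sg_not {V : Type} {A : Set V} {v : V} (h : v ∉ A) : sg A v = -1 := by
  unfold sg; rw [if_neg h]

theorem crs_rot (a b c : ℝ × ℝ) : crs a b c = crs b c a := by
  unfold crs; ring

theorem crs_ps {V : Type} (X Y : V → ℝ) (A : Set V) (hY : ∀ v, 0 < Y v) (a b c : V) :
    crs (ps X Y A a) (ps X Y A b) (ps X Y A c) =
      (Y a * (X b * sg A c - X c * sg A b) - X a * (Y b * sg A c - Y c * sg A b) +
        sg A a * (Y b * X c - Y c * X b)) / (Y a * Y b * Y c) := by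
  have ha := (hY a).ne'
  have hb := (hY b).ne'
  have hc := (hY c).ne'
  unfold crs ps
  simp only
  field_simp
  ring

theorem crs_q {V : Type} (X Y : V → ℝ) (A : Set V) (hY : ∀ v, 0 < Y v) (t : ℝ) (a b : V) :
    crs (t, 0) (ps X Y A a) (ps X Y A b) =
      (X a * sg A b - X b * sg A a - t * (Y a * sg A b - Y b * sg A a)) / (Y a * Y b) := by
  have ha := (hY a).ne'
  have hb := (hY b).ne'
  unfold crs ps
  simp only
  field_simp
  ring

theorem crs_face {V : Type} (X Y : V → ℝ) (A : Set V) (hY : ∀ v, 0 < Y v) (u w x : V)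
    (hu : u ∈ A) (hw : w ∉ A) (z z' : ℝ) (h1 : X u + X w = z * (Y u + Y w))
    (h2 : (x ∉ A ∧ X u + X x = z' * (Y u + Y x)) ∨ (x ∈ A ∧ X x + X w = z' * (Y x + Y w))) :
    ∃ C : ℝ, 0 < C ∧ crs (ps X Y A u) (ps X Y A w) (ps X Y A x) = (z' - z) * C := by
  have ha := hY u
  have hb := hY w
  have hc := hY x
  rcases h2 with ⟨hx, h2⟩ | ⟨hx, h2⟩
  · refine ⟨(Y u + Y w) * (Y u + Y x) / (Y u * Y w * Y x), by positivity, ?_⟩
    rw [crs_ps X Y A hY, sg_mem hu, sg_not hw, sg_not hx, mul_div_assoc']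
    congr 1
    linear_combination (Y u + Y w) * h2 - (Y u + Y x) * h1
  · refine ⟨(Y u + Y w) * (Y x + Y w) / (Y u * Y w * Y x), by positivity, ?_⟩
    rw [crs_ps X Y A hY, sg_mem hu, sg_not hw, sg_mem hx, mul_div_assoc']
    congr 1
    linear_combination (Y u + Y w) * h2 - (Y x + Y w) * h1

theorem crs_stack {V : Type} (X Y : V → ℝ) (A : Set V) (hY : ∀ v, 0 < Y v) (u w x : V)
    (hu : u ∈ A) (hw : w ∉ A) (z z' t : ℝ) (h1 : X u + X w = z * (Y u + Y w))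
    (h2 : (x ∉ A ∧ X u + X x = z' * (Y u + Y x)) ∨ (x ∈ A ∧ X x + X w = z' * (Y x + Y w)))
    (ht : z < t) (ht' : t < z') :
    0 < crs (t, 0) (ps X Y A u) (ps X Y A w) ∧ 0 < crs (t, 0) (ps X Y A w) (ps X Y A x) ∧
      0 < crs (t, 0) (ps X Y A x) (ps X Y A u) := by
  have ha := hY u
  have hb := hY w
  have hc := hY x
  have e1 : 0 < (t - z) * (Y u + Y w) := mul_pos (by linarith) (by linarith)
  refine ⟨?_, ?_, ?_⟩
  · rw [crs_q X Y A hY, sg_mem hu, sg_not hw]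
    apply div_pos _ (by positivity)
    nlinarith
  · rcases h2 with ⟨hx, h2⟩ | ⟨hx, h2⟩
    · have e2 : 0 < (z' - t) * (Y u + Y x) := mul_pos (by linarith) (by linarith)
      rw [crs_q X Y A hY, sg_not hx, sg_not hw]
      apply div_pos _ (by positivity)
      nlinarith
    · have e2 : 0 < (z' - t) * (Y x + Y w) := mul_pos (by linarith) (by linarith)
      rw [crs_q X Y A hY, sg_mem hx, sg_not hw]
      apply div_pos _ (by positivity)
      nlinarith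
  · rcases h2 with ⟨hx, h2⟩ | ⟨hx, h2⟩
    · have e2 : 0 < (z' - t) * (Y u + Y x) := mul_pos (by linarith) (by linarith)
      rw [crs_q X Y A hY, sg_not hx, sg_mem hu]
      apply div_pos _ (by positivity)
      nlinarith
    · have e2 : 0 < (z' - t) * (Y x + Y w) := mul_pos (by linarith) (by linarith)
      rw [crs_q X Y A hY, sg_mem hx, sg_mem hu]
      apply div_pos _ (by positivity)
      nlinarith

/-- the next value of `z` -/
noncomputable def zn (N : ℕ) (z : ℕ → ℝ) (i : ℕ) : ℝ := if i + 1 < N then z (i + 1) else z 0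

theorem face_idx {V : Type} (T : Tri V) (A : Set V) (N : ℕ) (e : ℕ → V × V) (he : CycE T A N e)
    (z : ℕ → ℝ) (X Y : V → ℝ)
    (hXY : ∀ i, i < N → X (e i).1 + X (e i).2 = z i * (Y (e i).1 + Y (e i).2))
    (u w x : V) (hF : T.F u w x) (i : ℕ) (hi : i < N) (hei : e i = (u, w)) :
    X u + X w = z i * (Y u + Y w) ∧
    ((x ∉ A ∧ X u + X x = zn N z i * (Y u + Y x)) ∨ (x ∈ A ∧ X x + X w = zn N z i * (Y x + Y w))) := by
  have h1 := hXY i hi
  rw [hei] at h1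
  refine ⟨h1, ?_⟩
  have h2 : X (e (i+1)).1 + X (e (i+1)).2 = zn N z i * (Y (e (i+1)).1 + Y (e (i+1)).2) := by
    unfold zn
    by_cases h : i + 1 < N
    · rw [if_pos h]; exact hXY (i+1) h
    · rw [if_neg h]
      have : e (i + 1) = e 0 := by
        have h3 : i + 1 = 0 + N := by omega
        rw [h3]; exact he.per 0
      rw [this]
      exact hXY 0 he.pos
  have h3 := he.nxt i
  rw [hei] at h3
  rcases h3 with ⟨a, b, c⟩ | ⟨a, b, c⟩
  · left
    simp only at a b c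
    have hx : x = (e (i+1)).2 := T.uniq u w _ _ hF a
    rw [← hx] at c h2
    rw [b] at h2
    exact ⟨c, h2⟩
  · right
    simp only at a b c
    have hx : x = (e (i+1)).1 := T.uniq u w _ _ hF a
    rw [← hx] at c h2
    rw [b] at h2
    exact ⟨c, h2⟩

theorem face_rot {V : Type} (T : Tri V) (A : Set V)
    (hm : ∀ a b c, T.F a b c → ¬ (a ∈ A ∧ b ∈ A ∧ c ∈ A) ∧ ¬ (a ∉ A ∧ b ∉ A ∧ c ∉ A))
    (N : ℕ) (e : ℕ → V × V) (he : CycE T A N e) (a b c : V) (hF : T.F a b c) :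
    ∃ u w x, T.F u w x ∧ IsRot u w x a b c ∧ u ∈ A ∧ w ∉ A ∧ ∃ i, i < N ∧ e i = (u, w) := by
  have key : ∃ u w x, T.F u w x ∧ IsRot u w x a b c ∧ u ∈ A ∧ w ∉ A := by
    obtain ⟨m1, m2⟩ := hm a b c hF
    have hF1 := T.rot _ _ _ hF
    have hF2 := T.rot _ _ _ hF1
    by_cases ha : a ∈ A
    · by_cases hb : b ∈ A
      · have hc : c ∉ A := fun hc => m1 ⟨ha, hb, hc⟩
        exact ⟨b, c, a, hF1, Or.inr (Or.inr ⟨rfl, rfl, rfl⟩), hb, hc⟩
      · exact ⟨a, b, c, hF, Or.inl ⟨rfl, rfl, rfl⟩, ha, hb⟩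
    · by_cases hc : c ∈ A
      · exact ⟨c, a, b, hF2, Or.inr (Or.inl ⟨rfl, rfl, rfl⟩), hc, ha⟩
      · by_cases hb : b ∈ A
        · exact ⟨b, c, a, hF1, Or.inr (Or.inr ⟨rfl, rfl, rfl⟩), hb, hc⟩
        · exact absurd ⟨ha, hb, hc⟩ m2
  obtain ⟨u, w, x, h1, h2, h3, h4⟩ := key
  refine ⟨u, w, x, h1, h2, h3, h4, ?_⟩
  exact he.surj (u, w) h3 h4 ⟨x, h1⟩

theorem crs_isRot {V : Type} (p : V → ℝ × ℝ) (u w x a b c : V) (h : IsRot u w x a b c) :
    crs (p a) (p b) (p c) = crs (p u) (p w) (p x) := by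
  rcases h with ⟨rfl, rfl, rfl⟩ | ⟨rfl, rfl, rfl⟩ | ⟨rfl, rfl, rfl⟩
  · rfl
  · rw [crs_rot (p c) (p a) (p b)]
  · rw [crs_rot (p a) (p b) (p c)]

theorem isRot_symm {V : Type} {u w x a b c : V} (h : IsRot u w x a b c) : IsRot a b c u w x := by
  rcases h with ⟨rfl, rfl, rfl⟩ | ⟨rfl, rfl, rfl⟩ | ⟨rfl, rfl, rfl⟩
  · exact Or.inl ⟨rfl, rfl, rfl⟩
  · exact Or.inr (Or.inr ⟨rfl, rfl, rfl⟩)
  · exact Or.inr (Or.inl ⟨rfl, rfl, rfl⟩)

theorem isRot_trans {V : Type} {u w x a b c d e f : V} (h : IsRot u w x a b c)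
    (h' : IsRot a b c d e f) : IsRot u w x d e f := by
  rcases h with ⟨rfl, rfl, rfl⟩ | ⟨rfl, rfl, rfl⟩ | ⟨rfl, rfl, rfl⟩ <;>
  rcases h' with ⟨rfl, rfl, rfl⟩ | ⟨rfl, rfl, rfl⟩ | ⟨rfl, rfl, rfl⟩
  · exact Or.inl ⟨rfl, rfl, rfl⟩
  · exact Or.inr (Or.inl ⟨rfl, rfl, rfl⟩)
  · exact Or.inr (Or.inr ⟨rfl, rfl, rfl⟩)
  · exact Or.inr (Or.inl ⟨rfl, rfl, rfl⟩)
  · exact Or.inr (Or.inr ⟨rfl, rfl, rfl⟩)
  · exact Or.inl ⟨rfl, rfl, rfl⟩
  · exact Or.inr (Or.inr ⟨rfl, rfl, rfl⟩)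
  · exact Or.inl ⟨rfl, rfl, rfl⟩
  · exact Or.inr (Or.inl ⟨rfl, rfl, rfl⟩)

theorem isRot_F {V : Type} (T : Tri V) {u w x a b c : V} (h : IsRot u w x a b c) (hF : T.F u w x) :
    T.F a b c := by
  rcases h with ⟨rfl, rfl, rfl⟩ | ⟨rfl, rfl, rfl⟩ | ⟨rfl, rfl, rfl⟩
  · exact hF
  · exact T.rot _ _ _ hF
  · exact T.rot _ _ _ (T.rot _ _ _ hF)

/-- two rotations of a face with first vertex in `A`, second not in `A` agree -/
theorem isRot_eq {V : Type} (A : Set V) {u w x a b c : V} (h : IsRot u w x a b c)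
    (hu : u ∈ A) (hw : w ∉ A) (ha : a ∈ A) (hb : b ∉ A) : a = u ∧ b = w ∧ c = x := by
  rcases h with ⟨rfl, rfl, rfl⟩ | ⟨rfl, rfl, rfl⟩ | ⟨rfl, rfl, rfl⟩
  · exact ⟨rfl, rfl, rfl⟩
  · exact absurd ha hw
  · exact absurd hu hb

end W_FS_GEOM

open W_FS_GEOM in
theorem FS_GEOM {V S : Type} [Fintype V] [Fintype S] (T : Tri V) (A : Set V)
    (hm : ∀ a b c, T.F a b c → ¬ (a ∈ A ∧ b ∈ A ∧ c ∈ A) ∧ ¬ (a ∉ A ∧ b ∉ A ∧ c ∉ A))
    (N : ℕ) (e : ℕ → V × V) (he : CycE T A N e) (hN : 2 ≤ N) (z : ℕ → ℝ) (hz : StrictMono z)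
    (X Y : V → ℝ) (hY : ∀ v, 0 < Y v)
    (hXY : ∀ i, i < N → X (e i).1 + X (e i).2 = z i * (Y (e i).1 + Y (e i).2))
    (f : S → V × V × V) (k : S → ℕ) (hk : ∀ s, k s + 1 < N)
    (hf : ∀ s, T.F (f s).1 (f s).2.1 (f s).2.2 ∧
      ∃ x, IsRot (f s).1 (f s).2.1 (f s).2.2 (e (k s)).1 (e (k s)).2 x)
    (T' : Tri (V ⊕ S)) (hT' : IsStack T f T') (t : S → ℝ) (ht : ∀ s, z (k s) < t s ∧ t s < z (k s + 1)) :
    ∃ (o₁ o₂ o₃ : V ⊕ S) (p : V ⊕ S → ℝ × ℝ), Drawn T' o₁ o₂ o₃ p ∧ ∀ s, p (Sum.inr s) = (t s, 0) := by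
  -- the outer face
  obtain ⟨hA0, hB0, hadj⟩ := he.mem (N - 1)
  obtain ⟨o, ho⟩ := hadj
  have hNe : e (N - 1) = ((e (N - 1)).1, (e (N - 1)).2) := rfl
  have hkey : ∀ s, ∃ u w x, T.F u w x ∧ IsRot (f s).1 (f s).2.1 (f s).2.2 u w x ∧ u ∈ A ∧ w ∉ A ∧
      e (k s) = (u, w) := by
    intro s
    obtain ⟨h1, x, h2⟩ := hf s
    obtain ⟨m1, m2, _⟩ := he.mem (k s)
    exact ⟨_, _, x, isRot_F T h2 h1, h2, m1, m2, rfl⟩
  have hst : ∀ s a b c, IsRot (f s).1 (f s).2.1 (f s).2.2 a b c →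
      0 < crs (t s, 0) (ps X Y A a) (ps X Y A b) := by
    intro s a b c h
    obtain ⟨u, w, x, h1, h2, hu, hw, hk1⟩ := hkey s
    have hks := hk s
    obtain ⟨q1, q2⟩ := face_idx T A N e he z X Y hXY u w x h1 (k s) (by omega) hk1
    have hzn : zn N z (k s) = z (k s + 1) := by unfold zn; rw [if_pos hks]
    rw [hzn] at q2
    obtain ⟨r1, r2, r3⟩ := crs_stack X Y A hY u w x hu hw (z (k s)) (z (k s + 1)) (t s) q1 q2
      (ht s).1 (ht s).2
    have h3 : IsRot u w x a b c := isRot_trans (isRot_symm h2) h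
    rcases h3 with ⟨rfl, rfl, rfl⟩ | ⟨rfl, rfl, rfl⟩ | ⟨rfl, rfl, rfl⟩
    · exact r1
    · exact r2
    · exact r3
  let p : V ⊕ S → ℝ × ℝ := Sum.elim (ps X Y A) (fun s => (t s, 0))
  have hin : ∀ a b c, T.F a b c → ¬ IsRot (e (N - 1)).1 (e (N - 1)).2 o a b c →
      0 < crs (ps X Y A a) (ps X Y A b) (ps X Y A c) := by
    intro a b c hF hn
    obtain ⟨u, w, x, h1, h2, hu, hw, i, hi, hei⟩ := face_rot T A hm N e he a b c hF
    rw [crs_isRot (ps X Y A) u w x a b c h2]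
    have hi1 : i + 1 < N := by
      by_contra h
      have hiN : i = N - 1 := by omega
      apply hn
      rw [hiN] at hei
      have e1 : (e (N - 1)).1 = u := by rw [hei]
      have e2 : (e (N - 1)).2 = w := by rw [hei]
      rw [e1, e2] at ho
      have e3 : o = x := T.uniq _ _ _ _ ho h1
      rw [e1, e2, e3]
      exact h2
    obtain ⟨q1, q2⟩ := face_idx T A N e he z X Y hXY u w x h1 i hi hei
    have hzn : zn N z i = z (i + 1) := by unfold zn; rw [if_pos hi1]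
    rw [hzn] at q2
    obtain ⟨C, hC, hCe⟩ := crs_face X Y A hY u w x hu hw (z i) (z (i + 1)) q1 q2
    rw [hCe]
    apply mul_pos _ hC
    have := hz (Nat.lt_succ_self i)
    simpa using this
  have hout : crs (ps X Y A (e (N - 1)).1) (ps X Y A (e (N - 1)).2) (ps X Y A o) < 0 := by
    obtain ⟨q1, q2⟩ := face_idx T A N e he z X Y hXY _ _ o ho (N - 1) (by omega) hNe
    have hzn : zn N z (N - 1) = z 0 := by
      unfold zn; rw [if_neg (by omega)]
    rw [hzn] at q2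
    obtain ⟨C, hC, hCe⟩ := crs_face X Y A hY _ _ o hA0 hB0 (z (N - 1)) (z 0) q1 q2
    rw [hCe]
    have : z 0 < z (N - 1) := hz (by omega)
    nlinarith
  refine ⟨Sum.inl (e (N - 1)).1, Sum.inl (e (N - 1)).2, Sum.inl o, p, ⟨?_, hout, ?_⟩, fun s => rfl⟩
  · rw [hT'.1]
    refine ⟨ho, ?_⟩
    intro s hs
    obtain ⟨u, w, x, h1, h2, hu, hw, hk1⟩ := hkey s
    have h3 : IsRot u w x (e (N - 1)).1 (e (N - 1)).2 o := isRot_trans (isRot_symm h2) hs
    obtain ⟨g1, g2, g3⟩ := isRot_eq A h3 hu hw hA0 hB0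
    have hks := hk s
    have : e (k s) = e (N - 1) := by
      rw [hk1]; exact Prod.ext g1.symm g2.symm
    have := he.inj (k s) (N - 1) (by omega) (by omega) this
    omega
  · intro a b c hF hn
    have hrot : T'.F b c a := T'.rot _ _ _ hF
    have hrot2 : T'.F c a b := T'.rot _ _ _ hrot
    rcases a with a | a <;> rcases b with b | b <;> rcases c with c | c
    · -- all inl
      have h1 := (hT'.1 a b c).1 hF
      refine hin a b c h1.1 ?_
      intro h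
      apply hn
      rcases h with ⟨g1, g2, g3⟩ | ⟨g1, g2, g3⟩ | ⟨g1, g2, g3⟩
      · exact Or.inl ⟨by rw [g1], by rw [g2], by rw [g3]⟩
      · exact Or.inr (Or.inl ⟨by rw [g1], by rw [g2], by rw [g3]⟩)
      · exact Or.inr (Or.inr ⟨by rw [g1], by rw [g2], by rw [g3]⟩)
    · -- inl inl inr
      obtain ⟨d, hd⟩ := (hT'.2.1 c a b).1 hrot2
      have := hst c a b d hd
      rw [← crs_rot (p (Sum.inr c)) (p (Sum.inl a)) (p (Sum.inl b))]
      exact this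
    · -- inl inr inl
      obtain ⟨d, hd⟩ := (hT'.2.1 b c a).1 hrot
      have := hst b c a d hd
      rw [crs_rot (p (Sum.inl a)) (p (Sum.inr b)) (p (Sum.inl c))]
      exact this
    · exact absurd hrot (hT'.2.2 b c _)
    · -- inr inl inl
      obtain ⟨d, hd⟩ := (hT'.2.1 a b c).1 hF
      exact hst a b c d hd
    · exact absurd hrot2 (hT'.2.2 c a _)
    · exact absurd hF (hT'.2.2 a b _)
    · exact absurd hF (hT'.2.2 a b _)


end Pool.Agent.H891WLC
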