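import Pool.Agent.H891FSS.Defs

set_option autoImplicit false

namespace Pool.Agent.H891WLC

namespace W_FS_ALT

noncomputable def Phi {ι V : Type} (u w : ι → V) (z : ι → ℝ) :
    ((V → ℝ) × (V → ℝ)) →ₗ[ℝ] (ι → ℝ) where
  toFun p := fun i => z i * (p.2 (u i) + p.2 (w i)) - (p.1 (u i) + p.1 (w i))
  map_add' p q := by
    ext i
    simp only [Prod.fst_add, Prod.snd_add, Pi.add_apply]
    ring
  map_smul' c p := by
    ext i
    simp only [Prod.smul_fst, Prod.smul_snd, Pi.smul_apply, smul_eq_mul, RingHom.id_apply]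
    ring

theorem lin_sum {ι : Type} [Fintype ι] [DecidableEq ι] (m : Module.Dual ℝ (ι → ℝ)) (k : ι → ℝ) :
    m k = ∑ i, m (Pi.single i 1) * k i := by
  conv_lhs => rw [pi_eq_sum_univ' k]
  rw [map_sum]
  refine Finset.sum_congr rfl fun i _ => ?_
  rw [map_smul, smul_eq_mul, mul_comm]

end W_FS_ALT

open W_FS_ALT in
theorem FS_ALT {ι V : Type} [Fintype ι] [Fintype V] [DecidableEq V] (u w : ι → V) (z : ι → ℝ)
    (h : ∀ X Y : V → ℝ, (∀ v, 0 < Y v) → ∃ i, X (u i) + X (w i) ≠ z i * (Y (u i) + Y (w i))) :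
    ∃ μ : ι → ℝ, (∀ v, ∑ i, μ i * ((if u i = v then 1 else 0) + (if w i = v then 1 else 0)) = 0) ∧
      (∀ v, ∑ i, μ i * z i * ((if u i = v then 1 else 0) + (if w i = v then 1 else 0)) ≤ 0) ∧
      ∃ v, ∑ i, μ i * z i * ((if u i = v then 1 else 0) + (if w i = v then 1 else 0)) < 0 := by
  classical
  have hPc : Convex ℝ {p : (V → ℝ) × (V → ℝ) | ∀ v, 0 < p.2 v} := by
    intro p hp q hq a b ha hb hab v
    simp only [Set.mem_setOf_eq] at hp hq
    simp only [Prod.snd_add, Prod.smul_snd, Pi.add_apply, Pi.smul_apply, smul_eq_mul]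
    rcases ha.lt_or_eq with h1 | h1
    · have := mul_pos h1 (hp v)
      have := mul_nonneg hb (hq v).le
      linarith
    · have hb1 : b = 1 := by linarith
      rw [← h1, hb1]
      simpa using hq v
  have hPo : IsOpen {p : (V → ℝ) × (V → ℝ) | ∀ v, 0 < p.2 v} := by
    have : {p : (V → ℝ) × (V → ℝ) | ∀ v, 0 < p.2 v} = ⋂ v, {p | 0 < p.2 v} := by
      ext p; simp
    rw [this]
    exact isOpen_iInter_of_finite fun v => isOpen_lt continuous_const (by fun_prop)
  have hWc : Convex ℝ ((LinearMap.ker (Phi u w z) : Submodule ℝ ((V → ℝ) × (V → ℝ))) : Set ((V → ℝ) × (V → ℝ))) :=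
    (LinearMap.ker (Phi u w z)).convex
  have hdis : Disjoint {p : (V → ℝ) × (V → ℝ) | ∀ v, 0 < p.2 v}
      ((LinearMap.ker (Phi u w z) : Submodule ℝ ((V → ℝ) × (V → ℝ))) : Set ((V → ℝ) × (V → ℝ))) := by
    rw [Set.disjoint_left]
    intro p hp hp2
    obtain ⟨i, hi⟩ := h p.1 p.2 hp
    apply hi
    have h1 : Phi u w z p = 0 := hp2
    have h2 := congrFun h1 i
    simp only [Phi, LinearMap.coe_mk, AddHom.coe_mk, Pi.zero_apply] at h2
    linarith
  obtain ⟨f, c, hf1, hf2⟩ := geometric_hahn_banach_open hPc hPo hWc hdis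
  have hc : c ≤ 0 := by
    have := hf2 0 (Submodule.zero_mem _)
    simpa using this
  have hker : ∀ p, Phi u w z p = 0 → f p = 0 := by
    intro p hp
    by_contra hne
    have h1 := hf2 (((c - 1) / f p) • p) (by
      change Phi u w z _ = 0
      rw [map_smul, hp, smul_zero])
    rw [map_smul, smul_eq_mul, div_mul_cancel₀ _ hne] at h1
    linarith
  obtain ⟨m, hm⟩ : ∃ m : Module.Dual ℝ (ι → ℝ), ∀ p, m (Phi u w z p) = f p := by
    have h1 : (f : ((V → ℝ) × (V → ℝ)) →ₗ[ℝ] ℝ) ∈ (LinearMap.ker (Phi u w z)).dualAnnihilator := by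
      rw [Submodule.mem_dualAnnihilator]
      intro p hp
      exact hker p hp
    rw [← LinearMap.range_dualMap_eq_dualAnnihilator_ker] at h1
    obtain ⟨m, hm⟩ := h1
    refine ⟨m, fun p => ?_⟩
    have := congrArg (fun g : Module.Dual ℝ ((V → ℝ) × (V → ℝ)) => g p) hm
    simpa using this
  have hneg : ∀ X Y : V → ℝ, (∀ v, 0 < Y v) → f (X, Y) < 0 := fun X Y hY =>
    lt_of_lt_of_le (hf1 (X, Y) hY) hc
  have hsplit : ∀ X Y : V → ℝ, f (X, Y) = f (X, 0) + f (0, Y) := by
    intro X Y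
    rw [← map_add]
    simp
  have hX0 : ∀ X : V → ℝ, f (X, 0) = 0 := by
    intro X
    by_contra hne
    have h1 := hneg ((-(f (0, fun _ => 1)) / f (X, 0)) • X) (fun _ => 1) (fun _ => one_pos)
    rw [hsplit] at h1
    have h2 : (((-(f (0, fun _ => 1)) / f (X, 0)) • X, (0 : V → ℝ)) : (V → ℝ) × (V → ℝ)) =
        (-(f (0, fun _ => 1)) / f (X, 0)) • (X, 0) := by
      simp [Prod.smul_mk]
    rw [h2, map_smul, smul_eq_mul, div_mul_cancel₀ _ hne] at h1
    linarith
  have hYneg : ∀ Y : V → ℝ, (∀ v, 0 < Y v) → f (0, Y) < 0 := fun Y hY => hneg 0 Y hY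
  have hYle : ∀ v : V, f (0, Pi.single v 1) ≤ 0 := by
    intro v
    by_contra hcon
    push Not at hcon
    have h1 : f (0, fun _ => (1:ℝ)) < 0 := hYneg _ fun _ => one_pos
    set t : ℝ := f (0, Pi.single v 1) / (-(f (0, fun _ => (1:ℝ)))) with ht
    have htp : 0 < t := div_pos hcon (by linarith)
    have h2 := hYneg (Pi.single v 1 + t • fun _ => (1:ℝ)) (by
      intro v'
      simp only [Pi.add_apply, Pi.smul_apply, smul_eq_mul, mul_one]
      have : (0:ℝ) ≤ (Pi.single v 1 : V → ℝ) v' := by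
        rw [Pi.single_apply]
        split_ifs <;> norm_num
      linarith)
    have h3 : ((0, Pi.single v 1 + t • fun _ => (1:ℝ)) : (V → ℝ) × (V → ℝ)) =
        (0, Pi.single v 1) + t • (0, fun _ => (1:ℝ)) := by
      simp [Prod.smul_mk]
    rw [h3, map_add, map_smul, smul_eq_mul] at h2
    have h4 : t * (-(f (0, fun _ => (1:ℝ)))) = f (0, Pi.single v 1) := by
      rw [ht]
      exact div_mul_cancel₀ _ (by linarith)
    linarith
  have hYsum : ∃ v : V, f (0, Pi.single v 1) < 0 := by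
    by_contra hcon
    push Not at hcon
    have h1 : f (0, fun _ => (1:ℝ)) < 0 := hYneg _ fun _ => one_pos
    have h2 : ((0, fun _ => (1:ℝ)) : (V → ℝ) × (V → ℝ)) = ∑ v, (0, Pi.single v 1) := by
      rw [Prod.ext_iff]
      constructor
      · simp [Prod.fst_sum]
      · rw [Prod.snd_sum]
        ext v'
        simp [Finset.sum_apply, Pi.single_apply]
    rw [h2, map_sum] at h1
    have := Finset.sum_nonneg fun v (_ : v ∈ Finset.univ) => hcon v
    linarith
  have hev1 : ∀ v : V, f (Pi.single v 1, 0) =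
      -∑ i, m (Pi.single i 1) * ((if u i = v then 1 else 0) + (if w i = v then 1 else 0)) := by
    intro v
    rw [← hm, lin_sum, ← Finset.sum_neg_distrib]
    refine Finset.sum_congr rfl fun i _ => ?_
    simp only [Phi, LinearMap.coe_mk, AddHom.coe_mk, Pi.zero_apply, Pi.single_apply]
    ring
  have hev2 : ∀ v : V, f (0, Pi.single v 1) =
      ∑ i, m (Pi.single i 1) * z i * ((if u i = v then 1 else 0) + (if w i = v then 1 else 0)) := by
    intro v
    rw [← hm, lin_sum]
    refine Finset.sum_congr rfl fun i _ => ?_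
    simp only [Phi, LinearMap.coe_mk, AddHom.coe_mk, Pi.zero_apply, Pi.single_apply]
    ring
  refine ⟨fun i => m (Pi.single i 1), ?_, ?_, ?_⟩
  · intro v
    have := hev1 v
    rw [hX0] at this
    linarith
  · intro v
    rw [← hev2]
    exact hYle v
  · obtain ⟨v, hv⟩ := hYsum
    refine ⟨v, ?_⟩
    rw [← hev2]
    exact hv


end Pool.Agent.H891WLC
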