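import Pool.Agent.H891FSS.Defs

set_option autoImplicit false

namespace Pool.Agent.H891WLC

namespace W_FS_CERT

/-- partial sums -/
noncomputable def sg (μ : ℕ → ℝ) (k : ℕ) : ℝ := ∑ i ∈ Finset.range k, μ i

theorem sg_succ (μ : ℕ → ℝ) (k : ℕ) : sg μ (k + 1) = sg μ k + μ k := by
  unfold sg
  rw [Finset.sum_range_succ]

theorem sum_Ico_sg (μ : ℕ → ℝ) {I J : ℕ} (h : I ≤ J) :
    ∑ i ∈ Finset.Ico I J, μ i = sg μ J - sg μ I := by
  unfold sg
  rw [Finset.sum_Ico_eq_sub _ h]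

theorem abel (μ z : ℕ → ℝ) (I : ℕ) : ∀ d : ℕ,
    ∑ i ∈ Finset.Ico I (I + 1 + d), μ i * z i =
      (sg μ (I + 1 + d) - sg μ I) * z (I + d) -
        ∑ i ∈ Finset.Ico (I + 1) (I + 1 + d), (sg μ i - sg μ I) * (z i - z (i - 1)) := by
  intro d
  induction d with
  | zero =>
    simp [sg_succ]
  | succ d ih =>
    rw [show I + 1 + (d + 1) = (I + 1 + d) + 1 by ring, Finset.sum_Ico_succ_top (by omega), ih,
      Finset.sum_Ico_succ_top (by omega), sg_succ μ (I + 1 + d),
      show I + 1 + d - 1 = I + d by omega, show I + (d + 1) = I + 1 + d by ring]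
    ring

theorem interval_const (μ z : ℕ → ℝ) (hz : StrictMono z) (N : ℕ) (M : ℝ)
    (hM : ∀ i, i ≤ N → sg μ i ≤ M) {I J : ℕ} (hIJ : I < J) (hJ : J ≤ N)
    (e1 : ∑ i ∈ Finset.Ico I J, μ i = 0) (e2 : ∑ i ∈ Finset.Ico I J, μ i * z i ≤ 0)
    (hI : sg μ I = M) : ∀ i, I ≤ i → i ≤ J → sg μ i = M := by
  obtain ⟨d, rfl⟩ : ∃ d, J = I + 1 + d := ⟨J - (I + 1), by omega⟩
  have hJI : sg μ (I + 1 + d) = sg μ I := by
    rw [sum_Ico_sg μ hIJ.le] at e1
    linarith
  have h0 := abel μ z I d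
  rw [hJI, sub_self, zero_mul, zero_sub] at h0
  have hnp : ∀ i ∈ Finset.Ico (I + 1) (I + 1 + d),
      (sg μ i - sg μ I) * (z i - z (i - 1)) ≤ 0 := by
    intro i hi
    rw [Finset.mem_Ico] at hi
    have h1 : sg μ i - sg μ I ≤ 0 := by
      have := hM i (by omega)
      linarith
    have h2 : 0 ≤ z i - z (i - 1) := by
      have := hz (show i - 1 < i by omega)
      linarith
    exact mul_nonpos_of_nonpos_of_nonneg h1 h2
  have hs : ∑ i ∈ Finset.Ico (I + 1) (I + 1 + d), (sg μ i - sg μ I) * (z i - z (i - 1)) = 0 := by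
    apply le_antisymm (Finset.sum_nonpos hnp)
    linarith
  rw [Finset.sum_eq_zero_iff_of_nonpos hnp] at hs
  intro i hi1 hi2
  rcases Nat.eq_or_lt_of_le hi1 with h | h
  · rw [← h]; exact hI
  rcases Nat.eq_or_lt_of_le hi2 with h' | h'
  · rw [h', hJI]; exact hI
  have h3 := hs i (Finset.mem_Ico.2 ⟨by omega, h'⟩)
  have h2 : z i - z (i - 1) ≠ 0 := by
    have := hz (show i - 1 < i by omega)
    exact ne_of_gt (by linarith)
  have h4 := (mul_eq_zero.1 h3).resolve_right h2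
  linarith

theorem sep_contra {V : Type} (N : ℕ) (c : ℕ → V) (A : Set V) (hs : SepA N c A)
    (z μ : ℕ → ℝ) (hz : StrictMono z)
    (h1 : ∀ (C : Set V) (I J : ℕ), C ⊆ A → I ≤ J → J ≤ N → (∀ i, i < N → (c i ∈ C ↔ I ≤ i ∧ i < J)) →
      ∑ i ∈ Finset.Ico I J, μ i = 0 ∧ ∑ i ∈ Finset.Ico I J, μ i * z i ≤ 0)
    (M : ℝ) (hM : ∀ i, i ≤ N → sg μ i ≤ M) (a b : ℕ) (hab : a < b) (hb : b < N)
    (hc : ∀ k, a < k → k ≤ b → sg μ k = M) (ha : sg μ a < M) (hb1 : sg μ (b + 1) < M)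
    (hne : c a ≠ c b) : False := by
  obtain ⟨C, I, J, hC, hIJ, hJN, hidx, hsep⟩ := hs a b (by omega) hb hne
  obtain ⟨e1, e2⟩ := h1 C I J hC hIJ hJN hidx
  have hJI : sg μ J = sg μ I := by
    rw [sum_Ico_sg μ hIJ] at e1
    linarith
  by_cases h : I ≤ a ∧ a < J
  · have hbn := hsep.1 h
    have hJb : J ≤ b := by
      by_contra hcon
      exact hbn ⟨by omega, by omega⟩
    have hJM : sg μ J = M := hc J (by omega) hJb
    have hIM : sg μ I = M := by rw [← hJI]; exact hJM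
    have := interval_const μ z hz N M hM (show I < J by omega) hJN e1 e2 hIM a h.1 (by omega)
    linarith
  · have hbn : I ≤ b ∧ b < J := by
      by_contra hcon
      exact h (hsep.2 hcon)
    have haI : a < I := by
      by_contra hcon
      exact h ⟨by omega, by omega⟩
    have hIM : sg μ I = M := hc I haI hbn.1
    have := interval_const μ z hz N M hM (show I < J by omega) hJN e1 e2 hIM (b + 1) (by omega)
      (by omega)
    linarith

end W_FS_CERT

open W_FS_CERT in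
theorem FS_CERT {V : Type} (N : ℕ) (u w : ℕ → V) (A B : Set V) (hsA : SepA N u A) (hsB : SepA N w B)
    (hinj : ∀ i j, i < N → j < N → u i = u j → w i = w j → i = j)
    (z μ : ℕ → ℝ) (hz : StrictMono z)
    (h1 : ∀ (C : Set V) (I J : ℕ), C ⊆ A → I ≤ J → J ≤ N → (∀ i, i < N → (u i ∈ C ↔ I ≤ i ∧ i < J)) →
      ∑ i ∈ Finset.Ico I J, μ i = 0 ∧ ∑ i ∈ Finset.Ico I J, μ i * z i ≤ 0)
    (h2 : ∀ (C : Set V) (I J : ℕ), C ⊆ B → I ≤ J → J ≤ N → (∀ i, i < N → (w i ∈ C ↔ I ≤ i ∧ i < J)) →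
      ∑ i ∈ Finset.Ico I J, μ i = 0 ∧ ∑ i ∈ Finset.Ico I J, μ i * z i ≤ 0)
    (h5 : ∑ i ∈ Finset.range N, μ i = 0) (h6 : ∑ i ∈ Finset.range N, μ i * z i ≤ 0) :
    ∀ i, i < N → μ i = 0 := by
  obtain ⟨k0, hk0, hmax⟩ := Finset.exists_max_image (Finset.range (N + 1)) (sg μ)
    ⟨0, Finset.mem_range.2 (by omega)⟩
  rw [Finset.mem_range] at hk0
  have hM : ∀ i, i ≤ N → sg μ i ≤ sg μ k0 := fun i hi => hmax i (Finset.mem_range.2 (by omega))
  have hs0 : sg μ 0 = 0 := by simp [sg]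
  have hsN : sg μ N = 0 := h5
  have h0 : 0 ≤ sg μ k0 := by rw [← hs0]; exact hM 0 (by omega)
  rcases h0.eq_or_lt with hz0 | hpos
  · intro i hi
    have hc := interval_const μ z hz N (sg μ k0) hM (show 0 < N by omega) le_rfl
      (by rw [← Finset.range_eq_Ico]; exact h5) (by rw [← Finset.range_eq_Ico]; exact h6)
      (by rw [hs0]; exact hz0)
    have e1 := hc i (by omega) (by omega)
    have e2 := hc (i + 1) (by omega) (by omega)
    rw [sg_succ] at e2
    linarith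
  · exfalso
    classical
    have hk00 : k0 ≠ 0 := by
      intro h
      rw [h, hs0] at hpos
      exact lt_irrefl _ hpos
    have hk0N : k0 < N := by
      rcases Nat.lt_or_ge k0 N with h | h
      · exact h
      · have : k0 = N := by omega
        rw [this, hsN] at hpos
        exact absurd hpos (lt_irrefl _)
    -- the index a
    obtain ⟨a, ha1, ha2, ha3⟩ : ∃ a, a < k0 ∧ sg μ a < sg μ k0 ∧
        ∀ k, a < k → k ≤ k0 → sg μ k = sg μ k0 := by
      have hP0 : sg μ 0 < sg μ k0 := by rw [hs0]; exact hpos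
      have hsp := Nat.findGreatest_spec (P := fun k => sg μ k < sg μ k0) (Nat.zero_le k0) hP0
      refine ⟨Nat.findGreatest (fun k => sg μ k < sg μ k0) k0, ?_, hsp, ?_⟩
      · refine lt_of_le_of_ne (Nat.findGreatest_le _) ?_
        intro h
        rw [h] at hsp
        exact lt_irrefl _ hsp
      · intro k hk1 hk2
        have := Nat.findGreatest_is_greatest hk1 hk2
        exact le_antisymm (hM k (by omega)) (not_lt.1 this)
    -- the index b
    obtain ⟨b, hb1, hb2, hb3, hb4⟩ : ∃ b, k0 ≤ b ∧ b < N ∧ sg μ (b + 1) < sg μ k0 ∧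
        ∀ k, k0 ≤ k → k ≤ b → sg μ k = sg μ k0 := by
      have hex : ∃ k, k0 < k ∧ k ≤ N ∧ sg μ k < sg μ k0 :=
        ⟨N, hk0N, le_rfl, by rw [hsN]; exact hpos⟩
      obtain ⟨f1, f2, f3⟩ := Nat.find_spec hex
      refine ⟨Nat.find hex - 1, by omega, by omega, ?_, ?_⟩
      · rw [show Nat.find hex - 1 + 1 = Nat.find hex by omega]
        exact f3
      · intro k hk1 hk2
        rcases Nat.eq_or_lt_of_le hk1 with h | h
        · rw [h]
        · have := Nat.find_min hex (show k < Nat.find hex by omega)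
          have h' : ¬ sg μ k < sg μ k0 := fun hh => this ⟨h, by omega, hh⟩
          exact le_antisymm (hM k (by omega)) (not_lt.1 h')
    have hc : ∀ k, a < k → k ≤ b → sg μ k = sg μ k0 := by
      intro k hk1 hk2
      rcases le_total k k0 with h | h
      · exact ha3 k hk1 h
      · exact hb4 k h hk2
    have hne : u a ≠ u b ∨ w a ≠ w b := by
      by_contra hcon
      push Not at hcon
      have := hinj a b (by omega) hb2 hcon.1 hcon.2
      omega
    rcases hne with hne | hne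
    · exact sep_contra N u A hsA z μ hz h1 _ hM a b (by omega) hb2 hc ha2 hb3 hne
    · exact sep_contra N w B hsB z μ hz h2 _ hM a b (by omega) hb2 hc ha2 hb3 hne


end Pool.Agent.H891WLC
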