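import Pool.Agent.H891FSS.Defs
import Pool.Agent.H891WLC.CHI

set_option autoImplicit false

namespace Pool.Agent.H891WLC

namespace W_FS_BRIDGE

theorem reach_of_rtg {V : Type} (G : SimpleGraph V) (A : Set V) (u : V) (hu : u ∈ A) (v : V)
    (h : Relation.ReflTransGen (fun x y => G.Adj x y ∧ y ∈ A) u v) :
    ∃ hv : v ∈ A, (G.induce A).Reachable ⟨u, hu⟩ ⟨v, hv⟩ := by
  induction h with
  | refl => exact ⟨hu, SimpleGraph.Reachable.refl _⟩
  | tail _ hbc ih =>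
    obtain ⟨hb, hr⟩ := ih
    refine ⟨hbc.2, hr.trans (SimpleGraph.Adj.reachable ?_)⟩
    simpa using hbc.1

theorem conn_induce {V : Type} (G : SimpleGraph V) (A : Set V) (h : Conn G A) :
    (G.induce A).Connected := by
  obtain ⟨⟨a, ha⟩, h2⟩ := h
  haveI : Nonempty A := ⟨⟨a, ha⟩⟩
  refine SimpleGraph.Connected.mk ?_
  rintro ⟨u, hu⟩ ⟨v, hv⟩
  obtain ⟨_, hr⟩ := reach_of_rtg G A u hu v (h2 u hu v hv)
  exact hr

theorem two_edges {W : Type} [Finite W] (G : SimpleGraph W) :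
    Nat.card {e : W × W // G.Adj e.1 e.2} = 2 * Nat.card G.edgeSet := by
  classical
  haveI := Fintype.ofFinite W
  have h1 := G.dart_card_eq_twice_card_edges
  have h2 : Nat.card {e : W × W // G.Adj e.1 e.2} = Fintype.card G.Dart := by
    rw [← Nat.card_eq_fintype_card]
    exact Nat.card_congr
      { toFun := fun e => ⟨e.1, e.2⟩
        invFun := fun d => ⟨d.toProd, d.adj⟩
        left_inv := fun e => rfl
        right_inv := fun d => rfl }
  rw [h2, h1, ← SimpleGraph.coe_edgeFinset, Nat.card_coe_set_eq, Set.ncard_coe_finset]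

theorem card_pairs {V : Type} [Finite V] (G : SimpleGraph V) (A : Set V) :
    Nat.card {e : V × V // e.1 ∈ A ∧ e.2 ∈ A ∧ G.Adj e.1 e.2} =
      2 * Nat.card (G.induce A).edgeSet := by
  rw [← two_edges]
  exact Nat.card_congr
    { toFun := fun e => ⟨(⟨e.1.1, e.2.1⟩, ⟨e.1.2, e.2.2.1⟩), by simpa using e.2.2.2⟩
      invFun := fun e => ⟨(e.1.1.1, e.1.2.1), e.1.1.2, e.1.2.2, by simpa using e.2⟩
      left_inv := fun e => rfl
      right_inv := fun e => rfl }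

theorem tree_sep {W : Type} (G : SimpleGraph W) (hT : G.IsTree) (x y : W) (hxy : x ≠ y) :
    ∃ (C : Set W) (x1 : W), x ∈ C ∧ y ∉ C ∧ x1 ∉ C ∧
      ∀ s ∈ C, ∀ t, t ∉ C → G.Adj s t → s = x ∧ t = x1 := by
  classical
  obtain ⟨p, hp⟩ := (hT.1 x y).exists_isPath
  cases p with
  | nil => exact absurd rfl hxy
  | cons h p' =>
    rename_i x1
    have hpp := (SimpleGraph.Walk.cons_isPath_iff h p').1 hp
    have hb : G.IsBridge s(x, x1) := (SimpleGraph.isAcyclic_iff_forall_adj_isBridge.1 hT.2) h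
    have hb' : ¬ (G.deleteEdges {s(x, x1)}).Reachable x x1 := SimpleGraph.isBridge_iff.1 hb
    refine ⟨{s | (G.deleteEdges {s(x, x1)}).Reachable x s}, x1, SimpleGraph.Reachable.refl _, ?_, hb', ?_⟩
    · intro hy
      apply hb'
      refine SimpleGraph.Reachable.trans hy ?_
      have h3 : ∀ e ∈ p'.edges, e ∉ ({s(x, x1)} : Set (Sym2 W)) := by
        intro e he hee
        rw [Set.mem_singleton_iff] at hee
        subst hee
        exact hpp.2 (SimpleGraph.Walk.fst_mem_support_of_mem_edges p' he)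
      exact ⟨(p'.toDeleteEdges {s(x, x1)} h3).reverse⟩
    · intro s hs t ht hst
      by_cases he : s(s, t) = s(x, x1)
      · rw [Sym2.eq_iff] at he
        rcases he with he | he
        · exact he
        · exfalso
          rw [he.1] at hs
          exact hb' hs
      · exfalso
        apply ht
        refine SimpleGraph.Reachable.trans hs (SimpleGraph.Adj.reachable ?_)
        rw [SimpleGraph.deleteEdges_adj]
        exact ⟨hst, he⟩

end W_FS_BRIDGE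

open W_FS_BRIDGE in
theorem FS_BRIDGE {V : Type} [Finite V] (T : Tri V) (A : Set V) (hA : Conn T.G A) (hB : Conn T.G Aᶜ)
    (hm : ∀ a b c, T.F a b c → ¬ (a ∈ A ∧ b ∈ A ∧ c ∈ A)) :
    ∀ x ∈ A, ∀ y ∈ A, x ≠ y → ∃ C : Set V, C ⊆ A ∧ x ∈ C ∧ y ∉ C ∧ ∃ p ∈ C, ∃ q ∈ A, q ∉ C ∧
      ∀ s ∈ C, ∀ t ∈ A, t ∉ C → T.G.Adj s t → s = p ∧ t = q := by
  intro x hx y hy hxy
  have h1 := CHI T A hA hB
  have h0 : Nat.card {t : V × V × V // t.1 ∈ A ∧ t.2.1 ∈ A ∧ t.2.2 ∈ A ∧ T.F t.1 t.2.1 t.2.2} = 0 := by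
    haveI : IsEmpty {t : V × V × V // t.1 ∈ A ∧ t.2.1 ∈ A ∧ t.2.2 ∈ A ∧ T.F t.1 t.2.1 t.2.2} :=
      ⟨fun t => hm _ _ _ t.2.2.2.2 ⟨t.2.1, t.2.2.1, t.2.2.2.1⟩⟩
    exact Nat.card_of_isEmpty
  rw [h0, card_pairs T.G A] at h1
  have htree : (T.G.induce A).IsTree := by
    rw [SimpleGraph.isTree_iff_connected_and_card]
    refine ⟨conn_induce T.G A hA, ?_⟩
    omega
  obtain ⟨C, x1, hxC, hyC, hx1, hC⟩ := tree_sep (T.G.induce A) htree ⟨x, hx⟩ ⟨y, hy⟩
    (fun h => hxy (congrArg Subtype.val h))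
  refine ⟨Subtype.val '' C, ?_, ⟨⟨x, hx⟩, hxC, rfl⟩, ?_, x, ⟨⟨x, hx⟩, hxC, rfl⟩, x1.1, x1.2, ?_, ?_⟩
  · rintro _ ⟨z, _, rfl⟩
    exact z.2
  · rintro ⟨z, hz, hzy⟩
    apply hyC
    have : z = ⟨y, hy⟩ := Subtype.ext hzy
    rwa [this] at hz
  · rintro ⟨z, hz, hzy⟩
    apply hx1
    have : z = x1 := Subtype.ext hzy
    rwa [this] at hz
  · rintro s ⟨z, hz, rfl⟩ t ht htC hst
    have h2 : (⟨t, ht⟩ : A) ∉ C := fun h => htC ⟨⟨t, ht⟩, h, rfl⟩
    obtain ⟨h3, h4⟩ := hC z hz ⟨t, ht⟩ h2 (by simpa using hst)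
    exact ⟨congrArg Subtype.val h3, congrArg Subtype.val h4⟩


end Pool.Agent.H891WLC
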