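import Pool.Agent.H891FSS.Defs
import Pool.Agent.H891FSS.FS_ALT
import Pool.Agent.H891FSS.FS_CERT
import Pool.Agent.H891FSS.FS_SEP

set_option autoImplicit false

namespace Pool.Agent.H891WLC

namespace W_FS_LP

lemma key {V : Type} [Fintype V] [DecidableEq V] (N : ℕ) (p q : ℕ → V) (g : ℕ → ℝ) (C : Set V) (I J : ℕ)
    (hJ : J ≤ N) (h1 : ∀ i, i < N → (p i ∈ C ↔ I ≤ i ∧ i < J)) (h2 : ∀ i, i < N → q i ∉ C)
    [DecidablePred (· ∈ C)] :
    ∑ v ∈ Finset.univ.filter (· ∈ C), ∑ i : Fin N,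
      g i * ((if p i = v then 1 else 0) + (if q i = v then 1 else 0)) = ∑ i ∈ Finset.Ico I J, g i := by
  rw [Finset.sum_comm]
  have h3 : ∀ i : Fin N, ∑ v ∈ Finset.univ.filter (· ∈ C),
      g i * ((if p i = v then 1 else 0) + (if q i = v then (1:ℝ) else 0))
      = (fun i : ℕ => if I ≤ i ∧ i < J then g i else 0) i := by
    intro i
    have e1 : ∀ v ∈ Finset.univ.filter (· ∈ C),
        g i * ((if p i = v then 1 else 0) + (if q i = v then (1:ℝ) else 0))
          = if p i = v then g i else 0 := by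
      intro v hv
      have hvC : v ∈ C := by simpa using hv
      have : q i ≠ v := fun h => h2 i i.2 (h ▸ hvC)
      rw [if_neg this]
      split_ifs <;> simp
    rw [Finset.sum_congr rfl e1, Finset.sum_ite_eq]
    have := h1 i i.2
    simp only [Finset.mem_filter, Finset.mem_univ, true_and]
    by_cases hh : p i ∈ C
    · rw [if_pos hh, if_pos (this.1 hh)]
    · rw [if_neg hh, if_neg (fun h => hh (this.2 h))]
  rw [Finset.sum_congr rfl (fun i _ => h3 i),
    Fin.sum_univ_eq_sum_range (fun i : ℕ => if I ≤ i ∧ i < J then g i else 0) N, ← Finset.sum_filter]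
  congr 1
  ext i
  simp only [Finset.mem_filter, Finset.mem_range, Finset.mem_Ico]
  omega

end W_FS_LP

open W_FS_LP in
theorem FS_LP {V : Type} [Fintype V] (T : Tri V) (A : Set V) (hA : Conn T.G A) (hB : Conn T.G Aᶜ)
    (hm : ∀ a b c, T.F a b c → ¬ (a ∈ A ∧ b ∈ A ∧ c ∈ A) ∧ ¬ (a ∉ A ∧ b ∉ A ∧ c ∉ A))
    (N : ℕ) (e : ℕ → V × V) (he : CycE T A N e) (z : ℕ → ℝ) (hz : StrictMono z) :
    ∃ X Y : V → ℝ, (∀ v, 0 < Y v) ∧ ∀ i, i < N → X (e i).1 + X (e i).2 = z i * (Y (e i).1 + Y (e i).2) := by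
  classical
  by_contra hcon
  push Not at hcon
  obtain ⟨μ, h0, h1, v0, hv0⟩ := FS_ALT (ι := Fin N) (fun i => (e i).1) (fun i => (e i).2) (fun i => z i)
    (by
      intro X Y hY
      obtain ⟨i, hi, hne⟩ := hcon X Y hY
      exact ⟨⟨i, hi⟩, hne⟩)
  set m : ℕ → ℝ := fun i => if h : i < N then μ ⟨i, h⟩ else 0 with hm'
  have hmi : ∀ i : Fin N, μ i = m i := by
    intro i
    simp [hm']
  have h0' : ∀ v, ∑ i : Fin N, m i * ((if (e i).1 = v then 1 else 0) + (if (e i).2 = v then 1 else 0)) = 0 := by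
    intro v
    have := h0 v
    simpa only [hmi] using this
  have h1' : ∀ v, ∑ i : Fin N, (m i * z i) * ((if (e i).1 = v then 1 else 0) + (if (e i).2 = v then 1 else 0)) ≤ 0 := by
    intro v
    have := h1 v
    simpa only [hmi] using this
  have hfam1 : ∀ (C : Set V) (I J : ℕ), C ⊆ A → I ≤ J → J ≤ N → (∀ i, i < N → ((e i).1 ∈ C ↔ I ≤ i ∧ i < J)) →
      ∑ i ∈ Finset.Ico I J, m i = 0 ∧ ∑ i ∈ Finset.Ico I J, m i * z i ≤ 0 := by
    intro C I J hC _ hJ hi
    have hq : ∀ i, i < N → (e i).2 ∉ C := fun i _ h => (he.mem i).2.1 (hC h)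
    refine ⟨?_, ?_⟩
    · rw [← key N (fun i => (e i).1) (fun i => (e i).2) m C I J hJ hi hq]
      exact Finset.sum_eq_zero (fun v _ => h0' v)
    · rw [← key N (fun i => (e i).1) (fun i => (e i).2) (fun i => m i * z i) C I J hJ hi hq]
      exact Finset.sum_nonpos (fun v _ => h1' v)
  have hfam2 : ∀ (C : Set V) (I J : ℕ), C ⊆ Aᶜ → I ≤ J → J ≤ N → (∀ i, i < N → ((e i).2 ∈ C ↔ I ≤ i ∧ i < J)) →
      ∑ i ∈ Finset.Ico I J, m i = 0 ∧ ∑ i ∈ Finset.Ico I J, m i * z i ≤ 0 := by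
    intro C I J hC _ hJ hi
    have hq : ∀ i, i < N → (e i).1 ∉ C := fun i _ h => hC h (he.mem i).1
    refine ⟨?_, ?_⟩
    · rw [← key N (fun i => (e i).2) (fun i => (e i).1) m C I J hJ hi hq]
      refine Finset.sum_eq_zero (fun v _ => ?_)
      refine Eq.trans (Finset.sum_congr rfl (fun i _ => ?_)) (h0' v)
      ring
    · rw [← key N (fun i => (e i).2) (fun i => (e i).1) (fun i => m i * z i) C I J hJ hi hq]
      refine Finset.sum_nonpos (fun v _ => ?_)
      refine le_trans (le_of_eq (Finset.sum_congr rfl (fun i _ => ?_))) (h1' v)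
      ring
  obtain ⟨hsA, hsB⟩ := FS_SEP T A hA hB hm N e he
  have hall := hfam1 A 0 N subset_rfl (Nat.zero_le _) le_rfl
    (fun i hi => ⟨fun _ => ⟨Nat.zero_le _, hi⟩, fun _ => (he.mem i).1⟩)
  rw [← Finset.range_eq_Ico] at hall
  have hz0 := FS_CERT N (fun i => (e i).1) (fun i => (e i).2) A Aᶜ hsA hsB
    (fun i j hi hj h1 h2 => he.inj i j hi hj (Prod.ext h1 h2)) z m hz hfam1 hfam2 hall.1 hall.2
  have : ∑ i : Fin N, μ i * z i * ((if (e i).1 = v0 then 1 else 0) + (if (e i).2 = v0 then 1 else 0)) = 0 := by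
    refine Finset.sum_eq_zero (fun i _ => ?_)
    rw [hmi i, hz0 i i.2]
    simp
  exact absurd hv0 (by rw [this]; exact lt_irrefl _)


end Pool.Agent.H891WLC
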