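import Pool.Agent.H891FSS.Defs
import Pool.Agent.H891WLC.PLANE

set_option autoImplicit false

namespace Pool.Agent.H891WLC

namespace W_FS_PERT

/-- perturbed positions -/
def qq {V S : Type} (p : V ⊕ S → ℝ × ℝ) (y : S → ℝ) (ε : ℝ) : V ⊕ S → ℝ × ℝ
  | Sum.inl v => p (Sum.inl v)
  | Sum.inr s => ((p (Sum.inr s)).1, ε * y s)

theorem qq_cont {V S : Type} (p : V ⊕ S → ℝ × ℝ) (y : S → ℝ) (v : V ⊕ S) :
    Continuous fun ε => qq p y ε v := by
  cases v with
  | inl v => exact continuous_const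
  | inr s =>
    change Continuous fun ε : ℝ => (((p (Sum.inr s)).1, ε * y s) : ℝ × ℝ)
    fun_prop

theorem crs_cont {V S : Type} (p : V ⊕ S → ℝ × ℝ) (y : S → ℝ) (a b c : V ⊕ S) :
    Continuous fun ε => crs (qq p y ε a) (qq p y ε b) (qq p y ε c) := by
  unfold crs
  have ha := qq_cont p y a
  have hb := qq_cont p y b
  have hc := qq_cont p y c
  fun_prop

theorem crs_scale (a b c : ℝ × ℝ) (ε : ℝ) :
    crs (a.1, a.2 / ε) (b.1, b.2 / ε) (c.1, c.2 / ε) = crs a b c / ε := by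
  unfold crs
  simp only [div_eq_mul_inv]
  ring

end W_FS_PERT

open W_FS_PERT in
theorem FS_PERT {V S : Type} [Fintype V] [Fintype S] (T' : Tri (V ⊕ S)) (o₁ o₂ o₃ : V ⊕ S) (p : V ⊕ S → ℝ × ℝ)
    (hd : Drawn T' o₁ o₂ o₃ p) (h0 : ∀ s, (p (Sum.inr s)).2 = 0) (y : S → ℝ) :
    ∃ p' : V ⊕ S → ℝ × ℝ, Plane T'.G p' ∧ ∀ s, p' (Sum.inr s) = ((p (Sum.inr s)).1, y s) := by
  classical
  have hq0 : qq p y 0 = p := by
    funext v
    cases v with
    | inl v => rfl
    | inr s =>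
      refine Prod.ext rfl ?_
      change 0 * y s = _
      rw [h0 s, zero_mul]
  have h1 : ∀ᶠ ε in nhds (0 : ℝ), crs (qq p y ε o₁) (qq p y ε o₂) (qq p y ε o₃) < 0 := by
    refine (crs_cont p y o₁ o₂ o₃).continuousAt.eventually_lt continuousAt_const ?_
    rw [hq0]
    exact hd.2.1
  have h2 : ∀ᶠ ε in nhds (0 : ℝ), ∀ a b c, T'.F a b c → ¬ IsRot o₁ o₂ o₃ a b c →
      0 < crs (qq p y ε a) (qq p y ε b) (qq p y ε c) := by
    rw [Filter.eventually_all]
    intro a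
    rw [Filter.eventually_all]
    intro b
    rw [Filter.eventually_all]
    intro c
    by_cases hF : T'.F a b c
    · by_cases hR : IsRot o₁ o₂ o₃ a b c
      · exact Filter.Eventually.of_forall fun ε _ h => absurd hR h
      · have h3 : ∀ᶠ ε in nhds (0 : ℝ), 0 < crs (qq p y ε a) (qq p y ε b) (qq p y ε c) := by
          refine continuousAt_const.eventually_lt (crs_cont p y a b c).continuousAt ?_
          rw [hq0]
          exact hd.2.2 a b c hF hR
        exact h3.mono fun ε h _ _ => h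
    · exact Filter.Eventually.of_forall fun ε h => absurd h hF
  have h4 : ∀ᶠ ε in nhdsWithin (0 : ℝ) (Set.Ioi 0), (crs (qq p y ε o₁) (qq p y ε o₂) (qq p y ε o₃) < 0 ∧
      ∀ a b c, T'.F a b c → ¬ IsRot o₁ o₂ o₃ a b c →
      0 < crs (qq p y ε a) (qq p y ε b) (qq p y ε c)) ∧ ε ∈ Set.Ioi (0 : ℝ) :=
    ((h1.and h2).filter_mono nhdsWithin_le_nhds).and self_mem_nhdsWithin
  obtain ⟨ε, ⟨h5, h6⟩, h7⟩ := h4.exists
  have hε : 0 < ε := h7
  refine ⟨fun v => ((qq p y ε v).1, (qq p y ε v).2 / ε), ?_, ?_⟩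
  · refine PLANE T' o₁ o₂ o₃ _ ⟨hd.1, ?_, ?_⟩
    · change crs ((qq p y ε o₁).1, (qq p y ε o₁).2 / ε) ((qq p y ε o₂).1, (qq p y ε o₂).2 / ε)
        ((qq p y ε o₃).1, (qq p y ε o₃).2 / ε) < 0
      rw [crs_scale]
      exact div_neg_of_neg_of_pos h5 hε
    · intro a b c hF hR
      change 0 < crs ((qq p y ε a).1, (qq p y ε a).2 / ε) ((qq p y ε b).1, (qq p y ε b).2 / ε)
        ((qq p y ε c).1, (qq p y ε c).2 / ε)
      rw [crs_scale]
      exact div_pos (h6 a b c hF hR) hε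
  · intro s
    refine Prod.ext rfl ?_
    change ε * y s / ε = y s
    field_simp


end Pool.Agent.H891WLC
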