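import Pool.Agent.H891FSS.Defs

set_option autoImplicit false

namespace Pool.Agent.H891WLC

namespace W_FS_ZCHO

theorem zstep {S : Type} [Fintype S] (k : S → ℕ) (x : S → ℝ)
    (hx : ∀ s t, k s < k t → x s < x t) (j : ℕ) (w : ℝ) (hw : ∀ s, j ≤ k s → w < x s) :
    ∃ w' : ℝ, w < w' ∧ (∀ s, k s = j → x s < w') ∧ (∀ s, j + 1 ≤ k s → w' < x s) := by
  classical
  obtain ⟨m, h1, h2⟩ := Order.exists_between_finsets
    (insert w ((Finset.univ.filter (fun s => k s = j)).image x))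
    ((Finset.univ.filter (fun s => j + 1 ≤ k s)).image x) (by
      intro a ha b hb
      obtain ⟨t, ht, rfl⟩ := Finset.mem_image.1 hb
      have ht' := (Finset.mem_filter.1 ht).2
      rcases Finset.mem_insert.1 ha with rfl | ha
      · exact hw t (by omega)
      · obtain ⟨s, hs, rfl⟩ := Finset.mem_image.1 ha
        have hs' := (Finset.mem_filter.1 hs).2
        exact hx s t (by omega))
  refine ⟨m, h1 w (Finset.mem_insert_self _ _), ?_, ?_⟩
  · intro s hs
    exact h1 _ (Finset.mem_insert_of_mem (Finset.mem_image_of_mem x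
      (Finset.mem_filter.2 ⟨Finset.mem_univ s, hs⟩)))
  · intro s hs
    exact h2 _ (Finset.mem_image_of_mem x (Finset.mem_filter.2 ⟨Finset.mem_univ s, hs⟩))

theorem zzero {S : Type} [Fintype S] (k : S → ℕ) (x : S → ℝ) :
    ∃ w : ℝ, ∀ s, 0 ≤ k s → w < x s := by
  classical
  obtain ⟨m, -, h2⟩ := Order.exists_between_finsets (∅ : Finset ℝ) (Finset.univ.image x)
    (by simp)
  exact ⟨m, fun s _ => h2 _ (Finset.mem_image_of_mem x (Finset.mem_univ s))⟩

end W_FS_ZCHO

open W_FS_ZCHO in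
theorem FS_ZCHO {S : Type} [Fintype S] (k : S → ℕ) (hk : Function.Injective k) (x : S → ℝ)
    (hx : ∀ s t, k s < k t → x s < x t) :
    ∃ z : ℕ → ℝ, StrictMono z ∧ ∀ s, z (k s) < x s ∧ x s < z (k s + 1) := by
  classical
  let z : (j : ℕ) → {w : ℝ // ∀ s, j ≤ k s → w < x s} := fun j =>
    Nat.rec (motive := fun j => {w : ℝ // ∀ s, j ≤ k s → w < x s})
      ⟨(zzero k x).choose, (zzero k x).choose_spec⟩
      (fun j w => ⟨(zstep k x hx j w.1 w.2).choose, (zstep k x hx j w.1 w.2).choose_spec.2.2⟩) j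
  have hz : ∀ j, (z j).1 < (z (j + 1)).1 ∧ ∀ s, k s = j → x s < (z (j + 1)).1 := by
    intro j
    have h := (zstep k x hx j (z j).1 (z j).2).choose_spec
    exact ⟨h.1, h.2.1⟩
  refine ⟨fun j => (z j).1, strictMono_nat_of_lt_succ (fun j => (hz j).1), fun s => ?_⟩
  exact ⟨(z (k s)).2 s le_rfl, (hz (k s)).2 s rfl⟩


end Pool.Agent.H891WLC
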