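import Pool.Agent.H891FSS.Defs
import Pool.Agent.H891FSS.FS_CYC
import Pool.Agent.H891FSS.FS_LP
import Pool.Agent.H891FSS.FS_MSTACK
import Pool.Agent.H891FSS.FS_GEOM
import Pool.Agent.H891FSS.FS_PERT
import Pool.Agent.H891FSS.FS_ZCHO

set_option autoImplicit false

namespace Pool.Agent.H891WLC

namespace W_FS_DRAWS

theorem isRot_rot {V : Type} {o₁ o₂ o₃ a b c : V} (h : IsRot o₁ o₂ o₃ b c a) :
    IsRot o₁ o₂ o₃ a b c := by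
  rcases h with ⟨h1, h2, h3⟩ | ⟨h1, h2, h3⟩ | ⟨h1, h2, h3⟩
  · exact Or.inr (Or.inr ⟨h3, h1, h2⟩)
  · exact Or.inl ⟨h3, h1, h2⟩
  · exact Or.inr (Or.inl ⟨h3, h1, h2⟩)

theorem isRot_F {V : Type} (T : Tri V) {o₁ o₂ o₃ a b c : V} (ho : T.F o₁ o₂ o₃)
    (h : IsRot o₁ o₂ o₃ a b c) : T.F a b c := by
  rcases h with ⟨h1, h2, h3⟩ | ⟨h1, h2, h3⟩ | ⟨h1, h2, h3⟩
  · rw [h1, h2, h3]; exact ho
  · rw [h1, h2, h3]; exact T.rot _ _ _ ho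
  · rw [h1, h2, h3]; exact T.rot _ _ _ (T.rot _ _ _ ho)

theorem isRot_common {V : Type} {o₁ o₂ o₃ r₁ r₂ r₃ a b c : V} (h : IsRot o₁ o₂ o₃ a b c)
    (h' : IsRot r₁ r₂ r₃ a b c) : IsRot o₁ o₂ o₃ r₁ r₂ r₃ := by
  rcases h with ⟨h1, h2, h3⟩ | ⟨h1, h2, h3⟩ | ⟨h1, h2, h3⟩ <;>
  rcases h' with ⟨g1, g2, g3⟩ | ⟨g1, g2, g3⟩ | ⟨g1, g2, g3⟩ <;>
  rw [h1] at g1 <;> rw [h2] at g2 <;> rw [h3] at g3
  · exact Or.inl ⟨g1.symm, g2.symm, g3.symm⟩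
  · exact Or.inr (Or.inr ⟨g3.symm, g1.symm, g2.symm⟩)
  · exact Or.inr (Or.inl ⟨g2.symm, g3.symm, g1.symm⟩)
  · exact Or.inr (Or.inl ⟨g1.symm, g2.symm, g3.symm⟩)
  · exact Or.inl ⟨g3.symm, g1.symm, g2.symm⟩
  · exact Or.inr (Or.inr ⟨g2.symm, g3.symm, g1.symm⟩)
  · exact Or.inr (Or.inr ⟨g1.symm, g2.symm, g3.symm⟩)
  · exact Or.inr (Or.inl ⟨g3.symm, g1.symm, g2.symm⟩)
  · exact Or.inl ⟨g2.symm, g3.symm, g1.symm⟩

/-- a bichromatic face has a rotation with first vertex in `A` and second not in `A` -/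
theorem exists_rot {V : Type} (T : Tri V) (A : Set V) (a b c : V) (hF : T.F a b c)
    (hm : ¬ (a ∈ A ∧ b ∈ A ∧ c ∈ A) ∧ ¬ (a ∉ A ∧ b ∉ A ∧ c ∉ A)) :
    ∃ x y z, T.F x y z ∧ x ∈ A ∧ y ∉ A ∧ IsRot a b c x y z := by
  have r1 := T.rot _ _ _ hF
  have r2 := T.rot _ _ _ r1
  by_cases ha : a ∈ A
  · by_cases hb : b ∈ A
    · by_cases hc : c ∈ A
      · exact absurd ⟨ha, hb, hc⟩ hm.1
      · exact ⟨b, c, a, r1, hb, hc, Or.inr (Or.inl ⟨rfl, rfl, rfl⟩)⟩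
    · exact ⟨a, b, c, hF, ha, hb, Or.inl ⟨rfl, rfl, rfl⟩⟩
  · by_cases hc : c ∈ A
    · exact ⟨c, a, b, r2, hc, ha, Or.inr (Or.inr ⟨rfl, rfl, rfl⟩)⟩
    · by_cases hb : b ∈ A
      · exact ⟨b, c, a, r1, hb, hc, Or.inr (Or.inl ⟨rfl, rfl, rfl⟩)⟩
      · exact absurd ⟨ha, hb, hc⟩ hm.2

theorem isRot_trans {V : Type} {o₁ o₂ o₃ a b c x y z : V} (h : IsRot a b c x y z)
    (h' : IsRot o₁ o₂ o₃ x y z) : IsRot o₁ o₂ o₃ a b c := by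
  have h1 := isRot_common h' h
  exact h1

/-- uniqueness of the successor -/
theorem nxt_uniq {V : Type} (T : Tri V) (A : Set V) (a b c : V) (hF : T.F a b c) (q q' : V × V)
    (h : Nxt T A (a, b) q) (h' : Nxt T A (a, b) q') : q = q' := by
  rcases h with ⟨h1, h2, h3⟩ | ⟨h1, h2, h3⟩ <;> rcases h' with ⟨g1, g2, g3⟩ | ⟨g1, g2, g3⟩
  · exact Prod.ext (h2.trans g2.symm) (T.uniq _ _ _ _ h1 g1)
  · exact absurd (by rw [T.uniq _ _ _ _ h1 g1]; exact g3) h3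
  · exact absurd (by rw [T.uniq _ _ _ _ g1 h1]; exact h3) g3
  · exact Prod.ext (T.uniq _ _ _ _ h1 g1) (h2.trans g2.symm)

end W_FS_DRAWS

open W_FS_DRAWS in
theorem FS_DRAWS {V S : Type} [Fintype V] [Fintype S] (T : Tri V) (A : Set V) (hA : Conn T.G A) (hB : Conn T.G Aᶜ)
    (hm : ∀ a b c, T.F a b c → ¬ (a ∈ A ∧ b ∈ A ∧ c ∈ A) ∧ ¬ (a ∉ A ∧ b ∉ A ∧ c ∉ A))
    (f : S → V × V × V) (hf : ∀ s, T.F (f s).1 (f s).2.1 (f s).2.2)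
    (hd : ∀ s t, s ≠ t → ¬ IsRot (f s).1 (f s).2.1 (f s).2.2 (f t).1 (f t).2.1 (f t).2.2)
    (hex : ∃ a b c, T.F a b c ∧ ∀ s, ¬ IsRot (f s).1 (f s).2.1 (f s).2.2 a b c) :
    ∃ (T' : Tri (V ⊕ S)) (k : S → ℕ), IsStack T f T' ∧ Function.Injective k ∧
      ∀ x y : S → ℝ, (∀ s t, k s < k t → x s < x t) →
        ∃ p : V ⊕ S → ℝ × ℝ, Plane T'.G p ∧ ∀ s, p (Sum.inr s) = (x s, y s) := by
  obtain ⟨T', hT'⟩ := FS_MSTACK T f hf hd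
  obtain ⟨a₀, b₀, c₀, hF₀, hun₀⟩ := hex
  obtain ⟨a, b, c, hF, haA, hbA, hrot₀⟩ := exists_rot T A a₀ b₀ c₀ hF₀ (hm _ _ _ hF₀)
  have hun : ∀ s, ¬ IsRot (f s).1 (f s).2.1 (f s).2.2 a b c :=
    fun s hs => hun₀ s (isRot_trans hrot₀ hs)
  have r1 := T.rot _ _ _ hF
  have r2 := T.rot _ _ _ r1
  have hadj_ab : T.G.Adj a b := ⟨c, hF⟩
  have hadj_bc : T.G.Adj b c := ⟨a, r1⟩
  have hadj_ca : T.G.Adj c a := ⟨b, r2⟩
  obtain ⟨e₀, h1, h2, h3, h4, h5⟩ : ∃ e₀ : V × V, e₀.1 ∈ A ∧ e₀.2 ∉ A ∧ T.G.Adj e₀.1 e₀.2 ∧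
      Nxt T A (a, b) e₀ ∧ e₀ ≠ (a, b) := by
    by_cases hc : c ∈ A
    · refine ⟨(c, b), hc, hbA, hadj_bc.symm, Or.inr ⟨hF, rfl, hc⟩, ?_⟩
      intro h
      exact T.ne _ _ _ r2 (congrArg Prod.fst h)
    · refine ⟨(a, c), haA, hc, hadj_ca.symm, Or.inl ⟨hF, rfl, hc⟩, ?_⟩
      intro h
      exact T.ne _ _ _ r1 (congrArg Prod.snd h).symm
  obtain ⟨N, e, he0, he⟩ := FS_CYC T A hA hB e₀ h1 h2 h3
  obtain ⟨i, hiN, hi⟩ := he.surj (a, b) haA hbA hadj_ab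
  have hnext : e (i + 1) = e 0 := by
    have h6 := he.nxt i
    rw [hi] at h6
    rw [he0]
    exact nxt_uniq T A a b c hF _ _ h6 h4
  have hiN1 : i + 1 = N := by
    by_contra hne
    have h7 : i + 1 < N := by omega
    have := he.inj (i + 1) 0 h7 he.pos hnext
    omega
  have hN2 : 2 ≤ N := by
    by_contra hlt
    have h8 : i = 0 := by omega
    apply h5
    rw [← he0, ← hi, h8]
  -- the indices of the stacked faces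
  have hks : ∀ s, ∃ k : ℕ, k < N ∧ ∃ x, IsRot (f s).1 (f s).2.1 (f s).2.2 (e k).1 (e k).2 x := by
    intro s
    obtain ⟨x, y, z, hxyz, hxA, hyA, hr⟩ := exists_rot T A _ _ _ (hf s) (hm _ _ _ (hf s))
    obtain ⟨k, hkN, hk⟩ := he.surj (x, y) hxA hyA ⟨z, hxyz⟩
    refine ⟨k, hkN, z, ?_⟩
    rw [hk]
    exact hr
  choose k hkN x hkx using hks
  have hk1 : ∀ s, k s + 1 < N := by
    intro s
    by_contra hlt
    have h9 : k s = i := by have := hkN s; omega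
    have h10 := hkx s
    rw [h9, hi] at h10
    have h11 : T.F a b (x s) := isRot_F T (hf s) h10
    have h12 : x s = c := T.uniq _ _ _ _ h11 hF
    rw [h12] at h10
    exact hun s h10
  have hkinj : Function.Injective k := by
    intro s t hst
    by_contra hne
    have h10 := hkx s
    have h11 := hkx t
    rw [← hst] at h11
    have h12 := isRot_F T (hf s) h10
    have h13 := isRot_F T (hf t) h11
    have h14 : x s = x t := T.uniq _ _ _ _ h12 h13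
    rw [← h14] at h11
    exact hd s t hne (isRot_common h10 h11)
  refine ⟨T', k, hT', hkinj, fun xx yy hxx => ?_⟩
  obtain ⟨z, hz, hzk⟩ := FS_ZCHO k hkinj xx hxx
  obtain ⟨X, Y, hY, hXY⟩ := FS_LP T A hA hB hm N e he z hz
  obtain ⟨o₁, o₂, o₃, p, hdr, hp⟩ := FS_GEOM T A hm N e he hN2 z hz X Y hY hXY f k hk1
    (fun s => ⟨hf s, x s, hkx s⟩) T' hT' xx hzk
  obtain ⟨p', hp', hp''⟩ := FS_PERT T' o₁ o₂ o₃ p hdr (fun s => by rw [hp s]) yy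
  refine ⟨p', hp', fun s => ?_⟩
  rw [hp'' s, hp s]


end Pool.Agent.H891WLC
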