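import Pool.Agent.H891FSS.Defs

set_option autoImplicit false

namespace Pool.Agent.H891WLC

namespace W_FS_PLANESUB

end W_FS_PLANESUB

open W_FS_PLANESUB in
theorem FS_PLANESUB {V W : Type} (G : SimpleGraph V) (H : SimpleGraph W) (φ : V → W) (hφ : Function.Injective φ)
    (h : ∀ x y, G.Adj x y → H.Adj (φ x) (φ y)) (q : W → ℝ × ℝ) (hq : Plane H q) : Plane G (fun v => q (φ v)) := by
  obtain ⟨h1, h2, h3⟩ := hq
  refine ⟨h1.comp hφ, fun u v w huv hwu hwv =>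
    h2 _ _ _ (h _ _ huv) (hφ.ne hwu) (hφ.ne hwv), ?_⟩
  intro u v x y huv hxy hne z hz1 hz2
  have hne2 : s(φ u, φ v) ≠ s(φ x, φ y) := by
    intro he
    apply hne
    rw [Sym2.eq_iff] at he ⊢
    rcases he with ⟨a, b⟩ | ⟨a, b⟩
    · exact Or.inl ⟨hφ a, hφ b⟩
    · exact Or.inr ⟨hφ a, hφ b⟩
  obtain ⟨w, hw1, hw2, hw3⟩ := h3 _ _ _ _ (h _ _ huv) (h _ _ hxy) hne2 z hz1 hz2
  rcases hw1 with hw1 | hw1
  · refine ⟨u, Or.inl rfl, ?_, by rw [hw3, hw1]⟩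
    rcases hw2 with e | e
    · exact Or.inl (hφ (hw1.symm.trans e))
    · exact Or.inr (hφ (hw1.symm.trans e))
  · refine ⟨v, Or.inr rfl, ?_, by rw [hw3, hw1]⟩
    rcases hw2 with e | e
    · exact Or.inl (hφ (hw1.symm.trans e))
    · exact Or.inr (hφ (hw1.symm.trans e))


end Pool.Agent.H891WLC
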