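import Pool.Agent.H891FSS.Defs
import Pool.Agent.H891FSS.FS_GNE
import Pool.Agent.H891FSS.FD_BUILD0
import Pool.Agent.H891FSS.FS_BUILD
import Pool.Agent.H891FSS.FS_DRAWS
import Pool.Agent.H891FSS.FS_STADJ
import Pool.Agent.H891FSS.FS_PLANESUB

set_option autoImplicit false

namespace Pool.Agent.H891WLC

namespace W_FD_MAIN

/-- `H` without the edges between neighbours of a vertex of `S` -/
def H0 {U : Type} (H : SimpleGraph U) (S : Set U) : SimpleGraph U where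
  Adj x y := H.Adj x y ∧ ¬ ∃ v ∈ S, H.Adj v x ∧ H.Adj v y
  symm := ⟨by
    rintro x y ⟨h, h'⟩
    exact ⟨h.symm, fun ⟨v, hv, a, b⟩ => h' ⟨v, hv, b, a⟩⟩⟩
  loopless := ⟨by rintro x ⟨h, _⟩; exact H.loopless.irrefl x h⟩

theorem H0_adj {U : Type} (H : SimpleGraph U) (S : Set U) (hS : Sparse H S) (v : U) (hv : v ∈ S)
    (x : U) : (H0 H S).Adj v x ↔ H.Adj v x := by
  refine ⟨fun h => h.1, fun h => ⟨h, ?_⟩⟩
  rintro ⟨w, hw, h1, h2⟩
  by_cases hwv : w = v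
  · subst hwv
    exact H.loopless.irrefl w h1
  · exact (hS w hw v hv hwv).1 h1

theorem HS_H0 {U : Type} (H : SimpleGraph U) (S : Set U) (hS : Sparse H S) (x y : U) :
    (HS (H0 H S) S).Adj x y ↔ (HS H S).Adj x y := by
  constructor
  · rintro ⟨h1, h2, h3, h4⟩
    refine ⟨h1, h2, h3, ?_⟩
    rcases h4 with h4 | ⟨v, hv, h5, h6⟩
    · exact Or.inl h4.1
    · exact Or.inr ⟨v, hv, h5.1, h6.1⟩
  · rintro ⟨h1, h2, h3, h4⟩
    refine ⟨h1, h2, h3, ?_⟩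
    by_cases hc : ∃ v ∈ S, H.Adj v x ∧ H.Adj v y
    · obtain ⟨v, hv, h5, h6⟩ := hc
      exact Or.inr ⟨v, hv, (H0_adj H S hS v hv x).2 h5, (H0_adj H S hS v hv y).2 h6⟩
    · rcases h4 with h4 | h4
      · exact Or.inl ⟨h4, hc⟩
      · exact absurd h4 hc

/-- the image graph -/
def H1 {U U1 : Type} (K : SimpleGraph U) {S : Set U} (j : {x : U // x ∉ S} → U1)
    (hj : Function.Injective j) : SimpleGraph U1 where
  Adj p q := ∃ x y : {x : U // x ∉ S}, j x = p ∧ j y = q ∧ K.Adj x.1 y.1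
  symm := ⟨by
    rintro p q ⟨x, y, hx, hy, h⟩
    exact ⟨y, x, hy, hx, h.symm⟩⟩
  loopless := ⟨by
    rintro p ⟨x, y, hx, hy, h⟩
    have hxy : x = y := hj (hx.trans hy.symm)
    subst hxy
    exact K.loopless.irrefl _ h⟩

theorem for1 {U U1 : Type} (K : SimpleGraph U) {S : Set U} (j : {x : U // x ∉ S} → U1)
    (hj : Function.Injective j) (B : Set U) (B1 : Set U1) (hB : ∀ x, j x ∈ B1 → x.1 ∈ B)
    (h : For1 K B) : For1 (H1 K j hj) B1 := by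
  intro Z hZ hZn
  by_cases hc : ∃ z ∈ Z, ∀ x, j x ≠ z
  · obtain ⟨z, hz, hzr⟩ := hc
    refine ⟨z, hz, ?_⟩
    rintro x hx y hy ⟨a, b, ha, -, -⟩ _
    exact absurd ha (hzr a)
  · push Not at hc
    obtain ⟨z, hz, hz2⟩ := h {x | ∃ hx : x ∉ S, j ⟨x, hx⟩ ∈ Z}
      (by
        rintro x ⟨hx, hxZ⟩
        exact hB ⟨x, hx⟩ (hZ hxZ))
      (by
        obtain ⟨z, hz⟩ := hZn
        obtain ⟨x, hx⟩ := hc z hz
        exact ⟨x.1, x.2, by rw [← hx] at hz; exact hz⟩)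
    obtain ⟨hzS, hzZ⟩ := hz
    refine ⟨j ⟨z, hzS⟩, hzZ, ?_⟩
    rintro p hp q hq ⟨a1, b1, ha1, hb1, e1⟩ ⟨a2, b2, ha2, hb2, e2⟩
    have h1 := hj ha1
    have h2 := hj ha2
    subst h1
    subst h2
    rw [← hb1] at hp ⊢
    rw [← hb2] at hq ⊢
    have h3 := hz2 b1.1 ⟨b1.2, hp⟩ b2.1 ⟨b2.2, hq⟩ e1 e2
    rw [Subtype.ext h3]

end W_FD_MAIN

open W_FD_MAIN in
theorem FD_MAIN {U : Type} [Fintype U] (T : Tri U) (hU : 4 ≤ Nat.card U) (H : SimpleGraph U)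
    (hH : ∀ x y, H.Adj x y → T.G.Adj x y) (S : Finset U) (hS : Sparse H (S : Set U))
    (h3 : ∀ v ∈ S, ∃ a b c, a ≠ b ∧ b ≠ c ∧ a ≠ c ∧ ∀ x, H.Adj v x ↔ x = a ∨ x = b ∨ x = c)
    (A : Set U) (hA : For1 (HS H (S : Set U)) A) (hB : For1 (HS H (S : Set U)) Aᶜ) :
    ∃ k : U → ℕ, (∀ s ∈ S, ∀ t ∈ S, k s = k t → s = t) ∧
      ∀ x y : U → ℝ, (∀ s ∈ S, ∀ t ∈ S, k s < k t → x s < x t) →
        ∃ q : U → ℝ × ℝ, Plane H q ∧ ∀ s ∈ S, q s = (x s, y s) := by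
  classical
  have hadj := H0_adj H (S : Set U) hS
  obtain ⟨U1, fU1, j, T0, hj, hU1, hHS, hface⟩ := FD_BUILD0 T hU (H0 H (S : Set U))
    (fun x y h => hH x y h.1) (S : Set U)
    (fun v hv w hw hvw => ⟨fun h => (hS v hv w hw hvw).1 h.1,
      fun x h => (hS v hv w hw hvw).2 x ⟨h.1.1, h.2.1⟩⟩)
    (fun v hv => by
      obtain ⟨a, b, c, h1, h2, h4, h5⟩ := h3 v hv
      exact ⟨a, b, c, h1, h2, h4, fun x => (hadj v hv x).trans (h5 x)⟩)
    (fun v hv x y hx hy hxy => hxy.2 ⟨v, hv, hx.1, hy.1⟩)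
  have hA1 : For1 (H1 (HS H (S : Set U)) j hj) {p | ∃ x, j x = p ∧ x.1 ∈ A} := by
    apply for1 _ j hj A _ _ hA
    rintro x ⟨y, hy, hyA⟩
    rw [← hj hy]
    exact hyA
  have hB1 : For1 (H1 (HS H (S : Set U)) j hj) {p | ∃ x, j x = p ∧ x.1 ∈ A}ᶜ := by
    apply for1 _ j hj Aᶜ _ _ hB
    intro x hx hxA
    exact hx ⟨x, rfl, hxA⟩
  obtain ⟨U', fU', ι, T', A', hι, hU', hHT', hcA, hcB, hmono, hfaces⟩ :=
    FS_BUILD T0 hU1 (H1 (HS H (S : Set U)) j hj) (by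
      rintro p q ⟨x, y, rfl, rfl, h⟩
      exact hHS x y ((HS_H0 H (S : Set U) hS x.1 y.1).2 h)) _ hA1 hB1
  have hface' : ∀ s : {s // s ∈ S}, ∃ a b c : {x : U // x ∉ (S : Set U)},
      T0.F (j a) (j b) (j c) ∧ ∀ x, H.Adj s.1 x ↔ x = a.1 ∨ x = b.1 ∨ x = c.1 := by
    intro s
    obtain ⟨a, b, c, h1, h2⟩ := hface s.1 s.2
    exact ⟨a, b, c, h1, fun x => (hadj s.1 s.2 x).symm.trans (h2 x)⟩
  choose fa fb fc hF0 hN using hface'
  have hedge : ∀ (s : {s // s ∈ S}) (u v : {x : U // x ∉ (S : Set U)}), u ≠ v →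
      H.Adj s.1 u.1 → H.Adj s.1 v.1 → (H1 (HS H (S : Set U)) j hj).Adj (j u) (j v) :=
    fun s u v huv hu hv =>
      ⟨u, v, rfl, rfl, ⟨fun h => huv (Subtype.ext h), u.2, v.2, Or.inr ⟨s.1, s.2, hu, hv⟩⟩⟩
  have ha : ∀ s, H.Adj s.1 (fa s).1 := fun s => (hN s _).2 (Or.inl rfl)
  have hb : ∀ s, H.Adj s.1 (fb s).1 := fun s => (hN s _).2 (Or.inr (Or.inl rfl))
  have hc : ∀ s, H.Adj s.1 (fc s).1 := fun s => (hN s _).2 (Or.inr (Or.inr rfl))
  have hab : ∀ s, fa s ≠ fb s := fun s h => T0.ne _ _ _ (hF0 s) (congrArg j h)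
  have hbc : ∀ s, fb s ≠ fc s := fun s h => T0.ne _ _ _ (T0.rot _ _ _ (hF0 s)) (congrArg j h)
  have hca : ∀ s, fc s ≠ fa s := fun s h =>
    T0.ne _ _ _ (T0.rot _ _ _ (T0.rot _ _ _ (hF0 s))) (congrArg j h)
  have hιj : ∀ u v, ι (j u) = ι (j v) → u = v := fun u v h => hj (hι h)
  obtain ⟨f, hfdef⟩ : ∃ f : {s // s ∈ S} → U' × U' × U',
      ∀ s, f s = (ι (j (fa s)), ι (j (fb s)), ι (j (fc s))) := ⟨_, fun s => rfl⟩
  have hf1 : ∀ s, (f s).1 = ι (j (fa s)) := fun s => by rw [hfdef]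
  have hf2 : ∀ s, (f s).2.1 = ι (j (fb s)) := fun s => by rw [hfdef]
  have hf3 : ∀ s, (f s).2.2 = ι (j (fc s)) := fun s => by rw [hfdef]
  have hf : ∀ s, T'.F (f s).1 (f s).2.1 (f s).2.2 := by
    intro s
    rw [hf1, hf2, hf3]
    exact hfaces _ _ _ (hF0 s) (hedge s _ _ (hab s) (ha s) (hb s))
      (hedge s _ _ (hbc s) (hb s) (hc s)) (hedge s _ _ (hca s) (hc s) (ha s))
  have hmem : ∀ s x, (x = (f s).1 ∨ x = (f s).2.1 ∨ x = (f s).2.2) →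
      ∃ u, x = ι (j u) ∧ H.Adj s.1 u.1 := by
    intro s x hx
    rw [hf1, hf2, hf3] at hx
    rcases hx with rfl | rfl | rfl
    · exact ⟨_, rfl, ha s⟩
    · exact ⟨_, rfl, hb s⟩
    · exact ⟨_, rfl, hc s⟩
  have hdet : ∀ s t x, (x = (f s).1 ∨ x = (f s).2.1 ∨ x = (f s).2.2) →
      (x = (f t).1 ∨ x = (f t).2.1 ∨ x = (f t).2.2) → s = t := by
    intro s t x hs ht
    by_contra hst
    obtain ⟨u, rfl, hu⟩ := hmem s x hs
    obtain ⟨v, huv, hv⟩ := hmem t _ ht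
    have := hιj _ _ huv
    subst this
    exact (hS s.1 s.2 t.1 t.2 (fun h => hst (Subtype.ext h))).2 u.1 ⟨hu, hv⟩
  have hd : ∀ s t, s ≠ t → ¬ IsRot (f s).1 (f s).2.1 (f s).2.2 (f t).1 (f t).2.1 (f t).2.2 := by
    intro s t hst hrot
    apply hst
    rcases hrot with ⟨h, -, -⟩ | ⟨h, -, -⟩ | ⟨h, -, -⟩
    · exact hdet s t _ (Or.inl h) (Or.inl rfl)
    · exact hdet s t _ (Or.inr (Or.inl h)) (Or.inl rfl)
    · exact hdet s t _ (Or.inr (Or.inr h)) (Or.inl rfl)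
  have hfab : ∀ s, (f s).1 ≠ (f s).2.1 := fun s => by
    rw [hf1, hf2]; exact fun h => hab s (hιj _ _ h)
  have hfbc : ∀ s, (f s).2.1 ≠ (f s).2.2 := fun s => by
    rw [hf2, hf3]; exact fun h => hbc s (hιj _ _ h)
  have hfca : ∀ s, (f s).2.2 ≠ (f s).1 := fun s => by
    rw [hf1, hf3]; exact fun h => hca s (hιj _ _ h)
  have hex : ∃ a b c, T'.F a b c ∧ ∀ s, ¬ IsRot (f s).1 (f s).2.1 (f s).2.2 a b c := by
    obtain ⟨⟨a, b, c⟩, habc⟩ : ∃ t : U' × U' × U', T'.F t.1 t.2.1 t.2.2 := by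
      by_contra hcon
      push Not at hcon
      have h4 : IsEmpty {t : U' × U' × U' // T'.F t.1 t.2.1 t.2.2} := ⟨fun t => hcon t.1 t.2⟩
      have h5 := T'.euler
      rw [Nat.card_of_isEmpty] at h5
      omega
    simp only at habc
    by_cases hrot : ∃ s, IsRot (f s).1 (f s).2.1 (f s).2.2 a b c
    · obtain ⟨s, hs⟩ := hrot
      obtain ⟨d, hd'⟩ := T'.opp a b c habc
      refine ⟨b, a, d, hd', ?_⟩
      intro t ht
      have hbs : b = (f s).1 ∨ b = (f s).2.1 ∨ b = (f s).2.2 := by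
        rcases hs with ⟨-, h, -⟩ | ⟨-, h, -⟩ | ⟨-, h, -⟩
        · exact Or.inr (Or.inl h)
        · exact Or.inr (Or.inr h)
        · exact Or.inl h
      have hbt : b = (f t).1 ∨ b = (f t).2.1 ∨ b = (f t).2.2 := by
        rcases ht with ⟨h, -, -⟩ | ⟨h, -, -⟩ | ⟨h, -, -⟩
        · exact Or.inl h
        · exact Or.inr (Or.inl h)
        · exact Or.inr (Or.inr h)
      have hst := hdet s t b hbs hbt
      subst hst
      have e1 := hfab s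
      have e2 := hfbc s
      have e3 := hfca s
      rcases hs with ⟨p1, p2, p3⟩ | ⟨p1, p2, p3⟩ | ⟨p1, p2, p3⟩ <;>
        rcases ht with ⟨q1, q2, q3⟩ | ⟨q1, q2, q3⟩ | ⟨q1, q2, q3⟩ <;>
        first
          | exact e1 (p1.symm.trans q2)
          | exact e1 (q2.symm.trans p1)
          | exact e2 (p1.symm.trans q2)
          | exact e2 (q2.symm.trans p1)
          | exact e3 (p1.symm.trans q2)
          | exact e3 (q2.symm.trans p1)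
          | exact e1 (p2.symm.trans q1)
          | exact e1 (q1.symm.trans p2)
          | exact e2 (p2.symm.trans q1)
          | exact e2 (q1.symm.trans p2)
          | exact e3 (p2.symm.trans q1)
          | exact e3 (q1.symm.trans p2)
    · exact ⟨a, b, c, habc, fun s hs => hrot ⟨s, hs⟩⟩
  obtain ⟨T'', k', hstack, hk', hdraw⟩ := FS_DRAWS T' A' hcA hcB hmono f hf hd hex
  have hst := FS_STADJ T' f T'' hstack
  obtain ⟨φ, hφ1, hφ2⟩ : ∃ φ : U → U' ⊕ {s // s ∈ S},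
      (∀ (x : U) (hx : x ∈ S), φ x = Sum.inr ⟨x, hx⟩) ∧
      (∀ (x : U) (hx : x ∉ (S : Set U)), φ x = Sum.inl (ι (j ⟨x, hx⟩))) := by
    refine ⟨fun x => if hx : x ∈ S then Sum.inr ⟨x, hx⟩ else Sum.inl (ι (j ⟨x, hx⟩)), ?_, ?_⟩
    · intro x hx
      simp only [hx, dif_pos]
    · intro x hx
      have hx' : x ∉ S := hx
      simp only [hx', dif_neg, not_false_eq_true]
  have hφi : Function.Injective φ := by
    intro x y hxy
    by_cases hx : x ∈ S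
    · by_cases hy : y ∈ S
      · rw [hφ1 x hx, hφ1 y hy] at hxy
        exact congrArg Subtype.val (Sum.inr.inj hxy)
      · rw [hφ1 x hx, hφ2 y hy] at hxy
        cases hxy
    · by_cases hy : y ∈ S
      · rw [hφ2 x hx, hφ1 y hy] at hxy
        cases hxy
      · rw [hφ2 x hx, hφ2 y hy] at hxy
        exact congrArg Subtype.val (hιj _ _ (Sum.inl.inj hxy))
  have hmix : ∀ (x y : U) (hx : x ∈ S) (hy : y ∉ (S : Set U)), H.Adj x y →
      T''.G.Adj (Sum.inr ⟨x, hx⟩) (Sum.inl (ι (j ⟨y, hy⟩))) := by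
    intro x y hx hy hxy
    have h5 := (hN ⟨x, hx⟩ y).1 hxy
    obtain ⟨g1, g2, g3⟩ := hst.2 ⟨x, hx⟩
    rw [hf1] at g1
    rw [hf2] at g2
    rw [hf3] at g3
    rcases h5 with h5 | h5 | h5
    · have h6 : (⟨y, hy⟩ : {x : U // x ∉ (S : Set U)}) = fa ⟨x, hx⟩ := Subtype.ext h5
      rw [h6]; exact g1
    · have h6 : (⟨y, hy⟩ : {x : U // x ∉ (S : Set U)}) = fb ⟨x, hx⟩ := Subtype.ext h5
      rw [h6]; exact g2
    · have h6 : (⟨y, hy⟩ : {x : U // x ∉ (S : Set U)}) = fc ⟨x, hx⟩ := Subtype.ext h5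
      rw [h6]; exact g3
  have hφadj : ∀ x y, H.Adj x y → T''.G.Adj (φ x) (φ y) := by
    intro x y hxy
    by_cases hx : x ∈ S
    · by_cases hy : y ∈ S
      · exact absurd hxy (hS x hx y hy hxy.ne).1
      · rw [hφ1 x hx, hφ2 y hy]
        exact hmix x y hx hy hxy
    · by_cases hy : y ∈ S
      · rw [hφ2 x hx, hφ1 y hy]
        exact (hmix y x hy hx hxy.symm).symm
      · rw [hφ2 x hx, hφ2 y hy]
        apply hst.1
        apply hHT'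
        exact ⟨⟨x, hx⟩, ⟨y, hy⟩, rfl, rfl, ⟨hxy.ne, hx, hy, Or.inl hxy⟩⟩
  obtain ⟨k, hkd⟩ : ∃ k : U → ℕ, ∀ (x : U) (hx : x ∈ S), k x = k' ⟨x, hx⟩ := by
    refine ⟨fun x => if hx : x ∈ S then k' ⟨x, hx⟩ else 0, ?_⟩
    intro x hx
    simp only [hx, dif_pos]
  refine ⟨k, ?_, ?_⟩
  · intro s hs t ht hst'
    rw [hkd s hs, hkd t ht] at hst'
    exact congrArg Subtype.val (hk' hst')
  · intro x y hxy
    obtain ⟨q, hq, hqs⟩ := hdraw (fun s => x s.1) (fun s => y s.1) (fun s t hst' =>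
      hxy s.1 s.2 t.1 t.2 (by rw [hkd s.1 s.2, hkd t.1 t.2]; exact hst'))
    refine ⟨fun v => q (φ v), FS_PLANESUB H T''.G φ hφi hφadj q hq, ?_⟩
    intro s hs
    simp only
    rw [hφ1 s hs]
    exact hqs ⟨s, hs⟩


end Pool.Agent.H891WLC
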