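import Pool.Agent.H891FSS.Defs
import Pool.Agent.H891WLC.TRIANG
import Pool.Agent.H891FSS.FD_DUM
import Pool.Agent.H891FSS.FD_COL
import Pool.Agent.H891FSS.FD_MAIN
import Pool.Agent.H891FSS.FS_PLANESUB

set_option autoImplicit false

namespace Pool.Agent.H891WLC

namespace W_FD_FIN

end W_FD_FIN

open W_FD_FIN in
theorem FD_FIN (n : ℕ) (G : SimpleGraph (Fin n)) (p : Fin n → ℝ × ℝ) (hp : Plane G p)
    (hd : ∀ v, Set.ncard {x | G.Adj v x} ≤ 3) (S : Finset (Fin n))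
    (hS : ∀ v ∈ S, ∀ w ∈ S, v ≠ w → ¬ G.Adj v w ∧ (∀ x, ¬ (G.Adj v x ∧ G.Adj w x)) ∧
      ∀ x y, G.Adj v x → G.Adj w y → ¬ G.Adj x y) :
    ∃ k : Fin n → ℕ, (∀ s ∈ S, ∀ t ∈ S, k s = k t → s = t) ∧
      ∀ x y : Fin n → ℝ, (∀ s ∈ S, ∀ t ∈ S, k s < k t → x s < x t) →
        ∃ q : Fin n → ℝ × ℝ, Plane G q ∧ ∀ s ∈ S, q s = (x s, y s) := by
  classical
  rcases Nat.eq_zero_or_pos n with hn | hn
  · subst hn
    refine ⟨fun _ => 0, fun s => s.elim0, fun x y _ => ⟨fun v => v.elim0, ⟨fun a => a.elim0,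
      fun u => u.elim0, fun u => u.elim0⟩, fun s => s.elim0⟩⟩
  obtain ⟨T, hT0, hT⟩ := TRIANG n G p hp
  let H0 : SimpleGraph (Fin n ⊕ Fin 3) :=
    { Adj := fun a b => ∃ u w, a = Sum.inl u ∧ b = Sum.inl w ∧ G.Adj u w
      symm := ⟨by
        rintro a b ⟨u, w, h1, h2, h3⟩
        exact ⟨w, u, h2, h1, h3.symm⟩⟩
      loopless := ⟨by
        rintro a ⟨u, w, h1, h2, h3⟩
        rw [h1] at h2
        exact h3.ne (Sum.inl.inj h2)⟩ }
  have hH0 : ∀ x y, H0.Adj x y → T.G.Adj x y := by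
    rintro x y ⟨u, w, rfl, rfl, h⟩
    exact hT u w h
  have hH0' : ∀ a x, H0.Adj (Sum.inl a) x → ∃ c, x = Sum.inl c ∧ G.Adj a c := by
    rintro a x ⟨u, w, h1, h2, h3⟩
    have := Sum.inl.inj h1
    subst this
    exact ⟨w, h2, h3⟩
  have hd0 : ∀ v, Set.ncard {x | H0.Adj v x} ≤ 3 := by
    intro v
    rcases v with a | b
    · have : {x | H0.Adj (Sum.inl a) x} = Sum.inl '' {x | G.Adj a x} := by
        ext x
        constructor
        · intro h
          obtain ⟨c, h1, h2⟩ := hH0' a x h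
          exact ⟨c, h2, h1.symm⟩
        · rintro ⟨c, h1, rfl⟩
          exact ⟨a, c, rfl, rfl, h1⟩
      rw [this, Set.ncard_image_of_injective _ Sum.inl_injective]
      exact hd a
    · have : {x | H0.Adj (Sum.inr b) x} = ∅ := by
        ext x
        constructor
        · rintro ⟨u, w, h1, h2, h3⟩
          exact absurd h1 (by simp)
        · intro h
          exact absurd h (Set.notMem_empty x)
      rw [this, Set.ncard_empty]
      omega
  let S0 : Finset (Fin n ⊕ Fin 3) := S.map ⟨Sum.inl, Sum.inl_injective⟩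
  have hcard : 4 ≤ Nat.card (Fin n ⊕ Fin 3) := by
    rw [Nat.card_eq_fintype_card, Fintype.card_sum, Fintype.card_fin, Fintype.card_fin]
    omega
  obtain ⟨U', iU', ι, T', H', hι, hHT, hHι, h3', hout, hdum⟩ :=
    FD_DUM T hcard H0 hH0 S0 (fun v _ => hd0 v)
  let S' : Finset U' := S0.map ⟨ι, hι⟩
  let e : Fin n → U' := fun v => ι (Sum.inl v)
  have he : Function.Injective e := fun a b h => Sum.inl_injective (hι h)
  have hS'mem : ∀ v, v ∈ S' ↔ ∃ a ∈ S, e a = v := by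
    intro v
    simp only [S', S0, Finset.mem_map, Function.Embedding.coeFn_mk]
    constructor
    · rintro ⟨u, ⟨a, ha, rfl⟩, rfl⟩
      exact ⟨a, ha, rfl⟩
    · rintro ⟨a, ha, rfl⟩
      exact ⟨_, ⟨a, ha, rfl⟩, rfl⟩
  have hnadj : ∀ a ∈ S, ∀ b ∈ S, a ≠ b → ¬ H'.Adj (e a) (e b) := by
    intro a ha b hb hab h
    obtain ⟨c, h1, h2⟩ := hH0' a _ ((hHι _ _).1 h)
    have := Sum.inl.inj h1
    subst this
    exact (hS a ha b hb hab).1 h2
  have hkey : ∀ v ∈ (S' : Set U'), ∀ w ∈ (S' : Set U'), v ≠ w → ¬ H'.Adj v w ∧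
      (∀ x, ¬ (H'.Adj v x ∧ H'.Adj w x)) ∧ ∀ x y, H'.Adj v x → H'.Adj w y → ¬ H'.Adj x y := by
    intro v hv w hw hvw
    obtain ⟨a, ha, rfl⟩ := (hS'mem v).1 hv
    obtain ⟨b, hb, rfl⟩ := (hS'mem w).1 hw
    have hab : a ≠ b := fun h => hvw (by rw [h])
    refine ⟨hnadj a ha b hb hab, ?_, ?_⟩
    · rintro m ⟨h1, h2⟩
      by_cases hm : ∃ x, m = ι x
      · obtain ⟨u, rfl⟩ := hm
        obtain ⟨c, h3, h4⟩ := hH0' a _ ((hHι _ _).1 h1)
        subst h3
        obtain ⟨d, h5, h6⟩ := hH0' b _ ((hHι _ _).1 h2)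
        have := Sum.inl.inj h5
        subst this
        exact (hS a ha b hb hab).2.1 c ⟨h4, h6⟩
      · push Not at hm
        obtain ⟨w, _, hw'⟩ := hdum m hm
        exact hvw (((hw' _).1 h1.symm).trans ((hw' _).1 h2.symm).symm)
    · intro x y h1 h2 h3
      by_cases hx : ∃ u, x = ι u
      · obtain ⟨u, rfl⟩ := hx
        by_cases hy : ∃ u, y = ι u
        · obtain ⟨u', rfl⟩ := hy
          obtain ⟨c, h4, h5⟩ := hH0' a _ ((hHι _ _).1 h1)
          subst h4
          obtain ⟨d, h6, h7⟩ := hH0' b _ ((hHι _ _).1 h2)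
          subst h6
          obtain ⟨d', h8, h9⟩ := hH0' c _ ((hHι _ _).1 h3)
          have := Sum.inl.inj h8
          subst this
          exact (hS a ha b hb hab).2.2 c d h5 h7 h9
        · push Not at hy
          obtain ⟨w, _, hw'⟩ := hdum y hy
          have h4 := (hw' _).1 h2.symm
          have h5 := (hw' _).1 h3.symm
          rw [h5, ← h4] at h1
          exact hnadj a ha b hb hab h1
      · push Not at hx
        obtain ⟨w, _, hw'⟩ := hdum x hx
        have h4 := (hw' _).1 h1.symm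
        have h5 := (hw' _).1 h3
        rw [h5, ← h4] at h2
        exact hnadj b hb a ha (Ne.symm hab) h2
  have hd' : ∀ v, Set.ncard {x | H'.Adj v x} ≤ 3 := by
    intro v
    by_cases hv : ∃ u, v = ι u
    · obtain ⟨u, rfl⟩ := hv
      by_cases hu : u ∈ S0
      · exact (h3' u hu).le
      · have : {x | H'.Adj (ι u) x} = ι '' {x | H0.Adj u x} := by
          ext x
          constructor
          · intro h
            obtain ⟨y, rfl⟩ := hout u hu x h
            exact ⟨y, (hHι _ _).1 h, rfl⟩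
          · rintro ⟨y, h1, rfl⟩
            exact (hHι _ _).2 h1
        rw [this, Set.ncard_image_of_injective _ hι]
        exact hd0 u
    · push Not at hv
      obtain ⟨w, _, hw'⟩ := hdum v hv
      have : {x | H'.Adj v x} = {ι w} := by
        ext x
        exact hw' x
      rw [this, Set.ncard_singleton]
      omega
  obtain ⟨A, hA, hB⟩ := FD_COL H' (S' : Set U') hkey hd'
  have hU' : 4 ≤ Nat.card U' := hcard.trans (Nat.card_le_card_of_injective ι hι)
  have h3c : ∀ v ∈ S', ∃ a b c, a ≠ b ∧ b ≠ c ∧ a ≠ c ∧ ∀ x, H'.Adj v x ↔ x = a ∨ x = b ∨ x = c := by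
    intro v hv
    obtain ⟨a, ha, rfl⟩ := (hS'mem v).1 hv
    have h1 : (Sum.inl a : Fin n ⊕ Fin 3) ∈ S0 := by
      simp only [S0, Finset.mem_map, Function.Embedding.coeFn_mk]
      exact ⟨a, ha, rfl⟩
    obtain ⟨u1, u2, u3, h2, h4, h5, h6⟩ := Set.ncard_eq_three.1 (h3' _ h1)
    refine ⟨u1, u2, u3, h2, h5, h4, ?_⟩
    intro x
    have h7 : x ∈ {x | H'.Adj (ι (Sum.inl a)) x} ↔ x ∈ ({u1, u2, u3} : Set U') := by rw [h6]
    exact h7
  obtain ⟨k', hk', hmain⟩ := FD_MAIN T' hU' H' hHT S'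
    (fun v hv w hw hvw => ⟨(hkey v hv w hw hvw).1, (hkey v hv w hw hvw).2.1⟩) h3c A hA hB
  refine ⟨fun v => k' (e v), ?_, ?_⟩
  · intro s hs t ht hst
    exact he (hk' _ ((hS'mem _).2 ⟨s, hs, rfl⟩) _ ((hS'mem _).2 ⟨t, ht, rfl⟩) hst)
  · intro x y hxy
    obtain ⟨q', hq', hq''⟩ := hmain (Function.extend e x 0) (Function.extend e y 0) (by
      intro s hs t ht hst
      obtain ⟨a, ha, rfl⟩ := (hS'mem s).1 hs
      obtain ⟨b, hb, rfl⟩ := (hS'mem t).1 ht
      rw [he.extend_apply, he.extend_apply]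
      exact hxy a ha b hb hst)
    refine ⟨fun v => q' (e v), ?_, ?_⟩
    · exact FS_PLANESUB G H' e he (fun a b h => (hHι _ _).2 ⟨a, b, rfl, rfl, h⟩) q' hq'
    · intro s hs
      have := hq'' (e s) ((hS'mem _).2 ⟨s, hs, rfl⟩)
      rw [he.extend_apply, he.extend_apply] at this
      exact this


end Pool.Agent.H891WLC
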