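import Pool.Agent.H891FSS.Defs

set_option autoImplicit false

namespace Pool.Agent.H891WLC

namespace W_FD_SEL

/-- distance at least four -/
def Far {V : Type} (G : SimpleGraph V) (v w : V) : Prop :=
  ¬ G.Adj v w ∧ (∀ x, ¬ (G.Adj v x ∧ G.Adj w x)) ∧
    ∀ x y, G.Adj v x → G.Adj w y → ¬ G.Adj x y

theorem far_symm {V : Type} (G : SimpleGraph V) (v w : V) (h : Far G v w) : Far G w v :=
  ⟨fun h1 => h.1 h1.symm, fun x hx => h.2.1 x ⟨hx.2, hx.1⟩,
    fun x y hx hy hxy => h.2.2 y x hy hx hxy.symm⟩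

open Classical in
/-- the neighbourhood -/
noncomputable def Nb {V : Type} [Fintype V] (G : SimpleGraph V) (v : V) : Finset V :=
  Finset.univ.filter (fun x => G.Adj v x)

theorem mem_Nb {V : Type} [Fintype V] (G : SimpleGraph V) (v x : V) :
    x ∈ Nb G v ↔ G.Adj v x := by
  unfold Nb
  simp

theorem Nb_card {V : Type} [Fintype V] (G : SimpleGraph V)
    (hG : ∀ v, Set.ncard {x | G.Adj v x} ≤ 3) (v : V) : (Nb G v).card ≤ 3 := by
  have h : ((Nb G v : Finset V) : Set V) = {x | G.Adj v x} := by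
    ext x
    rw [Finset.mem_coe, mem_Nb]
    rfl
  have h1 := hG v
  rw [← h, Set.ncard_coe_finset] at h1
  exact h1

/-- the ball of radius three -/
noncomputable def Ba {V : Type} [Fintype V] [DecidableEq V] (G : SimpleGraph V) (v : V) : Finset V :=
  ({v} ∪ Nb G v) ∪ ((Nb G v).biUnion (Nb G) ∪ ((Nb G v).biUnion (Nb G)).biUnion (Nb G))

theorem Ba_card {V : Type} [Fintype V] [DecidableEq V] (G : SimpleGraph V)
    (hG : ∀ v, Set.ncard {x | G.Adj v x} ≤ 3) (v : V) : (Ba G v).card ≤ 40 := by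
  have h1 := Nb_card G hG v
  have h2 : ((Nb G v).biUnion (Nb G)).card ≤ (Nb G v).card * 3 :=
    Finset.card_biUnion_le_card_mul _ _ _ fun x _ => Nb_card G hG x
  have h3 : (((Nb G v).biUnion (Nb G)).biUnion (Nb G)).card ≤ ((Nb G v).biUnion (Nb G)).card * 3 :=
    Finset.card_biUnion_le_card_mul _ _ _ fun x _ => Nb_card G hG x
  have h4 : (Ba G v).card ≤ ({v} ∪ Nb G v : Finset V).card +
      ((Nb G v).biUnion (Nb G) ∪ ((Nb G v).biUnion (Nb G)).biUnion (Nb G)).card :=
    Finset.card_union_le _ _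
  have h5 : ({v} ∪ Nb G v : Finset V).card ≤ ({v} : Finset V).card + (Nb G v).card :=
    Finset.card_union_le _ _
  have h6 : ((Nb G v).biUnion (Nb G) ∪ ((Nb G v).biUnion (Nb G)).biUnion (Nb G)).card ≤
      ((Nb G v).biUnion (Nb G)).card + (((Nb G v).biUnion (Nb G)).biUnion (Nb G)).card :=
    Finset.card_union_le _ _
  rw [Finset.card_singleton] at h5
  omega

theorem mem_Ba {V : Type} [Fintype V] [DecidableEq V] (G : SimpleGraph V) (v x : V)
    (h : ¬ Far G v x) : x ∈ Ba G v := by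
  unfold Ba
  by_cases h1 : G.Adj v x
  · exact Finset.mem_union_left _ (Finset.mem_union_right _ ((mem_Nb G v x).2 h1))
  · by_cases h2 : ∀ y, ¬ (G.Adj v y ∧ G.Adj x y)
    · have h3 : ∃ a b, G.Adj v a ∧ G.Adj x b ∧ G.Adj a b := by
        by_contra h4
        exact h ⟨h1, h2, fun a b ha hb hab => h4 ⟨a, b, ha, hb, hab⟩⟩
      obtain ⟨a, b, ha, hb, hab⟩ := h3
      refine Finset.mem_union_right _ (Finset.mem_union_right _ (Finset.mem_biUnion.2 ⟨b, ?_, ?_⟩))
      · exact Finset.mem_biUnion.2 ⟨a, (mem_Nb G v a).2 ha, (mem_Nb G a b).2 hab⟩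
      · exact (mem_Nb G b x).2 hb.symm
    · have h3 : ∃ y, G.Adj v y ∧ G.Adj x y := by
        by_contra h4
        exact h2 fun y hy => h4 ⟨y, hy⟩
      obtain ⟨y, hy1, hy2⟩ := h3
      refine Finset.mem_union_right _ (Finset.mem_union_left _ (Finset.mem_biUnion.2 ⟨y, ?_, ?_⟩))
      · exact (mem_Nb G v y).2 hy1
      · exact (mem_Nb G y x).2 hy2.symm

theorem self_mem_Ba {V : Type} [Fintype V] [DecidableEq V] (G : SimpleGraph V) (v : V) :
    v ∈ Ba G v :=
  Finset.mem_union_left _ (Finset.mem_union_left _ (Finset.mem_singleton_self v))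

theorem sel {V : Type} [Fintype V] [DecidableEq V] (G : SimpleGraph V)
    (hG : ∀ v, Set.ncard {x | G.Adj v x} ≤ 3) (X : Finset V) : ∃ S : Finset V, S ⊆ X ∧
      (∀ v ∈ S, ∀ w ∈ S, v ≠ w → Far G v w) ∧ X.card ≤ 40 * S.card := by
  classical
  obtain ⟨S, hS, hmax⟩ := Finset.exists_max_image
    (X.powerset.filter fun S => ∀ v ∈ S, ∀ w ∈ S, v ≠ w → Far G v w) Finset.card
    ⟨∅, Finset.mem_filter.2 ⟨Finset.mem_powerset.2 (Finset.empty_subset X),
      fun v hv => absurd hv (Finset.notMem_empty v)⟩⟩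
  rw [Finset.mem_filter, Finset.mem_powerset] at hS
  refine ⟨S, hS.1, hS.2, ?_⟩
  have hcov : X ⊆ S.biUnion (Ba G) := by
    intro x hx
    by_cases hxS : x ∈ S
    · exact Finset.mem_biUnion.2 ⟨x, hxS, self_mem_Ba G x⟩
    · by_contra hnot
      have hfar : ∀ v ∈ S, Far G v x := by
        intro v hv
        by_contra hf
        exact hnot (Finset.mem_biUnion.2 ⟨v, hv, mem_Ba G v x hf⟩)
      have hins : insert x S ∈
          X.powerset.filter fun S => ∀ v ∈ S, ∀ w ∈ S, v ≠ w → Far G v w := by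
        rw [Finset.mem_filter, Finset.mem_powerset]
        refine ⟨Finset.insert_subset hx hS.1, ?_⟩
        intro v hv w hw hvw
        rcases Finset.mem_insert.1 hv with hv | hv
        · rcases Finset.mem_insert.1 hw with hw | hw
          · exact absurd (hv.trans hw.symm) hvw
          · rw [hv]
            exact far_symm G w x (hfar w hw)
        · rcases Finset.mem_insert.1 hw with hw | hw
          · rw [hw]
            exact hfar v hv
          · exact hS.2 v hv w hw hvw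
      have h1 := hmax _ hins
      rw [Finset.card_insert_of_notMem hxS] at h1
      omega
  have h1 := Finset.card_le_card hcov
  have h2 : (S.biUnion (Ba G)).card ≤ S.card * 40 :=
    Finset.card_biUnion_le_card_mul _ _ _ fun x _ => Ba_card G hG x
  omega

end W_FD_SEL

open W_FD_SEL in
theorem FD_SEL {V : Type} [Fintype V] [DecidableEq V] (G : SimpleGraph V) (hG : ∀ v, Set.ncard {x | G.Adj v x} ≤ 3)
    (X : Finset V) : ∃ S : Finset V, S ⊆ X ∧
      (∀ v ∈ S, ∀ w ∈ S, v ≠ w → ¬ G.Adj v w ∧ (∀ x, ¬ (G.Adj v x ∧ G.Adj w x)) ∧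
        ∀ x y, G.Adj v x → G.Adj w y → ¬ G.Adj x y) ∧
      X.card ≤ 40 * S.card := by
  obtain ⟨S, h1, h2, h3⟩ := sel G hG X
  exact ⟨S, h1, fun v hv w hw hvw => h2 v hv w hw hvw, h3⟩


end Pool.Agent.H891WLC
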