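import Pool.Agent.H891FSS.Defs

set_option autoImplicit false

namespace Pool.Agent.H891WLC

namespace W_FD_SHEAR

theorem seg (ε : ℝ) (a b w : ℝ × ℝ)
    (h : w ∈ segment ℝ ((a.1 - ε * a.2, a.2) : ℝ × ℝ) (b.1 - ε * b.2, b.2)) :
    ((w.1 + ε * w.2, w.2) : ℝ × ℝ) ∈ segment ℝ a b := by
  obtain ⟨s, t, hs, ht, hst, hw⟩ := h
  refine ⟨s, t, hs, ht, hst, ?_⟩
  have h1 : s * (a.1 - ε * a.2) + t * (b.1 - ε * b.2) = w.1 := by
    have := congrArg Prod.fst hw
    simpa using this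
  have h2 : s * a.2 + t * b.2 = w.2 := by
    have := congrArg Prod.snd hw
    simpa using this
  ext
  · simp only [Prod.fst_add, Prod.smul_fst, smul_eq_mul]
    rw [← h1, ← h2]; ring
  · simp only [Prod.snd_add, Prod.smul_snd, smul_eq_mul]
    exact h2

theorem exG {V : Type} [DecidableEq V] (k : V → ℕ) (φ : ℝ × ℝ → ℝ) (n : ℕ) :
    ∀ (S : Finset V) (P : Finset (ℝ × ℝ)), S.card = n → P.card = n →
    (∀ s ∈ S, ∀ t ∈ S, k s = k t → s = t) →
    (∀ z ∈ P, ∀ z' ∈ P, φ z = φ z' → z = z') →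
    ∃ g : V → ℝ × ℝ, (∀ s ∈ S, g s ∈ P) ∧ (∀ z ∈ P, ∃ s ∈ S, g s = z) ∧
      ∀ s ∈ S, ∀ t ∈ S, k s < k t → φ (g s) < φ (g t) := by
  induction n with
  | zero =>
    intro S P hS hP _ _
    rw [Finset.card_eq_zero] at hS hP
    subst hS; subst hP
    exact ⟨fun _ => (0, 0), by simp, by simp, by simp⟩
  | succ n ih =>
    intro S P hS hP hk hφ
    have hSne : S.Nonempty := by rw [← Finset.card_pos]; omega
    have hPne : P.Nonempty := by rw [← Finset.card_pos]; omega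
    obtain ⟨s0, hs0, hs0m⟩ := Finset.exists_max_image S k hSne
    obtain ⟨z0, hz0, hz0m⟩ := Finset.exists_max_image P φ hPne
    obtain ⟨g, hg1, hg2, hg3⟩ := ih (S.erase s0) (P.erase z0)
      (by rw [Finset.card_erase_of_mem hs0]; omega) (by rw [Finset.card_erase_of_mem hz0]; omega)
      (fun s hs t ht => hk s (Finset.mem_of_mem_erase hs) t (Finset.mem_of_mem_erase ht))
      (fun s hs t ht => hφ s (Finset.mem_of_mem_erase hs) t (Finset.mem_of_mem_erase ht))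
    refine ⟨Function.update g s0 z0, ?_, ?_, ?_⟩
    · intro s hs
      by_cases h : s = s0
      · subst h; simpa using hz0
      · rw [Function.update_of_ne h]
        exact Finset.mem_of_mem_erase (hg1 s (Finset.mem_erase.2 ⟨h, hs⟩))
    · intro z hz
      by_cases h : z = z0
      · subst h; exact ⟨s0, hs0, by simp⟩
      · obtain ⟨s, hs, hsz⟩ := hg2 z (Finset.mem_erase.2 ⟨h, hz⟩)
        refine ⟨s, Finset.mem_of_mem_erase hs, ?_⟩
        rw [Function.update_of_ne (Finset.ne_of_mem_erase hs)]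
        exact hsz
    · intro s hs t ht hst
      have hsne : s ≠ s0 := by
        rintro rfl
        exact absurd (hs0m t ht) (by omega)
      rw [Function.update_of_ne hsne]
      have hgs := hg1 s (Finset.mem_erase.2 ⟨hsne, hs⟩)
      by_cases h : t = s0
      · subst h
        rw [Function.update_self]
        refine lt_of_le_of_ne (hz0m _ (Finset.mem_of_mem_erase hgs)) ?_
        intro he
        exact Finset.ne_of_mem_erase hgs (hφ _ (Finset.mem_of_mem_erase hgs) _ hz0 he)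
      · rw [Function.update_of_ne h]
        exact hg3 s (Finset.mem_erase.2 ⟨hsne, hs⟩) t (Finset.mem_erase.2 ⟨h, ht⟩) hst

theorem exEps (P : Finset (ℝ × ℝ)) :
    ∃ ε : ℝ, ∀ z ∈ P, ∀ z' ∈ P, z.1 + ε * z.2 = z'.1 + ε * z'.2 → z = z' := by
  classical
  obtain ⟨ε, hε⟩ := Infinite.exists_notMem_finset
    ((P ×ˢ P).image (fun q : (ℝ × ℝ) × (ℝ × ℝ) => -(q.1.1 - q.2.1) / (q.1.2 - q.2.2)))
  refine ⟨ε, ?_⟩
  intro z hz z' hz' he
  by_cases h2 : z.2 = z'.2
  · refine Prod.ext ?_ h2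
    rw [h2] at he
    linarith
  · exfalso
    apply hε
    rw [Finset.mem_image]
    refine ⟨(z, z'), Finset.mem_product.2 ⟨hz, hz'⟩, ?_⟩
    have : z.2 - z'.2 ≠ 0 := sub_ne_zero.2 h2
    simp only
    rw [div_eq_iff this]
    linarith


end W_FD_SHEAR

open W_FD_SHEAR in
theorem FD_SHEAR {V : Type} [Fintype V] [DecidableEq V] (G : SimpleGraph V) (S : Finset V) (k : V → ℕ)
    (hk : ∀ s ∈ S, ∀ t ∈ S, k s = k t → s = t)
    (h : ∀ x y : V → ℝ, (∀ s ∈ S, ∀ t ∈ S, k s < k t → x s < x t) →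
        ∃ q : V → ℝ × ℝ, Plane G q ∧ ∀ s ∈ S, q s = (x s, y s))
    (P : Finset (ℝ × ℝ)) (hP : P.card = S.card) :
    ∃ q : V → ℝ × ℝ, Plane G q ∧ ∀ z : ℝ × ℝ, (∃ s ∈ S, q s = z) ↔ z ∈ P := by
  obtain ⟨ε, hε⟩ := exEps P
  obtain ⟨g, hg1, hg2, hg3⟩ := exG k (fun z => z.1 + ε * z.2) S.card S P rfl hP hk hε
  obtain ⟨q, ⟨hq1, hq2, hq3⟩, hqS⟩ := h (fun s => (g s).1 + ε * (g s).2) (fun s => (g s).2) hg3
  have hval : ∀ s ∈ S, (((q s).1 - ε * (q s).2, (q s).2) : ℝ × ℝ) = g s := by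
    intro s hs
    rw [hqS s hs]
    ext <;> simp
  refine ⟨fun v => ((q v).1 - ε * (q v).2, (q v).2), ⟨?_, ?_, ?_⟩, ?_⟩
  · intro u v huv
    apply hq1
    simp only [Prod.mk.injEq] at huv
    obtain ⟨h1, h2⟩ := huv
    refine Prod.ext ?_ h2
    rw [h2] at h1
    linarith
  · intro u v w huv hwu hwv hseg
    apply hq2 u v w huv hwu hwv
    have := seg ε _ _ _ hseg
    simpa using this
  · intro u v x y huv hxy hne z hz1 hz2
    obtain ⟨w, hw1, hw2, hw3⟩ := hq3 u v x y huv hxy hne _ (seg ε _ _ _ hz1) (seg ε _ _ _ hz2)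
    refine ⟨w, hw1, hw2, ?_⟩
    have h1 := congrArg Prod.fst hw3
    have h2 := congrArg Prod.snd hw3
    simp only at h1 h2
    refine Prod.ext ?_ ?_
    · simp only
      rw [← h1, ← h2]; ring
    · exact h2
  · intro z
    constructor
    · rintro ⟨s, hs, rfl⟩
      simp only
      rw [hval s hs]
      exact hg1 s hs
    · intro hz
      obtain ⟨s, hs, hsz⟩ := hg2 z hz
      refine ⟨s, hs, ?_⟩
      simp only
      rw [hval s hs, hsz]


end Pool.Agent.H891WLC
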