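import Pool.Agent.H891FSS.Defs
import Pool.Agent.H891FSS.FD_SEL
import Pool.Agent.H891FSS.FD_FIN
import Pool.Agent.H891FSS.FD_SHEAR

set_option autoImplicit false

namespace Pool.Agent.H891WLC

namespace W_FD_RES

theorem plane_tr {V W : Type} (e : W ≃ V) (G : SimpleGraph V) (p : V → ℝ × ℝ) (h : Plane G p) :
    Plane (G.comap e) (fun w => p (e w)) := by
  obtain ⟨h1, h2, h3⟩ := h
  refine ⟨fun a b hab => e.injective (h1 hab), ?_, ?_⟩
  · intro u v w huv hwu hwv
    exact h2 (e u) (e v) (e w) huv (fun h => hwu (e.injective h)) (fun h => hwv (e.injective h))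
  · intro u v x y huv hxy hne z hz1 hz2
    have hne' : s(e u, e v) ≠ s(e x, e y) := by
      intro h
      apply hne
      have h' : Sym2.map e s(u, v) = Sym2.map e s(x, y) := by simpa using h
      exact Sym2.map.injective e.injective h'
    obtain ⟨w, hw1, hw2, hw3⟩ := h3 (e u) (e v) (e x) (e y) huv hxy hne' z hz1 hz2
    refine ⟨e.symm w, ?_, ?_, ?_⟩
    · rcases hw1 with h | h
      · left; rw [h, Equiv.symm_apply_apply]
      · right; rw [h, Equiv.symm_apply_apply]
    · rcases hw2 with h | h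
      · left; rw [h, Equiv.symm_apply_apply]
      · right; rw [h, Equiv.symm_apply_apply]
    · show z = p (e (e.symm w))
      rw [Equiv.apply_symm_apply]
      exact hw3

theorem comap_back {V W : Type} (e : V ≃ W) (G : SimpleGraph V) :
    (G.comap e.symm).comap e = G := by
  ext a b
  simp

theorem inter {V : Type} [Fintype V] [DecidableEq V] (G : SimpleGraph V)
    (hP : ∃ p : V → ℝ × ℝ, Plane G p)
    (hG : ∀ v, Set.ncard {x | G.Adj v x} ≤ 3) (S : Finset V)
    (hS : ∀ v ∈ S, ∀ w ∈ S, v ≠ w → ¬ G.Adj v w ∧ (∀ x, ¬ (G.Adj v x ∧ G.Adj w x)) ∧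
        ∀ x y, G.Adj v x → G.Adj w y → ¬ G.Adj x y) :
    ∃ k : V → ℕ, (∀ s ∈ S, ∀ t ∈ S, k s = k t → s = t) ∧
      ∀ x y : V → ℝ, (∀ s ∈ S, ∀ t ∈ S, k s < k t → x s < x t) →
        ∃ q : V → ℝ × ℝ, Plane G q ∧ ∀ s ∈ S, q s = (x s, y s) := by
  obtain ⟨p, hp⟩ := hP
  let φ : V ≃ Fin (Fintype.card V) := Fintype.equivFin V
  have hmem : ∀ v, v ∈ S.map φ.toEmbedding ↔ φ.symm v ∈ S := by
    intro v
    rw [Finset.mem_map_equiv]
  have hd : ∀ v, Set.ncard {x | (G.comap φ.symm).Adj v x} ≤ 3 := by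
    intro v
    have e : {x | (G.comap φ.symm).Adj v x} = φ '' {x | G.Adj (φ.symm v) x} := by
      ext x
      constructor
      · intro hx
        exact ⟨φ.symm x, hx, φ.apply_symm_apply x⟩
      · rintro ⟨y, hy, rfl⟩
        show G.Adj (φ.symm v) (φ.symm (φ y))
        rw [φ.symm_apply_apply]
        exact hy
    rw [e, Set.ncard_image_of_injective _ φ.injective]
    exact hG _
  have hS' : ∀ v ∈ S.map φ.toEmbedding, ∀ w ∈ S.map φ.toEmbedding, v ≠ w →
      ¬ (G.comap φ.symm).Adj v w ∧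
      (∀ x, ¬ ((G.comap φ.symm).Adj v x ∧ (G.comap φ.symm).Adj w x)) ∧
      ∀ x y, (G.comap φ.symm).Adj v x → (G.comap φ.symm).Adj w y → ¬ (G.comap φ.symm).Adj x y := by
    intro v hv w hw hvw
    have hne : φ.symm v ≠ φ.symm w := fun h => hvw (φ.symm.injective h)
    obtain ⟨a1, a2, a3⟩ := hS _ ((hmem v).mp hv) _ ((hmem w).mp hw) hne
    exact ⟨a1, fun x hx => a2 _ hx, fun x y hx hy => a3 _ _ hx hy⟩
  obtain ⟨k', hk1, hk2⟩ := FD_FIN (Fintype.card V) (G.comap φ.symm) (fun w => p (φ.symm w))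
    (plane_tr φ.symm G p hp) hd (S.map φ.toEmbedding) hS'
  have hmem2 : ∀ s ∈ S, φ s ∈ S.map φ.toEmbedding := by
    intro s hs
    rw [hmem, φ.symm_apply_apply]
    exact hs
  refine ⟨fun v => k' (φ v), ?_, ?_⟩
  · intro s hs t ht h
    exact φ.injective (hk1 _ (hmem2 s hs) _ (hmem2 t ht) h)
  · intro x y hxy
    obtain ⟨q', hq1, hq2⟩ := hk2 (fun i => x (φ.symm i)) (fun i => y (φ.symm i)) (by
      intro s hs t ht hst
      apply hxy _ ((hmem s).mp hs) _ ((hmem t).mp ht)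
      simpa using hst)
    refine ⟨fun v => q' (φ v), ?_, ?_⟩
    · have := plane_tr φ (G.comap φ.symm) q' hq1
      rwa [comap_back] at this
    · intro s hs
      have := hq2 (φ s) (hmem2 s hs)
      simpa using this

end W_FD_RES

open W_FD_RES in
theorem FD_RES {V : Type} [Fintype V] (G : SimpleGraph V) (hP : ∃ p : V → ℝ × ℝ, Plane G p)
    (hG : ∀ v, Set.ncard {x | G.Adj v x} ≤ 3) (X : Finset V) :
    ∃ S : Finset V, S ⊆ X ∧ (X.card : ℝ) ≤ 40 * S.card ∧
      (∃ v : Fin S.card → V, Function.Injective v ∧ (∀ a, a ∈ S ↔ ∃ i, v i = a) ∧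
        ∀ x y : Fin S.card → ℝ, StrictMono x → ∃ q : V → ℝ × ℝ, Plane G q ∧ ∀ i, q (v i) = (x i, y i)) ∧
      (∀ P : Finset (ℝ × ℝ), P.card = S.card →
        ∃ q : V → ℝ × ℝ, Plane G q ∧ ∀ z : ℝ × ℝ, (∃ s ∈ S, q s = z) ↔ z ∈ P) := by
  classical
  obtain ⟨S, hSX, hSd, hcard⟩ := FD_SEL G hG X
  obtain ⟨k, hk, h⟩ := inter G hP hG S hSd
  refine ⟨S, hSX, by exact_mod_cast hcard, ?_, fun P hPc => FD_SHEAR G S k hk h P hPc⟩
  have hT : (S.image k).card = S.card := by
    apply Finset.card_image_of_injOn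
    intro s hs t ht hst
    exact hk s hs t ht hst
  let o := (S.image k).orderEmbOfFin hT
  have ho : ∀ i, ∃ s ∈ S, k s = o i := by
    intro i
    have := (S.image k).orderEmbOfFin_mem hT i
    exact Finset.mem_image.mp this
  choose v hvS hvk using ho
  have hvinj : Function.Injective v := by
    intro i j hij
    apply o.injective
    rw [← hvk i, ← hvk j, hij]
  refine ⟨v, hvinj, ?_, ?_⟩
  · intro a
    constructor
    · intro ha
      have h1 : k a ∈ Set.range o := by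
        rw [Finset.range_orderEmbOfFin]
        exact Finset.mem_coe.mpr (Finset.mem_image_of_mem k ha)
      obtain ⟨i, hi⟩ := h1
      refine ⟨i, hk _ (hvS i) _ ha ?_⟩
      rw [hvk i, hi]
    · rintro ⟨i, rfl⟩
      exact hvS i
  · intro x y hx
    have hmem : ∀ a ∈ S, ∃ i, v i = a := by
      intro a ha
      have h1 : k a ∈ Set.range o := by
        rw [Finset.range_orderEmbOfFin]
        exact Finset.mem_coe.mpr (Finset.mem_image_of_mem k ha)
      obtain ⟨i, hi⟩ := h1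
      refine ⟨i, hk _ (hvS i) _ ha ?_⟩
      rw [hvk i, hi]
    obtain ⟨q, hq1, hq2⟩ := h (Function.extend v x 0) (Function.extend v y 0) (by
      intro s hs t ht hst
      obtain ⟨i, rfl⟩ := hmem s hs
      obtain ⟨j, rfl⟩ := hmem t ht
      rw [hvinj.extend_apply, hvinj.extend_apply]
      apply hx
      rw [hvk i, hvk j] at hst
      exact o.lt_iff_lt.mp hst)
    refine ⟨q, hq1, fun i => ?_⟩
    rw [hq2 (v i) (hvS i), hvinj.extend_apply, hvinj.extend_apply]


end Pool.Agent.H891WLC
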