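import Pool.Agent.H891FSS.Defs
import Pool.Agent.H891FSS.DefsE

set_option autoImplicit false

namespace Pool.Agent.H891WLC

namespace W_FE_ALT

end W_FE_ALT

open W_FE_ALT in
theorem FE_ALT {ι κ W : Type} [Fintype ι] [Fintype κ] [Fintype W] (a : ι → W → ℝ) (b : κ → W → ℝ)
    (h : ∀ x : W → ℝ, (∀ i, ∑ w, a i w * x w = 0) → ∃ j, ∑ w, b j w * x w ≤ 0) :
    ∃ (μ : ι → ℝ) (ν : κ → ℝ), (∀ j, 0 ≤ ν j) ∧ (∃ j, 0 < ν j) ∧
      ∀ w, ∑ i, μ i * a i w = ∑ j, ν j * b j w := by
  classical
  have hs1 : Convex ℝ {y : κ → ℝ | ∀ j, 0 < y j} := by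
    intro y hy z hz p q hp hq hpq j
    have h1 := hy j
    have h2 := hz j
    simp only [Pi.add_apply, Pi.smul_apply, smul_eq_mul]
    rcases hp.eq_or_lt with rfl | hp'
    · have : q = 1 := by linarith
      rw [this]; linarith
    · have := mul_pos hp' h1
      have := mul_nonneg hq h2.le
      linarith
  have hs2 : IsOpen {y : κ → ℝ | ∀ j, 0 < y j} := by
    simp only [Set.setOf_forall]
    exact isOpen_iInter_of_finite fun j => isOpen_lt continuous_const (continuous_apply j)
  have ht : Convex ℝ {y : κ → ℝ | ∃ x : W → ℝ, (∀ i, ∑ w, a i w * x w = 0) ∧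
      y = fun j => ∑ w, b j w * x w} := by
    rintro y ⟨x, hx, rfl⟩ z ⟨x', hx', rfl⟩ p q hp hq hpq
    refine ⟨p • x + q • x', fun i => ?_, ?_⟩
    · simp only [Pi.add_apply, Pi.smul_apply, smul_eq_mul, mul_add, Finset.sum_add_distrib]
      have e1 : ∑ w, a i w * (p * x w) = p * ∑ w, a i w * x w := by
        rw [Finset.mul_sum]; exact Finset.sum_congr rfl fun w _ => by ring
      have e2 : ∑ w, a i w * (q * x' w) = q * ∑ w, a i w * x' w := by
        rw [Finset.mul_sum]; exact Finset.sum_congr rfl fun w _ => by ring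
      rw [e1, e2, hx, hx']; ring
    · funext j
      simp only [Pi.add_apply, Pi.smul_apply, smul_eq_mul, mul_add, Finset.sum_add_distrib,
        Finset.mul_sum]
      congr 1
      · exact Finset.sum_congr rfl fun w _ => by ring
      · exact Finset.sum_congr rfl fun w _ => by ring
  have hdisj : Disjoint {y : κ → ℝ | ∀ j, 0 < y j} {y : κ → ℝ | ∃ x : W → ℝ,
      (∀ i, ∑ w, a i w * x w = 0) ∧ y = fun j => ∑ w, b j w * x w} := by
    rw [Set.disjoint_left]
    rintro y hy ⟨x, hx, rfl⟩
    obtain ⟨j, hj⟩ := h x hx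
    have := hy j
    simp only at this
    linarith
  obtain ⟨f, u, hf1, hf2⟩ := geometric_hahn_banach_open hs1 hs2 ht hdisj
  have hu : u ≤ 0 := by
    have := hf2 0 ⟨0, by simp, by funext j; simp⟩
    simpa using this
  have hzero : ∀ x : W → ℝ, (∀ i, ∑ w, a i w * x w = 0) → f (fun j => ∑ w, b j w * x w) = 0 := by
    intro x hx
    have hc : ∀ c : ℝ, u ≤ c * f (fun j => ∑ w, b j w * x w) := by
      intro c
      have := hf2 (c • fun j => ∑ w, b j w * x w) ⟨c • x, fun i => ?_, ?_⟩
      · rwa [map_smul, smul_eq_mul] at this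
      · have e1 : ∑ w, a i w * (c • x) w = c * ∑ w, a i w * x w := by
          rw [Finset.mul_sum]
          exact Finset.sum_congr rfl fun w _ => by simp only [Pi.smul_apply, smul_eq_mul]; ring
        rw [e1, hx, mul_zero]
      · funext j
        simp only [Pi.smul_apply, smul_eq_mul, Finset.mul_sum]
        exact Finset.sum_congr rfl fun w _ => by ring
    by_contra hne
    have h5 := hc ((u - 1) / f (fun j => ∑ w, b j w * x w))
    rw [div_mul_cancel₀ _ hne] at h5
    linarith
  have hfsum : ∀ y : κ → ℝ, f y = ∑ j, y j * f (Pi.single j 1) := by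
    intro y
    have : y = ∑ j, y j • (Pi.single j (1 : ℝ) : κ → ℝ) := by
      funext k
      simp [Finset.sum_apply, Pi.single_apply]
    conv_lhs => rw [this]
    rw [map_sum]
    exact Finset.sum_congr rfl fun j _ => by rw [map_smul, smul_eq_mul]
  have hone : f (fun _ => 1) < 0 := lt_of_lt_of_le (hf1 _ (fun _ => one_pos)) hu
  have hnon : ∀ j, f (Pi.single j 1) ≤ 0 := by
    intro j
    by_contra hcon
    push Not at hcon
    have hy : (fun k => (Pi.single j (1 : ℝ) : κ → ℝ) k
        + (f (Pi.single j 1) / (- f (fun _ => 1))) * 1) ∈ {y : κ → ℝ | ∀ j, 0 < y j} := by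
      intro k
      have h1 : 0 < f (Pi.single j 1) / (- f (fun _ => 1)) := div_pos hcon (by linarith)
      have h2 : 0 ≤ (Pi.single j (1 : ℝ) : κ → ℝ) k := by
        rw [Pi.single_apply]; split_ifs <;> norm_num
      simp only
      linarith
    have h5 := lt_of_lt_of_le (hf1 _ hy) hu
    have h6 : (fun k => (Pi.single j (1 : ℝ) : κ → ℝ) k
        + (f (Pi.single j 1) / (- f (fun _ => 1))) * 1) = Pi.single j (1 : ℝ)
        + (f (Pi.single j 1) / (- f (fun _ => 1))) • (fun _ => (1 : ℝ)) := by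
      funext k
      simp
    rw [h6, map_add, map_smul, smul_eq_mul] at h5
    have h7 : f (Pi.single j 1) / (- f (fun _ => 1)) * f (fun _ => 1) = - f (Pi.single j 1) := by
      have : f (fun _ => (1 : ℝ)) ≠ 0 := hone.ne
      field_simp
    rw [h7] at h5
    linarith
  let Lf : ι → ((W → ℝ) →ₗ[ℝ] ℝ) := fun i => ∑ w, a i w • LinearMap.proj w
  let Kf : (W → ℝ) →ₗ[ℝ] ℝ := ∑ j, (-(f (Pi.single j 1))) • ∑ w, b j w • LinearMap.proj w
  have hL : ∀ i x, Lf i x = ∑ w, a i w * x w := by
    intro i x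
    simp [Lf, LinearMap.sum_apply]
  have hK : ∀ x, Kf x = ∑ j, (-(f (Pi.single j 1))) * ∑ w, b j w * x w := by
    intro x
    simp [Kf, LinearMap.sum_apply]
  have hker : ⨅ i, LinearMap.ker (Lf i) ≤ LinearMap.ker Kf := by
    intro x hx
    rw [Submodule.mem_iInf] at hx
    rw [LinearMap.mem_ker, hK]
    have h5 := hzero x (fun i => by rw [← hL]; exact hx i)
    rw [hfsum] at h5
    have h6 : ∑ j, (-(f (Pi.single j 1))) * ∑ w, b j w * x w
        = - ∑ j, (∑ w, b j w * x w) * f (Pi.single j 1) := by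
      rw [← Finset.sum_neg_distrib]
      exact Finset.sum_congr rfl fun j _ => by ring
    rw [h6, h5, neg_zero]
  have hspan := FiniteDimensional.mem_span_of_iInf_ker_le_ker hker
  obtain ⟨μ, hμ⟩ := (Submodule.mem_span_range_iff_exists_fun ℝ).1 hspan
  refine ⟨μ, fun j => -(f (Pi.single j 1)), fun j => by have := hnon j; linarith, ?_, fun w => ?_⟩
  · by_contra hcon
    push Not at hcon
    have h5 : f (fun _ => (1 : ℝ)) = 0 := by
      rw [hfsum]
      apply Finset.sum_eq_zero
      intro j _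
      have := hcon j
      have := hnon j
      have : f (Pi.single j 1) = 0 := by linarith
      rw [this, mul_zero]
    linarith
  · have h5 := LinearMap.congr_fun hμ (Pi.single w 1)
    rw [LinearMap.sum_apply, hK] at h5
    simp only [LinearMap.smul_apply, hL, smul_eq_mul] at h5
    simpa [Pi.single_apply] using h5


end Pool.Agent.H891WLC
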