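import Pool.Agent.H891FSS.Defs
import Pool.Agent.H891FSS.DefsE
import Pool.Agent.H891FSS.FS_SUBALL
import Pool.Agent.H891FSS.FS_FOREST
import Pool.Agent.H891FSS.FS_SPT

set_option autoImplicit false

namespace Pool.Agent.H891WLC

namespace W_FE_BUILD

theorem tri_contra {V : Type} (T : Tri V) {B : Set V} (hB : For1 T.G B) {a b c : V}
    (h : T.F a b c) (ha : a ∈ B) (hb : b ∈ B) (hc : c ∈ B) : False := by
  have h1 := T.rot a b c h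
  have h2 := T.rot b c a h1
  have hab : T.G.Adj a b := ⟨c, h⟩
  have hbc : T.G.Adj b c := ⟨a, h1⟩
  have hca : T.G.Adj c a := ⟨b, h2⟩
  have nab : a ≠ b := T.ne a b c h
  have nbc : b ≠ c := T.ne b c a h1
  have nca : c ≠ a := T.ne c a b h2
  obtain ⟨z, hz, hu⟩ := hB {x | x = a ∨ x = b ∨ x = c} (by
    rintro x (rfl | rfl | rfl)
    · exact ha
    · exact hb
    · exact hc) ⟨a, Or.inl rfl⟩
  rcases hz with rfl | rfl | rfl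
  · exact nbc (hu b (Or.inr (Or.inl rfl)) c (Or.inr (Or.inr rfl)) hab hca.symm)
  · exact nca (hu c (Or.inr (Or.inr rfl)) a (Or.inl rfl) hbc hab.symm)
  · exact nab (hu a (Or.inl rfl) b (Or.inr (Or.inl rfl)) hca hbc.symm)

theorem for1_image {V V' : Type} {G : SimpleGraph V} {G' : SimpleGraph V'} {B : Set V}
    (hB : For1 G B) (i : V → V') (hadj : ∀ x ∈ B, ∀ y ∈ B, G'.Adj (i x) (i y) → G.Adj x y) :
    For1 G' (i '' B) := by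
  intro Z hZ hne
  obtain ⟨z1, hz1⟩ := hne
  obtain ⟨z0, hz0, rfl⟩ := hZ hz1
  obtain ⟨z, hz, hu⟩ := hB {x | x ∈ B ∧ i x ∈ Z} (fun x hx => hx.1) ⟨z0, hz0, hz1⟩
  refine ⟨i z, hz.2, ?_⟩
  intro x1 hx1 y1 hy1 h1 h2
  obtain ⟨x, hx, rfl⟩ := hZ hx1
  obtain ⟨y, hy, rfl⟩ := hZ hy1
  rw [hu x ⟨hx, hx1⟩ y ⟨hy, hy1⟩ (hadj z hz.1 x hx h1) (hadj z hz.1 y hy h2)]

theorem conn_image {V V' : Type} {G : SimpleGraph V} {G' : SimpleGraph V'} {B : Set V}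
    (hB : Conn G B) (i : V → V') (hadj : ∀ x y, G.Adj x y → G'.Adj (i x) (i y)) :
    Conn G' (i '' B) := by
  refine ⟨hB.1.image i, ?_⟩
  rintro _ ⟨u, hu, rfl⟩ _ ⟨v, hv, rfl⟩
  exact (hB.2 u hu v hv).lift i (fun x y h => ⟨hadj x y h.1, y, h.2, rfl⟩)

/-- the graph carried over from `A` -/
def Q0 {U V : Type} (H : SimpleGraph U) (A : Set U) (i : U → V) (hi : Function.Injective i) :
    SimpleGraph V where
  Adj p q := ∃ x y, x ∈ A ∧ y ∈ A ∧ H.Adj x y ∧ p = i x ∧ q = i y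
  symm := ⟨by
    rintro p q ⟨x, y, hx, hy, h, rfl, rfl⟩
    exact ⟨y, x, hy, hx, h.symm, rfl, rfl⟩⟩
  loopless := ⟨by
    rintro p ⟨x, y, hx, hy, h, h1, h2⟩
    have : x = y := hi (h1.symm.trans h2)
    exact h.ne this⟩

theorem q0_for1 {U V : Type} (H : SimpleGraph U) (A : Set U) (i : U → V)
    (hi : Function.Injective i) (C : Set V) (hA : For1 H A) : For1 (Q0 H A i hi) C := by
  intro Z hZ hne
  by_cases h : ∃ z ∈ Z, z ∉ i '' A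
  · obtain ⟨z, hz, hzA⟩ := h
    refine ⟨z, hz, fun x _ y _ h1 _ => ?_⟩
    obtain ⟨a, b, ha, _, _, e1, _⟩ := h1
    exact absurd ⟨a, ha, e1.symm⟩ hzA
  · push Not at h
    obtain ⟨z1, hz1⟩ := hne
    obtain ⟨z0, hz0, rfl⟩ := h z1 hz1
    obtain ⟨z, hz, hu⟩ := hA {x | x ∈ A ∧ i x ∈ Z} (fun x hx => hx.1) ⟨z0, hz0, hz1⟩
    refine ⟨i z, hz.2, ?_⟩
    rintro x1 hx1 y1 hy1 ⟨a, b, ha, hb, hab, e1, rfl⟩ ⟨a', b', ha', hb', hab', e2, rfl⟩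
    have e3 := hi e1
    have e4 := hi e2
    subst e3
    subst e4
    rw [hu b ⟨hb, hx1⟩ b' ⟨hb', hy1⟩ hab hab']

end W_FE_BUILD

open W_FE_BUILD in
theorem FE_BUILD {U : Type} [Fintype U] (T : Tri U) (hU : 4 ≤ Nat.card U) (H : SimpleGraph U)
    (hH : ∀ x y, H.Adj x y → T.G.Adj x y) (A : Set U) (hA : For1 H A) (hB : For1 H Aᶜ) :
    ∃ (U' : Type) (_ : Fintype U') (ι : U → U') (T' : Tri U') (A' : Set U'), Function.Injective ι ∧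
      4 ≤ Nat.card U' ∧ (∀ x, ι x ∈ A' ↔ x ∈ A) ∧
      (∀ x y, H.Adj x y → T'.G.Adj (ι x) (ι y)) ∧ Conn T'.G A' ∧ Conn T'.G A'ᶜ ∧
      (∀ a b c, T'.F a b c → ¬ (a ∈ A' ∧ b ∈ A' ∧ c ∈ A') ∧ ¬ (a ∉ A' ∧ b ∉ A' ∧ c ∉ A')) ∧
      (∀ a b c, T.F a b c → H.Adj a b → H.Adj b c → H.Adj c a → T'.F (ι a) (ι b) (ι c)) := by
  have e0 : ∀ x, x ∈ Aᶜ ↔ x ∉ A := fun x => Iff.rfl
  obtain ⟨V1, hfin1, ι1, T1, inj1, adj1, face1, face1', _⟩ := FS_SUBALL T hU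
    (fun x y => x ∉ A ∧ y ∉ A ∧ T.G.Adj x y ∧ ¬ H.Adj x y)
    (fun x y h => ⟨h.2.1, h.1, h.2.2.1.symm, fun h' => h.2.2.2 h'.symm⟩)
    (fun x y h => h.2.2.1)
  have hB1 : For1 T1.G (ι1 '' Aᶜ) := by
    apply for1_image hB
    intro x hx y hy h
    rw [adj1] at h
    by_contra hcon
    exact h.2 ⟨hx, hy, h.1, hcon⟩
  have hC : Conn T1.G (ι1 '' Aᶜ)ᶜ := FS_FOREST T1 _ hB1
  obtain ⟨C, hCd⟩ : ∃ C : Set V1, C = (ι1 '' Aᶜ)ᶜ := ⟨_, rfl⟩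
  rw [← hCd] at hC
  have hAC : ∀ x, x ∈ A → ι1 x ∈ C := by
    intro x hx
    rw [hCd]
    rintro ⟨y, hy, hxy⟩
    rw [inj1 hxy] at hy
    exact hy hx
  have hCA : ∀ x, ι1 x ∈ C → x ∈ A := by
    intro x hx
    by_contra hcon
    rw [hCd] at hx
    exact hx ⟨x, hcon, rfl⟩
  have hq0 : Q0 H A ι1 inj1 ≤ T1.G := by
    rintro p q ⟨x, y, hx, hy, h, rfl, rfl⟩
    rw [adj1]
    exact ⟨hH x y h, fun h' => h'.1 hx⟩
  obtain ⟨Q, hQ0, hQT, hQC, hQf, hQc⟩ := FS_SPT T1.G (Q0 H A ι1 inj1) C hC hq0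
    (by
      rintro p q ⟨x, y, hx, hy, h, rfl, rfl⟩
      exact ⟨hAC x hx, hAC y hy⟩)
    (q0_for1 H A ι1 inj1 C hA)
  have hcard1 : 4 ≤ Nat.card V1 := hU.trans (Nat.card_le_card_of_injective ι1 inj1)
  obtain ⟨U', hfin2, ι2, T2, inj2, adj2, face2, face2', _⟩ := FS_SUBALL T1 hcard1
    (fun x y => x ∈ C ∧ y ∈ C ∧ T1.G.Adj x y ∧ ¬ Q.Adj x y)
    (fun x y h => ⟨h.2.1, h.1, h.2.2.1.symm, fun h' => h.2.2.2 h'.symm⟩)
    (fun x y h => h.2.2.1)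
  have hP1 : ∀ x y, H.Adj x y → ¬ (x ∉ A ∧ y ∉ A ∧ T.G.Adj x y ∧ ¬ H.Adj x y) :=
    fun x y h h' => h'.2.2.2 h
  have hP2 : ∀ x y, H.Adj x y →
      ¬ (ι1 x ∈ C ∧ ι1 y ∈ C ∧ T1.G.Adj (ι1 x) (ι1 y) ∧ ¬ Q.Adj (ι1 x) (ι1 y)) := by
    rintro x y h ⟨h1, h2, _, h3⟩
    exact h3 (hQ0 ⟨x, y, hCA x h1, hCA y h2, h, rfl, rfl⟩)
  have hconn : Conn T2.G (ι2 '' C) := by
    apply conn_image hQc
    intro x y h
    rw [adj2]
    exact ⟨hQT h, fun h' => h'.2.2.2 h⟩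
  have hfor : For1 T2.G (ι2 '' C) := by
    apply for1_image hQf
    intro x hx y hy h
    rw [adj2] at h
    by_contra hcon
    exact h.2 ⟨hx, hy, h.1, hcon⟩
  refine ⟨U', hfin2, ι2 ∘ ι1, T2, ι2 '' C, inj2.comp inj1,
    hcard1.trans (Nat.card_le_card_of_injective ι2 inj2), ?_, ?_, hconn, FS_FOREST T2 _ hfor,
    ?_, ?_⟩
  · intro x
    constructor
    · rintro ⟨z, hz, hzx⟩
      have hz2 : z = ι1 x := inj2 hzx
      rw [hz2] at hz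
      exact hCA x hz
    · intro hx
      exact ⟨ι1 x, hAC x hx, rfl⟩
  · intro x y h
    change T2.G.Adj (ι2 (ι1 x)) (ι2 (ι1 y))
    exact (adj2 _ _).2 ⟨(adj1 _ _).2 ⟨hH x y h, hP1 x y h⟩, hP2 x y h⟩
  · intro a b c hF
    constructor
    · rintro ⟨ha, hb, hc⟩
      exact tri_contra T2 hfor hF ha hb hc
    · rintro ⟨ha, hb, hc⟩
      rcases face2' a b c hF with ⟨x, y, hxy, h⟩ | ⟨a', b', c', rfl, rfl, rfl, hF'⟩
      · rcases h with rfl | rfl | rfl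
        · exact ha ⟨x, hxy.1, rfl⟩
        · exact hb ⟨x, hxy.1, rfl⟩
        · exact hc ⟨x, hxy.1, rfl⟩
      · have hmem : ∀ z : V1, ι2 z ∉ ι2 '' C → z ∈ ι1 '' Aᶜ := by
          intro z hz
          by_contra hcon
          apply hz
          refine ⟨z, ?_, rfl⟩
          rw [hCd]
          exact hcon
        exact tri_contra T1 hB1 hF' (hmem a' ha) (hmem b' hb) (hmem c' hc)
  · intro a b c hF hab hbc hca
    exact face2 _ _ _ (face1 a b c hF (hP1 a b hab) (hP1 b c hbc) (hP1 c a hca))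
      (hP2 a b hab) (hP2 b c hbc) (hP2 c a hca)


end Pool.Agent.H891WLC
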