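import Pool.Agent.H891FSS.Defs
import Pool.Agent.H891FSS.DefsE
import Pool.Agent.H891FSS.FD_CUT

set_option autoImplicit false

namespace Pool.Agent.H891WLC

namespace W_FE_FANC

theorem chain_reach {α : Type} (R : α → α → Prop) (c x₀ : α) (l : List α) : ∀ (x : α),
    Relation.ReflTransGen (fun p q => R p q ∧ q ≠ c) x₀ x →
    List.IsChain R (x :: (l ++ [c])) → c ∉ x :: l →
    List.IsChain (fun p q => R p q ∧ Relation.ReflTransGen (fun p q => R p q ∧ q ≠ c) x₀ p ∧ p ≠ c)
      (x :: (l ++ [c])) := by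
  induction l with
  | nil =>
    intro x hx hch hc
    simp only [List.nil_append, List.isChain_cons_cons, List.isChain_singleton, and_true] at hch ⊢
    refine ⟨hch, hx, ?_⟩
    rintro rfl
    exact hc (by simp)
  | cons y l ih =>
    intro x hx hch hc
    rw [List.cons_append, List.isChain_cons_cons] at hch ⊢
    have hcx : x ≠ c := by
      rintro rfl
      exact hc (by simp)
    have hcy : y ≠ c := by
      rintro rfl
      exact hc (by simp)
    refine ⟨⟨hch.1, hx, hcx⟩, ih y (hx.tail ⟨hch.1, hcy⟩) hch.2 ?_⟩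
    intro h
    exact hc (List.mem_cons_of_mem _ h)

theorem main_cut (n : ℕ) : ∀ (U : Type) [Fintype U] [DecidableEq U] (T : Tri U) (v c : U)
    (u w : List U) (R : Finset U), (u.filter (fun z => decide (z ∈ R))).length = n →
    List.IsChain (T.F v) (c :: (u ++ w ++ [c])) → (c :: (u ++ w)).Nodup → c ∉ R →
    (∀ x ∈ R, ∀ y ∈ R, ¬ T.G.Adj x y) → (∀ x ∈ R, ¬ T.G.Adj c x) →
    ∃ (U' : Type) (_ : Fintype U') (j : U → U') (T' : Tri U'), Function.Injective j ∧
      List.IsChain (fun x y => T'.F (j v) (j x) (j y))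
        (w ++ c :: u.filter (fun z => decide (z ∈ R))) ∧
      (∀ x y, x ≠ v → y ≠ v → T.G.Adj x y → T'.G.Adj (j x) (j y)) ∧
      (∀ x y z, x ≠ v → y ≠ v → z ≠ v → T.F x y z → T'.F (j x) (j y) (j z)) := by
  induction n with
  | zero =>
    intro U _ _ T v c u w R hlen hch hnd hcR hR hcR'
    refine ⟨U, inferInstance, id, T, Function.injective_id, ?_, fun _ _ _ _ h => h,
      fun _ _ _ _ _ _ h => h⟩
    rw [List.length_eq_zero_iff.1 hlen]
    have h1 : (w ++ [c]) <:+ (c :: (u ++ w ++ [c])) := by
      refine ⟨c :: u, ?_⟩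
      simp
    exact hch.suffix h1
  | succ n ih =>
    intro U _ _ T v c u w R hlen hch hnd hcR hR hcR'
    obtain ⟨x, r, hxr⟩ : ∃ x r, u.filter (fun z => decide (z ∈ R)) = x :: r := by
      cases h : u.filter (fun z => decide (z ∈ R)) with
      | nil => rw [h] at hlen; simp at hlen
      | cons x r => exact ⟨x, r, rfl⟩
    obtain ⟨u₁, u₂, hu, hu1, hxR, hr⟩ := List.filter_eq_cons_iff.1 hxr
    have hxR' : x ∈ R := by simpa using hxR
    have hlenr : r.length = n := by
      rw [hxr, List.length_cons] at hlen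
      omega
    subst hu
    have hcx : c ≠ x := by
      rintro rfl
      exact hcR hxR'
    -- chain from x
    have hchx : List.IsChain (T.F v) (x :: (u₂ ++ w ++ [c])) := by
      refine hch.suffix ⟨c :: u₁, ?_⟩
      simp
    have hnd' := hnd
    have hcx2 : c ∉ x :: (u₂ ++ w) := by
      rw [List.nodup_cons] at hnd
      intro h
      apply hnd.1
      simp only [List.mem_append, List.mem_cons] at h ⊢
      tauto
    have adjc : T.G.Adj v c := by
      cases hL : u₁ ++ x :: u₂ ++ w ++ [c] with
      | nil => simp at hL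
      | cons y l =>
        rw [hL, List.isChain_cons_cons] at hch
        exact ⟨y, hch.1⟩
    have adjx : T.G.Adj v x := by
      cases hL : u₂ ++ w ++ [c] with
      | nil => simp at hL
      | cons y l =>
        rw [hL, List.isChain_cons_cons] at hchx
        exact ⟨y, hchx.1⟩
    obtain ⟨T', c1, c2, c3, c4, c5⟩ := FD_CUT T v c x adjc adjx hcx (hcR' x hxR')
    -- the new chain
    have hreach := chain_reach (T.F v) c x (u₂ ++ w) x Relation.ReflTransGen.refl
      (by simpa using hchx) hcx2
    have hnew1 : List.IsChain (fun p q => T'.F (some v) (some p) (some q)) (x :: (u₂ ++ w ++ [c])) :=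
      List.IsChain.imp (fun p q h => c5 p q h.2.1 h.2.2 h.1) hreach
    have hnew2 : List.IsChain (fun p q => T'.F (some v) (some p) (some q))
        (x :: (u₂ ++ (w ++ [c]) ++ [x])) := by
      have h1 : x :: (u₂ ++ (w ++ [c]) ++ [x]) = (x :: (u₂ ++ w)) ++ c :: [x] := by simp
      rw [h1, List.isChain_split]
      constructor
      · have h2 : (x :: (u₂ ++ w)) ++ [c] = x :: (u₂ ++ w ++ [c]) := by simp
        rw [h2]
        exact hnew1
      · rw [List.isChain_pair]
        exact c4
    have hnew3 : List.IsChain (T'.F (some v)) (some x :: (u₂.map some ++ (w ++ [c]).map some ++ [some x])) := by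
      have h1 : (some x :: (u₂.map some ++ (w ++ [c]).map some ++ [some x]))
          = (x :: (u₂ ++ (w ++ [c]) ++ [x])).map some := by simp
      rw [h1, List.isChain_map]
      exact hnew2
    have hnd2 : (x :: (u₂ ++ (w ++ [c]))).Nodup := by
      have h3 : (x :: (u₂ ++ (w ++ [c]))).Perm (c :: (x :: (u₂ ++ w))) := by
        have : x :: (u₂ ++ (w ++ [c])) = (x :: (u₂ ++ w)) ++ [c] := by simp
        rw [this]
        exact List.perm_append_singleton _ _
      rw [h3.nodup_iff, List.nodup_cons]
      refine ⟨hcx2, ?_⟩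
      have h4 : (x :: (u₂ ++ w)).Sublist (c :: (u₁ ++ x :: u₂ ++ w)) := by
        have : c :: (u₁ ++ x :: u₂ ++ w) = (c :: u₁) ++ (x :: (u₂ ++ w)) := by simp
        rw [this]
        exact List.sublist_append_right _ _
      exact hnd.sublist h4
    have hnd3 : (some x :: (u₂.map some ++ (w ++ [c]).map some)).Nodup := by
      have h1 : (some x :: (u₂.map some ++ (w ++ [c]).map some))
          = (x :: (u₂ ++ (w ++ [c]))).map some := by simp
      rw [h1]
      exact hnd2.map (Option.some_injective _)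
    obtain ⟨R', hR'⟩ : ∃ R' : Finset (Option U), R' = (R.erase x).image some := ⟨_, rfl⟩
    have hmem : ∀ z : U, some z ∈ R' ↔ z ≠ x ∧ z ∈ R := by
      intro z
      rw [hR']
      simp
    have hfil : (u₂.map some).filter (fun z => decide (z ∈ R')) = r.map some := by
      rw [← hr, List.filter_map]
      congr 1
      apply List.filter_congr
      intro z hz
      have hzx : z ≠ x := by
        rintro rfl
        rw [List.nodup_cons] at hnd2
        exact hnd2.1 (by simp [hz])
      simp only [Function.comp_apply, hmem]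
      simp [hzx]
    obtain ⟨U'', i1, j, T'', g1, g2, g3, g4⟩ := ih (Option U) T' (some v) (some x) (u₂.map some)
      ((w ++ [c]).map some) R' (by rw [hfil, List.length_map, hlenr]) hnew3 hnd3
      (by rw [hmem]; simp)
      (by
        intro p hp q hq hadj
        rw [hR'] at hp hq
        obtain ⟨p', hp', rfl⟩ := Finset.mem_image.1 hp
        obtain ⟨q', hq', rfl⟩ := Finset.mem_image.1 hq
        rw [Finset.mem_erase] at hp' hq'
        rcases c3 p' q' hadj with h | h | h
        · exact hR p' hp'.2 q' hq'.2 h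
        · exact hq'.1 h.2
        · exact hp'.1 h.1)
      (by
        intro q hq hadj
        rw [hR'] at hq
        obtain ⟨q', hq', rfl⟩ := Finset.mem_image.1 hq
        rw [Finset.mem_erase] at hq'
        rcases c3 x q' hadj with h | h | h
        · exact hR x hxR' q' hq'.2 h
        · exact hq'.1 h.2
        · exact hcR (h.2 ▸ hq'.2))
    refine ⟨U'', i1, j ∘ some, T'', g1.comp (Option.some_injective _), ?_, ?_, ?_⟩
    · rw [hfil] at g2
      have h1 : (w ++ [c]).map some ++ some x :: r.map some = (w ++ c :: x :: r).map some := by simp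
      rw [h1, List.isChain_map] at g2
      rw [hxr]
      exact g2
    · intro p q hp hq h
      exact g3 _ _ (by simpa using hp) (by simpa using hq) (c1 p q hp hq h)
    · intro p q z hp hq hz h
      exact g4 _ _ _ (by simpa using hp) (by simpa using hq) (by simpa using hz)
        (c2 p q z hp hq hz h)

theorem link_list {U : Type} (T : Tri U) (v c₀ : U) (h0 : T.G.Adj v c₀) :
    ∃ u : List U, List.IsChain (T.F v) (c₀ :: (u ++ [c₀])) ∧ (c₀ :: u).Nodup ∧
      ∀ x, T.G.Adj v x → x ∈ c₀ :: u := by
  classical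
  obtain ⟨f, hf⟩ : ∃ f : U → U, ∀ x y, T.F v x y → f x = y := by
    refine ⟨fun x => if h : ∃ y, T.F v x y then h.choose else x, ?_⟩
    intro x y hxy
    have h : ∃ y, T.F v x y := ⟨y, hxy⟩
    simp only [dif_pos h]
    exact T.uniq _ _ _ _ h.choose_spec hxy
  have nbr : ∀ x y, T.F v x y → ∃ z, T.F v y z := by
    intro x y h
    exact T.opp _ _ _ (T.rot _ _ _ (T.rot _ _ _ h))
  have hF : ∀ k : ℕ, T.F v (f^[k] c₀) (f^[k+1] c₀) := by
    intro k
    induction k with
    | zero =>
      obtain ⟨y, hy⟩ := h0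
      have := hf _ _ hy
      simpa [this] using hy
    | succ k ih =>
      obtain ⟨z, hz⟩ := nbr _ _ ih
      have h1 := hf _ _ hz
      rw [Function.iterate_succ_apply' f (k+1), h1]
      exact hz
  have hRTG : ∀ a b, Relation.ReflTransGen (fun x y => T.F v x y) a b → ∃ n : ℕ, f^[n] a = b := by
    intro a b h
    induction h with
    | refl => exact ⟨0, rfl⟩
    | tail h1 h2 ih =>
      obtain ⟨n, hn⟩ := ih
      refine ⟨n + 1, ?_⟩
      rw [Function.iterate_succ_apply', hn]
      exact hf _ _ h2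
  have hper : c₀ ∈ Function.periodicPts f := by
    have h1 := hF 0
    have h2 := hF 1
    obtain ⟨n, hn⟩ := hRTG _ _ (T.link v _ _ _ _ h2 h1)
    refine Function.mk_mem_periodicPts (n := n + 1) (Nat.succ_pos n) ?_
    show f^[n+1] c₀ = c₀
    rw [Function.iterate_succ_apply]
    simpa using hn
  obtain ⟨M, hM⟩ : ∃ M, Function.minimalPeriod f c₀ = M + 1 :=
    ⟨Function.minimalPeriod f c₀ - 1, by
      have := Function.minimalPeriod_pos_of_mem_periodicPts hper
      omega⟩
  obtain ⟨g, hg⟩ : ∃ g : ℕ → U, g = fun k => f^[k] c₀ := ⟨_, rfl⟩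
  have hgL : g (M + 1) = c₀ := by
    rw [hg, ← hM]
    exact Function.iterate_minimalPeriod
  have hg0 : g 0 = c₀ := by rw [hg]; rfl
  have e1 : c₀ :: (List.range M).map (fun k => g (k + 1)) = (List.range (M + 1)).map g := by
    rw [List.range_succ_eq_map, List.map_cons, List.map_map, hg0]
    rfl
  have e2 : c₀ :: ((List.range M).map (fun k => g (k + 1)) ++ [c₀]) = (List.range (M + 2)).map g := by
    rw [← List.cons_append, e1, List.range_succ (n := M + 1), List.map_append, List.map_singleton, hgL]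
  refine ⟨(List.range M).map (fun k => g (k + 1)), ?_, ?_, ?_⟩
  · rw [e2, List.isChain_map, List.isChain_iff_getElem]
    intro i hi
    simp only [List.getElem_range, hg]
    exact hF i
  · rw [e1]
    refine List.Nodup.map_on ?_ List.nodup_range
    intro x hx y hy hxy
    rw [List.mem_range] at hx hy
    have := Function.iterate_injOn_Iio_minimalPeriod (f := f) (x := c₀)
    refine this ?_ ?_ ?_
    · rw [hM]; exact hx
    · rw [hM]; exact hy
    · rw [hg] at hxy; exact hxy
  · intro x hx
    obtain ⟨y, hy⟩ := hx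
    obtain ⟨n, hn⟩ := hRTG _ _ (T.link v _ _ _ _ (hF 0) hy)
    rw [e1, List.mem_map]
    refine ⟨n % (M + 1), List.mem_range.2 (Nat.mod_lt _ (Nat.succ_pos _)), ?_⟩
    rw [hg, ← hM]
    show f^[n % Function.minimalPeriod f c₀] c₀ = x
    rw [Function.iterate_mod_minimalPeriod_eq]
    exact hn

end W_FE_FANC

open W_FE_FANC in
theorem FE_FANC {U : Type} [Fintype U] (T : Tri U) (hU : 4 ≤ Nat.card U) (v : U) (d : ℕ) (Q : Finset U) (hQ : Q.card = d + 1)
    (hadj : ∀ x ∈ Q, T.G.Adj v x) (hnon : ∀ x ∈ Q, ∀ y ∈ Q, ¬ T.G.Adj x y) :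
    ∃ (U' : Type) (_ : Fintype U') (j : U → U') (T' : Tri U') (a : ℕ → U), Function.Injective j ∧
      4 ≤ Nat.card U' ∧ (∀ x, x ∈ Q ↔ ∃ i, i ≤ d ∧ a i = x) ∧
      (∀ i k, i ≤ d → k ≤ d → a i = a k → i = k) ∧
      (∀ i, i < d → T'.F (j v) (j (a i)) (j (a (i + 1)))) ∧
      (∀ x y, x ≠ v → y ≠ v → T.G.Adj x y → T'.G.Adj (j x) (j y)) ∧
      (∀ x ∈ Q, T'.G.Adj (j v) (j x)) ∧
      (∀ x y w, x ≠ v → y ≠ v → w ≠ v → T.F x y w → T'.F (j x) (j y) (j w)) := by
  classical
  have hQne : Q.Nonempty := by
    rw [← Finset.card_pos]; omega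
  obtain ⟨c₀, hc₀⟩ := hQne
  obtain ⟨u, hu1, hu2, hu3⟩ := link_list T v c₀ (hadj c₀ hc₀)
  obtain ⟨U', i1, j, T', g1, g2, g3, g4⟩ := main_cut _ U T v c₀ u [] (Q.erase c₀) rfl
    (by simpa using hu1) (by simpa using hu2) (by simp)
    (fun x hx y hy => hnon x (Finset.mem_of_mem_erase hx) y (Finset.mem_of_mem_erase hy))
    (fun x hx => hnon c₀ hc₀ x (Finset.mem_of_mem_erase hx))
  rcases Nat.eq_zero_or_pos d with hd | hd
  · subst hd
    have hQ1 : Q = {c₀} := by
      obtain ⟨q, hq⟩ := Finset.card_eq_one.1 (by simpa using hQ)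
      rw [hq] at hc₀ ⊢
      rw [Finset.mem_singleton.1 hc₀]
    refine ⟨U, inferInstance, id, T, fun _ => c₀, Function.injective_id, hU, ?_, ?_, ?_,
      fun _ _ _ _ h => h, fun x hx => hadj x hx, fun _ _ _ _ _ _ h => h⟩
    · intro x
      rw [hQ1, Finset.mem_singleton]
      constructor
      · intro h; exact ⟨0, le_rfl, h.symm⟩
      · rintro ⟨_, _, h⟩; exact h.symm
    · intro i k hi hk _; omega
    · intro i hi; omega
  obtain ⟨as, has⟩ : ∃ as : List U, as = c₀ :: u.filter (fun z => decide (z ∈ Q.erase c₀)) := ⟨_, rfl⟩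
  have hnd : as.Nodup := by
    rw [has]
    refine hu2.sublist ?_
    exact List.Sublist.cons_cons _ List.filter_sublist
  have hmemas : ∀ x, x ∈ as ↔ x ∈ Q := by
    intro x
    rw [has, List.mem_cons, List.mem_filter]
    constructor
    · rintro (rfl | h)
      · exact hc₀
      · have := h.2
        rw [decide_eq_true_eq] at this
        exact Finset.mem_of_mem_erase this
    · intro hx
      by_cases h : x = c₀
      · exact Or.inl h
      · right
        have h1 := hu3 x (hadj x hx)
        rw [List.mem_cons] at h1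
        refine ⟨h1.resolve_left h, ?_⟩
        rw [decide_eq_true_eq, Finset.mem_erase]
        exact ⟨h, hx⟩
  have hlen : as.length = d + 1 := by
    rw [← hQ, ← List.toFinset_card_of_nodup hnd]
    congr 1
    ext x
    rw [List.mem_toFinset, hmemas]
  rw [List.nil_append, ← has, List.isChain_iff_getElem] at g2
  have ha : ∀ i (h : i < as.length), as.getD i c₀ = as[i] := by
    intro i h
    rw [List.getD_eq_getElem _ _ h]
  have hface : ∀ i, i < d → T'.F (j v) (j (as.getD i c₀)) (j (as.getD (i + 1) c₀)) := by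
    intro i hi
    rw [ha i (by omega), ha (i + 1) (by omega)]
    exact g2 i (by omega)
  have hQi : ∀ x, x ∈ Q ↔ ∃ i, i ≤ d ∧ as.getD i c₀ = x := by
    intro x
    rw [← hmemas, List.mem_iff_getElem]
    constructor
    · rintro ⟨i, hi, h⟩
      exact ⟨i, by omega, by rw [ha i hi]; exact h⟩
    · rintro ⟨i, hi, h⟩
      exact ⟨i, by omega, by rw [← ha i (by omega)]; exact h⟩
  refine ⟨U', i1, j, T', fun i => as.getD i c₀, g1, ?_, hQi, ?_, hface, g3, ?_, g4⟩
  · exact hU.trans (Nat.card_le_card_of_injective j g1)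
  · intro i k hi hk h
    simp only at h
    rw [ha i (by omega), ha k (by omega)] at h
    exact (List.Nodup.getElem_inj_iff hnd).1 h
  · intro x hx
    obtain ⟨i, hi, rfl⟩ := (hQi x).1 hx
    rcases Nat.lt_or_ge i d with h | h
    · exact ⟨_, hface i h⟩
    · have hid : i = (d - 1) + 1 := by omega
      rw [hid]
      have h1 := hface (d - 1) (by omega)
      exact T'.opp _ _ _ (T'.rot _ _ _ (T'.rot _ _ _ h1))


end Pool.Agent.H891WLC
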