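import Pool.Agent.H891FSS.Defs
import Pool.Agent.H891FSS.DefsE
import Pool.Agent.H891FSS.FS_SUBALL
import Pool.Agent.H891FSS.FE_FANC

set_option autoImplicit false

namespace Pool.Agent.H891WLC

namespace W_FE_STEP

end W_FE_STEP

open W_FE_STEP in
theorem FE_STEP {U : Type} [Fintype U] (T : Tri U) (hU : 4 ≤ Nat.card U) (H : SimpleGraph U)
    (hH : ∀ x y, H.Adj x y → T.G.Adj x y) (v : U) (d : ℕ) (hd : Set.ncard {x | H.Adj v x} = d + 1)
    (hT : ∀ x y, H.Adj v x → H.Adj v y → ¬ H.Adj x y) :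
    ∃ (U' : Type) (_ : Fintype U') (j : U → U') (T' : Tri U') (a : ℕ → U), Function.Injective j ∧
      4 ≤ Nat.card U' ∧ (∀ x y, H.Adj x y → T'.G.Adj (j x) (j y)) ∧
      (∀ x, H.Adj v x ↔ ∃ i, i ≤ d ∧ a i = x) ∧ (∀ i k, i ≤ d → k ≤ d → a i = a k → i = k) ∧
      (∀ i, i < d → T'.F (j v) (j (a i)) (j (a (i + 1)))) ∧
      (∀ x y w, T.F x y w → x ≠ v → y ≠ v → w ≠ v → ¬ H.Adj v x → ¬ H.Adj v y → ¬ H.Adj v w →
        T'.F (j x) (j y) (j w)) := by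
  classical
  obtain ⟨V', hV'f, ι, T1, hι, h1, h2, _, _⟩ := FS_SUBALL T hU
    (fun x y => T.G.Adj x y ∧ ¬ H.Adj x y ∧ (x = v ∨ y = v ∨ (H.Adj v x ∧ H.Adj v y)))
    (by
      rintro x y ⟨ha, hb, hc⟩
      refine ⟨ha.symm, fun h => hb h.symm, ?_⟩
      rcases hc with h | h | ⟨h, h'⟩
      · exact Or.inr (Or.inl h)
      · exact Or.inl h
      · exact Or.inr (Or.inr ⟨h', h⟩))
    (fun x y h => h.1)
  have hc4 : 4 ≤ Nat.card V' := le_trans hU (Nat.card_le_card_of_injective ι hι)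
  let Nf : Finset U := Finset.univ.filter (fun x => H.Adj v x)
  have hNf : Nf.card = d + 1 := by
    rw [← hd, ← Set.ncard_coe_finset]
    congr 1
    ext x
    simp [Nf]
  let Q : Finset V' := Nf.image ι
  have hQ : Q.card = d + 1 := by
    rw [← hNf]
    exact Finset.card_image_of_injective _ hι
  have hQm : ∀ x, x ∈ Q ↔ ∃ y, H.Adj v y ∧ ι y = x := by
    intro x
    simp [Q, Nf]
  have hadj : ∀ x ∈ Q, T1.G.Adj (ι v) x := by
    intro x hx
    obtain ⟨y, hy, rfl⟩ := (hQm x).1 hx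
    exact (h1 v y).2 ⟨hH _ _ hy, fun h => h.2.1 hy⟩
  have hnon : ∀ x ∈ Q, ∀ y ∈ Q, ¬ T1.G.Adj x y := by
    intro x hx y hy h
    obtain ⟨x', hx', rfl⟩ := (hQm x).1 hx
    obtain ⟨y', hy', rfl⟩ := (hQm y).1 hy
    obtain ⟨ha, hb⟩ := (h1 x' y').1 h
    exact hb ⟨ha, hT _ _ hx' hy', Or.inr (Or.inr ⟨hx', hy'⟩)⟩
  obtain ⟨U', hU'f, j, T', a1, hj, h4, hQa, hinj, hF, hE, hV, hFc⟩ :=
    FE_FANC T1 hc4 (ι v) d Q hQ hadj hnon
  have hex : ∀ i, ∃ x, i ≤ d → (H.Adj v x ∧ ι x = a1 i) := by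
    intro i
    by_cases hi : i ≤ d
    · obtain ⟨x, hx, hx'⟩ := (hQm (a1 i)).1 ((hQa (a1 i)).2 ⟨i, hi, rfl⟩)
      exact ⟨x, fun _ => ⟨hx, hx'⟩⟩
    · exact ⟨v, fun h => absurd h hi⟩
  choose a ha using hex
  have hne : ∀ x, x ≠ v → ι x ≠ ι v := fun x hx h => hx (hι h)
  refine ⟨U', hU'f, fun x => j (ι x), T', a, hj.comp hι, h4, ?_, ?_, ?_, ?_, ?_⟩
  · intro x y hxy
    by_cases hx : x = v
    · subst hx
      exact hV (ι y) ((hQm _).2 ⟨y, hxy, rfl⟩)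
    · by_cases hy : y = v
      · subst hy
        exact (hV (ι x) ((hQm _).2 ⟨x, hxy.symm, rfl⟩)).symm
      · exact hE _ _ (hne x hx) (hne y hy) ((h1 x y).2 ⟨hH _ _ hxy, fun h => h.2.1 hxy⟩)
  · intro x
    constructor
    · intro hx
      obtain ⟨i, hi, hi'⟩ := (hQa (ι x)).1 ((hQm _).2 ⟨x, hx, rfl⟩)
      exact ⟨i, hi, hι (((ha i hi).2).trans hi')⟩
    · rintro ⟨i, hi, rfl⟩
      exact (ha i hi).1
  · intro i k hi hk hik
    apply hinj i k hi hk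
    rw [← (ha i hi).2, ← (ha k hk).2, hik]
  · intro i hi
    have := hF i hi
    rw [← (ha i hi.le).2, ← (ha (i + 1) hi).2] at this
    exact this
  · intro x y w hxyw hx hy hw hnx hny hnw
    apply hFc _ _ _ (hne x hx) (hne y hy) (hne w hw)
    apply h2 x y w hxyw
    · rintro ⟨_, _, h | h | h⟩
      · exact hx h
      · exact hy h
      · exact hnx h.1
    · rintro ⟨_, _, h | h | h⟩
      · exact hy h
      · exact hw h
      · exact hny h.1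
    · rintro ⟨_, _, h | h | h⟩
      · exact hw h
      · exact hx h
      · exact hnw h.1


end Pool.Agent.H891WLC
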