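import Pool.Agent.H891FSS.Defs
import Pool.Agent.H891FSS.DefsE
import Pool.Agent.H891FSS.FE_STEP

set_option autoImplicit false

namespace Pool.Agent.H891WLC

namespace W_FE_BUILD0

/-- image graph -/
def mapG {U V : Type} (H : SimpleGraph U) (j : U → V) (hj : Function.Injective j) :
    SimpleGraph V where
  Adj p q := ∃ x y, H.Adj x y ∧ j x = p ∧ j y = q
  symm := ⟨by
    rintro p q ⟨x, y, h, hx, hy⟩
    exact ⟨y, x, h.symm, hy, hx⟩⟩
  loopless := ⟨by
    rintro p ⟨x, y, h, hx, hy⟩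
    exact h.ne (hj (hx.trans hy.symm))⟩

theorem main {U : Type} [Fintype U] (T : Tri U) (hU : 4 ≤ Nat.card U) (H : SimpleGraph U)
    (hH : ∀ x y, H.Adj x y → T.G.Adj x y) (d : U → ℕ) (S : Set U) (hfin : S.Finite) :
    Sparse H S → (∀ v ∈ S, ∀ x y, H.Adj v x → H.Adj v y → ¬ H.Adj x y) →
    (∀ v ∈ S, Set.ncard {x | H.Adj v x} = d v + 1) →
    ∃ (U' : Type) (_ : Fintype U') (j : U → U') (T0 : Tri U') (a : U → ℕ → U), Function.Injective j ∧
      4 ≤ Nat.card U' ∧ (∀ x y, H.Adj x y → T0.G.Adj (j x) (j y)) ∧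
      (∀ v ∈ S, (∀ x, H.Adj v x ↔ ∃ i, i ≤ d v ∧ a v i = x) ∧
        (∀ i k, i ≤ d v → k ≤ d v → a v i = a v k → i = k) ∧
        ∀ i, i < d v → T0.F (j v) (j (a v i)) (j (a v (i + 1)))) := by
  classical
  induction S, hfin using Set.Finite.induction_on with
  | empty =>
    intro _ _ _
    refine ⟨U, inferInstance, id, T, fun v _ => v, Function.injective_id, hU, hH, ?_⟩
    intro v hv
    exact absurd hv (Set.notMem_empty v)
  | @insert v S hvS hfin ih =>
    intro hS hT hd
    obtain ⟨U1, iU1, j1, T1, a1, hj1, hc1, hH1, hA1⟩ := ih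
      (fun x hx y hy hxy => hS x (Set.mem_insert_of_mem _ hx) y (Set.mem_insert_of_mem _ hy) hxy)
      (fun x hx => hT x (Set.mem_insert_of_mem _ hx))
      (fun x hx => hd x (Set.mem_insert_of_mem _ hx))
    have hvi : v ∈ insert v S := Set.mem_insert _ _
    let H1 : SimpleGraph U1 := mapG H j1 hj1
    have hadj : ∀ x y, H1.Adj (j1 x) (j1 y) ↔ H.Adj x y := by
      intro x y
      constructor
      · rintro ⟨x', y', hxy, hx, hy⟩
        rw [← hj1 hx, ← hj1 hy]
        exact hxy
      · intro h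
        exact ⟨x, y, h, rfl, rfl⟩
    have hex : ∀ p q, H1.Adj p q → ∃ x y, H.Adj x y ∧ j1 x = p ∧ j1 y = q := by
      intro p q h
      exact h
    have hH1' : ∀ p q, H1.Adj p q → T1.G.Adj p q := by
      intro p q h
      obtain ⟨x, y, hxy, rfl, rfl⟩ := hex p q h
      exact hH1 x y hxy
    have hd1 : Set.ncard {p | H1.Adj (j1 v) p} = d v + 1 := by
      have he : {p | H1.Adj (j1 v) p} = j1 '' {x | H.Adj v x} := by
        ext p
        constructor
        · intro h
          obtain ⟨x, y, hxy, hx, hy⟩ := hex _ _ h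
          have : x = v := hj1 hx
          subst this
          exact ⟨y, hxy, hy⟩
        · rintro ⟨y, hy, rfl⟩
          exact (hadj v y).2 hy
      rw [he, Set.ncard_image_of_injective _ hj1]
      exact hd v hvi
    have hT1 : ∀ p q, H1.Adj (j1 v) p → H1.Adj (j1 v) q → ¬ H1.Adj p q := by
      intro p q hp hq hpq
      obtain ⟨x, y, hxy, hx, hy⟩ := hex _ _ hpq
      subst hx
      subst hy
      exact hT v hvi x y ((hadj v x).1 hp) ((hadj v y).1 hq) hxy
    obtain ⟨U2, iU2, j2, T2, a2, hj2, hc2, hH2, hN2, hI2, hF2, hK2⟩ :=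
      FE_STEP T1 hc1 H1 hH1' (j1 v) (d v) hd1 hT1
    have hg : ∀ i, ∃ x, i ≤ d v → j1 x = a2 i := by
      intro i
      by_cases hi : i ≤ d v
      · have h1 : H1.Adj (j1 v) (a2 i) := (hN2 (a2 i)).2 ⟨i, hi, rfl⟩
        obtain ⟨x, y, hxy, hx, hy⟩ := hex _ _ h1
        exact ⟨y, fun _ => hy⟩
      · exact ⟨v, fun h => absurd h hi⟩
    choose g hg using hg
    refine ⟨U2, iU2, j2 ∘ j1, T2, fun s i => if s = v then g i else a1 s i, hj2.comp hj1, hc2, ?_, ?_⟩
    · intro x y hxy
      exact hH2 _ _ ((hadj x y).2 hxy)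
    · intro s hs
      by_cases hsv : s = v
      · subst hsv
        simp only [if_true]
        refine ⟨?_, ?_, ?_⟩
        · intro x
          rw [← hadj s x, hN2 (j1 x)]
          constructor
          · rintro ⟨i, hi, h⟩
            refine ⟨i, hi, hj1 ?_⟩
            rw [hg i hi, h]
          · rintro ⟨i, hi, h⟩
            refine ⟨i, hi, ?_⟩
            rw [← hg i hi, h]
        · intro i k hi hk h
          refine hI2 i k hi hk ?_
          rw [← hg i hi, ← hg k hk, h]
        · intro i hi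
          have h1 := hF2 i hi
          rw [← hg i hi.le, ← hg (i + 1) hi] at h1
          exact h1
      · have hsS : s ∈ S := by
          rcases Set.mem_insert_iff.1 hs with h | h
          · exact absurd h hsv
          · exact h
        obtain ⟨hA, hB, hC⟩ := hA1 s hsS
        simp only [if_neg hsv]
        refine ⟨hA, hB, ?_⟩
        intro i hi
        have h0 := hS v hvi s hs (fun h => hsv h.symm)
        have hn1 : H.Adj s (a1 s i) := (hA _).2 ⟨i, hi.le, rfl⟩
        have hn2 : H.Adj s (a1 s (i + 1)) := (hA _).2 ⟨i + 1, hi, rfl⟩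
        refine hK2 _ _ _ (hC i hi) ?_ ?_ ?_ ?_ ?_ ?_
        · intro h
          exact hsv (hj1 h)
        · intro h
          have h' := hj1 h
          rw [h'] at hn1
          exact h0.1 hn1.symm
        · intro h
          have h' := hj1 h
          rw [h'] at hn2
          exact h0.1 hn2.symm
        · intro h
          exact h0.1 ((hadj _ _).1 h)
        · intro h
          exact h0.2 _ ⟨(hadj _ _).1 h, hn1⟩
        · intro h
          exact h0.2 _ ⟨(hadj _ _).1 h, hn2⟩

end W_FE_BUILD0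

open W_FE_BUILD0 in
theorem FE_BUILD0 {U : Type} [Fintype U] (T : Tri U) (hU : 4 ≤ Nat.card U) (H : SimpleGraph U)
    (hH : ∀ x y, H.Adj x y → T.G.Adj x y) (S : Set U) (hS : Sparse H S)
    (hT : ∀ v ∈ S, ∀ x y, H.Adj v x → H.Adj v y → ¬ H.Adj x y)
    (d : U → ℕ) (hd : ∀ v ∈ S, Set.ncard {x | H.Adj v x} = d v + 1) :
    ∃ (U' : Type) (_ : Fintype U') (j : U → U') (T0 : Tri U') (a : U → ℕ → U), Function.Injective j ∧
      4 ≤ Nat.card U' ∧ (∀ x y, H.Adj x y → T0.G.Adj (j x) (j y)) ∧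
      (∀ v ∈ S, (∀ x, H.Adj v x ↔ ∃ i, i ≤ d v ∧ a v i = x) ∧
        (∀ i k, i ≤ d v → k ≤ d v → a v i = a v k → i = k) ∧
        ∀ i, i < d v → T0.F (j v) (j (a v i)) (j (a v (i + 1)))) :=
  W_FE_BUILD0.main T hU H hH d S (Set.toFinite S) hS hT hd


end Pool.Agent.H891WLC
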