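import Pool.Agent.H891FSS.Defs
import Pool.Agent.H891FSS.DefsE

set_option autoImplicit false

namespace Pool.Agent.H891WLC

namespace W_FE_CERT

/-- partial sums -/
noncomputable def sg (μ : ℕ → ℝ) (k : ℕ) : ℝ := ∑ i ∈ Finset.range k, μ i

theorem sg_succ (μ : ℕ → ℝ) (k : ℕ) : sg μ (k + 1) = sg μ k + μ k := by
  unfold sg
  rw [Finset.sum_range_succ]

theorem sum_Ico_sg (μ : ℕ → ℝ) {I J : ℕ} (h : I ≤ J) :
    ∑ i ∈ Finset.Ico I J, μ i = sg μ J - sg μ I := by
  unfold sg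
  rw [Finset.sum_Ico_eq_sub _ h]

theorem abel (μ z : ℕ → ℝ) (I : ℕ) : ∀ d : ℕ,
    ∑ i ∈ Finset.Ico I (I + 1 + d), μ i * z i =
      (sg μ (I + 1 + d) - sg μ I) * z (I + d) -
        ∑ i ∈ Finset.Ico (I + 1) (I + 1 + d), (sg μ i - sg μ I) * (z i - z (i - 1)) := by
  intro d
  induction d with
  | zero =>
    simp [sg_succ]
  | succ d ih =>
    rw [show I + 1 + (d + 1) = (I + 1 + d) + 1 by ring, Finset.sum_Ico_succ_top (by omega), ih,
      Finset.sum_Ico_succ_top (by omega), sg_succ μ (I + 1 + d),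
      show I + 1 + d - 1 = I + d by omega, show I + (d + 1) = I + 1 + d by ring]
    ring

theorem tele (z : ℕ → ℝ) (I : ℕ) : ∀ d : ℕ,
    ∑ i ∈ Finset.Ico (I + 1) (I + 1 + d), (z i - z (i - 1)) = z (I + d) - z I := by
  intro d
  induction d with
  | zero => simp
  | succ d ih =>
    rw [show I + 1 + (d + 1) = (I + 1 + d) + 1 by ring, Finset.sum_Ico_succ_top (by omega), ih,
      show I + 1 + d - 1 = I + d by omega, show I + (d + 1) = I + 1 + d by ring]
    ring

structure Gen {V : Type} (N : ℕ) (c : ℕ → V) (A : Set V) (z : ℕ → ℝ) (inn : ℕ → Prop)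
    (μ α θ : ℕ → ℝ) : Prop where
  hs : ∀ a b, a < N → b < N → c a ≠ c b → ∃ (C : Set V) (I J : ℕ), C ⊆ A ∧ I ≤ J ∧ J ≤ N ∧
      (∀ i, i < N → (c i ∈ C ↔ I ≤ i ∧ i < J)) ∧ ((I ≤ a ∧ a < J) ↔ ¬ (I ≤ b ∧ b < J)) ∧
      (0 < I → J < N → c (I - 1) = c J)
  hz : ∀ i, i + 1 < N → z i ≤ z (i + 1)
  hz' : ∀ i, i + 1 < N → (¬ inn i ∨ ¬ inn (i + 1)) → z i < z (i + 1)
  hμ : ∀ i, inn i → μ i = 0
  hα : ∀ i, 0 ≤ α i
  hα0 : α 0 = 0
  hαN : ∀ i, N ≤ i → α i = 0
  hθ : ∀ i, 0 < i → i < N → α i ≠ 0 → z (i - 1) ≤ θ i ∧ θ i ≤ z i ∧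
      (¬ inn (i - 1) → z (i - 1) < θ i) ∧ (¬ inn i → θ i < z i)
  hαu : ∀ i, α i ≠ 0 → c (i - 1) ≠ c i
  hαd : ∀ I J, I < J → α I ≠ 0 → α J ≠ 0 → θ I = θ J → c (I - 1) ≠ c J
  h1 : ∀ (C : Set V) (I J : ℕ), C ⊆ A → I ≤ J → J ≤ N → (∀ i, i < N → (c i ∈ C ↔ I ≤ i ∧ i < J)) →
      ∑ i ∈ Finset.Ico I J, μ i = α I - α J ∧ ∑ i ∈ Finset.Ico I J, μ i * z i ≤ α I * θ I - α J * θ J

variable {V : Type} {N : ℕ} {c : ℕ → V} {A : Set V} {z : ℕ → ℝ} {inn : ℕ → Prop} {μ α θ : ℕ → ℝ}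

theorem Gen.pos (g : Gen N c A z inn μ α θ) {i : ℕ} (h : α i ≠ 0) : 0 < i ∧ i < N := by
  constructor
  · rcases Nat.eq_zero_or_pos i with h0 | h0
    · rw [h0] at h; exact absurd g.hα0 h
    · exact h0
  · by_contra hcon
    exact h (g.hαN i (by omega))

theorem Gen.star (g : Gen N c A z inn μ α θ) (C : Set V) (I J : ℕ) (hC : C ⊆ A) (hIJ : I < J)
    (hJ : J ≤ N) (hidx : ∀ i, i < N → (c i ∈ C ↔ I ≤ i ∧ i < J)) :
    sg μ J + α J = sg μ I + α I ∧
    0 ≤ α I * (z I - θ I) ∧ 0 ≤ α J * (θ J - z (J - 1)) ∧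
    α I * (z I - θ I) + α J * (θ J - z (J - 1)) ≤
      ∑ i ∈ Finset.Ico (I + 1) J, (sg μ i - (sg μ I + α I)) * (z i - z (i - 1)) := by
  obtain ⟨e1, e2⟩ := g.h1 C I J hC hIJ.le hJ hidx
  rw [sum_Ico_sg μ hIJ.le] at e1
  refine ⟨by linarith, ?_, ?_, ?_⟩
  · by_cases h : α I = 0
    · rw [h]; simp
    · obtain ⟨p1, p2⟩ := g.pos h
      have := (g.hθ I p1 p2 h).2.1
      exact mul_nonneg (g.hα I) (by linarith)
  · by_cases h : α J = 0
    · rw [h]; simp
    · obtain ⟨p1, p2⟩ := g.pos h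
      have := (g.hθ J p1 p2 h).1
      exact mul_nonneg (g.hα J) (by linarith)
  · obtain ⟨d, rfl⟩ : ∃ d, J = I + 1 + d := ⟨J - (I + 1), by omega⟩
    have h0 := abel μ z I d
    have ht := tele z I d
    have hs : ∑ i ∈ Finset.Ico (I + 1) (I + 1 + d), (sg μ i - (sg μ I + α I)) * (z i - z (i - 1))
        = ∑ i ∈ Finset.Ico (I + 1) (I + 1 + d), (sg μ i - sg μ I) * (z i - z (i - 1))
          - α I * ∑ i ∈ Finset.Ico (I + 1) (I + 1 + d), (z i - z (i - 1)) := by
      rw [Finset.mul_sum, ← Finset.sum_sub_distrib]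
      apply Finset.sum_congr rfl
      intro i _
      ring
    rw [hs, ht, show I + 1 + d - 1 = I + d by omega]
    rw [h0, e1] at e2
    linarith

theorem Gen.conseq (g : Gen N c A z inn μ α θ) (C : Set V) (I J : ℕ) (hC : C ⊆ A) (hIJ : I < J)
    (hJ : J ≤ N) (hidx : ∀ i, i < N → (c i ∈ C ↔ I ≤ i ∧ i < J))
    (hle : ∀ i, I < i → i < J → sg μ i ≤ sg μ I + α I) :
    α I * (z I - θ I) = 0 ∧ α J * (θ J - z (J - 1)) = 0 ∧
    ∀ i, I < i → i < J → (sg μ i - (sg μ I + α I)) * (z i - z (i - 1)) = 0 := by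
  obtain ⟨f1, f2, f3, f4⟩ := g.star C I J hC hIJ hJ hidx
  have hnp : ∀ i ∈ Finset.Ico (I + 1) J,
      (sg μ i - (sg μ I + α I)) * (z i - z (i - 1)) ≤ 0 := by
    intro i hi
    rw [Finset.mem_Ico] at hi
    have h1 := hle i (by omega) hi.2
    have h2 : z (i - 1) ≤ z i := by
      have := g.hz (i - 1) (by omega)
      rw [show i - 1 + 1 = i by omega] at this
      exact this
    exact mul_nonpos_of_nonpos_of_nonneg (by linarith) (by linarith)
  have hs0 := Finset.sum_nonpos hnp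
  have hs : ∑ i ∈ Finset.Ico (I + 1) J, (sg μ i - (sg μ I + α I)) * (z i - z (i - 1)) = 0 := by
    linarith
  refine ⟨by linarith, by linarith, ?_⟩
  rw [Finset.sum_eq_zero_iff_of_nonpos hnp] at hs
  intro i h1 h2
  exact hs i (Finset.mem_Ico.2 ⟨h1, h2⟩)

theorem Gen.contra (g : Gen N c A z inn μ α θ)
    (M : ℝ) (hM : ∀ i, i ≤ N → sg μ i ≤ M) (a b : ℕ) (hab : a < b) (hb : b < N)
    (hc : ∀ k, a < k → k ≤ b → sg μ k = M) (ha : sg μ a < M) (hb1 : sg μ (b + 1) < M)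
    (hne : c a ≠ c b) : False := by
  have hna : ¬ inn a := by
    intro h
    have h1 := g.hμ a h
    have h2 := sg_succ μ a
    rw [hc (a + 1) (by omega) (by omega)] at h2
    linarith
  have hnb : ¬ inn b := by
    intro h
    have h1 := g.hμ b h
    have h2 := sg_succ μ b
    rw [hc b hab le_rfl] at h2
    linarith
  obtain ⟨C, I, J, hC, hIJ, hJN, hidx, hsep, -⟩ := g.hs a b (by omega) hb hne
  by_cases h : I ≤ a ∧ a < J
  · have hbn := hsep.1 h
    have hJb : J ≤ b := by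
      by_contra hcon
      exact hbn ⟨by omega, by omega⟩
    have hJM : sg μ J = M := hc J (by omega) hJb
    obtain ⟨f1, -, -, -⟩ := g.star C I J hC (by omega) hJN hidx
    have hm : M ≤ sg μ I + α I := by
      have := g.hα J
      linarith
    obtain ⟨g1, g2, g3⟩ := g.conseq C I J hC (by omega) hJN hidx
      (fun i h1 h2 => le_trans (hM i (by omega)) hm)
    rcases Nat.eq_or_lt_of_le h.1 with h1 | h1
    · subst h1
      have hpos : 0 < α I := by linarith
      obtain ⟨p1, p2⟩ := g.pos hpos.ne'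
      have := (g.hθ I p1 p2 hpos.ne').2.2.2 hna
      have h3 : 0 < α I * (z I - θ I) := mul_pos hpos (by linarith)
      linarith
    · have h3 := g3 a h1 h.2
      have h4 : z (a - 1) < z a := by
        have := g.hz' (a - 1) (by omega) (by rw [show a - 1 + 1 = a by omega]; exact Or.inr hna)
        rw [show a - 1 + 1 = a by omega] at this
        exact this
      have h5 : (sg μ a - (sg μ I + α I)) * (z a - z (a - 1)) < 0 :=
        mul_neg_of_neg_of_pos (by linarith) (by linarith)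
      linarith
  · have hbn : I ≤ b ∧ b < J := by
      by_contra hcon
      exact h (hsep.2 hcon)
    have haI : a < I := by
      by_contra hcon
      exact h ⟨by omega, by omega⟩
    have hIM : sg μ I = M := hc I haI hbn.1
    obtain ⟨f1, -, -, -⟩ := g.star C I J hC (by omega) hJN hidx
    have hm : M ≤ sg μ I + α I := by
      have := g.hα I
      linarith
    obtain ⟨g1, g2, g3⟩ := g.conseq C I J hC (by omega) hJN hidx
      (fun i h1 h2 => le_trans (hM i (by omega)) hm)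
    rcases Nat.eq_or_lt_of_le (show b + 1 ≤ J by omega) with h1 | h1
    · subst h1
      have hpos : 0 < α (b + 1) := by linarith
      obtain ⟨p1, p2⟩ := g.pos hpos.ne'
      have := (g.hθ (b + 1) p1 p2 hpos.ne').2.2.1 (by rw [show b + 1 - 1 = b by omega]; exact hnb)
      have h3 : 0 < α (b + 1) * (θ (b + 1) - z (b + 1 - 1)) := mul_pos hpos (by linarith)
      linarith
    · have h3 := g3 (b + 1) (by omega) h1
      have h4 : z b < z (b + 1) := g.hz' b (by omega) (Or.inl hnb)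
      rw [show b + 1 - 1 = b by omega] at h3
      have h5 : (sg μ (b + 1) - (sg μ I + α I)) * (z (b + 1) - z b) < 0 :=
        mul_neg_of_neg_of_pos (by linarith) (by linarith)
      linarith

theorem Gen.part3 (g : Gen N c A z inn μ α θ) (hσ : ∀ i, i ≤ N → sg μ i = 0) :
    ∀ i, α i = 0 := by
  intro i
  by_contra hi
  obtain ⟨p1, p2⟩ := g.pos hi
  have hpos : 0 < α i := lt_of_le_of_ne (g.hα i) (Ne.symm hi)
  obtain ⟨C, I, J, hC, hIJ, hJN, hidx, hsep, hlast⟩ :=
    g.hs (i - 1) i (by omega) p2 (g.hαu i hi)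
  have hcase : (J = i ∧ I < J) ∨ (I = i ∧ I < J) := by
    by_cases h : I ≤ i - 1 ∧ i - 1 < J
    · left
      have hbn := hsep.1 h
      have : ¬ (i < J) := fun h' => hbn ⟨by omega, h'⟩
      omega
    · right
      have hbn : I ≤ i ∧ i < J := by
        by_contra hcon
        exact h (hsep.2 hcon)
      have : ¬ (I ≤ i - 1) := fun h' => h ⟨h', by omega⟩
      omega
  have hlt : I < J := by rcases hcase with h | h <;> exact h.2
  obtain ⟨f1, -, -, -⟩ := g.star C I J hC hlt hJN hidx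
  rw [hσ I (by omega), hσ J hJN, zero_add, zero_add] at f1
  have hIJpos : 0 < α I ∧ 0 < α J := by
    rcases hcase with h | h
    · rw [h.1] at f1 ⊢
      exact ⟨by linarith, hpos⟩
    · rw [h.1] at f1 ⊢
      exact ⟨hpos, by linarith⟩
  obtain ⟨hI, hJ⟩ := hIJpos
  obtain ⟨q1, q2⟩ := g.pos hI.ne'
  obtain ⟨r1, r2⟩ := g.pos hJ.ne'
  obtain ⟨g1, g2, g3⟩ := g.conseq C I J hC hlt hJN hidx
    (fun k h1 h2 => by rw [hσ k (by omega), hσ I (by omega)]; linarith)
  have e1 : z I = θ I := by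
    have := (mul_eq_zero.1 g1).resolve_left hI.ne'
    linarith
  have e2 : θ J = z (J - 1) := by
    have := (mul_eq_zero.1 g2).resolve_left hJ.ne'
    linarith
  have e3 : z (J - 1) = z I := by
    obtain ⟨d, rfl⟩ : ∃ d, J = I + 1 + d := ⟨J - (I + 1), by omega⟩
    have ht := tele z I d
    rw [show I + 1 + d - 1 = I + d by omega]
    have h0 : ∑ i ∈ Finset.Ico (I + 1) (I + 1 + d), (z i - z (i - 1)) = 0 := by
      apply Finset.sum_eq_zero
      intro k hk
      rw [Finset.mem_Ico] at hk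
      have h3 := g3 k (by omega) hk.2
      rw [hσ k (by omega), hσ I (by omega)] at h3
      exact (mul_eq_zero.1 h3).resolve_left (by
        have : (0 : ℝ) - (0 + α I) < 0 := by linarith
        exact this.ne)
    linarith
  exact g.hαd I J hlt hI.ne' hJ.ne' (by rw [← e1, e2, e3]) (hlast q1 r2)

end W_FE_CERT

open W_FE_CERT in
theorem FE_CERT {V : Type} (N : ℕ) (u w : ℕ → V) (A B : Set V)
    (hsA : ∀ a b, a < N → b < N → u a ≠ u b → ∃ (C : Set V) (I J : ℕ), C ⊆ A ∧ I ≤ J ∧ J ≤ N ∧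
      (∀ i, i < N → (u i ∈ C ↔ I ≤ i ∧ i < J)) ∧ ((I ≤ a ∧ a < J) ↔ ¬ (I ≤ b ∧ b < J)) ∧
      (0 < I → J < N → u (I - 1) = u J))
    (hsB : ∀ a b, a < N → b < N → w a ≠ w b → ∃ (C : Set V) (I J : ℕ), C ⊆ B ∧ I ≤ J ∧ J ≤ N ∧
      (∀ i, i < N → (w i ∈ C ↔ I ≤ i ∧ i < J)) ∧ ((I ≤ a ∧ a < J) ↔ ¬ (I ≤ b ∧ b < J)) ∧
      (0 < I → J < N → w (I - 1) = w J))
    (hinj : ∀ i j, i < N → j < N → u i = u j → w i = w j → i = j)
    (z : ℕ → ℝ) (inn : ℕ → Prop) (hz : ∀ i, i + 1 < N → z i ≤ z (i + 1))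
    (hz' : ∀ i, i + 1 < N → (¬ inn i ∨ ¬ inn (i + 1)) → z i < z (i + 1))
    (μ : ℕ → ℝ) (hμ : ∀ i, inn i → μ i = 0)
    (α β θ : ℕ → ℝ) (hα : ∀ i, 0 ≤ α i) (hβ : ∀ i, 0 ≤ β i) (hα0 : α 0 = 0) (hβ0 : β 0 = 0)
    (hαN : ∀ i, N ≤ i → α i = 0) (hβN : ∀ i, N ≤ i → β i = 0)
    (hθ : ∀ i, 0 < i → i < N → (α i ≠ 0 ∨ β i ≠ 0) → z (i - 1) ≤ θ i ∧ θ i ≤ z i ∧
      (¬ inn (i - 1) → z (i - 1) < θ i) ∧ (¬ inn i → θ i < z i))
    (hαu : ∀ i, α i ≠ 0 → u (i - 1) ≠ u i) (hβw : ∀ i, β i ≠ 0 → w (i - 1) ≠ w i)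
    (hαd : ∀ I J, I < J → α I ≠ 0 → α J ≠ 0 → θ I = θ J → u (I - 1) ≠ u J)
    (hβd : ∀ I J, I < J → β I ≠ 0 → β J ≠ 0 → θ I = θ J → w (I - 1) ≠ w J)
    (h1 : ∀ (C : Set V) (I J : ℕ), C ⊆ A → I ≤ J → J ≤ N → (∀ i, i < N → (u i ∈ C ↔ I ≤ i ∧ i < J)) →
      ∑ i ∈ Finset.Ico I J, μ i = α I - α J ∧ ∑ i ∈ Finset.Ico I J, μ i * z i ≤ α I * θ I - α J * θ J)
    (h2 : ∀ (C : Set V) (I J : ℕ), C ⊆ B → I ≤ J → J ≤ N → (∀ i, i < N → (w i ∈ C ↔ I ≤ i ∧ i < J)) →
      ∑ i ∈ Finset.Ico I J, μ i = β I - β J ∧ ∑ i ∈ Finset.Ico I J, μ i * z i ≤ β I * θ I - β J * θ J)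
    (h5 : ∑ i ∈ Finset.range N, μ i = 0) (h6 : ∑ i ∈ Finset.range N, μ i * z i ≤ 0) :
    (∀ i, i < N → μ i = 0) ∧ (∀ i, α i = 0) ∧ (∀ i, β i = 0) := by
  have gA : Gen N u A z inn μ α θ :=
    { hs := hsA, hz := hz, hz' := hz', hμ := hμ, hα := hα, hα0 := hα0, hαN := hαN,
      hθ := fun i h1 h2 h3 => hθ i h1 h2 (Or.inl h3), hαu := hαu, hαd := hαd, h1 := h1 }
  have gB : Gen N w B z inn μ β θ :=
    { hs := hsB, hz := hz, hz' := hz', hμ := hμ, hα := hβ, hα0 := hβ0, hαN := hβN,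
      hθ := fun i h1 h2 h3 => hθ i h1 h2 (Or.inr h3), hαu := hβw, hαd := hβd, h1 := h2 }
  obtain ⟨k0, hk0, hmax⟩ := Finset.exists_max_image (Finset.range (N + 1)) (sg μ)
    ⟨0, Finset.mem_range.2 (by omega)⟩
  rw [Finset.mem_range] at hk0
  have hM : ∀ i, i ≤ N → sg μ i ≤ sg μ k0 := fun i hi => hmax i (Finset.mem_range.2 (by omega))
  have hs0 : sg μ 0 = 0 := by simp [sg]
  have hsN : sg μ N = 0 := h5
  have h0 : 0 ≤ sg μ k0 := by rw [← hs0]; exact hM 0 (by omega)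
  rcases h0.eq_or_lt with hz0 | hpos
  · have hle : ∀ i, i ≤ N → sg μ i ≤ 0 := fun i hi => by rw [hz0]; exact hM i hi
    have hσ : ∀ i, i ≤ N → sg μ i = 0 := by
      rcases Nat.eq_zero_or_pos N with hN | hN
      · intro i hi
        have : i = 0 := by omega
        rw [this]; exact hs0
      · obtain ⟨d, hd⟩ : ∃ d, N = 0 + 1 + d := ⟨N - 1, by omega⟩
        have hab := abel μ z 0 d
        rw [← hd, hsN, hs0, sub_self, zero_mul, zero_sub, ← Finset.range_eq_Ico] at hab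
        have hnp : ∀ i ∈ Finset.Ico (0 + 1) N, (sg μ i - 0) * (z i - z (i - 1)) ≤ 0 := by
          intro i hi
          rw [Finset.mem_Ico] at hi
          have e1 := hle i hi.2.le
          have e2 : z (i - 1) ≤ z i := by
            have := hz (i - 1) (by omega)
            rw [show i - 1 + 1 = i by omega] at this
            exact this
          exact mul_nonpos_of_nonpos_of_nonneg (by linarith) (by linarith)
        have hsum : ∑ i ∈ Finset.Ico (0 + 1) N, (sg μ i - 0) * (z i - z (i - 1)) = 0 := by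
          apply le_antisymm (Finset.sum_nonpos hnp)
          linarith
        rw [Finset.sum_eq_zero_iff_of_nonpos hnp] at hsum
        intro i
        induction i with
        | zero => intro _; exact hs0
        | succ i ih =>
          intro hi
          rcases Nat.eq_or_lt_of_le hi with h | h
          · rw [h]; exact hsN
          · have h3 := hsum (i + 1) (Finset.mem_Ico.2 ⟨by omega, h⟩)
            rw [show i + 1 - 1 = i by omega, sub_zero] at h3
            rcases (hz i h).eq_or_lt with h4 | h4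
            · have hinn : inn i := by
                by_contra hcon
                have := hz' i h (Or.inl hcon)
                linarith
              rw [sg_succ, ih (by omega), hμ i hinn, add_zero]
            · exact (mul_eq_zero.1 h3).resolve_right (by
                have : 0 < z (i + 1) - z i := by linarith
                exact this.ne')
    refine ⟨?_, gA.part3 hσ, gB.part3 hσ⟩
    intro i hi
    have e := sg_succ μ i
    rw [hσ i (by omega), hσ (i + 1) (by omega)] at e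
    linarith
  · exfalso
    classical
    have hk00 : k0 ≠ 0 := by
      intro h
      rw [h, hs0] at hpos
      exact lt_irrefl _ hpos
    have hk0N : k0 < N := by
      rcases Nat.lt_or_ge k0 N with h | h
      · exact h
      · have : k0 = N := by omega
        rw [this, hsN] at hpos
        exact absurd hpos (lt_irrefl _)
    -- the index a
    obtain ⟨a, ha1, ha2, ha3⟩ : ∃ a, a < k0 ∧ sg μ a < sg μ k0 ∧
        ∀ k, a < k → k ≤ k0 → sg μ k = sg μ k0 := by
      have hP0 : sg μ 0 < sg μ k0 := by rw [hs0]; exact hpos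
      have hsp := Nat.findGreatest_spec (P := fun k => sg μ k < sg μ k0) (Nat.zero_le k0) hP0
      refine ⟨Nat.findGreatest (fun k => sg μ k < sg μ k0) k0, ?_, hsp, ?_⟩
      · refine lt_of_le_of_ne (Nat.findGreatest_le _) ?_
        intro h
        rw [h] at hsp
        exact lt_irrefl _ hsp
      · intro k hk1 hk2
        have := Nat.findGreatest_is_greatest hk1 hk2
        exact le_antisymm (hM k (by omega)) (not_lt.1 this)
    -- the index b
    obtain ⟨b, hb1, hb2, hb3, hb4⟩ : ∃ b, k0 ≤ b ∧ b < N ∧ sg μ (b + 1) < sg μ k0 ∧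
        ∀ k, k0 ≤ k → k ≤ b → sg μ k = sg μ k0 := by
      have hex : ∃ k, k0 < k ∧ k ≤ N ∧ sg μ k < sg μ k0 :=
        ⟨N, hk0N, le_rfl, by rw [hsN]; exact hpos⟩
      obtain ⟨f1, f2, f3⟩ := Nat.find_spec hex
      refine ⟨Nat.find hex - 1, by omega, by omega, ?_, ?_⟩
      · rw [show Nat.find hex - 1 + 1 = Nat.find hex by omega]
        exact f3
      · intro k hk1 hk2
        rcases Nat.eq_or_lt_of_le hk1 with h | h
        · rw [h]
        · have := Nat.find_min hex (show k < Nat.find hex by omega)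
          have h' : ¬ sg μ k < sg μ k0 := fun hh => this ⟨h, by omega, hh⟩
          exact le_antisymm (hM k (by omega)) (not_lt.1 h')
    have hc : ∀ k, a < k → k ≤ b → sg μ k = sg μ k0 := by
      intro k hk1 hk2
      rcases le_total k k0 with h | h
      · exact ha3 k hk1 h
      · exact hb4 k h hk2
    have hne : u a ≠ u b ∨ w a ≠ w b := by
      by_contra hcon
      push Not at hcon
      have := hinj a b (by omega) hb2 hcon.1 hcon.2
      omega
    rcases hne with hne | hne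
    · exact gA.contra _ hM a b (by omega) hb2 hc ha2 hb3 hne
    · exact gB.contra _ hM a b (by omega) hb2 hc ha2 hb3 hne


end Pool.Agent.H891WLC
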