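import Pool.Agent.H891FSS.Defs
import Pool.Agent.H891FSS.DefsE

set_option autoImplicit false

namespace Pool.Agent.H891WLC

namespace W_FE_GEOM


open Classical in
/-- the sign of a vertex -/
noncomputable def sg {V : Type} (A : Set V) (v : V) : ℝ := if v ∈ A then 1 else -1

/-- the position of a vertex -/
noncomputable def ps {V : Type} (X Y : V → ℝ) (A : Set V) (v : V) : ℝ × ℝ := (X v / Y v, sg A v / Y v)

theorem sg_mem {V : Type} {A : Set V} {v : V} (h : v ∈ A) : sg A v = 1 := by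
  unfold sg; rw [if_pos h]

theorem sg_not {V : Type} {A : Set V} {v : V} (h : v ∉ A) : sg A v = -1 := by
  unfold sg; rw [if_neg h]

theorem crs_rot (a b c : ℝ × ℝ) : crs a b c = crs b c a := by
  unfold crs; ring

theorem crs_ps {V : Type} (X Y : V → ℝ) (A : Set V) (hY : ∀ v, 0 < Y v) (a b c : V) :
    crs (ps X Y A a) (ps X Y A b) (ps X Y A c) =
      (Y a * (X b * sg A c - X c * sg A b) - X a * (Y b * sg A c - Y c * sg A b) +
        sg A a * (Y b * X c - Y c * X b)) / (Y a * Y b * Y c) := by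
  have ha := (hY a).ne'
  have hb := (hY b).ne'
  have hc := (hY c).ne'
  unfold crs ps
  simp only
  field_simp
  ring

theorem crs_q {V : Type} (X Y : V → ℝ) (A : Set V) (hY : ∀ v, 0 < Y v) (t : ℝ) (a b : V) :
    crs (t, 0) (ps X Y A a) (ps X Y A b) =
      (X a * sg A b - X b * sg A a - t * (Y a * sg A b - Y b * sg A a)) / (Y a * Y b) := by
  have ha := (hY a).ne'
  have hb := (hY b).ne'
  unfold crs ps
  simp only
  field_simp
  ring

theorem crs_face {V : Type} (X Y : V → ℝ) (A : Set V) (hY : ∀ v, 0 < Y v) (u w x : V)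
    (hu : u ∈ A) (hw : w ∉ A) (z z' : ℝ) (h1 : X u + X w = z * (Y u + Y w))
    (h2 : (x ∉ A ∧ X u + X x = z' * (Y u + Y x)) ∨ (x ∈ A ∧ X x + X w = z' * (Y x + Y w))) :
    ∃ C : ℝ, 0 < C ∧ crs (ps X Y A u) (ps X Y A w) (ps X Y A x) = (z' - z) * C := by
  have ha := hY u
  have hb := hY w
  have hc := hY x
  rcases h2 with ⟨hx, h2⟩ | ⟨hx, h2⟩
  · refine ⟨(Y u + Y w) * (Y u + Y x) / (Y u * Y w * Y x), by positivity, ?_⟩
    rw [crs_ps X Y A hY, sg_mem hu, sg_not hw, sg_not hx, mul_div_assoc']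
    congr 1
    linear_combination (Y u + Y w) * h2 - (Y u + Y x) * h1
  · refine ⟨(Y u + Y w) * (Y x + Y w) / (Y u * Y w * Y x), by positivity, ?_⟩
    rw [crs_ps X Y A hY, sg_mem hu, sg_not hw, sg_mem hx, mul_div_assoc']
    congr 1
    linear_combination (Y u + Y w) * h2 - (Y x + Y w) * h1

theorem face_rot {V : Type} (T : Tri V) (A : Set V)
    (hm : ∀ a b c, T.F a b c → ¬ (a ∈ A ∧ b ∈ A ∧ c ∈ A) ∧ ¬ (a ∉ A ∧ b ∉ A ∧ c ∉ A))
    (N : ℕ) (e : ℕ → V × V) (he : CycE T A N e) (a b c : V) (hF : T.F a b c) :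
    ∃ u w x, T.F u w x ∧ IsRot u w x a b c ∧ u ∈ A ∧ w ∉ A ∧ ∃ i, i < N ∧ e i = (u, w) := by
  have key : ∃ u w x, T.F u w x ∧ IsRot u w x a b c ∧ u ∈ A ∧ w ∉ A := by
    obtain ⟨m1, m2⟩ := hm a b c hF
    have hF1 := T.rot _ _ _ hF
    have hF2 := T.rot _ _ _ hF1
    by_cases ha : a ∈ A
    · by_cases hb : b ∈ A
      · have hc : c ∉ A := fun hc => m1 ⟨ha, hb, hc⟩
        exact ⟨b, c, a, hF1, Or.inr (Or.inr ⟨rfl, rfl, rfl⟩), hb, hc⟩
      · exact ⟨a, b, c, hF, Or.inl ⟨rfl, rfl, rfl⟩, ha, hb⟩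
    · by_cases hc : c ∈ A
      · exact ⟨c, a, b, hF2, Or.inr (Or.inl ⟨rfl, rfl, rfl⟩), hc, ha⟩
      · by_cases hb : b ∈ A
        · exact ⟨b, c, a, hF1, Or.inr (Or.inr ⟨rfl, rfl, rfl⟩), hb, hc⟩
        · exact absurd ⟨ha, hb, hc⟩ m2
  obtain ⟨u, w, x, h1, h2, h3, h4⟩ := key
  refine ⟨u, w, x, h1, h2, h3, h4, ?_⟩
  exact he.surj (u, w) h3 h4 ⟨x, h1⟩

theorem crs_isRot {V : Type} (p : V → ℝ × ℝ) (u w x a b c : V) (h : IsRot u w x a b c) :
    crs (p a) (p b) (p c) = crs (p u) (p w) (p x) := by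
  rcases h with ⟨rfl, rfl, rfl⟩ | ⟨rfl, rfl, rfl⟩ | ⟨rfl, rfl, rfl⟩
  · rfl
  · rw [crs_rot (p c) (p a) (p b)]
  · rw [crs_rot (p a) (p b) (p c)]

theorem isRot_symm {V : Type} {u w x a b c : V} (h : IsRot u w x a b c) : IsRot a b c u w x := by
  rcases h with ⟨rfl, rfl, rfl⟩ | ⟨rfl, rfl, rfl⟩ | ⟨rfl, rfl, rfl⟩
  · exact Or.inl ⟨rfl, rfl, rfl⟩
  · exact Or.inr (Or.inr ⟨rfl, rfl, rfl⟩)
  · exact Or.inr (Or.inl ⟨rfl, rfl, rfl⟩)

theorem isRot_trans {V : Type} {u w x a b c d e f : V} (h : IsRot u w x a b c)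
    (h' : IsRot a b c d e f) : IsRot u w x d e f := by
  rcases h with ⟨rfl, rfl, rfl⟩ | ⟨rfl, rfl, rfl⟩ | ⟨rfl, rfl, rfl⟩ <;>
  rcases h' with ⟨rfl, rfl, rfl⟩ | ⟨rfl, rfl, rfl⟩ | ⟨rfl, rfl, rfl⟩
  · exact Or.inl ⟨rfl, rfl, rfl⟩
  · exact Or.inr (Or.inl ⟨rfl, rfl, rfl⟩)
  · exact Or.inr (Or.inr ⟨rfl, rfl, rfl⟩)
  · exact Or.inr (Or.inl ⟨rfl, rfl, rfl⟩)
  · exact Or.inr (Or.inr ⟨rfl, rfl, rfl⟩)
  · exact Or.inl ⟨rfl, rfl, rfl⟩
  · exact Or.inr (Or.inr ⟨rfl, rfl, rfl⟩)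
  · exact Or.inl ⟨rfl, rfl, rfl⟩
  · exact Or.inr (Or.inl ⟨rfl, rfl, rfl⟩)

theorem isRot_F {V : Type} (T : Tri V) {u w x a b c : V} (h : IsRot u w x a b c) (hF : T.F u w x) :
    T.F a b c := by
  rcases h with ⟨rfl, rfl, rfl⟩ | ⟨rfl, rfl, rfl⟩ | ⟨rfl, rfl, rfl⟩
  · exact hF
  · exact T.rot _ _ _ hF
  · exact T.rot _ _ _ (T.rot _ _ _ hF)

/-- two rotations of a face with first vertex in `A`, second not in `A` agree -/
theorem isRot_eq {V : Type} (A : Set V) {u w x a b c : V} (h : IsRot u w x a b c)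
    (hu : u ∈ A) (hw : w ∉ A) (ha : a ∈ A) (hb : b ∉ A) : a = u ∧ b = w ∧ c = x := by
  rcases h with ⟨rfl, rfl, rfl⟩ | ⟨rfl, rfl, rfl⟩ | ⟨rfl, rfl, rfl⟩
  · exact ⟨rfl, rfl, rfl⟩
  · exact absurd ha hw
  · exact absurd hu hb


/-- the next index is a step of the fan -/
theorem step_first {V : Type} (T : Tri V) (A : Set V) {c x y : V} (h : Nxt T A (c, x) (c, y)) :
    T.F c x y := by
  rcases h with ⟨h1, h2, h3⟩ | ⟨h1, h2, h3⟩
  · exact h1
  · exact absurd rfl (T.ne _ _ _ (T.rot _ _ _ (T.rot _ _ _ h1)))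

theorem step_second {V : Type} (T : Tri V) (A : Set V) {c x y : V} (h : Nxt T A (y, c) (x, c)) :
    T.F y c x := by
  rcases h with ⟨h1, h2, h3⟩ | ⟨h1, h2, h3⟩
  · exact absurd rfl (T.ne _ _ _ (T.rot _ _ _ h1))
  · exact h1

/-- a step inside a block is a fan face -/
theorem block_fan {V : Type} (T : Tri V) (A : Set V) (N : ℕ) (e : ℕ → V × V) (he : CycE T A N e)
    (k m : ℕ) (c : V) (a : ℕ → V)
    (ha : (∀ i, i ≤ m → e (k + i) = (c, a i)) ∨ (∀ i, i ≤ m → e (k + (m - i)) = (a i, c)))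
    (i : ℕ) (h1 : k ≤ i) (h2 : i < k + m) (u w x : V) (hF : T.F u w x) (hei : e i = (u, w)) :
    ∃ j, j < m ∧ IsRot c (a j) (a (j + 1)) u w x := by
  have hnx := he.nxt i
  rcases ha with ha | ha
  · refine ⟨i - k, by omega, ?_⟩
    have e1 := ha (i - k) (by omega)
    have e2 := ha (i - k + 1) (by omega)
    rw [show k + (i - k) = i by omega] at e1
    rw [show k + (i - k + 1) = i + 1 by omega] at e2
    rw [e1, e2] at hnx
    have hf := step_first T A hnx
    rw [hei] at e1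
    obtain ⟨e3, e4⟩ := Prod.mk.inj e1
    subst e3
    subst e4
    exact Or.inl ⟨rfl, rfl, T.uniq _ _ _ _ hF hf⟩
  · refine ⟨m - 1 - (i - k), by omega, ?_⟩
    have e1 := ha (m - 1 - (i - k) + 1) (by omega)
    have e2 := ha (m - 1 - (i - k)) (by omega)
    rw [show k + (m - (m - 1 - (i - k) + 1)) = i by omega] at e1
    rw [show k + (m - (m - 1 - (i - k))) = i + 1 by omega] at e2
    rw [e1, e2] at hnx
    have hf := step_second T A hnx
    rw [hei] at e1
    obtain ⟨e3, e4⟩ := Prod.mk.inj e1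
    refine Or.inr (Or.inr ⟨e3, e4, ?_⟩)
    rw [e3, e4] at hF
    exact T.uniq _ _ _ _ hF hf

/-- a fan face belongs to an index of the block -/
theorem fan_idx {V : Type} (T : Tri V) (A : Set V) (N : ℕ) (e : ℕ → V × V) (he : CycE T A N e)
    (k m : ℕ) (c : V) (a : ℕ → V)
    (ha : (∀ i, i ≤ m → e (k + i) = (c, a i)) ∨ (∀ i, i ≤ m → e (k + (m - i)) = (a i, c)))
    (j : ℕ) (hj : j < m) :
    ∃ i u w x, k ≤ i ∧ i < k + m ∧ e i = (u, w) ∧ IsRot c (a j) (a (j + 1)) u w x := by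
  rcases ha with ha | ha
  · exact ⟨k + j, c, a j, a (j + 1), by omega, by omega, ha j (by omega), Or.inl ⟨rfl, rfl, rfl⟩⟩
  · exact ⟨k + (m - (j + 1)), a (j + 1), c, a j, by omega, by omega, ha (j + 1) (by omega),
      Or.inr (Or.inr ⟨rfl, rfl, rfl⟩)⟩


end W_FE_GEOM

open W_FE_GEOM in
theorem FE_GEOM {V S : Type} [Fintype V] [Fintype S] (T : Tri V) (A : Set V)
    (hm : ∀ a b c, T.F a b c → ¬ (a ∈ A ∧ b ∈ A ∧ c ∈ A) ∧ ¬ (a ∉ A ∧ b ∉ A ∧ c ∉ A))
    (N : ℕ) (e : ℕ → V × V) (he : CycE T A N e) (hN : 2 ≤ N) (z : ℕ → ℝ) (hz : StrictMono z)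
    (X Y : V → ℝ) (hY : ∀ v, 0 < Y v) (k m : S → ℕ) (t : S → ℝ) (hk : ∀ s, k s + m s < N) (hm1 : ∀ s, 1 ≤ m s)
    (c : S → V) (a : S → ℕ → V)
    (ha : ∀ s, (∀ i, i ≤ m s → e (k s + i) = (c s, a s i)) ∨ (∀ i, i ≤ m s → e (k s + (m s - i)) = (a s i, c s)))
    (hE : ∀ i, i < N → (∀ s, ¬ (k s < i ∧ i < k s + m s)) →
        X (e i).1 + X (e i).2 = z i * (Y (e i).1 + Y (e i).2))
    (hI2 : ∀ s i, i < m s → (e (k s + i)).1 = (e (k s + i + 1)).1 →
        X (e (k s + i)).2 - t s * Y (e (k s + i)).2 < X (e (k s + i + 1)).2 - t s * Y (e (k s + i + 1)).2)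
    (hI1 : ∀ s i, i < m s → (e (k s + i)).2 = (e (k s + i + 1)).2 →
        X (e (k s + i)).1 - t s * Y (e (k s + i)).1 < X (e (k s + i + 1)).1 - t s * Y (e (k s + i + 1)).1)
    (hd : ∀ s r, s ≠ r → k s + m s ≤ k r ∨ k r + m r ≤ k s)
    (ht : ∀ s, z (k s) < t s ∧ t s < z (k s + m s)) (T' : Tri (V ⊕ S)) (hT' : IsFan T c m a T') :
    ∃ (o₁ o₂ o₃ : V ⊕ S) (p : V ⊕ S → ℝ × ℝ), Drawn T' o₁ o₂ o₃ p ∧ ∀ s, p (Sum.inr s) = (t s, 0) := by
  -- block ends are not interior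
  have hni0 : ∀ s r, ¬ (k r < k s ∧ k s < k r + m r) := by
    intro s r h
    by_cases hsr : s = r
    · subst hsr; omega
    · rcases hd s r hsr with h1 | h1 <;> omega
  have hni1 : ∀ s r, ¬ (k r < k s + m s ∧ k s + m s < k r + m r) := by
    intro s r h
    by_cases hsr : s = r
    · subst hsr; omega
    · rcases hd s r hsr with h1 | h1 <;> omega
  -- the new faces
  have hst : ∀ s x y, ((∃ i, i < m s ∧ x = a s i ∧ y = a s (i + 1)) ∨ (x = c s ∧ y = a s 0) ∨
      (x = a s (m s) ∧ y = c s)) → 0 < crs (t s, 0) (ps X Y A x) (ps X Y A y) := by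
    intro s x y h
    have hks := hk s
    have hx := hY x
    have hy := hY y
    have hE0 := hE (k s) (by omega) (hni0 s)
    have hE1 := hE (k s + m s) (by omega) (hni1 s)
    obtain ⟨ht0, ht1⟩ := ht s
    rw [crs_q X Y A hY]
    apply div_pos _ (by positivity)
    rcases ha s with ha | ha
    · rcases h with ⟨i, hi, rfl, rfl⟩ | ⟨rfl, rfl⟩ | ⟨rfl, rfl⟩
      · have e1 := ha i (by omega)
        have e2 := ha (i + 1) (by omega)
        rw [show k s + (i + 1) = k s + i + 1 by omega] at e2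
        have m1 := (he.mem (k s + i)).2.1
        have m2 := (he.mem (k s + i + 1)).2.1
        have g := hI2 s i hi (by rw [e1, e2])
        rw [e1] at m1 g
        rw [e2] at m2 g
        simp only at m1 m2 g
        rw [sg_not m1, sg_not m2]
        nlinarith
      · have e1 := ha 0 (by omega)
        rw [Nat.add_zero] at e1
        have m1 := (he.mem (k s)).1
        have m2 := (he.mem (k s)).2.1
        rw [e1] at m1 m2 hE0
        simp only at m1 m2 hE0
        rw [sg_mem m1, sg_not m2]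
        have : 0 < (t s - z (k s)) * (Y (c s) + Y (a s 0)) := mul_pos (by linarith) (by linarith)
        nlinarith
      · have e1 := ha (m s) (by omega)
        have m1 := (he.mem (k s + m s)).1
        have m2 := (he.mem (k s + m s)).2.1
        rw [e1] at m1 m2 hE1
        simp only at m1 m2 hE1
        rw [sg_mem m1, sg_not m2]
        have : 0 < (z (k s + m s) - t s) * (Y (c s) + Y (a s (m s))) :=
          mul_pos (by linarith) (by linarith)
        nlinarith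
    · rcases h with ⟨i, hi, rfl, rfl⟩ | ⟨rfl, rfl⟩ | ⟨rfl, rfl⟩
      · have e1 := ha (i + 1) (by omega)
        have e2 := ha i (by omega)
        rw [show k s + (m s - i) = k s + (m s - (i + 1)) + 1 by omega] at e2
        have m1 := (he.mem (k s + (m s - (i + 1)))).1
        have m2 := (he.mem (k s + (m s - (i + 1)) + 1)).1
        have g := hI1 s (m s - (i + 1)) (by omega) (by rw [e1, e2])
        rw [e1] at m1 g
        rw [e2] at m2 g
        simp only at m1 m2 g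
        rw [sg_mem m1, sg_mem m2]
        nlinarith
      · have e1 := ha 0 (by omega)
        rw [Nat.sub_zero] at e1
        have m1 := (he.mem (k s + m s)).1
        have m2 := (he.mem (k s + m s)).2.1
        rw [e1] at m1 m2 hE1
        simp only at m1 m2 hE1
        rw [sg_mem m1, sg_not m2]
        have : 0 < (z (k s + m s) - t s) * (Y (c s) + Y (a s 0)) :=
          mul_pos (by linarith) (by linarith)
        nlinarith
      · have e1 := ha (m s) (by omega)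
        rw [Nat.sub_self, Nat.add_zero] at e1
        have m1 := (he.mem (k s)).1
        have m2 := (he.mem (k s)).2.1
        rw [e1] at m1 m2 hE0
        simp only at m1 m2 hE0
        rw [sg_mem m1, sg_not m2]
        have : 0 < (t s - z (k s)) * (Y (c s) + Y (a s (m s))) := mul_pos (by linarith) (by linarith)
        nlinarith
  -- the outer face
  obtain ⟨hA0, hB0, hadj⟩ := he.mem (N - 1)
  obtain ⟨o, ho⟩ := hadj
  -- consecutive equations
  have hstep : ∀ (i j : ℕ) (zi zj : ℝ) (u w x : V), T.F u w x → e i = (u, w) → e (i + 1) = e j →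
      X (e i).1 + X (e i).2 = zi * (Y (e i).1 + Y (e i).2) →
      X (e j).1 + X (e j).2 = zj * (Y (e j).1 + Y (e j).2) →
      ∃ C : ℝ, 0 < C ∧ crs (ps X Y A u) (ps X Y A w) (ps X Y A x) = (zj - zi) * C := by
    intro i j zi zj u w x hF hei hij h1 h2
    obtain ⟨hu, hw, _⟩ := he.mem i
    rw [hei] at hu hw h1
    simp only at hu hw h1
    rw [← hij] at h2
    refine crs_face X Y A hY u w x hu hw zi zj h1 ?_
    have h3 := he.nxt i
    rw [hei] at h3
    rcases h3 with ⟨a', b', c'⟩ | ⟨a', b', c'⟩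
    · left
      simp only at a' b' c'
      have hx : x = (e (i+1)).2 := T.uniq u w _ _ hF a'
      rw [← hx] at c' h2
      rw [b'] at h2
      exact ⟨c', h2⟩
    · right
      simp only at a' b' c'
      have hx : x = (e (i+1)).1 := T.uniq u w _ _ hF a'
      rw [← hx] at c' h2
      rw [b'] at h2
      exact ⟨c', h2⟩
  have hin : ∀ x y w, T.F x y w → (∀ s i, i < m s → ¬ IsRot (c s) (a s i) (a s (i + 1)) x y w) →
      ¬ IsRot (e (N - 1)).1 (e (N - 1)).2 o x y w →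
      0 < crs (ps X Y A x) (ps X Y A y) (ps X Y A w) := by
    intro a' b' c' hF hfan hn
    obtain ⟨u, w, x, h1, h2, hu, hw, i, hi, hei⟩ := face_rot T A hm N e he a' b' c' hF
    rw [crs_isRot (ps X Y A) u w x a' b' c' h2]
    have hi1 : i + 1 < N := by
      by_contra h
      have hiN : i = N - 1 := by omega
      apply hn
      rw [hiN] at hei
      have e1 : (e (N - 1)).1 = u := by rw [hei]
      have e2 : (e (N - 1)).2 = w := by rw [hei]
      rw [e1, e2] at ho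
      have e3 : o = x := T.uniq _ _ _ _ ho h1
      rw [e1, e2, e3]
      exact h2
    have hnb : ∀ s, ¬ (k s ≤ i ∧ i < k s + m s) := by
      rintro s ⟨g1, g2⟩
      obtain ⟨j, hj, hr⟩ := block_fan T A N e he (k s) (m s) (c s) (a s) (ha s) i g1 g2 u w x h1 hei
      exact hfan s j hj (isRot_trans hr h2)
    have hEi := hE i hi (fun s hs => hnb s ⟨hs.1.le, hs.2⟩)
    have hEi1 := hE (i + 1) hi1 (fun s hs => hnb s ⟨by omega, by omega⟩)
    obtain ⟨C, hC, hCe⟩ := hstep i (i + 1) (z i) (z (i + 1)) u w x h1 hei rfl hEi hEi1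
    rw [hCe]
    apply mul_pos _ hC
    have := hz (Nat.lt_succ_self i)
    simpa using this
  have hout : crs (ps X Y A (e (N - 1)).1) (ps X Y A (e (N - 1)).2) (ps X Y A o) < 0 := by
    have hE1 := hE (N - 1) (by omega) (fun s hs => by have := hk s; omega)
    have hE0 := hE 0 (by omega) (fun s hs => by omega)
    have hper : e (N - 1 + 1) = e 0 := by
      have h3 : N - 1 + 1 = 0 + N := by omega
      rw [h3]; exact he.per 0
    obtain ⟨C, hC, hCe⟩ := hstep (N - 1) 0 (z (N - 1)) (z 0) _ _ o ho rfl hper hE1 hE0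
    rw [hCe]
    have : z 0 < z (N - 1) := hz (by omega)
    nlinarith
  let p : V ⊕ S → ℝ × ℝ := Sum.elim (ps X Y A) (fun s => (t s, 0))
  refine ⟨Sum.inl (e (N - 1)).1, Sum.inl (e (N - 1)).2, Sum.inl o, p, ⟨?_, hout, ?_⟩, fun s => rfl⟩
  · rw [hT'.1]
    refine ⟨ho, ?_⟩
    intro s j hj hs
    obtain ⟨i, u, w, x, g1, g2, hei, hr⟩ := fan_idx T A N e he (k s) (m s) (c s) (a s) (ha s) j hj
    have h3 : IsRot u w x (e (N - 1)).1 (e (N - 1)).2 o := isRot_trans (isRot_symm hr) hs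
    obtain ⟨hu, hw, _⟩ := he.mem i
    rw [hei] at hu hw
    obtain ⟨q1, q2, q3⟩ := isRot_eq A h3 hu hw hA0 hB0
    have hks := hk s
    have : e i = e (N - 1) := by
      rw [hei]; exact Prod.ext q1.symm q2.symm
    have := he.inj i (N - 1) (by omega) (by omega) this
    omega
  · intro a' b' c' hF hn
    have hrot : T'.F b' c' a' := T'.rot _ _ _ hF
    have hrot2 : T'.F c' a' b' := T'.rot _ _ _ hrot
    rcases a' with a' | a' <;> rcases b' with b' | b' <;> rcases c' with c' | c'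
    · -- all inl
      have h1 := (hT'.1 a' b' c').1 hF
      refine hin a' b' c' h1.1 h1.2 ?_
      intro h
      apply hn
      rcases h with ⟨g1, g2, g3⟩ | ⟨g1, g2, g3⟩ | ⟨g1, g2, g3⟩
      · exact Or.inl ⟨by rw [g1], by rw [g2], by rw [g3]⟩
      · exact Or.inr (Or.inl ⟨by rw [g1], by rw [g2], by rw [g3]⟩)
      · exact Or.inr (Or.inr ⟨by rw [g1], by rw [g2], by rw [g3]⟩)
    · -- inl inl inr
      have := hst c' a' b' ((hT'.2.1 c' a' b').1 hrot2)
      rw [← crs_rot (p (Sum.inr c')) (p (Sum.inl a')) (p (Sum.inl b'))]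
      exact this
    · -- inl inr inl
      have := hst b' c' a' ((hT'.2.1 b' c' a').1 hrot)
      rw [crs_rot (p (Sum.inl a')) (p (Sum.inr b')) (p (Sum.inl c'))]
      exact this
    · exact absurd hrot (hT'.2.2 b' c' _)
    · -- inr inl inl
      exact hst a' b' c' ((hT'.2.1 a' b' c').1 hF)
    · exact absurd hrot2 (hT'.2.2 c' a' _)
    · exact absurd hF (hT'.2.2 a' b' _)
    · exact absurd hF (hT'.2.2 a' b' _)



end Pool.Agent.H891WLC
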