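import Pool.Agent.H891FSS.Defs
import Pool.Agent.H891FSS.DefsE
import Pool.Agent.H891FSS.FS_BRIDGE

set_option autoImplicit false

namespace Pool.Agent.H891WLC

namespace W_FE_SEP

theorem pure0 (c : ℕ → Prop) (N : ℕ) (h0 : c 0) (hN : c N) (hb : ∃ b, b < N ∧ ¬ c b)
    (hd : ∀ i j, i < N → j < N → c i → ¬ c (i + 1) → c j → ¬ c (j + 1) → i = j) :
    ∃ I J : ℕ, I ≤ J ∧ J ≤ N ∧ ∀ i, i < N → (¬ c i ↔ I ≤ i ∧ i < J) := by
  classical
  obtain ⟨b, hbN, hb⟩ := hb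
  have hex : ∃ i, ¬ c i := ⟨b, hb⟩
  have hI1 := Nat.find_spec hex
  have hI2 : ∀ i, i < Nat.find hex → c i := fun i hi => not_not.1 (Nat.find_min hex hi)
  have hIb : Nat.find hex ≤ b := Nat.find_min' hex hb
  generalize Nat.find hex = I at hI1 hI2 hIb
  have hIpos : 0 < I := by
    rcases Nat.eq_zero_or_pos I with h | h
    · subst h; exact absurd h0 hI1
    · exact h
  have hex2 : ∃ i, I ≤ i ∧ c i := ⟨N, by omega, hN⟩
  have hJ1 := Nat.find_spec hex2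
  have hJ2 : ∀ i, i < Nat.find hex2 → I ≤ i → ¬ c i := fun i hi hIi hc =>
    Nat.find_min hex2 hi ⟨hIi, hc⟩
  have hJN : Nat.find hex2 ≤ N := Nat.find_min' hex2 ⟨by omega, hN⟩
  generalize Nat.find hex2 = J at hJ1 hJ2 hJN
  refine ⟨I, J, hJ1.1, hJN, fun i hi => ⟨fun hc => ?_, fun h => hJ2 i h.2 h.1⟩⟩
  have hIi : I ≤ i := by
    by_contra h
    exact hc (hI2 i (by omega))
  refine ⟨hIi, ?_⟩
  by_contra hJi
  -- there is a down change in [J, i)
  have key : ∀ d, J + d ≤ i → c (J + d) := by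
    intro d
    induction d with
    | zero => intro _; exact hJ1.2
    | succ d ih =>
      intro hd'
      by_contra hcon
      have h1 := ih (by omega)
      have h2 := hd (J + d) (I - 1) (by omega) (by omega) h1 hcon (hI2 _ (by omega))
        (by rw [Nat.sub_add_cancel (by omega)]; exact hI1)
      have := hJ1.1
      omega
  have := key (i - J) (by omega)
  rw [Nat.add_sub_cancel' (by omega)] at this
  exact hc this

theorem core {V : Type} (G : SimpleGraph V) (A : Set V)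
    (hbr : ∀ x ∈ A, ∀ y ∈ A, x ≠ y → ∃ C : Set V, C ⊆ A ∧ x ∈ C ∧ y ∉ C ∧ ∃ p ∈ C, ∃ q ∈ A, q ∉ C ∧
      ∀ s ∈ C, ∀ t ∈ A, t ∉ C → G.Adj s t → s = p ∧ t = q)
    (N : ℕ) (hN : 0 < N) (u : ℕ → V) (hu : ∀ i, u i ∈ A) (hper : ∀ i, u (i + N) = u i)
    (hst : ∀ i, u i ≠ u (i + 1) → G.Adj (u i) (u (i + 1)))
    (hun : ∀ i j, i < N → j < N → u i ≠ u (i + 1) → u i = u j → u (i + 1) = u (j + 1) → i = j) :
    ∀ a b, a < N → b < N → u a ≠ u b → ∃ (C : Set V) (I J : ℕ), C ⊆ A ∧ I ≤ J ∧ J ≤ N ∧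
      (∀ i, i < N → (u i ∈ C ↔ I ≤ i ∧ i < J)) ∧ ((I ≤ a ∧ a < J) ↔ ¬ (I ≤ b ∧ b < J)) ∧
      (0 < I → J < N → u (I - 1) = u J) := by
  intro a b ha hb hab
  obtain ⟨C, hCA, haC, hbC, p, hp, q, hqA, hq, hpq⟩ := hbr (u a) (hu a) (u b) (hu b) hab
  have hdown : ∀ i j, i < N → j < N → u i ∈ C → ¬ u (i + 1) ∈ C → u j ∈ C → ¬ u (j + 1) ∈ C →
      i = j := by
    intro i j hi hj h1 h2 h3 h4
    have n1 : u i ≠ u (i + 1) := fun h => h2 (h ▸ h1)
    have n2 : u j ≠ u (j + 1) := fun h => h4 (h ▸ h3)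
    obtain ⟨e1, e2⟩ := hpq _ h1 _ (hu _) h2 (hst i n1)
    obtain ⟨e3, e4⟩ := hpq _ h3 _ (hu _) h4 (hst j n2)
    exact hun i j hi hj n1 (e1.trans e3.symm) (e2.trans e4.symm)
  have hup : ∀ i j, i < N → j < N → ¬ u i ∈ C → u (i + 1) ∈ C → ¬ u j ∈ C → u (j + 1) ∈ C →
      i = j := by
    intro i j hi hj h1 h2 h3 h4
    have n1 : u i ≠ u (i + 1) := fun h => h1 (h ▸ h2)
    have n2 : u j ≠ u (j + 1) := fun h => h3 (h ▸ h4)
    obtain ⟨e1, e2⟩ := hpq _ h2 _ (hu _) h1 (hst i n1).symm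
    obtain ⟨e3, e4⟩ := hpq _ h4 _ (hu _) h3 (hst j n2).symm
    exact hun i j hi hj n1 (e2.trans e4.symm) (e1.trans e3.symm)
  have h0N : u N = u 0 := by simpa using hper 0
  by_cases h0 : u 0 ∈ C
  · obtain ⟨I, J, hIJ, hJN, h⟩ := pure0 (fun i => u i ∈ C) N h0 (by show u N ∈ C; rw [h0N]; exact h0)
      ⟨b, hb, hbC⟩ hdown
    have hab' : (I ≤ a ∧ a < J) ↔ ¬ (I ≤ b ∧ b < J) := by
      rw [← h a ha, ← h b hb]
      tauto
    refine ⟨A \ C, I, J, Set.sdiff_subset, hIJ, hJN, fun i hi => ?_, hab', ?_⟩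
    · rw [← h i hi]
      exact ⟨fun hh => hh.2, fun hh => ⟨hu i, hh⟩⟩
    · intro hI0 hJ0
      have hlt : I < J := by
        by_contra hcon
        have e1 : ¬ (I ≤ a ∧ a < J) := by omega
        have e2 : ¬ (I ≤ b ∧ b < J) := by omega
        exact e1 (hab'.2 e2)
      have m1 : u (I - 1) ∈ C := by
        by_contra hcon
        have := (h (I - 1) (by omega)).1 hcon
        omega
      have m2 : ¬ u (I - 1 + 1) ∈ C := by
        rw [Nat.sub_add_cancel (by omega)]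
        exact (h I (by omega)).2 ⟨le_rfl, hlt⟩
      have m3 : ¬ u (J - 1) ∈ C := (h (J - 1) (by omega)).2 ⟨by omega, by omega⟩
      have m4 : u (J - 1 + 1) ∈ C := by
        rw [Nat.sub_add_cancel (by omega)]
        by_contra hcon
        have := (h J hJ0).1 hcon
        omega
      have n1 : u (I - 1) ≠ u (I - 1 + 1) := fun hh => m2 (hh ▸ m1)
      have n2 : u (J - 1) ≠ u (J - 1 + 1) := fun hh => m3 (hh ▸ m4)
      have r1 := (hpq _ m1 _ (hu _) m2 (hst _ n1)).1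
      have r2 := (hpq _ m4 _ (hu _) m3 (hst _ n2).symm).1
      rw [Nat.sub_add_cancel (by omega)] at r2
      exact r1.trans r2.symm
  · obtain ⟨I, J, hIJ, hJN, h⟩ := pure0 (fun i => ¬ u i ∈ C) N h0
      (by show ¬ u N ∈ C; rw [h0N]; exact h0)
      ⟨a, ha, not_not.2 haC⟩
      (fun i j hi hj h1 h2 h3 h4 => hup i j hi hj h1 (not_not.1 h2) h3 (not_not.1 h4))
    have h' : ∀ i, i < N → (u i ∈ C ↔ I ≤ i ∧ i < J) := by
      intro i hi
      rw [← h i hi]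
      simp only [not_not]
    have hab' : (I ≤ a ∧ a < J) ↔ ¬ (I ≤ b ∧ b < J) := by
      rw [← h' a ha, ← h' b hb]
      tauto
    refine ⟨C, I, J, hCA, hIJ, hJN, h', hab', ?_⟩
    intro hI0 hJ0
    have hlt : I < J := by
      by_contra hcon
      have e1 : ¬ (I ≤ a ∧ a < J) := by omega
      have e2 : ¬ (I ≤ b ∧ b < J) := by omega
      exact e1 (hab'.2 e2)
    have m1 : ¬ u (I - 1) ∈ C := by
      intro hcon
      have := (h' (I - 1) (by omega)).1 hcon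
      omega
    have m2 : u (I - 1 + 1) ∈ C := by
      rw [Nat.sub_add_cancel (by omega)]
      exact (h' I (by omega)).2 ⟨le_rfl, hlt⟩
    have m3 : u (J - 1) ∈ C := (h' (J - 1) (by omega)).2 ⟨by omega, by omega⟩
    have m4 : ¬ u (J - 1 + 1) ∈ C := by
      rw [Nat.sub_add_cancel (by omega)]
      intro hcon
      have := (h' J hJ0).1 hcon
      omega
    have n1 : u (I - 1) ≠ u (I - 1 + 1) := fun hh => m1 (hh ▸ m2)
    have n2 : u (J - 1) ≠ u (J - 1 + 1) := fun hh => m4 (hh ▸ m3)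
    have r1 := (hpq _ m2 _ (hu _) m1 (hst _ n1).symm).2
    have r2 := (hpq _ m3 _ (hu _) m4 (hst _ n2)).2
    rw [Nat.sub_add_cancel (by omega)] at r2
    exact r1.trans r2.symm

end W_FE_SEP

open W_FE_SEP in
theorem FE_SEP {V : Type} [Finite V] (T : Tri V) (A : Set V) (hA : Conn T.G A) (hB : Conn T.G Aᶜ)
    (hm : ∀ a b c, T.F a b c → ¬ (a ∈ A ∧ b ∈ A ∧ c ∈ A) ∧ ¬ (a ∉ A ∧ b ∉ A ∧ c ∉ A))
    (N : ℕ) (e : ℕ → V × V) (he : CycE T A N e) :
    (∀ a b, a < N → b < N → (e a).1 ≠ (e b).1 → ∃ (C : Set V) (I J : ℕ), C ⊆ A ∧ I ≤ J ∧ J ≤ N ∧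
      (∀ i, i < N → ((e i).1 ∈ C ↔ I ≤ i ∧ i < J)) ∧ ((I ≤ a ∧ a < J) ↔ ¬ (I ≤ b ∧ b < J)) ∧
      (0 < I → J < N → (e (I - 1)).1 = (e J).1)) ∧
    (∀ a b, a < N → b < N → (e a).2 ≠ (e b).2 → ∃ (C : Set V) (I J : ℕ), C ⊆ Aᶜ ∧ I ≤ J ∧ J ≤ N ∧
      (∀ i, i < N → ((e i).2 ∈ C ↔ I ≤ i ∧ i < J)) ∧ ((I ≤ a ∧ a < J) ↔ ¬ (I ≤ b ∧ b < J)) ∧
      (0 < I → J < N → (e (I - 1)).2 = (e J).2)) := by
  constructor
  · refine core T.G A (FS_BRIDGE T A hA hB (fun a b c h => (hm a b c h).1)) N he.pos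
      (fun i => (e i).1) (fun i => (he.mem i).1) (fun i => by simp only [he.per i]) ?_ ?_
    · intro i hi
      rcases he.nxt i with h | h
      · exact absurd h.2.1.symm hi
      · have h1 := T.rot _ _ _ (T.rot _ _ _ h.1)
        exact (show T.G.Adj (e (i + 1)).1 (e i).1 from ⟨_, h1⟩).symm
    · intro i j hi hj hne h1 h2
      have fi : T.F (e i).1 (e i).2 (e (i + 1)).1 := by
        rcases he.nxt i with h | h
        · exact absurd h.2.1.symm hne
        · exact h.1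
      have fj : T.F (e j).1 (e j).2 (e (j + 1)).1 := by
        rcases he.nxt j with h | h
        · exact absurd h.2.1.symm (by rw [← h1, ← h2]; exact hne)
        · exact h.1
      have gi := T.rot _ _ _ (T.rot _ _ _ fi)
      have gj := T.rot _ _ _ (T.rot _ _ _ fj)
      rw [← h1, ← h2] at gj
      exact he.inj i j hi hj (Prod.ext h1 (T.uniq _ _ _ _ gi gj))
  · refine core T.G Aᶜ (FS_BRIDGE T Aᶜ hB (by rw [compl_compl]; exact hA)
      (fun a b c h => (hm a b c h).2)) N he.pos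
      (fun i => (e i).2) (fun i => (he.mem i).2.1) (fun i => by simp only [he.per i]) ?_ ?_
    · intro i hi
      rcases he.nxt i with h | h
      · exact ⟨_, T.rot _ _ _ h.1⟩
      · exact absurd h.2.1.symm hi
    · intro i j hi hj hne h1 h2
      have fi : T.F (e i).1 (e i).2 (e (i + 1)).2 := by
        rcases he.nxt i with h | h
        · exact h.1
        · exact absurd h.2.1.symm hne
      have fj : T.F (e j).1 (e j).2 (e (j + 1)).2 := by
        rcases he.nxt j with h | h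
        · exact h.1
        · exact absurd h.2.1.symm (by rw [← h1, ← h2]; exact hne)
      have gi := T.rot _ _ _ fi
      have gj := T.rot _ _ _ fj
      rw [← h1, ← h2] at gj
      exact he.inj i j hi hj (Prod.ext (T.uniq _ _ _ _ gi gj) h1)


end Pool.Agent.H891WLC
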