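import Pool.Agent.H891FSS.Defs
import Pool.Agent.H891FSS.DefsE
import Pool.Agent.H891FSS.FE_ALT
import Pool.Agent.H891FSS.FE_SEP
import Pool.Agent.H891FSS.FE_CERT

set_option autoImplicit false

namespace Pool.Agent.H891WLC

namespace W_FE_LP

lemma sumEl {V : Type} [Fintype V] (f g : V → ℝ) (x : V ⊕ V → ℝ) :
    ∑ w, Sum.elim f g w * x w = ∑ v, f v * x (Sum.inl v) + ∑ v, g v * x (Sum.inr v) := by
  simp [Fintype.sum_sum_type]

lemma core {V : Type} [Fintype V] [DecidableEq V] (P : ℕ → V → ℝ) (θ z : ℕ → ℝ) (inn stp : ℕ → Prop)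
    (v0 : V) (N : ℕ)
    (hno : ∀ X Y : V → ℝ, (∀ v, 0 < Y v) →
      (∀ i, i < N → ¬ inn i → ∑ v, P i v * (X v - z i * Y v) = 0) →
      ∃ i, i < N ∧ stp i ∧ ∑ v, (P i v - P (i - 1) v) * (X v - θ i * Y v) ≤ 0) :
    ∃ (μ g : ℕ → ℝ) (γ : V → ℝ), (∀ i, inn i → μ i = 0) ∧ (∀ i, 0 ≤ g i) ∧ (∀ i, ¬ stp i → g i = 0) ∧
      (∀ i, N ≤ i → g i = 0) ∧ (∀ v, 0 ≤ γ v) ∧ ((∃ v, 0 < γ v) ∨ (∃ i, i < N ∧ 0 < g i)) ∧
      (∀ v, ∑ i ∈ Finset.range N, μ i * P i v = ∑ i ∈ Finset.range N, g i * (P i v - P (i - 1) v)) ∧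
      (∀ v, ∑ i ∈ Finset.range N, μ i * z i * P i v =
        ∑ i ∈ Finset.range N, g i * θ i * (P i v - P (i - 1) v) - γ v) := by
  classical
  obtain ⟨μ, ν, hν, ⟨j, hj⟩, hid⟩ := FE_ALT (ι := Fin N) (κ := V ⊕ Fin N) (W := V ⊕ V)
    (fun i => if inn i then Sum.elim (fun _ => 0) (fun _ => 0)
      else Sum.elim (fun v => P i v) (fun v => -(z i * P i v)))
    (fun j => Sum.elim (fun v => Sum.elim (fun _ => 0) (fun v' => if v' = v then 1 else 0))
      (fun i : Fin N => if stp i then Sum.elim (fun v => P i v - P (i - 1) v)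
          (fun v => -(θ i * (P i v - P (i - 1) v)))
        else Sum.elim (fun _ => 0) (fun v' => if v' = v0 then 1 else 0)) j)
    (by
      intro x hx
      by_contra hcon
      push Not at hcon
      have hY : ∀ v, 0 < x (Sum.inr v) := by
        intro v
        have h1 := hcon (Sum.inl v)
        simp only [Sum.elim_inl, sumEl] at h1
        simpa using h1
      have heq : ∀ i, i < N → ¬ inn i →
          ∑ v, P i v * (x (Sum.inl v) - z i * x (Sum.inr v)) = 0 := by
        intro i hi hni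
        have h1 := hx ⟨i, hi⟩
        simp only [hni, if_false, sumEl] at h1
        rw [← h1, ← Finset.sum_add_distrib]
        exact Finset.sum_congr rfl (fun v _ => by ring)
      obtain ⟨i, hi, hs, hle⟩ := hno (fun v => x (Sum.inl v)) (fun v => x (Sum.inr v)) hY heq
      have h1 := hcon (Sum.inr ⟨i, hi⟩)
      simp only [Sum.elim_inr, hs, if_true, sumEl] at h1
      rw [← Finset.sum_add_distrib] at h1
      have h2 : ∑ v, (P i v - P (i - 1) v) * (x (Sum.inl v) - θ i * x (Sum.inr v)) =
          ∑ v, ((P i v - P (i - 1) v) * x (Sum.inl v) +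
            -(θ i * (P i v - P (i - 1) v)) * x (Sum.inr v)) :=
        Finset.sum_congr rfl (fun v _ => by ring)
      linarith)
  refine ⟨fun i => if h : i < N then (if inn i then 0 else μ ⟨i, h⟩) else 0,
    fun i => if h : i < N then (if stp i then ν (Sum.inr ⟨i, h⟩) else 0) else 0,
    fun v => ν (Sum.inl v) + (if v = v0 then ∑ i : Fin N, (if stp i then 0 else ν (Sum.inr i)) else 0),
    ?_, ?_, ?_, ?_, ?_, ?_, ?_, ?_⟩
  · intro i hi
    simp [hi]
  · intro i
    dsimp only
    split_ifs <;> first | exact hν _ | exact le_rfl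
  · intro i hi
    simp [hi]
  · intro i hi
    simp [not_lt.2 hi]
  · intro v
    have h1 : 0 ≤ ∑ i : Fin N, (if stp i then 0 else ν (Sum.inr i)) :=
      Finset.sum_nonneg (fun i _ => by split_ifs <;> first | exact hν _ | exact le_rfl)
    have h2 := hν (Sum.inl v)
    dsimp only
    split_ifs
    · linarith
    · linarith
  · have h1 : 0 ≤ ∑ i : Fin N, (if stp i then 0 else ν (Sum.inr i)) :=
      Finset.sum_nonneg (fun i _ => by split_ifs <;> first | exact hν _ | exact le_rfl)
    rcases j with v | i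
    · left
      refine ⟨v, ?_⟩
      dsimp only
      split_ifs
      · linarith
      · linarith
    · by_cases hs : stp i
      · right
        refine ⟨i, i.2, ?_⟩
        simp only [i.2, dite_true, hs, if_true]
        exact hj
      · left
        refine ⟨v0, ?_⟩
        simp only [if_true]
        have h2 := hν (Sum.inl v0)
        have h3 : ν (Sum.inr i) ≤ ∑ i : Fin N, (if stp i then 0 else ν (Sum.inr i)) := by
          have h4 := Finset.single_le_sum
            (f := fun i : Fin N => (if stp i then 0 else ν (Sum.inr i)))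
            (fun i _ => by split_ifs <;> first | exact hν _ | exact le_rfl)
            (Finset.mem_univ i)
          simpa [hs] using h4
        linarith
  · intro v
    have h1 := hid (Sum.inl v)
    rw [Fintype.sum_sum_type] at h1
    rw [← Fin.sum_univ_eq_sum_range (fun i : ℕ => (if h : i < N then (if inn i then 0 else μ ⟨i, h⟩) else 0) * P i v),
      ← Fin.sum_univ_eq_sum_range (fun i : ℕ => (if h : i < N then (if stp i then ν (Sum.inr ⟨i, h⟩) else 0) else 0) *
        (P i v - P (i - 1) v))]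
    have e1 : ∑ i : Fin N, (if h : (i : ℕ) < N then (if inn i then 0 else μ ⟨i, h⟩) else 0) * P i v =
        ∑ i : Fin N, μ i * ((if inn i then Sum.elim (fun _ => 0) (fun _ => 0)
          else Sum.elim (fun v => P i v) (fun v => -(z i * P i v)) : V ⊕ V → ℝ)) (Sum.inl v) := by
      refine Finset.sum_congr rfl (fun i _ => ?_)
      by_cases hh : inn i
      · simp [hh]
      · simp [hh]
    rw [e1, h1]
    have e2 : ∑ v' : V, ν (Sum.inl v') * (Sum.elim (fun v => Sum.elim (fun _ => 0) (fun v' => if v' = v then 1 else 0))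
      (fun i : Fin N => if stp i then Sum.elim (fun v => P i v - P (i - 1) v)
          (fun v => -(θ i * (P i v - P (i - 1) v)))
        else Sum.elim (fun _ => 0) (fun v' => if v' = v0 then 1 else 0)) (Sum.inl v' : V ⊕ Fin N) : V ⊕ V → ℝ) (Sum.inl v) = 0 := by
      refine Finset.sum_eq_zero (fun v' _ => ?_)
      simp
    rw [e2, zero_add]
    refine Finset.sum_congr rfl (fun i _ => ?_)
    by_cases hh : stp i
    · simp [hh]
    · simp [hh]
  · intro v
    have h1 := hid (Sum.inr v)
    rw [Fintype.sum_sum_type] at h1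
    rw [← Fin.sum_univ_eq_sum_range (fun i : ℕ => (if h : i < N then (if inn i then 0 else μ ⟨i, h⟩) else 0) * z i * P i v),
      ← Fin.sum_univ_eq_sum_range (fun i : ℕ => (if h : i < N then (if stp i then ν (Sum.inr ⟨i, h⟩) else 0) else 0) * θ i *
        (P i v - P (i - 1) v))]
    have e1 : ∑ i : Fin N, (if h : (i : ℕ) < N then (if inn i then 0 else μ ⟨i, h⟩) else 0) * z i * P i v =
        - ∑ i : Fin N, μ i * ((if inn i then Sum.elim (fun _ => 0) (fun _ => 0)
          else Sum.elim (fun v => P i v) (fun v => -(z i * P i v)) : V ⊕ V → ℝ)) (Sum.inr v) := by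
      rw [← Finset.sum_neg_distrib]
      refine Finset.sum_congr rfl (fun i _ => ?_)
      by_cases hh : inn i
      · simp [hh]
      · simp [hh]; ring
    rw [e1, h1]
    have e2 : ∑ v' : V, ν (Sum.inl v') * (Sum.elim (fun v => Sum.elim (fun _ => 0) (fun v' => if v' = v then 1 else 0))
      (fun i : Fin N => if stp i then Sum.elim (fun v => P i v - P (i - 1) v)
          (fun v => -(θ i * (P i v - P (i - 1) v)))
        else Sum.elim (fun _ => 0) (fun v' => if v' = v0 then 1 else 0)) (Sum.inl v' : V ⊕ Fin N) : V ⊕ V → ℝ) (Sum.inr v) =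
        ν (Sum.inl v) := by
      simp
    rw [e2]
    have e3 : ∑ i : Fin N, ν (Sum.inr i) * (Sum.elim (fun v => Sum.elim (fun _ => 0) (fun v' => if v' = v then 1 else 0))
      (fun i : Fin N => if stp i then Sum.elim (fun v => P i v - P (i - 1) v)
          (fun v => -(θ i * (P i v - P (i - 1) v)))
        else Sum.elim (fun _ => 0) (fun v' => if v' = v0 then 1 else 0)) (Sum.inr i : V ⊕ Fin N) : V ⊕ V → ℝ) (Sum.inr v) =
        (if v = v0 then ∑ i : Fin N, (if stp i then 0 else ν (Sum.inr i)) else 0)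
        - ∑ i : Fin N, (if h : (i : ℕ) < N then (if stp i then ν (Sum.inr ⟨i, h⟩) else 0) else 0) * θ i *
          (P i v - P (i - 1) v) := by
      by_cases hv : v = v0
      · rw [if_pos hv, ← Finset.sum_sub_distrib]
        refine Finset.sum_congr rfl (fun i _ => ?_)
        by_cases hh : stp i
        · simp [hh]; ring
        · simp [hh, hv]
      · rw [if_neg hv, zero_sub, ← Finset.sum_neg_distrib]
        refine Finset.sum_congr rfl (fun i _ => ?_)
        by_cases hh : stp i
        · simp [hh]; ring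
        · simp [hh, hv]
    rw [e3]
    ring

/-- step `i-1 → i` belongs to the block `s` -/
def Stp {S : Type} (k m : S → ℕ) (s : S) (i : ℕ) : Prop := k s < i ∧ i ≤ k s + m s

lemma stp_uniq {S : Type} (k m : S → ℕ) (hd : ∀ s r, s ≠ r → k s + m s ≤ k r ∨ k r + m r ≤ k s)
    (s r : S) (i : ℕ) (h1 : Stp k m s i) (h2 : Stp k m r i) : s = r := by
  by_contra h
  unfold Stp at h1 h2
  rcases hd s r h with h | h <;> omega

open Classical in
/-- incidence -/
noncomputable def Pn {V : Type} (e : ℕ → V × V) (i : ℕ) (v : V) : ℝ :=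
  (if (e i).1 = v then 1 else 0) + (if (e i).2 = v then 1 else 0)

lemma sumPn {V : Type} [Fintype V] (e : ℕ → V × V) (i : ℕ) (X : V → ℝ) :
    ∑ v, Pn e i v * X v = X (e i).1 + X (e i).2 := by
  classical
  simp [Pn, add_mul, Finset.sum_add_distrib]

open Classical in
lemma sumC {V : Type} [Fintype V] (e : ℕ → V × V) (i : ℕ) (C : Set V) :
    ∑ v ∈ Finset.univ.filter (· ∈ C), Pn e i v =
      (if (e i).1 ∈ C then 1 else 0) + (if (e i).2 ∈ C then 1 else 0) := by
  unfold Pn
  rw [Finset.sum_add_distrib, Finset.sum_ite_eq, Finset.sum_ite_eq]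
  simp

/-- the two summed identities for an interval -/
lemma summed {V : Type} [Fintype V] (e : ℕ → V × V) (N : ℕ) (μ g θ z : ℕ → ℝ) (γ : V → ℝ)
    (hg0 : g 0 = 0) (hgN : ∀ i, N ≤ i → g i = 0) (hγ : ∀ v, 0 ≤ γ v)
    (id1 : ∀ v, ∑ i ∈ Finset.range N, μ i * Pn e i v =
      ∑ i ∈ Finset.range N, g i * (Pn e i v - Pn e (i - 1) v))
    (id2 : ∀ v, ∑ i ∈ Finset.range N, μ i * z i * Pn e i v =
        ∑ i ∈ Finset.range N, g i * θ i * (Pn e i v - Pn e (i - 1) v) - γ v)
    (C : Set V) (I J : ℕ) (hIJ : I ≤ J) (hJ : J ≤ N)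
    (hc : ∀ i, i < N → (((e i).1 ∈ C ∧ (e i).2 ∉ C) ∧ (I ≤ i ∧ i < J)) ∨
      (((e i).2 ∈ C ∧ (e i).1 ∉ C) ∧ (I ≤ i ∧ i < J)) ∨
      (((e i).2 ∉ C ∧ (e i).1 ∉ C) ∧ ¬ (I ≤ i ∧ i < J))) :
    ∑ i ∈ Finset.Ico I J, μ i = g I - g J ∧
      ∑ i ∈ Finset.Ico I J, μ i * z i ≤ g I * θ I - g J * θ J := by
  classical
  have hP : ∀ i, i < N → ∑ v ∈ Finset.univ.filter (· ∈ C), Pn e i v =
      if I ≤ i ∧ i < J then (1:ℝ) else 0 := by
    intro i hi
    rw [sumC]
    rcases hc i hi with ⟨⟨h1, h2⟩, h3⟩ | ⟨⟨h1, h2⟩, h3⟩ | ⟨⟨h1, h2⟩, h3⟩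
    · rw [if_pos h1, if_neg h2, if_pos h3]; norm_num
    · rw [if_pos h1, if_neg h2, if_pos h3]; norm_num
    · rw [if_neg h1, if_neg h2, if_neg h3]; norm_num
  have hL : ∀ c : ℕ → ℝ, ∑ v ∈ Finset.univ.filter (· ∈ C), ∑ i ∈ Finset.range N, c i * Pn e i v =
      ∑ i ∈ Finset.Ico I J, c i := by
    intro c
    rw [Finset.sum_comm]
    have e1 : ∀ i ∈ Finset.range N, ∑ v ∈ Finset.univ.filter (· ∈ C), c i * Pn e i v =
        if I ≤ i ∧ i < J then c i else 0 := by
      intro i hi
      rw [← Finset.mul_sum, hP i (Finset.mem_range.1 hi)]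
      split_ifs <;> simp
    rw [Finset.sum_congr rfl e1, ← Finset.sum_filter]
    congr 1
    ext i
    simp only [Finset.mem_filter, Finset.mem_range, Finset.mem_Ico]
    omega
  have hR : ∀ c : ℕ → ℝ, c 0 = 0 → (∀ i, N ≤ i → c i = 0) →
      ∑ v ∈ Finset.univ.filter (· ∈ C), ∑ i ∈ Finset.range N, c i * (Pn e i v - Pn e (i - 1) v) =
      c I - c J := by
    intro c hc0 hcN
    rw [Finset.sum_comm]
    have e1 : ∀ i ∈ Finset.range N, ∑ v ∈ Finset.univ.filter (· ∈ C), c i * (Pn e i v - Pn e (i - 1) v) =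
        (if i = I then c I else 0) - (if i = J then c J else 0) := by
      intro i hi
      have hi' := Finset.mem_range.1 hi
      rw [← Finset.mul_sum, Finset.sum_sub_distrib, hP i hi', hP (i - 1) (by omega)]
      rcases Nat.eq_zero_or_pos i with h0 | h0
      · subst h0
        rw [hc0]
        by_cases a : 0 = I
        · by_cases b : 0 = J
          · simp [← a, ← b, hc0]
          · simp [← a, b, hc0]
        · by_cases b : 0 = J
          · simp [a, ← b, hc0]
          · simp [a, b]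
      · by_cases a : i = I
        · subst a
          by_cases b : i = J
          · subst b
            have h1 : ¬ (i ≤ i ∧ i < i) := by omega
            have h2 : ¬ (i ≤ i - 1 ∧ i - 1 < i) := by omega
            rw [if_neg h1, if_neg h2]; simp
          · have h1 : (i ≤ i ∧ i < J) := by omega
            have h2 : ¬ (i ≤ i - 1 ∧ i - 1 < J) := by omega
            rw [if_pos h1, if_neg h2, if_neg b]; simp
        · by_cases b : i = J
          · subst b
            have h1 : ¬ (I ≤ i ∧ i < i) := by omega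
            have h2 : (I ≤ i - 1 ∧ i - 1 < i) := by omega
            rw [if_neg h1, if_pos h2, if_neg a]; simp
          · rw [if_neg a, if_neg b]
            have h1 : (I ≤ i ∧ i < J) ↔ (I ≤ i - 1 ∧ i - 1 < J) := by omega
            by_cases h2 : (I ≤ i ∧ i < J)
            · rw [if_pos h2, if_pos (h1.1 h2)]; simp
            · rw [if_neg h2, if_neg (fun h => h2 (h1.2 h))]; simp
    rw [Finset.sum_congr rfl e1, Finset.sum_sub_distrib, Finset.sum_ite_eq', Finset.sum_ite_eq']
    have f1 : (if I ∈ Finset.range N then c I else 0) = c I := by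
      split_ifs with h
      · rfl
      · exact (hcN I (by simpa using h)).symm
    have f2 : (if J ∈ Finset.range N then c J else 0) = c J := by
      split_ifs with h
      · rfl
      · exact (hcN J (by simpa using h)).symm
    rw [f1, f2]
  refine ⟨?_, ?_⟩
  · rw [← hL μ, ← hR g hg0 hgN]
    exact Finset.sum_congr rfl (fun v _ => id1 v)
  · rw [← hL (fun i => μ i * z i), ← hR (fun i => g i * θ i) (by simp [hg0]) (fun i hi => by simp [hgN i hi])]
    refine Finset.sum_le_sum (fun v _ => ?_)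
    rw [id2 v]
    have := hγ v
    linarith

end W_FE_LP

open W_FE_LP in
theorem FE_LP {V S : Type} [Fintype V] [Fintype S] (T : Tri V) (A : Set V) (hA : Conn T.G A) (hB : Conn T.G Aᶜ)
    (hm : ∀ a b c, T.F a b c → ¬ (a ∈ A ∧ b ∈ A ∧ c ∈ A) ∧ ¬ (a ∉ A ∧ b ∉ A ∧ c ∉ A))
    (N : ℕ) (e : ℕ → V × V) (he : CycE T A N e) (z : ℕ → ℝ) (hz : StrictMono z)
    (k m : S → ℕ) (t : S → ℝ) (hk : ∀ s, k s + m s < N)
    (hd : ∀ s r, s ≠ r → k s + m s ≤ k r ∨ k r + m r ≤ k s)
    (hc : ∀ s, (∀ i, i ≤ m s → (e (k s + i)).1 = (e (k s)).1) ∨ (∀ i, i ≤ m s → (e (k s + i)).2 = (e (k s)).2))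
    (ht : ∀ s, z (k s) < t s ∧ t s < z (k s + m s)) :
    ∃ X Y : V → ℝ, (∀ v, 0 < Y v) ∧
      (∀ i, i < N → (∀ s, ¬ (k s < i ∧ i < k s + m s)) →
        X (e i).1 + X (e i).2 = z i * (Y (e i).1 + Y (e i).2)) ∧
      (∀ s i, i < m s → (e (k s + i)).1 = (e (k s + i + 1)).1 →
        X (e (k s + i)).2 - t s * Y (e (k s + i)).2 < X (e (k s + i + 1)).2 - t s * Y (e (k s + i + 1)).2) ∧
      (∀ s i, i < m s → (e (k s + i)).2 = (e (k s + i + 1)).2 →
        X (e (k s + i)).1 - t s * Y (e (k s + i)).1 < X (e (k s + i + 1)).1 - t s * Y (e (k s + i + 1)).1) := by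
  classical
  by_contra hcon
  let inn : ℕ → Prop := fun i => ∃ s, k s < i ∧ i < k s + m s
  let stp : ℕ → Prop := fun i => ∃ s, Stp k m s i
  let θ : ℕ → ℝ := fun i => if h : ∃ s, Stp k m s i then t (Classical.choose h) else 0
  have hθs : ∀ s i, Stp k m s i → θ i = t s := by
    intro s i h
    have hex : ∃ s, Stp k m s i := ⟨s, h⟩
    have h1 : θ i = t (Classical.choose hex) := by simp only [θ]; rw [dif_pos hex]
    rw [h1, stp_uniq k m hd _ _ i (Classical.choose_spec hex) h]
  let z' : ℕ → ℝ := fun i => if inn i then θ i else z i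
  have hz's : ∀ s i, k s < i → i < k s + m s → z' i = t s := by
    intro s i h1 h2
    have hin : inn i := ⟨s, h1, h2⟩
    have h3 : z' i = θ i := by simp only [z']; rw [if_pos hin]
    rw [h3, hθs s i ⟨h1, h2.le⟩]
  have hz'n : ∀ i, ¬ inn i → z' i = z i := by
    intro i h
    simp only [z']
    rw [if_neg h]
  have hstN : ∀ s i, Stp k m s i → 0 < i ∧ i < N := by
    intro s i h
    have := hk s
    unfold Stp at h
    omega
  obtain ⟨μ, g, γ, hμ, hg0, hgs, hgN, hγ, hpos, id1, id2⟩ := core (Pn e) θ z inn stp (e 0).1 N (by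
    intro X Y hY heq
    by_contra hno
    push Not at hno
    apply hcon
    have hdiff : ∀ s i, i < m s →
        0 < ((X (e (k s + i + 1)).1 - t s * Y (e (k s + i + 1)).1) +
          (X (e (k s + i + 1)).2 - t s * Y (e (k s + i + 1)).2)) -
          ((X (e (k s + i)).1 - t s * Y (e (k s + i)).1) +
          (X (e (k s + i)).2 - t s * Y (e (k s + i)).2)) := by
      intro s i hi
      have hst : Stp k m s (k s + i + 1) := by unfold Stp; omega
      have h1 := hno (k s + i + 1) (hstN s _ hst).2 ⟨s, hst⟩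
      rw [hθs s _ hst] at h1
      have h2 : ∑ v, (Pn e (k s + i + 1) v - Pn e (k s + i + 1 - 1) v) * (X v - t s * Y v) =
          ∑ v, Pn e (k s + i + 1) v * (X v - t s * Y v) - ∑ v, Pn e (k s + i) v * (X v - t s * Y v) := by
        rw [← Finset.sum_sub_distrib]
        exact Finset.sum_congr rfl (fun v _ => by rw [Nat.add_sub_cancel]; ring)
      rw [h2, sumPn e (k s + i + 1) (fun v => X v - t s * Y v),
        sumPn e (k s + i) (fun v => X v - t s * Y v)] at h1
      exact h1
    refine ⟨X, Y, hY, ?_, ?_, ?_⟩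
    · intro i hi hni
      have h1 := heq i hi (fun ⟨s, h⟩ => hni s h)
      rw [sumPn e i (fun v => X v - z i * Y v)] at h1
      linarith
    · intro s i hi h
      have h1 := hdiff s i hi
      rw [← h] at h1
      linarith
    · intro s i hi h
      have h1 := hdiff s i hi
      rw [← h] at h1
      linarith)
  have hμz : ∀ i, μ i * z' i = μ i * z i := by
    intro i
    by_cases h : inn i
    · rw [hμ i h, zero_mul, zero_mul]
    · rw [hz'n i h]
  have hg00 : g 0 = 0 := hgs 0 (by
    rintro ⟨s, h⟩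
    exact absurd (hstN s 0 h).1 (lt_irrefl _))
  let α : ℕ → ℝ := fun i => if (e (i - 1)).1 ≠ (e i).1 then g i else 0
  let β : ℕ → ℝ := fun i => if (e (i - 1)).2 ≠ (e i).2 then g i else 0
  have hα1 : ∀ i, α i ≠ 0 → g i ≠ 0 ∧ (e (i - 1)).1 ≠ (e i).1 := by
    intro i h
    by_cases h1 : (e (i - 1)).1 ≠ (e i).1
    · simp only [α, if_pos h1] at h
      exact ⟨h, h1⟩
    · exact absurd (by simp only [α, if_neg h1]) h
  have hβ1 : ∀ i, β i ≠ 0 → g i ≠ 0 ∧ (e (i - 1)).2 ≠ (e i).2 := by
    intro i h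
    by_cases h1 : (e (i - 1)).2 ≠ (e i).2
    · simp only [β, if_pos h1] at h
      exact ⟨h, h1⟩
    · exact absurd (by simp only [β, if_neg h1]) h
  have hα2 : ∀ i, (e (i - 1)).1 ≠ (e i).1 → α i = g i := by
    intro i h
    simp only [α, if_pos h]
  have hβ2 : ∀ i, (e (i - 1)).2 ≠ (e i).2 → β i = g i := by
    intro i h
    simp only [β, if_pos h]
  have hα3 : ∀ i, g i = 0 → α i = g i := by
    intro i h
    simp only [α]
    split_ifs
    · rfl
    · exact h.symm
  have hβ3 : ∀ i, g i = 0 → β i = g i := by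
    intro i h
    simp only [β]
    split_ifs
    · rfl
    · exact h.symm
  have hgst : ∀ i, g i ≠ 0 → ∃ s, Stp k m s i := by
    intro i h
    by_contra h1
    exact h (hgs i h1)
  have hone : ∀ i, 0 < i → (e (i - 1)).1 = (e i).1 ∨ (e (i - 1)).2 = (e i).2 := by
    intro i hi
    have h1 := he.nxt (i - 1)
    rw [Nat.sub_add_cancel hi] at h1
    rcases h1 with ⟨_, h2, _⟩ | ⟨_, h2, _⟩
    · exact Or.inl h2.symm
    · exact Or.inr h2.symm
  have hbetween : ∀ i, g i ≠ 0 → z' (i - 1) ≤ θ i ∧ θ i ≤ z' i ∧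
      (¬ inn (i - 1) → z' (i - 1) < θ i) ∧ (¬ inn i → θ i < z' i) := by
    intro i hi
    obtain ⟨s, hs⟩ := hgst i hi
    rw [hθs s i hs]
    have hs' := hs
    unfold Stp at hs'
    have hL : (¬ inn (i - 1) → z' (i - 1) < t s) := by
      intro hn
      have h1 : i - 1 = k s := by
        by_contra h2
        exact hn ⟨s, by omega, by omega⟩
      rw [hz'n _ hn, h1]
      exact (ht s).1
    have hR : (¬ inn i → t s < z' i) := by
      intro hn
      have h1 : i = k s + m s := by
        by_contra h2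
        exact hn ⟨s, by omega, by omega⟩
      rw [hz'n _ hn, h1]
      exact (ht s).2
    refine ⟨?_, ?_, hL, hR⟩
    · by_cases hn : inn (i - 1)
      · obtain ⟨r, h1, h2⟩ := hn
        have hr : Stp k m r i := by unfold Stp; omega
        rw [hz's r _ h1 h2, stp_uniq k m hd r s i hr hs]
      · exact (hL hn).le
    · by_cases hn : inn i
      · obtain ⟨r, h1, h2⟩ := hn
        have hr : Stp k m r i := by unfold Stp; omega
        rw [hz's r _ h1 h2, stp_uniq k m hd r s i hr hs]
      · exact (hR hn).le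
  have hzstrict : ∀ i, i + 1 < N → (¬ inn i ∨ ¬ inn (i + 1)) → z' i < z' (i + 1) := by
    intro i hi h
    by_cases h1 : inn i
    · have h2 : ¬ inn (i + 1) := by
        rcases h with h | h
        · exact absurd h1 h
        · exact h
      obtain ⟨s, h3, h4⟩ := h1
      have h5 : i + 1 = k s + m s := by
        by_contra h6
        exact h2 ⟨s, by omega, by omega⟩
      rw [hz's s i h3 h4, hz'n _ h2, h5]
      exact (ht s).2
    · by_cases h2 : inn (i + 1)
      · obtain ⟨s, h3, h4⟩ := h2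
        have h5 : i = k s := by
          by_contra h6
          exact h1 ⟨s, by omega, by omega⟩
        rw [hz's s _ h3 h4, hz'n _ h1, h5]
        exact (ht s).1
      · rw [hz'n _ h1, hz'n _ h2]
        exact hz (Nat.lt_succ_self i)
  have hzmono : ∀ i, i + 1 < N → z' i ≤ z' (i + 1) := by
    intro i hi
    by_cases h1 : inn i
    · by_cases h2 : inn (i + 1)
      · obtain ⟨s, h3, h4⟩ := h1
        obtain ⟨r, h5, h6⟩ := h2
        have h7 : r = s := stp_uniq k m hd r s (i + 1) ⟨h5, h6.le⟩ (by unfold Stp; omega)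
        subst h7
        rw [hz's r i h3 h4, hz's r (i + 1) h5 h6]
      · exact (hzstrict i hi (Or.inr h2)).le
    · exact (hzstrict i hi (Or.inl h1)).le
  have hsame : ∀ I J s r, I < J → Stp k m s I → Stp k m r J → θ I = θ J → s = r := by
    intro I J s r hIJ hI hJ h
    rw [hθs s I hI, hθs r J hJ] at h
    by_contra hne
    have h1 := ht s
    have h2 := ht r
    rcases hd s r hne with h3 | h3
    · have h4 := hz.monotone h3
      linarith
    · have h4 := hz.monotone h3
      linarith
  have hαd : ∀ I J, I < J → α I ≠ 0 → α J ≠ 0 → θ I = θ J → (e (I - 1)).1 ≠ (e J).1 := by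
    intro I J hIJ hI hJ hθ heq
    obtain ⟨h1, h2⟩ := hα1 I hI
    obtain ⟨h3, h4⟩ := hα1 J hJ
    obtain ⟨s, hs⟩ := hgst I h1
    obtain ⟨r, hr⟩ := hgst J h3
    have h5 := hsame I J s r hIJ hs hr hθ
    subst h5
    have hIN := hstN s I hs
    have hJN := hstN s J hr
    have hs' := hs
    have hr' := hr
    unfold Stp at hs' hr'
    rcases hc s with hcc | hcc
    · apply h2
      have a1 := hcc (I - 1 - k s) (by omega)
      have a2 := hcc (I - k s) (by omega)
      rw [show k s + (I - 1 - k s) = I - 1 by omega] at a1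
      rw [show k s + (I - k s) = I by omega] at a2
      rw [a1, a2]
    · have a1 := hcc (I - 1 - k s) (by omega)
      have a2 := hcc (J - k s) (by omega)
      rw [show k s + (I - 1 - k s) = I - 1 by omega] at a1
      rw [show k s + (J - k s) = J by omega] at a2
      have h6 := he.inj (I - 1) J (by omega) hJN.2 (Prod.ext heq (a1.trans a2.symm))
      omega
  have hβd : ∀ I J, I < J → β I ≠ 0 → β J ≠ 0 → θ I = θ J → (e (I - 1)).2 ≠ (e J).2 := by
    intro I J hIJ hI hJ hθ heq
    obtain ⟨h1, h2⟩ := hβ1 I hI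
    obtain ⟨h3, h4⟩ := hβ1 J hJ
    obtain ⟨s, hs⟩ := hgst I h1
    obtain ⟨r, hr⟩ := hgst J h3
    have h5 := hsame I J s r hIJ hs hr hθ
    subst h5
    have hIN := hstN s I hs
    have hJN := hstN s J hr
    have hs' := hs
    have hr' := hr
    unfold Stp at hs' hr'
    rcases hc s with hcc | hcc
    · have a1 := hcc (I - 1 - k s) (by omega)
      have a2 := hcc (J - k s) (by omega)
      rw [show k s + (I - 1 - k s) = I - 1 by omega] at a1
      rw [show k s + (J - k s) = J by omega] at a2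
      have h6 := he.inj (I - 1) J (by omega) hJN.2 (Prod.ext (a1.trans a2.symm) heq)
      omega
    · apply h2
      have a1 := hcc (I - 1 - k s) (by omega)
      have a2 := hcc (I - k s) (by omega)
      rw [show k s + (I - 1 - k s) = I - 1 by omega] at a1
      rw [show k s + (I - k s) = I by omega] at a2
      rw [a1, a2]
  have hsum1 : ∀ (C : Set V) (I J : ℕ), C ⊆ A → I ≤ J → J ≤ N →
      (∀ i, i < N → ((e i).1 ∈ C ↔ I ≤ i ∧ i < J)) →
      ∑ i ∈ Finset.Ico I J, μ i = α I - α J ∧
        ∑ i ∈ Finset.Ico I J, μ i * z' i ≤ α I * θ I - α J * θ J := by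
    intro C I J hC hIJ hJ hi
    have hw : ∀ i, (e i).2 ∉ C := fun i h => (he.mem i).2.1 (hC h)
    obtain ⟨r1, r2⟩ := summed e N μ g θ z γ hg00 hgN hγ id1 id2 C I J hIJ hJ (by
      intro i hiN
      by_cases h : (e i).1 ∈ C
      · exact Or.inl ⟨⟨h, hw i⟩, (hi i hiN).1 h⟩
      · exact Or.inr (Or.inr ⟨⟨hw i, h⟩, fun h' => h ((hi i hiN).2 h')⟩))
    rw [Finset.sum_congr rfl (fun i _ => hμz i)]
    rcases hIJ.eq_or_lt with h | h
    · subst h
      simp
    · have hI : α I = g I := by
        rcases Nat.eq_zero_or_pos I with h0 | h0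
        · exact hα3 I (by rw [h0]; exact hg00)
        · apply hα2
          intro h1
          have h2 : (e I).1 ∈ C := (hi I (by omega)).2 ⟨le_rfl, h⟩
          rw [← h1] at h2
          have := (hi (I - 1) (by omega)).1 h2
          omega
      have hJ' : α J = g J := by
        by_cases h0 : N ≤ J
        · exact hα3 J (hgN J h0)
        · apply hα2
          intro h1
          have h2 : (e (J - 1)).1 ∈ C := (hi (J - 1) (by omega)).2 ⟨by omega, by omega⟩
          rw [h1] at h2
          have := (hi J (by omega)).1 h2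
          omega
      rw [hI, hJ']
      exact ⟨r1, r2⟩
  have hsum2 : ∀ (C : Set V) (I J : ℕ), C ⊆ Aᶜ → I ≤ J → J ≤ N →
      (∀ i, i < N → ((e i).2 ∈ C ↔ I ≤ i ∧ i < J)) →
      ∑ i ∈ Finset.Ico I J, μ i = β I - β J ∧
        ∑ i ∈ Finset.Ico I J, μ i * z' i ≤ β I * θ I - β J * θ J := by
    intro C I J hC hIJ hJ hi
    have hw : ∀ i, (e i).1 ∉ C := fun i h => hC h (he.mem i).1
    obtain ⟨r1, r2⟩ := summed e N μ g θ z γ hg00 hgN hγ id1 id2 C I J hIJ hJ (by
      intro i hiN
      by_cases h : (e i).2 ∈ C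
      · exact Or.inr (Or.inl ⟨⟨h, hw i⟩, (hi i hiN).1 h⟩)
      · exact Or.inr (Or.inr ⟨⟨h, hw i⟩, fun h' => h ((hi i hiN).2 h')⟩))
    rw [Finset.sum_congr rfl (fun i _ => hμz i)]
    rcases hIJ.eq_or_lt with h | h
    · subst h
      simp
    · have hI : β I = g I := by
        rcases Nat.eq_zero_or_pos I with h0 | h0
        · exact hβ3 I (by rw [h0]; exact hg00)
        · apply hβ2
          intro h1
          have h2 : (e I).2 ∈ C := (hi I (by omega)).2 ⟨le_rfl, h⟩
          rw [← h1] at h2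
          have := (hi (I - 1) (by omega)).1 h2
          omega
      have hJ' : β J = g J := by
        by_cases h0 : N ≤ J
        · exact hβ3 J (hgN J h0)
        · apply hβ2
          intro h1
          have h2 : (e (J - 1)).2 ∈ C := (hi (J - 1) (by omega)).2 ⟨by omega, by omega⟩
          rw [h1] at h2
          have := (hi J (by omega)).1 h2
          omega
      rw [hI, hJ']
      exact ⟨r1, r2⟩
  obtain ⟨hsA, hsB⟩ := FE_SEP T A hA hB hm N e he
  have hα00 : α 0 = 0 := by rw [hα3 0 hg00, hg00]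
  have hβ00 : β 0 = 0 := by rw [hβ3 0 hg00, hg00]
  have hαN : ∀ i, N ≤ i → α i = 0 := fun i hi => by rw [hα3 i (hgN i hi), hgN i hi]
  have hβN : ∀ i, N ≤ i → β i = 0 := fun i hi => by rw [hβ3 i (hgN i hi), hgN i hi]
  have hall := hsum1 A 0 N subset_rfl (Nat.zero_le _) le_rfl
    (fun i hi => ⟨fun _ => ⟨Nat.zero_le _, hi⟩, fun _ => (he.mem i).1⟩)
  rw [← Finset.range_eq_Ico, hα00, hαN N le_rfl] at hall
  obtain ⟨c1, c2, c3⟩ := FE_CERT N (fun i => (e i).1) (fun i => (e i).2) A Aᶜ hsA hsB
    (fun i j hi hj h1 h2 => he.inj i j hi hj (Prod.ext h1 h2)) z' inn hzmono hzstrict μ hμ α β θ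
    (fun i => by
      simp only [α]
      split_ifs <;> first | exact hg0 i | exact le_rfl)
    (fun i => by
      simp only [β]
      split_ifs <;> first | exact hg0 i | exact le_rfl)
    hα00 hβ00 hαN hβN
    (fun i h0 hi h => hbetween i (by
      rcases h with h | h
      · exact (hα1 i h).1
      · exact (hβ1 i h).1))
    (fun i h => (hα1 i h).2) (fun i h => (hβ1 i h).2) hαd hβd hsum1 hsum2
    (by linarith [hall.1]) (by linarith [hall.2])
  have hgz : ∀ i, g i = 0 := by
    intro i
    by_contra h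
    obtain ⟨s, hs⟩ := hgst i h
    obtain ⟨h0, hN⟩ := hstN s i hs
    by_cases h1 : (e (i - 1)).1 = (e i).1
    · by_cases h2 : (e (i - 1)).2 = (e i).2
      · have h3 := he.inj (i - 1) i (by omega) hN (Prod.ext h1 h2)
        omega
      · have h3 := hβ2 i h2
        rw [c3 i] at h3
        exact h h3.symm
    · have h3 := hα2 i h1
      rw [c2 i] at h3
      exact h h3.symm
  have hγz : ∀ v, γ v = 0 := by
    intro v
    have h1 := id2 v
    rw [Finset.sum_eq_zero (fun i hi => by rw [c1 i (Finset.mem_range.1 hi)]; ring),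
      Finset.sum_eq_zero (fun i hi => by rw [hgz i]; ring)] at h1
    linarith
  rcases hpos with ⟨v, hv⟩ | ⟨i, _, hi⟩
  · rw [hγz v] at hv
    exact lt_irrefl _ hv
  · rw [hgz i] at hi
    exact lt_irrefl _ hi


end Pool.Agent.H891WLC
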