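import Pool.Agent.H891FSS.Defs
import Pool.Agent.H891FSS.DefsE

set_option autoImplicit false

namespace Pool.Agent.H891WLC

namespace W_FE_MFAN


variable {V S : Type}

theorem rot_rot {o1 o2 o3 a b c : V} (h : IsRot o1 o2 o3 a b c) : IsRot o1 o2 o3 b c a := by
  unfold IsRot at *
  tauto

theorem rot_first {o1 o2 o3 a b c b' c' : V} (h12 : o1 ≠ o2) (h23 : o2 ≠ o3) (h31 : o3 ≠ o1)
    (h : IsRot o1 o2 o3 a b c) (h' : IsRot o1 o2 o3 a b' c') : b = b' ∧ c = c' := by
  unfold IsRot at h h'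
  rcases h with ⟨h1, h2, h3⟩ | ⟨h1, h2, h3⟩ | ⟨h1, h2, h3⟩ <;>
    rcases h' with ⟨h4, h5, h6⟩ | ⟨h4, h5, h6⟩ | ⟨h4, h5, h6⟩
  · exact ⟨h2.trans h5.symm, h3.trans h6.symm⟩
  · exact absurd (h1.symm.trans h4) h12
  · exact absurd (h4.symm.trans h1) h31
  · exact absurd (h4.symm.trans h1) h12
  · exact ⟨h2.trans h5.symm, h3.trans h6.symm⟩
  · exact absurd (h1.symm.trans h4) h23
  · exact absurd (h1.symm.trans h4) h31
  · exact absurd (h4.symm.trans h1) h23
  · exact ⟨h2.trans h5.symm, h3.trans h6.symm⟩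

theorem rot_same {o1 o2 o3 p1 p2 p3 a b c : V} (h : IsRot o1 o2 o3 a b c)
    (h' : IsRot p1 p2 p3 a b c) : IsRot o1 o2 o3 p1 p2 p3 := by
  unfold IsRot at h h' ⊢
  rcases h' with ⟨h4, h5, h6⟩ | ⟨h4, h5, h6⟩ | ⟨h4, h5, h6⟩
  · rw [h4, h5, h6] at h; exact h
  · rw [h4, h5, h6] at h; tauto
  · rw [h4, h5, h6] at h; tauto

theorem rot_mem {o1 o2 o3 a b c a' b' c' : V} (h : IsRot o1 o2 o3 a b c)
    (h' : IsRot o1 o2 o3 a' b' c') : a' = a ∨ a' = b ∨ a' = c := by
  unfold IsRot at h h'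
  rcases h with ⟨h1, h2, h3⟩ | ⟨h1, h2, h3⟩ | ⟨h1, h2, h3⟩ <;>
    rcases h' with ⟨h4, h5, h6⟩ | ⟨h4, h5, h6⟩ | ⟨h4, h5, h6⟩ <;>
    rw [h1, h2, h3, h4] <;> tauto

/-- the new faces -/
def FF (T : Tri V) (f : S → V × V × V) : V ⊕ S → V ⊕ S → V ⊕ S → Prop
  | .inl a, .inl b, .inl c => T.F a b c ∧ ∀ s, ¬ IsRot (f s).1 (f s).2.1 (f s).2.2 a b c
  | .inr s, .inl a, .inl b => ∃ c, IsRot (f s).1 (f s).2.1 (f s).2.2 a b c
  | .inl a, .inl b, .inr s => ∃ c, IsRot (f s).1 (f s).2.1 (f s).2.2 a b c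
  | .inl b, .inr s, .inl a => ∃ c, IsRot (f s).1 (f s).2.1 (f s).2.2 a b c
  | .inr _, .inr _, _ => False
  | .inr _, .inl _, .inr _ => False
  | .inl _, .inr _, .inr _ => False

section
variable (T : Tri V) (f : S → V × V × V) (hf : ∀ s, T.F (f s).1 (f s).2.1 (f s).2.2)

include hf

theorem R_F {s : S} {a b c : V} (h : IsRot (f s).1 (f s).2.1 (f s).2.2 a b c) : T.F a b c := by
  rcases h with ⟨h1, h2, h3⟩ | ⟨h1, h2, h3⟩ | ⟨h1, h2, h3⟩
  · rw [h1, h2, h3]; exact hf s
  · rw [h1, h2, h3]; exact T.rot _ _ _ (hf s)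
  · rw [h1, h2, h3]; exact T.rot _ _ _ (T.rot _ _ _ (hf s))

theorem R_first {s : S} {a b c b' c' : V} (h : IsRot (f s).1 (f s).2.1 (f s).2.2 a b c)
    (h' : IsRot (f s).1 (f s).2.1 (f s).2.2 a b' c') : b = b' ∧ c = c' :=
  rot_first (T.ne _ _ _ (hf s)) (T.ne _ _ _ (T.rot _ _ _ (hf s)))
    (T.ne _ _ _ (T.rot _ _ _ (T.rot _ _ _ (hf s)))) h h'

variable (hd : ∀ s t, s ≠ t → ¬ IsRot (f s).1 (f s).2.1 (f s).2.2 (f t).1 (f t).2.1 (f t).2.2)

include hd

theorem R_inj {s t : S} {a b c c' : V} (h : IsRot (f s).1 (f s).2.1 (f s).2.2 a b c)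
    (h' : IsRot (f t).1 (f t).2.1 (f t).2.2 a b c') : s = t := by
  have hc : c = c' := T.uniq a b c c' (R_F T f hf h) (R_F T f hf h')
  subst hc
  by_contra hst
  exact hd s t hst (rot_same h h')

omit hd hf in
theorem FF_rot (x y z : V ⊕ S) (h : FF T f x y z) : FF T f y z x := by
  match x, y, z, h with
  | .inl a, .inl b, .inl c, h =>
    exact ⟨T.rot _ _ _ h.1, fun s hs => h.2 s (rot_rot (rot_rot hs))⟩
  | .inr s, .inl a, .inl b, h => exact h
  | .inl a, .inl b, .inr s, h => exact h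
  | .inl b, .inr s, .inl a, h => exact h
  | .inr _, .inr _, .inl _, h => exact h.elim
  | .inr _, .inr _, .inr _, h => exact h.elim
  | .inr _, .inl _, .inr _, h => exact h.elim
  | .inl _, .inr _, .inr _, h => exact h.elim

omit hd in
/-- an old directed edge -/
theorem FF_old {a b : V} {z : V ⊕ S} (h : FF T f (.inl a) (.inl b) z) : ∃ c, T.F a b c := by
  match z, h with
  | .inl c, h => exact ⟨c, h.1⟩
  | .inr s, h =>
    obtain ⟨c, hc⟩ := h
    exact ⟨c, R_F T f hf hc⟩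

omit hd hf in
theorem FF_new {a b c : V} (h : T.F a b c) : ∃ z, FF T f (.inl a) (.inl b) z := by
  by_cases hs : ∃ s, IsRot (f s).1 (f s).2.1 (f s).2.2 a b c
  · obtain ⟨s, hs⟩ := hs
    exact ⟨.inr s, c, hs⟩
  · push Not at hs
    exact ⟨.inl c, h, hs⟩

omit hd in
theorem FF_ne (x y z : V ⊕ S) (h : FF T f x y z) : x ≠ y := by
  match x, y, z, h with
  | .inl a, .inl b, z, h =>
    obtain ⟨c, hc⟩ := FF_old T f hf h
    intro he
    exact T.ne _ _ _ hc (Sum.inl_injective he)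
  | .inr s, .inl a, .inl b, h => exact Sum.inr_ne_inl
  | .inl b, .inr s, .inl a, h => exact Sum.inl_ne_inr
  | .inr _, .inr _, .inl _, h => exact h.elim
  | .inr _, .inr _, .inr _, h => exact h.elim
  | .inr _, .inl _, .inr _, h => exact h.elim
  | .inl _, .inr _, .inr _, h => exact h.elim

theorem FF_uniq (x y z w : V ⊕ S) (h : FF T f x y z) (h' : FF T f x y w) : z = w := by
  match x, y, z, w, h, h' with
  | .inl a, .inl b, .inl c, .inl d, h, h' => rw [T.uniq a b c d h.1 h'.1]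
  | .inl a, .inl b, .inl c, .inr s, h, h' =>
    exfalso
    obtain ⟨c', hc'⟩ := h'
    have := T.uniq a b c c' h.1 (R_F T f hf hc')
    rw [← this] at hc'
    exact h.2 s hc'
  | .inl a, .inl b, .inr s, .inl c, h', h =>
    exfalso
    obtain ⟨c', hc'⟩ := h'
    have := T.uniq a b c c' h.1 (R_F T f hf hc')
    rw [← this] at hc'
    exact h.2 s hc'
  | .inl a, .inl b, .inr s, .inr t, h, h' =>
    obtain ⟨c, hc⟩ := h
    obtain ⟨c', hc'⟩ := h'
    rw [R_inj T f hf hd hc hc']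
  | .inl b, .inr s, .inl a, .inl a', h, h' =>
    obtain ⟨c, hc⟩ := h
    obtain ⟨c', hc'⟩ := h'
    rw [(R_first T f hf (rot_rot hc) (rot_rot hc')).2]
  | .inr s, .inl a, .inl b, .inl b', h, h' =>
    obtain ⟨c, hc⟩ := h
    obtain ⟨c', hc'⟩ := h'
    rw [(R_first T f hf hc hc').1]
  | .inl _, .inr _, .inr _, _, h, _ => exact h.elim
  | .inl _, .inr _, .inl _, .inr _, _, h => exact h.elim
  | .inr _, .inl _, .inr _, _, h, _ => exact h.elim
  | .inr _, .inl _, .inl _, .inr _, _, h => exact h.elim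
  | .inr _, .inr _, _, _, h, _ => exact h.elim

omit hd in
theorem FF_opp (x y z : V ⊕ S) (h : FF T f x y z) : ∃ w, FF T f y x w := by
  match x, y, z, h with
  | .inl a, .inl b, z, h =>
    obtain ⟨c, hc⟩ := FF_old T f hf h
    obtain ⟨d, hd'⟩ := T.opp _ _ _ hc
    exact FF_new T f hd'
  | .inr s, .inl a, .inl b, h =>
    obtain ⟨c, hc⟩ := h
    exact ⟨.inl c, b, rot_rot (rot_rot hc)⟩
  | .inl b, .inr s, .inl a, h =>
    obtain ⟨c, hc⟩ := h
    exact ⟨.inl c, a, rot_rot hc⟩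
  | .inr _, .inr _, .inl _, h => exact h.elim
  | .inr _, .inr _, .inr _, h => exact h.elim
  | .inr _, .inl _, .inr _, h => exact h.elim
  | .inl _, .inr _, .inr _, h => exact h.elim

omit hd hf in
theorem FF_link_step (v x y : V) (h : T.F v x y) :
    Relation.ReflTransGen (fun a b => FF T f (.inl v) a b) (.inl x) (.inl y) := by
  by_cases hs : ∃ s, IsRot (f s).1 (f s).2.1 (f s).2.2 v x y
  · obtain ⟨s, hs⟩ := hs
    have h1 : FF T f (.inl v) (.inl x) (.inr s) := ⟨y, hs⟩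
    have h2 : FF T f (.inl v) (.inr s) (.inl y) := ⟨x, rot_rot (rot_rot hs)⟩
    exact (Relation.ReflTransGen.single h1).tail h2
  · push Not at hs
    exact Relation.ReflTransGen.single (⟨h, hs⟩ : FF T f (.inl v) (.inl x) (.inl y))

omit hd hf in
theorem FF_link_path (v x y : V) (h : Relation.ReflTransGen (fun a b => T.F v a b) x y) :
    Relation.ReflTransGen (fun a b => FF T f (.inl v) a b) (.inl x) (.inl y) := by
  induction h with
  | refl => exact Relation.ReflTransGen.refl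
  | tail _ h2 ih => exact ih.trans (FF_link_step T f v _ _ h2)

omit hd in
theorem FF_link_out (v : V) (a b : V ⊕ S) (h : FF T f (.inl v) a b) :
    ∃ a0 b0, T.F v a0 b0 ∧
      Relation.ReflTransGen (fun x y => FF T f (.inl v) x y) a (.inl a0) := by
  match a, b, h with
  | .inl a, b, h =>
    obtain ⟨c, hc⟩ := FF_old T f hf h
    exact ⟨a, c, hc, Relation.ReflTransGen.refl⟩
  | .inr s, .inl y, h =>
    obtain ⟨c, hc⟩ := h
    obtain ⟨d, hd'⟩ := T.opp _ _ _ (R_F T f hf hc)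
    exact ⟨y, d, hd', Relation.ReflTransGen.single
      (⟨c, hc⟩ : FF T f (.inl v) (.inr s) (.inl y))⟩
  | .inr _, .inr _, h => exact h.elim

omit hd in
theorem FF_link_in (v : V) (a b : V ⊕ S) (h : FF T f (.inl v) a b) :
    ∃ a0 b0, T.F v a0 b0 ∧
      Relation.ReflTransGen (fun x y => FF T f (.inl v) x y) (.inl a0) a := by
  match a, b, h with
  | .inl a, b, h =>
    obtain ⟨c, hc⟩ := FF_old T f hf h
    exact ⟨a, c, hc, Relation.ReflTransGen.refl⟩
  | .inr s, .inl y, h =>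
    obtain ⟨c, hc⟩ := h
    have h1 := rot_rot hc
    exact ⟨c, y, R_F T f hf h1, Relation.ReflTransGen.single
      (⟨y, h1⟩ : FF T f (.inl v) (.inl c) (.inr s))⟩
  | .inr _, .inr _, h => exact h.elim

omit hd in
theorem FF_link (v a b c d : V ⊕ S) (h : FF T f v a b) (h' : FF T f v c d) :
    Relation.ReflTransGen (fun x y => FF T f v x y) a c := by
  match v, h, h' with
  | .inl v, h, h' =>
    obtain ⟨a0, b0, h1, h2⟩ := FF_link_out T f hf v a b h
    obtain ⟨c0, d0, h3, h4⟩ := FF_link_in T f hf v c d h'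
    exact (h2.trans (FF_link_path T f v a0 c0 (T.link v a0 b0 c0 d0 h1 h3))).trans h4
  | .inr s, h, h' =>
    match a, b, c, d, h, h' with
    | .inl a, .inl b, .inl c, .inl d, h, h' =>
      obtain ⟨z, hz⟩ := h
      obtain ⟨w, hw⟩ := h'
      have s1 : FF T f (.inr s) (.inl a) (.inl b) := ⟨z, hz⟩
      have s2 : FF T f (.inr s) (.inl b) (.inl z) := ⟨a, rot_rot hz⟩
      rcases rot_mem hz hw with rfl | rfl | rfl
      · exact Relation.ReflTransGen.refl
      · exact Relation.ReflTransGen.single s1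
      · exact (Relation.ReflTransGen.single s1).tail s2
    | .inr _, _, _, _, h, _ => exact h.elim
    | .inl _, .inr _, _, _, h, _ => exact h.elim
    | .inl _, .inl _, .inr _, _, _, h => exact h.elim
    | .inl _, .inl _, .inl _, .inr _, _, h => exact h.elim

omit hd hf in
theorem FF_conn_old (u v : V) :
    Relation.ReflTransGen (fun x y => ∃ z, FF T f x y z) (.inl u) (.inl v) := by
  have h := T.conn u v
  induction h with
  | refl => exact Relation.ReflTransGen.refl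
  | tail _ h2 ih =>
    obtain ⟨z, hz⟩ := h2
    exact ih.tail (FF_new T f hz)

omit hd hf in
theorem FF_conn (u v : V ⊕ S) : Relation.ReflTransGen (fun x y => ∃ z, FF T f x y z) u v := by
  have h1 : ∀ u : V ⊕ S, ∃ u0 : V,
      Relation.ReflTransGen (fun x y => ∃ z, FF T f x y z) u (.inl u0) ∧
      Relation.ReflTransGen (fun x y => ∃ z, FF T f x y z) (.inl u0) u := by
    rintro (u | s)
    · exact ⟨u, Relation.ReflTransGen.refl, Relation.ReflTransGen.refl⟩
    · refine ⟨(f s).1, Relation.ReflTransGen.single ?_, Relation.ReflTransGen.single ?_⟩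
      · exact ⟨.inl (f s).2.1, (f s).2.2, Or.inl ⟨rfl, rfl, rfl⟩⟩
      · exact ⟨.inl (f s).2.2, (f s).2.1, Or.inr (Or.inr ⟨rfl, rfl, rfl⟩)⟩
  obtain ⟨u0, a1, _⟩ := h1 u
  obtain ⟨v0, _, b2⟩ := h1 v
  exact (a1.trans (FF_conn_old T f u0 v0)).trans b2

end

/-- rotations -/
def PP (f : S → V × V × V) (p : S × Fin 3) : V × V × V :=
  ![((f p.1).1, (f p.1).2.1, (f p.1).2.2), ((f p.1).2.1, (f p.1).2.2, (f p.1).1),
    ((f p.1).2.2, (f p.1).1, (f p.1).2.1)] p.2

theorem PP_rot (f : S → V × V × V) (s : S) (i : Fin 3) :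
    IsRot (f s).1 (f s).2.1 (f s).2.2 (PP f (s, i)).1 (PP f (s, i)).2.1 (PP f (s, i)).2.2 := by
  fin_cases i
  · exact Or.inl ⟨rfl, rfl, rfl⟩
  · exact Or.inr (Or.inl ⟨rfl, rfl, rfl⟩)
  · exact Or.inr (Or.inr ⟨rfl, rfl, rfl⟩)

theorem PP_surj (f : S → V × V × V) (s : S) (a b c : V)
    (h : IsRot (f s).1 (f s).2.1 (f s).2.2 a b c) : ∃ i, PP f (s, i) = (a, b, c) := by
  rcases h with ⟨h1, h2, h3⟩ | ⟨h1, h2, h3⟩ | ⟨h1, h2, h3⟩
  · exact ⟨0, by rw [h1, h2, h3]; rfl⟩
  · exact ⟨1, by rw [h1, h2, h3]; rfl⟩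
  · exact ⟨2, by rw [h1, h2, h3]; rfl⟩

theorem PP_first (T : Tri V) (f : S → V × V × V) (hf : ∀ s, T.F (f s).1 (f s).2.1 (f s).2.2)
    (s : S) (i j : Fin 3) (h : (PP f (s, i)).1 = (PP f (s, j)).1) : i = j := by
  have h12 := T.ne _ _ _ (hf s)
  have h23 := T.ne _ _ _ (T.rot _ _ _ (hf s))
  have h31 := T.ne _ _ _ (T.rot _ _ _ (T.rot _ _ _ (hf s)))
  fin_cases i <;> fin_cases j
  · rfl
  · exact absurd h h12
  · exact absurd h.symm h31
  · exact absurd h.symm h12
  · rfl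
  · exact absurd h h23
  · exact absurd h h31
  · exact absurd h.symm h23
  · rfl

/-- unstacked faces -/
abbrev UU (T : Tri V) (f : S → V × V × V) : Type :=
  {t : V × V × V // T.F t.1 t.2.1 t.2.2 ∧
    ∀ s, ¬ IsRot (f s).1 (f s).2.1 (f s).2.2 t.1 t.2.1 t.2.2}

theorem card_old [Finite V] [Finite S] (T : Tri V) (f : S → V × V × V)
    (hf : ∀ s, T.F (f s).1 (f s).2.1 (f s).2.2)
    (hd : ∀ s t, s ≠ t → ¬ IsRot (f s).1 (f s).2.1 (f s).2.2 (f t).1 (f t).2.1 (f t).2.2) :
    Nat.card {t : V × V × V // T.F t.1 t.2.1 t.2.2} = Nat.card (UU T f) + 3 * Nat.card S := by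
  let Φ : UU T f ⊕ (S × Fin 3) → {t : V × V × V // T.F t.1 t.2.1 t.2.2} := fun x =>
    match x with
    | .inl u => ⟨u.1, u.2.1⟩
    | .inr p => ⟨PP f p, R_F T f hf (PP_rot f p.1 p.2)⟩
  have hΦ : Function.Bijective Φ := by
    constructor
    · rintro (u | ⟨s, i⟩) (v | ⟨t, j⟩) h
      · have h' : (Φ (.inl u)).1 = (Φ (.inl v)).1 := congrArg Subtype.val h
        have h'' : u.1 = v.1 := h'
        rw [Subtype.ext h'']
      · exfalso
        have h' : u.1 = PP f (t, j) := congrArg Subtype.val h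
        apply u.2.2 t
        rw [h']
        exact PP_rot f t j
      · exfalso
        have h' : PP f (s, i) = v.1 := congrArg Subtype.val h
        apply v.2.2 s
        rw [← h']
        exact PP_rot f s i
      · have h' : PP f (s, i) = PP f (t, j) := congrArg Subtype.val h
        have h1 := PP_rot f s i
        have h2 := PP_rot f t j
        rw [← h'] at h2
        have hst := R_inj T f hf hd h1 h2
        subst hst
        have hij := PP_first T f hf s i j (by rw [h'])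
        rw [hij]
    · rintro ⟨⟨a, b, c⟩, ht⟩
      by_cases hs : ∃ s, IsRot (f s).1 (f s).2.1 (f s).2.2 a b c
      · obtain ⟨s, hs⟩ := hs
        obtain ⟨i, hi⟩ := PP_surj f s a b c hs
        exact ⟨.inr (s, i), Subtype.ext hi⟩
      · push Not at hs
        exact ⟨.inl ⟨(a, b, c), ht, hs⟩, rfl⟩
  rw [← Nat.card_congr (Equiv.ofBijective Φ hΦ), Nat.card_sum, Nat.card_prod, Nat.card_fin]
  ring

theorem card_new [Finite V] [Finite S] (T : Tri V) (f : S → V × V × V)
    (hf : ∀ s, T.F (f s).1 (f s).2.1 (f s).2.2)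
    (hd : ∀ s t, s ≠ t → ¬ IsRot (f s).1 (f s).2.1 (f s).2.2 (f t).1 (f t).2.1 (f t).2.2) :
    Nat.card {t : (V ⊕ S) × (V ⊕ S) × (V ⊕ S) // FF T f t.1 t.2.1 t.2.2} =
      Nat.card (UU T f) + 9 * Nat.card S := by
  let Φ : UU T f ⊕ ((S × Fin 3) ⊕ ((S × Fin 3) ⊕ (S × Fin 3))) →
      {t : (V ⊕ S) × (V ⊕ S) × (V ⊕ S) // FF T f t.1 t.2.1 t.2.2} := fun x =>
    match x with
    | .inl u => ⟨(.inl u.1.1, .inl u.1.2.1, .inl u.1.2.2), u.2⟩
    | .inr (.inl p) => ⟨(.inr p.1, .inl (PP f p).1, .inl (PP f p).2.1), (PP f p).2.2,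
        PP_rot f p.1 p.2⟩
    | .inr (.inr (.inl p)) => ⟨(.inl (PP f p).1, .inl (PP f p).2.1, .inr p.1), (PP f p).2.2,
        PP_rot f p.1 p.2⟩
    | .inr (.inr (.inr p)) => ⟨(.inl (PP f p).2.1, .inr p.1, .inl (PP f p).1), (PP f p).2.2,
        PP_rot f p.1 p.2⟩
  have hΦ : Function.Bijective Φ := by
    constructor
    · rintro (u | p | p | p) (v | q | q | q) h <;>
        have h' := congrArg Subtype.val h <;>
        simp only [Φ, Prod.mk.injEq, reduceCtorEq, Sum.inl.injEq, Sum.inr.injEq, false_and,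
          and_false] at h'
      · have : u.1 = v.1 := Prod.ext h'.1 (Prod.ext h'.2.1 h'.2.2)
        rw [Subtype.ext this]
      · obtain ⟨s, i⟩ := p
        obtain ⟨t, j⟩ := q
        obtain ⟨h1, h2, h3⟩ := h'
        have h1' : s = t := h1
        subst h1'
        rw [PP_first T f hf s i j h2]
      · obtain ⟨s, i⟩ := p
        obtain ⟨t, j⟩ := q
        obtain ⟨h1, h2, h3⟩ := h'
        have h3' : s = t := h3
        subst h3'
        rw [PP_first T f hf s i j h1]
      · obtain ⟨s, i⟩ := p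
        obtain ⟨t, j⟩ := q
        obtain ⟨h1, h2, h3⟩ := h'
        have h2' : s = t := h2
        subst h2'
        rw [PP_first T f hf s i j h3]
    · rintro ⟨⟨x, y, z⟩, ht⟩
      match x, y, z, ht with
      | .inl a, .inl b, .inl c, ht => exact ⟨.inl ⟨(a, b, c), ht⟩, rfl⟩
      | .inr s, .inl a, .inl b, ht =>
        obtain ⟨c, hc⟩ := ht
        obtain ⟨i, hi⟩ := PP_surj f s a b c hc
        refine ⟨.inr (.inl (s, i)), Subtype.ext ?_⟩
        show ((.inr s, .inl (PP f (s, i)).1, .inl (PP f (s, i)).2.1) :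
          (V ⊕ S) × (V ⊕ S) × (V ⊕ S)) = _
        rw [hi]
      | .inl a, .inl b, .inr s, ht =>
        obtain ⟨c, hc⟩ := ht
        obtain ⟨i, hi⟩ := PP_surj f s a b c hc
        refine ⟨.inr (.inr (.inl (s, i))), Subtype.ext ?_⟩
        show ((.inl (PP f (s, i)).1, .inl (PP f (s, i)).2.1, .inr s) :
          (V ⊕ S) × (V ⊕ S) × (V ⊕ S)) = _
        rw [hi]
      | .inl b, .inr s, .inl a, ht =>
        obtain ⟨c, hc⟩ := ht
        obtain ⟨i, hi⟩ := PP_surj f s a b c hc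
        refine ⟨.inr (.inr (.inr (s, i))), Subtype.ext ?_⟩
        show ((.inl (PP f (s, i)).2.1, .inr s, .inl (PP f (s, i)).1) :
          (V ⊕ S) × (V ⊕ S) × (V ⊕ S)) = _
        rw [hi]
      | .inr _, .inr _, .inl _, h => exact h.elim
      | .inr _, .inr _, .inr _, h => exact h.elim
      | .inr _, .inl _, .inr _, h => exact h.elim
      | .inl _, .inr _, .inr _, h => exact h.elim
  rw [← Nat.card_congr (Equiv.ofBijective Φ hΦ), Nat.card_sum, Nat.card_sum, Nat.card_sum,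
    Nat.card_prod, Nat.card_fin]
  ring


theorem MSTACK {V S : Type} [Fintype V] [Fintype S] (T : Tri V) (f : S → V × V × V)
    (hf : ∀ s, T.F (f s).1 (f s).2.1 (f s).2.2)
    (hd : ∀ s t, s ≠ t → ¬ IsRot (f s).1 (f s).2.1 (f s).2.2 (f t).1 (f t).2.1 (f t).2.2) :
    ∃ T' : Tri (V ⊕ S), IsStack T f T' := by
  refine ⟨{ F := FF T f
            rot := FF_rot T f
            ne := FF_ne T f hf
            uniq := FF_uniq T f hf hd
            opp := FF_opp T f hf
            link := FF_link T f hf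
            conn := FF_conn T f
            euler := ?_ }, ?_, ?_, ?_⟩
  · rw [card_new T f hf hd, Nat.card_sum]
    have h1 := card_old T f hf hd
    have h2 := T.euler
    omega
  · intro a b c
    exact Iff.rfl
  · intro s a b
    exact Iff.rfl
  · intro s t x h
    exact h



section Flip

variable {V : Type}

/-- faces after the flip of the edge p q (faces p q t and q p r) to the edge r t -/
def FL (T : Tri V) (p q r t : V) (x y z : V) : Prop :=
  (T.F x y z ∧ ¬ IsRot p q t x y z ∧ ¬ IsRot q p r x y z) ∨ IsRot p r t x y z ∨ IsRot r q t x y z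

theorem isRot_rot (o1 o2 o3 a b c : V) : IsRot o1 o2 o3 a b c ↔ IsRot o2 o3 o1 a b c := by
  unfold IsRot
  constructor
  · rintro (h | h | h)
    · exact Or.inr (Or.inr h)
    · exact Or.inl h
    · exact Or.inr (Or.inl h)
  · rintro (h | h | h)
    · exact Or.inr (Or.inl h)
    · exact Or.inr (Or.inr h)
    · exact Or.inl h

theorem FL_symm (T : Tri V) (p q r t : V) (x y z : V) : FL T p q r t x y z ↔ FL T q p t r x y z := by
  unfold FL
  rw [isRot_rot p r t, isRot_rot r t p, isRot_rot r q t]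
  constructor
  · rintro (⟨h1, h2, h3⟩ | h | h)
    · exact Or.inl ⟨h1, h3, h2⟩
    · exact Or.inr (Or.inr h)
    · exact Or.inr (Or.inl h)
  · rintro (⟨h1, h2, h3⟩ | h | h)
    · exact Or.inl ⟨h1, h3, h2⟩
    · exact Or.inr (Or.inr h)
    · exact Or.inr (Or.inl h)

theorem FL_symm' (T : Tri V) (p q r t : V) : FL T p q r t = FL T q p t r := by
  funext x y z
  exact propext (FL_symm T p q r t x y z)

variable (T : Tri V) (p q r t : V)

theorem FL_rot (x y z : V) (h : FL T p q r t x y z) : FL T p q r t y z x := by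
  rcases h with ⟨h1, h2, h3⟩ | h | h
  · exact Or.inl ⟨T.rot _ _ _ h1, fun h => h2 (rot_rot (rot_rot h)), fun h => h3 (rot_rot (rot_rot h))⟩
  · exact Or.inr (Or.inl (rot_rot h))
  · exact Or.inr (Or.inr (rot_rot h))

/-- the hypotheses of a flip -/
structure HF (T : Tri V) (p q r t : V) : Prop where
  h1 : T.F p q t
  h2 : T.F q p r
  rt : r ≠ t
  hn : ∀ z, ¬ T.F r t z
  hn' : ∀ z, ¬ T.F t r z

theorem HF.symm {T : Tri V} {p q r t : V} (H : HF T p q r t) : HF T q p t r :=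
  ⟨H.h2, H.h1, H.rt.symm, H.hn', H.hn⟩

variable {T p q r t}

theorem HF.pq (H : HF T p q r t) : p ≠ q := T.ne _ _ _ H.h1
theorem HF.qt (H : HF T p q r t) : q ≠ t := T.ne _ _ _ (T.rot _ _ _ H.h1)
theorem HF.tp (H : HF T p q r t) : t ≠ p := T.ne _ _ _ (T.rot _ _ _ (T.rot _ _ _ H.h1))
theorem HF.pr (H : HF T p q r t) : p ≠ r := T.ne _ _ _ (T.rot _ _ _ H.h2)
theorem HF.rq (H : HF T p q r t) : r ≠ q := T.ne _ _ _ (T.rot _ _ _ (T.rot _ _ _ H.h2))

theorem HF.e1 (H : HF T p q r t) {z : V} (h : T.F p q z) : z = t := T.uniq _ _ _ _ h H.h1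
theorem HF.e2 (H : HF T p q r t) {z : V} (h : T.F q t z) : z = p :=
  T.uniq _ _ _ _ h (T.rot _ _ _ H.h1)
theorem HF.e3 (H : HF T p q r t) {z : V} (h : T.F t p z) : z = q :=
  T.uniq _ _ _ _ h (T.rot _ _ _ (T.rot _ _ _ H.h1))
theorem HF.e4 (H : HF T p q r t) {z : V} (h : T.F q p z) : z = r := T.uniq _ _ _ _ h H.h2
theorem HF.e5 (H : HF T p q r t) {z : V} (h : T.F p r z) : z = q :=
  T.uniq _ _ _ _ h (T.rot _ _ _ H.h2)
theorem HF.e6 (H : HF T p q r t) {z : V} (h : T.F r q z) : z = p :=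
  T.uniq _ _ _ _ h (T.rot _ _ _ (T.rot _ _ _ H.h2))

/-- no kept face on an edge of a new face -/
theorem kn (H : HF T p q r t) {x y z w : V} (k1 : T.F x y z) (k2 : ¬ IsRot p q t x y z)
    (k3 : ¬ IsRot q p r x y z) (k : IsRot p r t x y w ∨ IsRot r q t x y w) : False := by
  rcases k with (⟨a1, a2, a3⟩ | ⟨a1, a2, a3⟩ | ⟨a1, a2, a3⟩) |
    (⟨a1, a2, a3⟩ | ⟨a1, a2, a3⟩ | ⟨a1, a2, a3⟩) <;> rw [a1, a2] at k1 k2 k3
  · rw [H.e5 k1] at k3
    exact k3 (Or.inr (Or.inl ⟨rfl, rfl, rfl⟩))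
  · exact H.hn _ k1
  · rw [H.e3 k1] at k2
    exact k2 (Or.inr (Or.inr ⟨rfl, rfl, rfl⟩))
  · rw [H.e6 k1] at k3
    exact k3 (Or.inr (Or.inr ⟨rfl, rfl, rfl⟩))
  · rw [H.e2 k1] at k2
    exact k2 (Or.inr (Or.inl ⟨rfl, rfl, rfl⟩))
  · exact H.hn' _ k1

/-- new faces are determined by an edge -/
theorem nn (H : HF T p q r t) {x y z w : V} (k : IsRot p r t x y z ∨ IsRot r q t x y z)
    (k' : IsRot p r t x y w ∨ IsRot r q t x y w) : z = w := by
  have d1 := H.pq
  have d2 := H.qt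
  have d3 := H.tp
  have d4 := H.pr
  have d5 := H.rq
  have d6 := H.rt
  rcases k with (⟨a1, a2, a3⟩ | ⟨a1, a2, a3⟩ | ⟨a1, a2, a3⟩) |
    (⟨a1, a2, a3⟩ | ⟨a1, a2, a3⟩ | ⟨a1, a2, a3⟩) <;>
  rcases k' with (⟨b1, b2, b3⟩ | ⟨b1, b2, b3⟩ | ⟨b1, b2, b3⟩) |
    (⟨b1, b2, b3⟩ | ⟨b1, b2, b3⟩ | ⟨b1, b2, b3⟩) <;>
  first
  | exact a3.trans b3.symm
  | (exfalso
     rw [a1] at b1
     rw [a2] at b2
     first
     | exact d1 b1
     | exact d1 b1.symm
     | exact d2 b1
     | exact d2 b1.symm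
     | exact d3 b1
     | exact d3 b1.symm
     | exact d4 b1
     | exact d4 b1.symm
     | exact d5 b1
     | exact d5 b1.symm
     | exact d6 b1
     | exact d6 b1.symm
     | exact d1 b2
     | exact d1 b2.symm
     | exact d2 b2
     | exact d2 b2.symm
     | exact d3 b2
     | exact d3 b2.symm
     | exact d4 b2
     | exact d4 b2.symm
     | exact d5 b2
     | exact d5 b2.symm
     | exact d6 b2
     | exact d6 b2.symm)

theorem FL_uniq (H : HF T p q r t) (x y z w : V) (h : FL T p q r t x y z)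
    (h' : FL T p q r t x y w) : z = w := by
  rcases h with ⟨k1, k2, k3⟩ | k
  · rcases h' with ⟨k1', k2', k3'⟩ | k'
    · exact T.uniq _ _ _ _ k1 k1'
    · exact (kn H k1 k2 k3 k').elim
  · rcases h' with ⟨k1', k2', k3'⟩ | k'
    · exact (kn H k1' k2' k3' k).elim
    · exact nn H k k'

theorem FL_ne (H : HF T p q r t) (x y z : V) (h : FL T p q r t x y z) : x ≠ y := by
  rcases h with ⟨k1, k2, k3⟩ | (⟨a1, a2, a3⟩ | ⟨a1, a2, a3⟩ | ⟨a1, a2, a3⟩) |
    (⟨a1, a2, a3⟩ | ⟨a1, a2, a3⟩ | ⟨a1, a2, a3⟩)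
  · exact T.ne _ _ _ k1
  · rw [a1, a2]; exact H.pr
  · rw [a1, a2]; exact H.rt
  · rw [a1, a2]; exact H.tp
  · rw [a1, a2]; exact H.rq
  · rw [a1, a2]; exact H.qt
  · rw [a1, a2]; exact H.rt.symm

theorem n1 : FL T p q r t p r t := Or.inr (Or.inl (Or.inl ⟨rfl, rfl, rfl⟩))
theorem n2 : FL T p q r t r t p := Or.inr (Or.inl (Or.inr (Or.inl ⟨rfl, rfl, rfl⟩)))
theorem n3 : FL T p q r t t p r := Or.inr (Or.inl (Or.inr (Or.inr ⟨rfl, rfl, rfl⟩)))
theorem n4 : FL T p q r t r q t := Or.inr (Or.inr (Or.inl ⟨rfl, rfl, rfl⟩))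
theorem n5 : FL T p q r t q t r := Or.inr (Or.inr (Or.inr (Or.inl ⟨rfl, rfl, rfl⟩)))
theorem n6 : FL T p q r t t r q := Or.inr (Or.inr (Or.inr (Or.inr ⟨rfl, rfl, rfl⟩)))

/-- old edges other than p q persist -/
theorem FL_edge (H : HF T p q r t) {x y z : V} (h : T.F x y z) (h1 : ¬ (x = p ∧ y = q))
    (h2 : ¬ (x = q ∧ y = p)) : ∃ w, FL T p q r t x y w := by
  by_cases k2 : IsRot p q t x y z
  · rcases k2 with ⟨a1, a2, a3⟩ | ⟨a1, a2, a3⟩ | ⟨a1, a2, a3⟩
    · exact (h1 ⟨a1, a2⟩).elim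
    · rw [a1, a2]; exact ⟨r, n5⟩
    · rw [a1, a2]; exact ⟨r, n3⟩
  · by_cases k3 : IsRot q p r x y z
    · rcases k3 with ⟨a1, a2, a3⟩ | ⟨a1, a2, a3⟩ | ⟨a1, a2, a3⟩
      · exact (h2 ⟨a1, a2⟩).elim
      · rw [a1, a2]; exact ⟨t, n1⟩
      · rw [a1, a2]; exact ⟨t, n4⟩
    · exact ⟨z, Or.inl ⟨h, k2, k3⟩⟩

theorem FL_opp (H : HF T p q r t) (x y z : V) (h : FL T p q r t x y z) :
    ∃ w, FL T p q r t y x w := by
  have g := h
  rcases h with ⟨k1, k2, k3⟩ | (⟨a1, a2, a3⟩ | ⟨a1, a2, a3⟩ | ⟨a1, a2, a3⟩) |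
    (⟨a1, a2, a3⟩ | ⟨a1, a2, a3⟩ | ⟨a1, a2, a3⟩)
  · obtain ⟨w, hw⟩ := T.opp _ _ _ k1
    apply FL_edge H hw
    · rintro ⟨b1, b2⟩
      rw [b1, b2] at k1 k3
      rw [H.e4 k1] at k3
      exact k3 (Or.inl ⟨rfl, rfl, rfl⟩)
    · rintro ⟨b1, b2⟩
      rw [b1, b2] at k1 k2
      rw [H.e1 k1] at k2
      exact k2 (Or.inl ⟨rfl, rfl, rfl⟩)
  · rw [a1, a2]
    obtain ⟨w, hw⟩ := T.opp _ _ _ (T.rot _ _ _ H.h2)
    exact FL_edge H hw (fun b => H.pr b.1.symm) (fun b => H.rq b.1)
  · rw [a1, a2]; exact ⟨q, n6⟩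
  · rw [a1, a2]
    obtain ⟨w, hw⟩ := T.opp _ _ _ (T.rot _ _ _ (T.rot _ _ _ H.h1))
    exact FL_edge H hw (fun b => H.qt b.2.symm) (fun b => H.tp b.2)
  · rw [a1, a2]
    obtain ⟨w, hw⟩ := T.opp _ _ _ (T.rot _ _ _ (T.rot _ _ _ H.h2))
    exact FL_edge H hw (fun b => H.pq b.1.symm) (fun b => H.pr b.2.symm)
  · rw [a1, a2]
    obtain ⟨w, hw⟩ := T.opp _ _ _ (T.rot _ _ _ H.h1)
    exact FL_edge H hw (fun b => H.tp b.1) (fun b => H.qt b.1.symm)
  · rw [a1, a2]; exact ⟨p, n2⟩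

theorem FL_conn (H : HF T p q r t) (u v : V) :
    Relation.ReflTransGen (fun x y => ∃ z, FL T p q r t x y z) u v := by
  have h := T.conn u v
  induction h with
  | refl => exact Relation.ReflTransGen.refl
  | @tail x y _ h2 ih =>
    obtain ⟨z, hz⟩ := h2
    refine ih.trans ?_
    by_cases c1 : x = p ∧ y = q
    · rw [c1.1, c1.2]
      exact (Relation.ReflTransGen.single ⟨t, n1⟩).tail ⟨t, n4⟩
    · by_cases c2 : x = q ∧ y = p
      · rw [c2.1, c2.2]
        exact (Relation.ReflTransGen.single ⟨r, n5⟩).tail ⟨r, n3⟩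
      · exact Relation.ReflTransGen.single (FL_edge H hz c1 c2)

theorem FL_link_p (H : HF T p q r t) (a b c d : V) (h : FL T p q r t p a b)
    (h' : FL T p q r t p c d) :
    Relation.ReflTransGen (fun x y => FL T p q r t p x y) a c := by
  have fact : ∀ a b, FL T p q r t p a b → a ≠ q ∧ ∃ b', T.F p a b' := by
    intro a b h
    rcases h with ⟨k1, k2, k3⟩ | (⟨a1, a2, a3⟩ | ⟨a1, a2, a3⟩ | ⟨a1, a2, a3⟩) |
      (⟨a1, a2, a3⟩ | ⟨a1, a2, a3⟩ | ⟨a1, a2, a3⟩)
    · refine ⟨?_, b, k1⟩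
      intro e
      rw [e] at k1 k2
      rw [H.e1 k1] at k2
      exact k2 (Or.inl ⟨rfl, rfl, rfl⟩)
    · rw [a2]
      exact ⟨H.rq, q, T.rot _ _ _ H.h2⟩
    · exact (H.pr a1).elim
    · exact (H.tp a1.symm).elim
    · exact (H.pr a1).elim
    · exact (H.pq a1).elim
    · exact (H.tp a1.symm).elim
  obtain ⟨ha, b', hb'⟩ := fact a b h
  obtain ⟨hc, d', hd'⟩ := fact c d h'
  have key : ∀ y, Relation.ReflTransGen (fun x y => T.F p x y) a y →
      (y ≠ q → Relation.ReflTransGen (fun x y => FL T p q r t p x y) a y) ∧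
      (y = q → Relation.ReflTransGen (fun x y => FL T p q r t p x y) a r) := by
    intro y hy
    induction hy with
    | refl => exact ⟨fun _ => Relation.ReflTransGen.refl, fun e => (ha e).elim⟩
    | @tail y z _ h2 ih =>
      have h2' : T.F p y z := h2
      by_cases hyq : y = q
      · rw [hyq] at h2'
        have hz := H.e1 h2'
        rw [hz]
        refine ⟨fun _ => (ih.2 hyq).tail n1, fun e => (H.qt e.symm).elim⟩
      · refine ⟨fun hzq => (ih.1 hyq).tail (Or.inl ⟨h2', ?_, ?_⟩), fun hzq => ?_⟩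
        · rintro (⟨a1, a2, a3⟩ | ⟨a1, a2, a3⟩ | ⟨a1, a2, a3⟩)
          · exact hyq a2
          · exact H.pq a1
          · exact H.tp a1.symm
        · rintro (⟨a1, a2, a3⟩ | ⟨a1, a2, a3⟩ | ⟨a1, a2, a3⟩)
          · exact H.pq a1
          · exact hzq a3
          · exact H.pr a1
        · rw [hzq] at h2'
          have e := H.e4 (T.rot _ _ _ (T.rot _ _ _ h2'))
          have h3 := ih.1 hyq
          rw [e] at h3
          exact h3
  exact (key c (T.link p a b' c d' hb' hd')).1 hc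

theorem FL_link_r (H : HF T p q r t) (a b c d : V) (h : FL T p q r t r a b)
    (h' : FL T p q r t r c d) :
    Relation.ReflTransGen (fun x y => FL T p q r t r x y) a c := by
  have fact : ∀ a b, FL T p q r t r a b → ∃ a' b' a'' b'', T.F r a' b' ∧ T.F r a'' b'' ∧
      Relation.ReflTransGen (fun x y => FL T p q r t r x y) a a' ∧
      Relation.ReflTransGen (fun x y => FL T p q r t r x y) a'' a := by
    intro a b h
    have hrq : T.F r q p := T.rot _ _ _ (T.rot _ _ _ H.h2)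
    rcases h with ⟨k1, k2, k3⟩ | (⟨a1, a2, a3⟩ | ⟨a1, a2, a3⟩ | ⟨a1, a2, a3⟩) |
      (⟨a1, a2, a3⟩ | ⟨a1, a2, a3⟩ | ⟨a1, a2, a3⟩)
    · exact ⟨a, b, a, b, k1, k1, Relation.ReflTransGen.refl, Relation.ReflTransGen.refl⟩
    · exact (H.pr a1.symm).elim
    · obtain ⟨w, hw⟩ := T.opp _ _ _ (T.rot _ _ _ H.h2)
      rw [a2]
      exact ⟨p, w, q, p, hw, hrq, Relation.ReflTransGen.single n2,
        Relation.ReflTransGen.single n4⟩
    · exact (H.rt a1).elim
    · rw [a2]
      exact ⟨q, p, q, p, hrq, hrq, Relation.ReflTransGen.refl, Relation.ReflTransGen.refl⟩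
    · exact (H.rq a1).elim
    · exact (H.rt a1).elim
  obtain ⟨a', b', _, _, ha', _, ra, _⟩ := fact a b h
  obtain ⟨_, _, c', d', _, hc', _, rc⟩ := fact c d h'
  have key : ∀ x y, Relation.ReflTransGen (fun x y => T.F r x y) x y →
      Relation.ReflTransGen (fun x y => FL T p q r t r x y) x y := by
    intro x y hy
    induction hy with
    | refl => exact Relation.ReflTransGen.refl
    | @tail y z _ h2 ih =>
      have h2' : T.F r y z := h2
      refine ih.trans ?_
      by_cases hyq : y = q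
      · rw [hyq] at h2' ⊢
        rw [H.e6 h2']
        exact (Relation.ReflTransGen.single n4).tail n2
      · refine Relation.ReflTransGen.single (Or.inl ⟨h2', ?_, ?_⟩)
        · rintro (⟨a1, a2, a3⟩ | ⟨a1, a2, a3⟩ | ⟨a1, a2, a3⟩)
          · exact H.pr a1.symm
          · exact H.rq a1
          · exact H.rt a1
        · rintro (⟨a1, a2, a3⟩ | ⟨a1, a2, a3⟩ | ⟨a1, a2, a3⟩)
          · exact H.rq a1
          · exact H.pr a1.symm
          · exact hyq a2
  exact (ra.trans (key _ _ (T.link r a' b' c' d' ha' hc'))).trans rc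

theorem FL_link (H : HF T p q r t) (v a b c d : V) (h : FL T p q r t v a b)
    (h' : FL T p q r t v c d) :
    Relation.ReflTransGen (fun x y => FL T p q r t v x y) a c := by
  by_cases vp : v = p
  · rw [vp] at h h' ⊢
    exact FL_link_p H a b c d h h'
  by_cases vr : v = r
  · rw [vr] at h h' ⊢
    exact FL_link_r H a b c d h h'
  by_cases vq : v = q
  · rw [vq] at h h' ⊢
    rw [FL_symm'] at h h' ⊢
    exact FL_link_p H.symm a b c d h h'
  by_cases vt : v = t
  · rw [vt] at h h' ⊢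
    rw [FL_symm'] at h h' ⊢
    exact FL_link_r H.symm a b c d h h'
  have e : ∀ x y, FL T p q r t v x y ↔ T.F v x y := by
    intro x y
    unfold FL IsRot
    tauto
  simp only [e] at h h' ⊢
  exact T.link v a b c d h h'

theorem FL_card [Finite V] (H : HF T p q r t) :
    Nat.card {x : V × V × V // FL T p q r t x.1 x.2.1 x.2.2} =
      Nat.card {x : V × V × V // T.F x.1 x.2.1 x.2.2} := by
  classical
  have : Fintype V := Fintype.ofFinite V
  have d1 := H.pq
  have d2 := H.qt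
  have d3 := H.tp
  have d4 := H.pr
  have d5 := H.rq
  have d6 := H.rt
  have d1' := d1.symm
  have d2' := d2.symm
  have d3' := d3.symm
  have d4' := d4.symm
  have d5' := d5.symm
  have d6' := d6.symm
  let A : Finset (V × V × V) := Finset.univ.filter (fun x => T.F x.1 x.2.1 x.2.2)
  let B : Finset (V × V × V) := Finset.univ.filter (fun x => FL T p q r t x.1 x.2.1 x.2.2)
  let D : Finset (V × V × V) := {(p, q, t), (q, t, p), (t, p, q), (q, p, r), (p, r, q), (r, q, p)}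
  let N : Finset (V × V × V) := {(p, r, t), (r, t, p), (t, p, r), (r, q, t), (q, t, r), (t, r, q)}
  have hA : Nat.card {x : V × V × V // T.F x.1 x.2.1 x.2.2} = A.card := by
    rw [Nat.card_eq_fintype_card, Fintype.card_subtype]
  have hB : Nat.card {x : V × V × V // FL T p q r t x.1 x.2.1 x.2.2} = B.card := by
    rw [Nat.card_eq_fintype_card, Fintype.card_subtype]
  have hD : D.card = 6 := by
    simp only [D]
    rw [Finset.card_insert_of_notMem, Finset.card_insert_of_notMem, Finset.card_insert_of_notMem,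
      Finset.card_insert_of_notMem, Finset.card_insert_of_notMem, Finset.card_singleton] <;>
    simp [Prod.ext_iff, d1, d2, d3, d4, d5, d6, d1', d2', d3', d4', d5', d6']
  have hN : N.card = 6 := by
    simp only [N]
    rw [Finset.card_insert_of_notMem, Finset.card_insert_of_notMem, Finset.card_insert_of_notMem,
      Finset.card_insert_of_notMem, Finset.card_insert_of_notMem, Finset.card_singleton] <;>
    simp [Prod.ext_iff, d1, d2, d3, d4, d5, d6, d1', d2', d3', d4', d5', d6']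
  have memD : ∀ x : V × V × V, x ∈ D ↔ (IsRot p q t x.1 x.2.1 x.2.2 ∨ IsRot q p r x.1 x.2.1 x.2.2) := by
    rintro ⟨x, y, z⟩
    simp only [D, Finset.mem_insert, Finset.mem_singleton, Prod.mk.injEq, IsRot, or_assoc]
  have memN : ∀ x : V × V × V, x ∈ N ↔ (IsRot p r t x.1 x.2.1 x.2.2 ∨ IsRot r q t x.1 x.2.1 x.2.2) := by
    rintro ⟨x, y, z⟩
    simp only [N, Finset.mem_insert, Finset.mem_singleton, Prod.mk.injEq, IsRot, or_assoc]
  have hDA : D ⊆ A := by
    intro x hx
    rw [memD] at hx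
    simp only [A, Finset.mem_filter, Finset.mem_univ, true_and]
    obtain ⟨x, y, z⟩ := x
    rcases hx with (⟨a1, a2, a3⟩ | ⟨a1, a2, a3⟩ | ⟨a1, a2, a3⟩) |
      (⟨a1, a2, a3⟩ | ⟨a1, a2, a3⟩ | ⟨a1, a2, a3⟩) <;> rw [a1, a2, a3]
    · exact H.h1
    · exact T.rot _ _ _ H.h1
    · exact T.rot _ _ _ (T.rot _ _ _ H.h1)
    · exact H.h2
    · exact T.rot _ _ _ H.h2
    · exact T.rot _ _ _ (T.rot _ _ _ H.h2)
  have hNA : Disjoint (A \ D) N := by
    rw [Finset.disjoint_left]
    intro x hx hx'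
    rw [Finset.mem_sdiff, memD] at hx
    rw [memN] at hx'
    simp only [A, Finset.mem_filter, Finset.mem_univ, true_and] at hx
    exact kn H hx.1 (fun h => hx.2 (Or.inl h)) (fun h => hx.2 (Or.inr h)) hx'
  have hBm : ∀ x, x ∈ B ↔ FL T p q r t x.1 x.2.1 x.2.2 := by
    intro x
    simp only [B, Finset.mem_filter, Finset.mem_univ, true_and]
  have hAm : ∀ x, x ∈ A ↔ T.F x.1 x.2.1 x.2.2 := by
    intro x
    simp only [A, Finset.mem_filter, Finset.mem_univ, true_and]
  have hBe : B = (A \ D) ∪ N := by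
    ext x
    rw [Finset.mem_union, Finset.mem_sdiff, memD, memN, hAm, hBm, not_or]
    exact Iff.rfl
  have hle := Finset.card_le_card hDA
  rw [hA, hB, hBe, Finset.card_union_of_disjoint hNA, Finset.card_sdiff_of_subset hDA, hD, hN]
  omega

/-- the flipped triangulation -/
def flipT [Finite V] (H : HF T p q r t) : Tri V where
  F := FL T p q r t
  rot := FL_rot T p q r t
  ne := FL_ne H
  uniq := FL_uniq H
  opp := FL_opp H
  link := FL_link H
  conn := FL_conn H
  euler := by rw [FL_card H]; exact T.euler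

end Flip

theorem FE_base {V S : Type} [Fintype V] [Fintype S] (T : Tri V) (c : S → V) (m : S → ℕ) (a : S → ℕ → V)
    (hm : ∀ s, m s = 1) (hF : ∀ s i, i < m s → T.F (c s) (a s i) (a s (i + 1)))
    (hd : ∀ s r i j, s ≠ r → i < m s → j < m r →
      ¬ IsRot (c s) (a s i) (a s (i + 1)) (c r) (a r j) (a r (j + 1))) :
    ∃ T' : Tri (V ⊕ S), IsFan T c m a T' := by
  obtain ⟨T', h1, h2, h3⟩ := MSTACK T (fun s => (c s, a s 0, a s 1))
    (fun s => hF s 0 (by rw [hm s]; exact Nat.one_pos))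
    (fun s t hst => hd s t 0 0 hst (by rw [hm s]; exact Nat.one_pos) (by rw [hm t]; exact Nat.one_pos))
  refine ⟨T', ?_, ?_, h3⟩
  · intro x y w
    rw [h1]
    constructor
    · rintro ⟨g1, g2⟩
      refine ⟨g1, fun s i hi => ?_⟩
      rw [hm s] at hi
      have : i = 0 := by omega
      rw [this]
      exact g2 s
    · rintro ⟨g1, g2⟩
      exact ⟨g1, fun s => g2 s 0 (by rw [hm s]; exact Nat.one_pos)⟩
  · intro s x y
    rw [h2, hm s]
    constructor
    · rintro ⟨w, ⟨a1, a2, a3⟩ | ⟨a1, a2, a3⟩ | ⟨a1, a2, a3⟩⟩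
      · exact Or.inr (Or.inl ⟨a1, a2⟩)
      · exact Or.inl ⟨0, Nat.one_pos, a1, a2⟩
      · exact Or.inr (Or.inr ⟨a1, a2⟩)
    · rintro (⟨i, hi, a1, a2⟩ | ⟨a1, a2⟩ | ⟨a1, a2⟩)
      · have : i = 0 := by omega
        rw [this] at a1 a2
        exact ⟨c s, Or.inr (Or.inl ⟨a1, a2, rfl⟩)⟩
      · exact ⟨a s 1, Or.inl ⟨a1, a2, rfl⟩⟩
      · exact ⟨a s 0, Or.inr (Or.inr ⟨a1, a2, rfl⟩)⟩

/-- the induction step -/
theorem FE_step {V S : Type} [Fintype V] [Fintype S] (T : Tri V) (c : S → V) (m m' : S → ℕ) (a : S → ℕ → V)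
    (s0 : S) (k : ℕ) (hk : 1 ≤ k) (hms : m s0 = k + 1) (hms' : m' s0 = k)
    (hmo : ∀ s, s ≠ s0 → m' s = m s)
    (hF : ∀ s i, i < m s → T.F (c s) (a s i) (a s (i + 1)))
    (hi : ∀ s i j, i ≤ m s → j ≤ m s → a s i = a s j → i = j)
    (hd : ∀ s r i j, s ≠ r → i < m s → j < m r →
      ¬ IsRot (c s) (a s i) (a s (i + 1)) (c r) (a r j) (a r (j + 1)))
    (T' : Tri (V ⊕ S)) (hT' : IsFan T c m' a T') :
    ∃ T'' : Tri (V ⊕ S), IsFan T c m a T'' := by
  obtain ⟨f1, f2, f3⟩ := hT'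
  have hca : ∀ i, i ≤ k + 1 → c s0 ≠ a s0 i := by
    intro i hik e
    rcases Nat.lt_or_ge i (k + 1) with h | h
    · exact T.ne _ _ _ (hF s0 i (by omega)) e
    · have : i = k + 1 := by omega
      rw [this] at e
      exact T.ne _ _ _ (T.rot _ _ _ (T.rot _ _ _ (hF s0 k (by omega)))) e.symm
  have H : HF T' (Sum.inl (c s0)) (Sum.inl (a s0 k)) (Sum.inr s0) (Sum.inl (a s0 (k + 1))) := by
    have hn : ∀ z, ¬ T'.F (Sum.inr s0) (Sum.inl (a s0 (k + 1))) z := by
      rintro (y | s) hz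
      · rw [f2, hms'] at hz
        rcases hz with ⟨i, hik, e1, e2⟩ | ⟨e1, e2⟩ | ⟨e1, e2⟩
        · have := hi s0 _ _ (by omega) (by omega) e1
          omega
        · exact hca (k + 1) (le_refl _) e1.symm
        · have := hi s0 _ _ (by omega) (by omega) e1
          omega
      · exact f3 _ _ _ (T'.rot _ _ _ (T'.rot _ _ _ hz))
    refine ⟨?_, ?_, Sum.inr_ne_inl, hn, ?_⟩
    · rw [f1]
      refine ⟨hF s0 k (by omega), fun s i his => ?_⟩
      by_cases hs : s = s0
      · rw [hs] at his ⊢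
        rw [hms'] at his
        rintro (⟨e1, e2, e3⟩ | ⟨e1, e2, e3⟩ | ⟨e1, e2, e3⟩)
        · have := hi s0 _ _ (by omega) (by omega) e2
          omega
        · exact hca i (by omega) e1
        · exact hca (i + 1) (by omega) e1
      · rw [hmo s hs] at his
        exact hd s s0 i k hs his (by omega)
    · have : T'.F (Sum.inr s0) (Sum.inl (a s0 k)) (Sum.inl (c s0)) := by
        rw [f2, hms']
        exact Or.inr (Or.inr ⟨rfl, rfl⟩)
      exact T'.rot _ _ _ this
    · intro z hz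
      obtain ⟨w, hw⟩ := T'.opp _ _ _ hz
      exact hn _ hw
  refine ⟨flipT H, ?_, ?_, ?_⟩
  · intro x y w
    show FL T' _ _ _ _ _ _ _ ↔ _
    have hdel : (∀ s i, i < m s → ¬ IsRot (c s) (a s i) (a s (i + 1)) x y w) ↔
        ((∀ s i, i < m' s → ¬ IsRot (c s) (a s i) (a s (i + 1)) x y w) ∧
          ¬ IsRot (c s0) (a s0 k) (a s0 (k + 1)) x y w) := by
      constructor
      · intro h
        refine ⟨fun s i his => h s i ?_, h s0 k (by omega)⟩
        by_cases hs : s = s0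
        · rw [hs] at his ⊢
          omega
        · rw [← hmo s hs]
          exact his
      · rintro ⟨g1, g2⟩ s i his
        by_cases hs : s = s0
        · rw [hs] at his ⊢
          rcases Nat.lt_or_ge i k with h | h
          · exact g1 s0 i (by omega)
          · have : i = k := by omega
            rw [this]
            exact g2
        · exact g1 s i (by rw [hmo s hs]; exact his)
    rw [hdel]
    unfold FL
    rw [f1]
    simp only [IsRot, Sum.inl.injEq, reduceCtorEq, false_and, and_false, false_or, or_false,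
      not_false_eq_true, and_true]
    tauto
  · intro s x y
    show FL T' _ _ _ _ _ _ _ ↔ _
    unfold FL
    rw [f2]
    by_cases hs : s = s0
    · rw [hs]
      rw [hms, hms']
      simp only [IsRot, Sum.inl.injEq, reduceCtorEq, false_and, and_false, false_or, or_false,
        not_false_eq_true, true_and, and_true]
      constructor
      · rintro (⟨⟨i, hik, e1, e2⟩ | ⟨e1, e2⟩ | ⟨e1, e2⟩, g⟩ | ⟨e1, e2⟩ | ⟨e1, e2⟩)
        · exact Or.inl ⟨i, by omega, e1, e2⟩
        · exact Or.inr (Or.inl ⟨e1, e2⟩)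
        · exact (g ⟨e1, e2⟩).elim
        · exact Or.inr (Or.inr ⟨e1, e2⟩)
        · exact Or.inl ⟨k, by omega, e1, e2⟩
      · rintro (⟨i, hik, e1, e2⟩ | ⟨e1, e2⟩ | ⟨e1, e2⟩)
        · rcases Nat.lt_or_ge i k with h | h
          · refine Or.inl ⟨Or.inl ⟨i, h, e1, e2⟩, ?_⟩
            rintro ⟨g1, g2⟩
            have := hi s0 i k (by omega) (by omega) (e1.symm.trans g1)
            omega
          · have : i = k := by omega
            rw [this] at e1 e2
            exact Or.inr (Or.inr ⟨e1, e2⟩)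
        · refine Or.inl ⟨Or.inr (Or.inl ⟨e1, e2⟩), ?_⟩
          rintro ⟨g1, g2⟩
          exact hca k (by omega) (e1.symm.trans g1)
        · exact Or.inr (Or.inl ⟨e1, e2⟩)
    · rw [hmo s hs]
      simp only [IsRot, Sum.inl.injEq, Sum.inr.injEq, reduceCtorEq, false_and, and_false, false_or,
        or_false, not_false_eq_true, true_and, and_true, hs]
  · intro s r' x
    show ¬ FL T' _ _ _ _ _ _ _
    unfold FL
    simp only [IsRot, reduceCtorEq, false_and, and_false, false_or, or_false,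
      not_false_eq_true, and_true]
    exact f3 s r' x


end W_FE_MFAN

open W_FE_MFAN in
theorem FE_MFAN {V S : Type} [Fintype V] [Fintype S] (T : Tri V) (c : S → V) (m : S → ℕ) (a : S → ℕ → V)
    (hm : ∀ s, 1 ≤ m s) (hF : ∀ s i, i < m s → T.F (c s) (a s i) (a s (i + 1)))
    (hi : ∀ s i j, i ≤ m s → j ≤ m s → a s i = a s j → i = j)
    (hd : ∀ s r i j, s ≠ r → i < m s → j < m r →
      ¬ IsRot (c s) (a s i) (a s (i + 1)) (c r) (a r j) (a r (j + 1))) :
    ∃ T' : Tri (V ⊕ S), IsFan T c m a T' := by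
  classical
  suffices key : ∀ n : ℕ, ∀ m : S → ℕ, ∑ s, m s = n → (∀ s, 1 ≤ m s) →
      (∀ s i, i < m s → T.F (c s) (a s i) (a s (i + 1))) →
      (∀ s i j, i ≤ m s → j ≤ m s → a s i = a s j → i = j) →
      (∀ s r i j, s ≠ r → i < m s → j < m r →
        ¬ IsRot (c s) (a s i) (a s (i + 1)) (c r) (a r j) (a r (j + 1))) →
      ∃ T' : Tri (V ⊕ S), IsFan T c m a T' from key _ m rfl hm hF hi hd
  intro n
  induction n with
  | zero =>
    intro m hn hm hF hi hd
    apply FE_base T c m a _ hF hd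
    intro s
    have h1 := Finset.single_le_sum (f := m) (fun s _ => Nat.zero_le _) (Finset.mem_univ s)
    have h2 := hm s
    omega
  | succ n ih =>
    intro m hn hm hF hi hd
    by_cases hall : ∀ s, m s = 1
    · exact FE_base T c m a hall hF hd
    · push Not at hall
      obtain ⟨s0, hs0⟩ := hall
      have h1 := hm s0
      obtain ⟨k, hk⟩ : ∃ k, m s0 = k + 1 := ⟨m s0 - 1, by omega⟩
      have hk1 : 1 ≤ k := by omega
      have hle : ∀ s, Function.update m s0 k s ≤ m s := by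
        intro s
        by_cases hs : s = s0
        · rw [hs, Function.update_self]; omega
        · rw [Function.update_of_ne hs]
      have hsum : ∑ s, Function.update m s0 k s = n := by
        have e1 := Finset.add_sum_erase Finset.univ m (Finset.mem_univ s0)
        have e2 := Finset.add_sum_erase Finset.univ (Function.update m s0 k) (Finset.mem_univ s0)
        have e3 : ∑ x ∈ Finset.univ.erase s0, Function.update m s0 k x =
            ∑ x ∈ Finset.univ.erase s0, m x := by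
          apply Finset.sum_congr rfl
          intro x hx
          rw [Function.update_of_ne (Finset.ne_of_mem_erase hx)]
        rw [Function.update_self] at e2
        omega
      obtain ⟨T', hT'⟩ := ih (Function.update m s0 k) hsum
        (by
          intro s
          by_cases hs : s = s0
          · rw [hs, Function.update_self]; exact hk1
          · rw [Function.update_of_ne hs]; exact hm s)
        (fun s i h => hF s i (lt_of_lt_of_le h (hle s)))
        (fun s i j h h' => hi s i j (le_trans h (hle s)) (le_trans h' (hle s)))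
        (fun s r i j hsr h h' => hd s r i j hsr (lt_of_lt_of_le h (hle s))
          (lt_of_lt_of_le h' (hle r)))
      exact FE_step T c m (Function.update m s0 k) a s0 k hk1 hk (Function.update_self _ _ _)
        (fun s hs => Function.update_of_ne hs _ _) hF hi hd T' hT'


end Pool.Agent.H891WLC
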