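import Pool.Agent.H891FSS.Defs
import Pool.Agent.H891FSS.DefsE
import Pool.Agent.H891FSS.FS_CYC
import Pool.Agent.H891FSS.FE_LP
import Pool.Agent.H891FSS.FE_MFAN
import Pool.Agent.H891FSS.FE_GEOM
import Pool.Agent.H891FSS.FS_PERT
import Pool.Agent.H891FSS.FS_ZCHO

set_option autoImplicit false

namespace Pool.Agent.H891WLC

namespace W_FE_DRAWS

theorem isRot_F {V : Type} (T : Tri V) {o₁ o₂ o₃ a b c : V} (ho : T.F o₁ o₂ o₃)
    (h : IsRot o₁ o₂ o₃ a b c) : T.F a b c := by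
  rcases h with ⟨h1, h2, h3⟩ | ⟨h1, h2, h3⟩ | ⟨h1, h2, h3⟩
  · rw [h1, h2, h3]; exact ho
  · rw [h1, h2, h3]; exact T.rot _ _ _ ho
  · rw [h1, h2, h3]; exact T.rot _ _ _ (T.rot _ _ _ ho)

theorem isRot_common {V : Type} {o₁ o₂ o₃ r₁ r₂ r₃ a b c : V} (h : IsRot o₁ o₂ o₃ a b c)
    (h' : IsRot r₁ r₂ r₃ a b c) : IsRot o₁ o₂ o₃ r₁ r₂ r₃ := by
  rcases h with ⟨h1, h2, h3⟩ | ⟨h1, h2, h3⟩ | ⟨h1, h2, h3⟩ <;>
  rcases h' with ⟨g1, g2, g3⟩ | ⟨g1, g2, g3⟩ | ⟨g1, g2, g3⟩ <;>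
  rw [h1] at g1 <;> rw [h2] at g2 <;> rw [h3] at g3
  · exact Or.inl ⟨g1.symm, g2.symm, g3.symm⟩
  · exact Or.inr (Or.inr ⟨g3.symm, g1.symm, g2.symm⟩)
  · exact Or.inr (Or.inl ⟨g2.symm, g3.symm, g1.symm⟩)
  · exact Or.inr (Or.inl ⟨g1.symm, g2.symm, g3.symm⟩)
  · exact Or.inl ⟨g3.symm, g1.symm, g2.symm⟩
  · exact Or.inr (Or.inr ⟨g2.symm, g3.symm, g1.symm⟩)
  · exact Or.inr (Or.inr ⟨g1.symm, g2.symm, g3.symm⟩)
  · exact Or.inr (Or.inl ⟨g3.symm, g1.symm, g2.symm⟩)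
  · exact Or.inl ⟨g2.symm, g3.symm, g1.symm⟩

/-- a bichromatic face has a rotation with first vertex in `A` and second not in `A` -/
theorem exists_rot {V : Type} (T : Tri V) (A : Set V) (a b c : V) (hF : T.F a b c)
    (hm : ¬ (a ∈ A ∧ b ∈ A ∧ c ∈ A) ∧ ¬ (a ∉ A ∧ b ∉ A ∧ c ∉ A)) :
    ∃ x y z, T.F x y z ∧ x ∈ A ∧ y ∉ A ∧ IsRot a b c x y z := by
  have r1 := T.rot _ _ _ hF
  have r2 := T.rot _ _ _ r1
  by_cases ha : a ∈ A
  · by_cases hb : b ∈ A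
    · by_cases hc : c ∈ A
      · exact absurd ⟨ha, hb, hc⟩ hm.1
      · exact ⟨b, c, a, r1, hb, hc, Or.inr (Or.inl ⟨rfl, rfl, rfl⟩)⟩
    · exact ⟨a, b, c, hF, ha, hb, Or.inl ⟨rfl, rfl, rfl⟩⟩
  · by_cases hc : c ∈ A
    · exact ⟨c, a, b, r2, hc, ha, Or.inr (Or.inr ⟨rfl, rfl, rfl⟩)⟩
    · by_cases hb : b ∈ A
      · exact ⟨b, c, a, r1, hb, hc, Or.inr (Or.inl ⟨rfl, rfl, rfl⟩)⟩
      · exact absurd ⟨ha, hb, hc⟩ hm.2

theorem isRot_trans {V : Type} {o₁ o₂ o₃ a b c x y z : V} (h : IsRot a b c x y z)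
    (h' : IsRot o₁ o₂ o₃ x y z) : IsRot o₁ o₂ o₃ a b c := isRot_common h' h

/-- uniqueness of the successor -/
theorem nxt_uniq {V : Type} (T : Tri V) (A : Set V) (a b c : V) (hF : T.F a b c) (q q' : V × V)
    (h : Nxt T A (a, b) q) (h' : Nxt T A (a, b) q') : q = q' := by
  rcases h with ⟨h1, h2, h3⟩ | ⟨h1, h2, h3⟩ <;> rcases h' with ⟨g1, g2, g3⟩ | ⟨g1, g2, g3⟩
  · exact Prod.ext (h2.trans g2.symm) (T.uniq _ _ _ _ h1 g1)
  · exact absurd (by rw [T.uniq _ _ _ _ h1 g1]; exact g3) h3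
  · exact absurd (by rw [T.uniq _ _ _ _ g1 h1]; exact h3) g3
  · exact Prod.ext (T.uniq _ _ _ _ h1 g1) (h2.trans g2.symm)

/-- the block of one fan -/
theorem block {V : Type} (T : Tri V) (A : Set V) (N : ℕ) (e : ℕ → V × V) (he : CycE T A N e)
    (xx yy ww : V) (hxy : T.F xx yy ww) (hlast : ∀ i, i < N → i + 1 = N → e i = (xx, yy))
    (c : V) (m : ℕ) (a : ℕ → V) (hm1 : 1 ≤ m) (hF : ∀ i, i < m → T.F c (a i) (a (i + 1)))
    (hcol : ∀ i, i ≤ m → (c ∈ A ↔ a i ∉ A))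
    (hun : ∀ i, i < m → ¬ IsRot c (a i) (a (i + 1)) xx yy ww) :
    ∃ K : ℕ, K + m < N ∧ ((∀ i, i ≤ m → e (K + i) = (c, a i)) ∨
      (∀ i, i ≤ m → e (K + (m - i)) = (a i, c))) := by
  by_cases hc : c ∈ A
  · have ha : ∀ i, i ≤ m → a i ∉ A := fun i hi => (hcol i hi).1 hc
    obtain ⟨K, hK, heK⟩ := he.surj (c, a 0) hc (ha 0 (Nat.zero_le _)) ⟨a 1, hF 0 hm1⟩
    have key : ∀ i, i ≤ m → K + i < N ∧ e (K + i) = (c, a i) := by
      intro i
      induction i with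
      | zero => intro _; exact ⟨hK, heK⟩
      | succ i ih =>
        intro hi
        obtain ⟨g1, g2⟩ := ih (by omega)
        have hFi := hF i (by omega)
        have hne : K + i + 1 ≠ N := by
          intro hN
          have h1 := hlast _ g1 hN
          rw [g2] at h1
          have e1 : c = xx := congrArg Prod.fst h1
          have e2 : a i = yy := congrArg Prod.snd h1
          rw [← e1, ← e2] at hxy
          have e3 : ww = a (i + 1) := T.uniq _ _ _ _ hxy hFi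
          exact hun i (by omega) (Or.inl ⟨e1.symm, e2.symm, e3⟩)
        refine ⟨by omega, ?_⟩
        have h2 := he.nxt (K + i)
        rw [g2] at h2
        have h3 : Nxt T A (c, a i) (c, a (i + 1)) := Or.inl ⟨hFi, rfl, ha _ hi⟩
        exact nxt_uniq T A _ _ _ hFi _ _ h2 h3
    exact ⟨K, (key m le_rfl).1, Or.inl fun i hi => (key i hi).2⟩
  · have ha : ∀ i, i ≤ m → a i ∈ A := fun i hi => by
      by_contra h
      exact hc ((hcol i hi).2 h)
    have hF2 : ∀ i, i < m → T.F (a (i + 1)) c (a i) := fun i hi =>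
      T.rot _ _ _ (T.rot _ _ _ (hF i hi))
    obtain ⟨m', rfl⟩ : ∃ m', m = m' + 1 := ⟨m - 1, by omega⟩
    obtain ⟨K, hK, heK⟩ := he.surj (a (m' + 1), c) (ha _ le_rfl) hc ⟨a m', hF2 m' (by omega)⟩
    have key : ∀ j, j ≤ m' + 1 → K + j < N ∧ e (K + j) = (a (m' + 1 - j), c) := by
      intro j
      induction j with
      | zero => intro _; exact ⟨hK, heK⟩
      | succ j ih =>
        intro hj
        obtain ⟨g1, g2⟩ := ih (by omega)
        obtain ⟨i, hi⟩ : ∃ i, m' + 1 - j = i + 1 := ⟨m' - j, by omega⟩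
        have hi2 : m' + 1 - (j + 1) = i := by omega
        have him : i < m' + 1 := by omega
        rw [hi] at g2
        rw [hi2]
        have hFi := hF2 i him
        have hne : K + j + 1 ≠ N := by
          intro hN
          have h1 := hlast _ g1 hN
          rw [g2] at h1
          have e1 : a (i + 1) = xx := congrArg Prod.fst h1
          have e2 : c = yy := congrArg Prod.snd h1
          rw [← e1, ← e2] at hxy
          have e3 : ww = a i := T.uniq _ _ _ _ hxy hFi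
          exact hun i him (Or.inr (Or.inr ⟨e1.symm, e2.symm, e3⟩))
        refine ⟨by omega, ?_⟩
        have h2 := he.nxt (K + j)
        rw [g2] at h2
        have h3 : Nxt T A (a (i + 1), c) (a i, c) := Or.inr ⟨hFi, rfl, ha _ him.le⟩
        exact nxt_uniq T A _ _ _ hFi _ _ h2 h3
    refine ⟨K, (key _ le_rfl).1, Or.inr fun i hi => ?_⟩
    have h4 := (key (m' + 1 - i) (by omega)).2
    rw [h4]
    congr 2
    omega

/-- steps of a block are steps across faces of the fan -/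
theorem block_face {V : Type} (e : ℕ → V × V) (c : V) (m : ℕ) (a : ℕ → V) (K : ℕ)
    (h : (∀ i, i ≤ m → e (K + i) = (c, a i)) ∨ (∀ i, i ≤ m → e (K + (m - i)) = (a i, c)))
    (n : ℕ) (h1 : K ≤ n) (h2 : n < K + m) :
    ∃ i, i < m ∧ ∃ v, IsRot c (a i) (a (i + 1)) (e n).1 (e n).2 v := by
  rcases h with h | h
  · refine ⟨n - K, by omega, a (n - K + 1), ?_⟩
    have h3 := h (n - K) (by omega)
    rw [show K + (n - K) = n by omega] at h3
    rw [h3]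
    exact Or.inl ⟨rfl, rfl, rfl⟩
  · refine ⟨K + m - n - 1, by omega, a (K + m - n - 1), ?_⟩
    have h3 := h (K + m - n - 1 + 1) (by omega)
    rw [show K + (m - (K + m - n - 1 + 1)) = n by omega] at h3
    rw [h3]
    exact Or.inr (Or.inr ⟨rfl, rfl, rfl⟩)

end W_FE_DRAWS

open W_FE_DRAWS in
theorem FE_DRAWS {V S : Type} [Fintype V] [Fintype S] (T : Tri V) (A : Set V) (hA : Conn T.G A) (hB : Conn T.G Aᶜ)
    (hm : ∀ a b c, T.F a b c → ¬ (a ∈ A ∧ b ∈ A ∧ c ∈ A) ∧ ¬ (a ∉ A ∧ b ∉ A ∧ c ∉ A))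
    (c : S → V) (m : S → ℕ) (a : S → ℕ → V) (hm1 : ∀ s, 1 ≤ m s)
    (hF : ∀ s i, i < m s → T.F (c s) (a s i) (a s (i + 1)))
    (hi : ∀ s i j, i ≤ m s → j ≤ m s → a s i = a s j → i = j)
    (hd : ∀ s r i j, s ≠ r → i < m s → j < m r →
      ¬ IsRot (c s) (a s i) (a s (i + 1)) (c r) (a r j) (a r (j + 1)))
    (hcol : ∀ s i, i ≤ m s → (c s ∈ A ↔ a s i ∉ A))
    (hex : ∃ x y w, T.F x y w ∧ ∀ s i, i < m s → ¬ IsRot (c s) (a s i) (a s (i + 1)) x y w) :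
    ∃ (T' : Tri (V ⊕ S)) (k : S → ℕ), IsFan T c m a T' ∧ Function.Injective k ∧
      ∀ x y : S → ℝ, (∀ s r, k s < k r → x s < x r) →
        ∃ p : V ⊕ S → ℝ × ℝ, Plane T'.G p ∧ ∀ s, p (Sum.inr s) = (x s, y s) := by
  obtain ⟨T', hT'⟩ := FE_MFAN T c m a hm1 hF hi hd
  obtain ⟨a₀, b₀, c₀, hF₀, hun₀⟩ := hex
  obtain ⟨x, y, w, hxyw, hxA, hyA, hrot₀⟩ := exists_rot T A a₀ b₀ c₀ hF₀ (hm _ _ _ hF₀)
  have hun : ∀ s i, i < m s → ¬ IsRot (c s) (a s i) (a s (i + 1)) x y w :=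
    fun s i him hs => hun₀ s i him (isRot_trans hrot₀ hs)
  have r1 := T.rot _ _ _ hxyw
  have r2 := T.rot _ _ _ r1
  have hadj_ab : T.G.Adj x y := ⟨w, hxyw⟩
  have hadj_bc : T.G.Adj y w := ⟨x, r1⟩
  have hadj_ca : T.G.Adj w x := ⟨y, r2⟩
  obtain ⟨e₀, h1, h2, h3, h4, h5⟩ : ∃ e₀ : V × V, e₀.1 ∈ A ∧ e₀.2 ∉ A ∧ T.G.Adj e₀.1 e₀.2 ∧
      Nxt T A (x, y) e₀ ∧ e₀ ≠ (x, y) := by
    by_cases hc : w ∈ A
    · refine ⟨(w, y), hc, hyA, hadj_bc.symm, Or.inr ⟨hxyw, rfl, hc⟩, ?_⟩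
      intro h
      exact T.ne _ _ _ r2 (congrArg Prod.fst h)
    · refine ⟨(x, w), hxA, hc, hadj_ca.symm, Or.inl ⟨hxyw, rfl, hc⟩, ?_⟩
      intro h
      exact T.ne _ _ _ r1 (congrArg Prod.snd h).symm
  obtain ⟨N, e, he0, he⟩ := FS_CYC T A hA hB e₀ h1 h2 h3
  obtain ⟨i, hiN, hii⟩ := he.surj (x, y) hxA hyA hadj_ab
  have hnext : e (i + 1) = e 0 := by
    have h6 := he.nxt i
    rw [hii] at h6
    rw [he0]
    exact nxt_uniq T A x y w hxyw _ _ h6 h4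
  have hiN1 : i + 1 = N := by
    by_contra hne
    have h7 : i + 1 < N := by omega
    have := he.inj (i + 1) 0 h7 he.pos hnext
    omega
  have hN2 : 2 ≤ N := by
    by_contra hlt
    have h8 : i = 0 := by omega
    apply h5
    rw [← he0, ← hii, h8]
  have hlast : ∀ j, j < N → j + 1 = N → e j = (x, y) := by
    intro j _ hj
    have : j = i := by omega
    rw [this, hii]
  have hks : ∀ s, ∃ K : ℕ, K + m s < N ∧ ((∀ i, i ≤ m s → e (K + i) = (c s, a s i)) ∨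
      (∀ i, i ≤ m s → e (K + (m s - i)) = (a s i, c s))) := fun s =>
    block T A N e he x y w hxyw hlast (c s) (m s) (a s) (hm1 s) (hF s) (hcol s) (hun s)
  choose k hk ha using hks
  have hno : ∀ s r, s ≠ r → ∀ n, ¬ ((k s ≤ n ∧ n < k s + m s) ∧ (k r ≤ n ∧ n < k r + m r)) := by
    rintro s r hsr n ⟨⟨n1, n2⟩, n3, n4⟩
    obtain ⟨i1, hi1, v, hv⟩ := block_face e (c s) (m s) (a s) (k s) (ha s) n n1 n2
    obtain ⟨i2, hi2, v', hv'⟩ := block_face e (c r) (m r) (a r) (k r) (ha r) n n3 n4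
    have f1 := isRot_F T (hF s i1 hi1) hv
    have f2 := isRot_F T (hF r i2 hi2) hv'
    have f3 : v = v' := T.uniq _ _ _ _ f1 f2
    rw [← f3] at hv'
    exact hd s r i1 i2 hsr hi1 hi2 (isRot_common hv hv')
  have hdis : ∀ s r, s ≠ r → k s + m s ≤ k r ∨ k r + m r ≤ k s := by
    intro s r hsr
    have m1 := hm1 s
    have m2 := hm1 r
    rcases le_total (k s) (k r) with h | h
    · left
      by_contra hlt
      exact hno s r hsr (k r) ⟨⟨h, by omega⟩, le_rfl, by omega⟩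
    · right
      by_contra hlt
      exact hno s r hsr (k s) ⟨⟨le_rfl, by omega⟩, h, by omega⟩
  have hkinj : Function.Injective k := by
    intro s r hsr
    by_contra hne
    have m1 := hm1 s
    have m2 := hm1 r
    rcases hdis s r hne with h | h <;> omega
  have hc' : ∀ s, (∀ i, i ≤ m s → (e (k s + i)).1 = (e (k s)).1) ∨
      (∀ i, i ≤ m s → (e (k s + i)).2 = (e (k s)).2) := by
    intro s
    rcases ha s with h | h
    · left
      intro i hi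
      have g1 := h i hi
      have g2 := h 0 (Nat.zero_le _)
      rw [Nat.add_zero] at g2
      rw [g1, g2]
    · right
      intro i hi
      have g1 := h (m s - i) (by omega)
      have g2 := h (m s) le_rfl
      rw [Nat.sub_self, Nat.add_zero] at g2
      rw [show k s + (m s - (m s - i)) = k s + i by omega] at g1
      rw [g1, g2]
  refine ⟨T', k, hT', hkinj, fun xx yy hxx => ?_⟩
  obtain ⟨z, hz, hzk⟩ := FS_ZCHO k hkinj xx hxx
  have ht : ∀ s, z (k s) < xx s ∧ xx s < z (k s + m s) := fun s =>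
    ⟨(hzk s).1, lt_of_lt_of_le (hzk s).2 (hz.monotone (Nat.add_le_add_left (hm1 s) _))⟩
  obtain ⟨X, Y, hY, hE, hI2, hI1⟩ := FE_LP T A hA hB hm N e he z hz k m xx hk hdis hc' ht
  obtain ⟨o₁, o₂, o₃, p, hdr, hp⟩ := FE_GEOM T A hm N e he hN2 z hz X Y hY k m xx hk hm1 c a ha
    hE hI2 hI1 hdis ht T' hT'
  obtain ⟨p', hp', hp''⟩ := FS_PERT T' o₁ o₂ o₃ p hdr (fun s => by rw [hp s]) yy
  refine ⟨p', hp', fun s => ?_⟩
  rw [hp'' s, hp s]


end Pool.Agent.H891WLC
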