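import Pool.Agent.H891FSS.Defs
import Pool.Agent.H891FSS.DefsE

set_option autoImplicit false

namespace Pool.Agent.H891WLC

namespace W_FE_FADJ

end W_FE_FADJ

open W_FE_FADJ in
theorem FE_FADJ {V S : Type} (T : Tri V) (c : S → V) (m : S → ℕ) (a : S → ℕ → V) (T' : Tri (V ⊕ S))
    (hm : ∀ s, 1 ≤ m s) (h : IsFan T c m a T') :
    (∀ x y, T.G.Adj x y → (∀ s i, 0 < i → i < m s → ¬ (x = c s ∧ y = a s i) ∧ ¬ (y = c s ∧ x = a s i)) →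
      T'.G.Adj (Sum.inl x) (Sum.inl y)) ∧
    (∀ s i, i ≤ m s → T'.G.Adj (Sum.inr s) (Sum.inl (a s i))) ∧
    (∀ s, T'.G.Adj (Sum.inr s) (Sum.inl (c s))) := by
  obtain ⟨h1, h2, _⟩ := h
  refine ⟨?_, ?_, ?_⟩
  · rintro x y ⟨w, hw⟩ hno
    by_cases hfan : ∀ s i, i < m s → ¬ IsRot (c s) (a s i) (a s (i + 1)) x y w
    · exact ⟨Sum.inl w, (h1 x y w).2 ⟨hw, hfan⟩⟩
    · push Not at hfan
      obtain ⟨s, i, hi, hr⟩ := hfan
      rcases hr with ⟨hx, hy, _⟩ | ⟨hx, hy, _⟩ | ⟨hx, hy, _⟩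
      · have hi0 : i = 0 := by
          by_contra hne
          exact (hno s i (Nat.pos_of_ne_zero hne) hi).1 ⟨hx, hy⟩
        subst hi0
        exact ⟨Sum.inr s, T'.rot _ _ _ ((h2 s x y).2 (Or.inr (Or.inl ⟨hx, hy⟩)))⟩
      · exact ⟨Sum.inr s, T'.rot _ _ _ ((h2 s x y).2 (Or.inl ⟨i, hi, hx, hy⟩))⟩
      · have him : i + 1 = m s := by
          by_contra hne
          exact (hno s (i + 1) (Nat.succ_pos i) (lt_of_le_of_ne hi hne)).2 ⟨hy, hx⟩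
        rw [him] at hx
        exact ⟨Sum.inr s, T'.rot _ _ _ ((h2 s x y).2 (Or.inr (Or.inr ⟨hx, hy⟩)))⟩
  · intro s i hi
    rcases lt_or_eq_of_le hi with h | h
    · exact ⟨Sum.inl (a s (i + 1)), (h2 s _ _).2 (Or.inl ⟨i, h, rfl, rfl⟩)⟩
    · rw [h]
      exact ⟨Sum.inl (c s), (h2 s _ _).2 (Or.inr (Or.inr ⟨rfl, rfl⟩))⟩
  · intro s
    exact ⟨Sum.inl (a s 0), (h2 s _ _).2 (Or.inr (Or.inl ⟨rfl, rfl⟩))⟩


end Pool.Agent.H891WLC
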