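import Pool.Agent.H891FSS.Defs
import Pool.Agent.H891FSS.DefsE
import Pool.Agent.H891FSS.FS_GNE
import Pool.Agent.H891FSS.FE_BUILD0
import Pool.Agent.H891FSS.FE_BUILD
import Pool.Agent.H891FSS.FE_DRAWS
import Pool.Agent.H891FSS.FE_FADJ
import Pool.Agent.H891FSS.FS_PLANESUB

set_option autoImplicit false

namespace Pool.Agent.H891WLC

namespace W_FE_MAIN

/-- the path edges -/
def PE {U : Type} (S : Set U) (d : U → ℕ) (a : U → ℕ → U) (x y : U) : Prop :=
  ∃ v ∈ S, ∃ i, i < d v ∧ ((x = a v i ∧ y = a v (i + 1)) ∨ (y = a v i ∧ x = a v (i + 1)))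

theorem PE_symm {U : Type} (S : Set U) (d : U → ℕ) (a : U → ℕ → U) (x y : U) (h : PE S d a x y) :
    PE S d a y x := by
  obtain ⟨v, hv, i, hi, h⟩ := h
  exact ⟨v, hv, i, hi, h.symm⟩

/-- `H` together with the path edges -/
def HP {U : Type} (H : SimpleGraph U) (S : Set U) (d : U → ℕ) (a : U → ℕ → U)
    (hi : ∀ v ∈ S, ∀ i k, i ≤ d v → k ≤ d v → a v i = a v k → i = k) : SimpleGraph U where
  Adj x y := H.Adj x y ∨ PE S d a x y
  symm := ⟨by
    rintro x y (h | h)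
    · exact Or.inl h.symm
    · exact Or.inr (PE_symm S d a x y h)⟩
  loopless := ⟨by
    rintro x (h | ⟨v, hv, i, hid, h | h⟩)
    · exact H.loopless.irrefl x h
    · have := hi v hv i (i + 1) (by omega) (by omega) (h.1.symm.trans h.2)
      omega
    · have := hi v hv i (i + 1) (by omega) (by omega) (h.1.symm.trans h.2)
      omega⟩

theorem PE_forest {U : Type} (H : SimpleGraph U) (S : Set U) (hS : Sparse H S) (d : U → ℕ)
    (a : U → ℕ → U) (hN : ∀ v ∈ S, ∀ i, i ≤ d v → H.Adj v (a v i))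
    (hi : ∀ v ∈ S, ∀ i k, i ≤ d v → k ≤ d v → a v i = a v k → i = k)
    (Z : Set U) (hZ : Z.Nonempty) :
    ∃ z ∈ Z, ∀ x ∈ Z, ∀ y ∈ Z, PE S d a z x → PE S d a z y → x = y := by
  classical
  by_cases hcase : ∃ v ∈ S, ∃ i, i ≤ d v ∧ a v i ∈ Z
  · obtain ⟨v, hv, hex⟩ := hcase
    have hmin := Nat.find_spec hex
    have hmin2 : ∀ k, k < Nat.find hex → ¬ (k ≤ d v ∧ a v k ∈ Z) := fun k hk => Nat.find_min hex hk
    generalize Nat.find hex = i at hmin hmin2
    refine ⟨a v i, hmin.2, ?_⟩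
    have key : ∀ x ∈ Z, PE S d a (a v i) x → x = a v (i + 1) := by
      rintro x hx ⟨w, hw, k, hk, h | h⟩
      · have hvw : v = w := by
          by_contra hne
          refine (hS v hv w hw hne).2 (a v i) ⟨hN v hv i hmin.1, ?_⟩
          rw [h.1]
          exact hN w hw k (by omega)
        subst hvw
        have hik := hi v hv i k hmin.1 (by omega) h.1
        rw [h.2, hik]
      · have hvw : v = w := by
          by_contra hne
          refine (hS v hv w hw hne).2 (a v i) ⟨hN v hv i hmin.1, ?_⟩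
          rw [h.2]
          exact hN w hw (k + 1) (by omega)
        subst hvw
        have hik := hi v hv i (k + 1) hmin.1 (by omega) h.2
        exfalso
        refine hmin2 k (by omega) ⟨by omega, ?_⟩
        rw [← h.1]
        exact hx
    intro x hx y hy h1 h2
    rw [key x hx h1, key y hy h2]
  · obtain ⟨z, hz⟩ := hZ
    refine ⟨z, hz, ?_⟩
    rintro x hx y hy ⟨v, hv, i, hid, h | h⟩ _
    · exact absurd ⟨v, hv, i, by omega, by rw [← h.1]; exact hz⟩ hcase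
    · exact absurd ⟨v, hv, i + 1, by omega, by rw [← h.2]; exact hz⟩ hcase

end W_FE_MAIN

open W_FE_MAIN in
theorem FE_MAIN {U : Type} [Fintype U] (T : Tri U) (hU : 4 ≤ Nat.card U) (H : SimpleGraph U)
    (hH : ∀ x y, H.Adj x y → T.G.Adj x y) (A : Set U) (hb : ∀ x y, H.Adj x y → (x ∈ A ↔ y ∉ A))
    (S : Finset U) (hS : Sparse H (S : Set U)) (h2 : ∀ v ∈ S, 2 ≤ Set.ncard {x | H.Adj v x}) :
    ∃ k : U → ℕ, (∀ s ∈ S, ∀ t ∈ S, k s = k t → s = t) ∧
      ∀ x y : U → ℝ, (∀ s ∈ S, ∀ t ∈ S, k s < k t → x s < x t) →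
        ∃ q : U → ℝ × ℝ, Plane H q ∧ ∀ s ∈ S, q s = (x s, y s) := by
  classical
  obtain ⟨d, hdd⟩ : ∃ d : U → ℕ, ∀ v, d v = Set.ncard {x | H.Adj v x} - 1 := ⟨_, fun v => rfl⟩
  have hd1 : ∀ v ∈ S, 1 ≤ d v := by
    intro v hv
    have := h2 v hv
    rw [hdd]
    omega
  have hd2 : ∀ v ∈ (S : Set U), Set.ncard {x | H.Adj v x} = d v + 1 := by
    intro v hv
    have := h2 v hv
    rw [hdd]
    omega
  have hT : ∀ v ∈ (S : Set U), ∀ x y, H.Adj v x → H.Adj v y → ¬ H.Adj x y := by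
    intro v _ x y hx hy hxy
    have e1 := hb v x hx
    have e2 := hb v y hy
    have e3 := hb x y hxy
    tauto
  obtain ⟨U1, fU1, j, T0, a, hj, hU1, hHT0, hfan⟩ := FE_BUILD0 T hU H hH (S : Set U) hS hT d hd2
  have hNiff : ∀ v ∈ (S : Set U), ∀ x, H.Adj v x ↔ ∃ i, i ≤ d v ∧ a v i = x :=
    fun v hv => (hfan v hv).1
  have hi : ∀ v ∈ (S : Set U), ∀ i k, i ≤ d v → k ≤ d v → a v i = a v k → i = k :=
    fun v hv => (hfan v hv).2.1
  have hFan : ∀ v ∈ (S : Set U), ∀ i, i < d v → T0.F (j v) (j (a v i)) (j (a v (i + 1))) :=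
    fun v hv => (hfan v hv).2.2
  have hN : ∀ v ∈ (S : Set U), ∀ i, i ≤ d v → H.Adj v (a v i) :=
    fun v hv i hiv => (hNiff v hv _).2 ⟨i, hiv, rfl⟩
  have hforest := PE_forest H (S : Set U) hS d a hN hi
  -- the graph on U1
  obtain ⟨H1, hH1⟩ : ∃ H1 : SimpleGraph U1, ∀ u w, H1.Adj u w ↔ ∃ x y,
      (H.Adj x y ∨ PE (S : Set U) d a x y) ∧ j x = u ∧ j y = w := by
    refine ⟨{ Adj := fun u w => ∃ x y, (HP H (S : Set U) d a hi).Adj x y ∧ j x = u ∧ j y = w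
              symm := ⟨?_⟩
              loopless := ⟨?_⟩ }, fun u w => Iff.rfl⟩
    · rintro u w ⟨x, y, h, h1, h2⟩
      exact ⟨y, x, h.symm, h2, h1⟩
    · rintro u ⟨x, y, h, h1, h2⟩
      exact h.ne (hj (h1.trans h2.symm))
  have hH1T : ∀ u w, H1.Adj u w → T0.G.Adj u w := by
    intro u w huw
    obtain ⟨x, y, h, rfl, rfl⟩ := (hH1 u w).1 huw
    rcases h with h | ⟨v, hv, i, hid, h | h⟩
    · exact hHT0 x y h
    · rw [h.1, h.2]
      exact ⟨_, T0.rot _ _ _ (hFan v hv i hid)⟩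
    · rw [h.1, h.2]
      exact SimpleGraph.Adj.symm ⟨_, T0.rot _ _ _ (hFan v hv i hid)⟩
  have hmemA : ∀ x, j x ∈ j '' A ↔ x ∈ A := fun x => hj.mem_set_image
  have hgen : ∀ (B : Set U1) (hB : ∀ x y, j x ∈ B → j y ∈ B → ¬ H.Adj x y), For1 H1 B := by
    intro B hB Z hZB hZ
    by_cases hr : ∃ z ∈ Z, ∀ x, j x ≠ z
    · obtain ⟨z, hz, hz2⟩ := hr
      refine ⟨z, hz, ?_⟩
      intro x _ y _ h1 _
      obtain ⟨x0, y0, _, h3, _⟩ := (hH1 z x).1 h1
      exact absurd h3 (hz2 x0)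
    · push Not at hr
      have hZ0 : (j ⁻¹' Z).Nonempty := by
        obtain ⟨z, hz⟩ := hZ
        obtain ⟨x, hx⟩ := hr z hz
        exact ⟨x, by rw [Set.mem_preimage, hx]; exact hz⟩
      obtain ⟨z0, hz0, hz1⟩ := hforest (j ⁻¹' Z) hZ0
      refine ⟨j z0, hz0, ?_⟩
      have key : ∀ x ∈ Z, H1.Adj (j z0) x → ∃ x0, j x0 = x ∧ PE (S : Set U) d a z0 x0 := by
        intro x hx h1
        obtain ⟨z', x0, h, h3, h4⟩ := (hH1 (j z0) x).1 h1
        have hz' : z' = z0 := hj h3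
        rw [hz'] at h
        refine ⟨x0, h4, ?_⟩
        rcases h with h | h
        · refine absurd h (hB z0 x0 (hZB hz0) ?_)
          rw [h4]
          exact hZB hx
        · exact h
      intro x hx y hy h1 h2
      obtain ⟨x0, rfl, hx0⟩ := key x hx h1
      obtain ⟨y0, rfl, hy0⟩ := key y hy h2
      rw [hz1 x0 hx y0 hy hx0 hy0]
  have hforA : For1 H1 (j '' A) := by
    refine hgen _ (fun x y hx hy hxy => ?_)
    rw [hmemA] at hx hy
    exact (hb x y hxy).1 hx hy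
  have hforB : For1 H1 (j '' A)ᶜ := by
    refine hgen _ (fun x y hx hy hxy => ?_)
    rw [Set.mem_compl_iff, hmemA] at hx hy
    exact hx ((hb x y hxy).2 hy)
  obtain ⟨U2, fU2, ι, T', A', hι, hU2, hιA, hHT', hcA, hcB, hmono, hfaces⟩ :=
    FE_BUILD T0 hU1 H1 hH1T (j '' A) hforA hforB
  have hκ : Function.Injective (fun x => ι (j x)) := hι.comp hj
  have hκA : ∀ x, ι (j x) ∈ A' ↔ x ∈ A := fun x => (hιA (j x)).trans (hmemA x)
  have hF : ∀ v ∈ (S : Set U), ∀ i, i < d v →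
      T'.F (ι (j v)) (ι (j (a v i))) (ι (j (a v (i + 1)))) := by
    intro v hv i hid
    refine hfaces _ _ _ (hFan v hv i hid) ?_ ?_ ?_
    · exact (hH1 _ _).2 ⟨v, a v i, Or.inl (hN v hv i hid.le), rfl, rfl⟩
    · exact (hH1 _ _).2 ⟨a v i, a v (i + 1), Or.inr ⟨v, hv, i, hid, Or.inl ⟨rfl, rfl⟩⟩, rfl, rfl⟩
    · exact (hH1 _ _).2 ⟨a v (i + 1), v, Or.inl (hN v hv (i + 1) hid).symm, rfl, rfl⟩
  have hnotS : ∀ v ∈ (S : Set U), ∀ r ∈ (S : Set U), ∀ i, i ≤ d v → r ≠ a v i := by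
    intro v hv r hr i hiv h
    have h1 := hN v hv i hiv
    rw [← h] at h1
    exact (hS v hv r hr h1.ne).1 h1
  have hex : ∃ x y w, T'.F x y w ∧ ∀ (s : {s // s ∈ S}) (i : ℕ), i < d s.1 →
      ¬ IsRot (ι (j s.1)) (ι (j (a s.1 i))) (ι (j (a s.1 (i + 1)))) x y w := by
    by_cases hSe : S.Nonempty
    · obtain ⟨s, hs⟩ := hSe
      have hs' : s ∈ (S : Set U) := hs
      have hds := hd1 s hs
      have f1 := T'.rot _ _ _ (hF s hs' 0 (by omega))
      rw [zero_add] at f1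
      obtain ⟨x, hx⟩ := T'.opp _ _ _ f1
      refine ⟨_, _, x, hx, ?_⟩
      rintro ⟨r, hr⟩ i hir hrot
      have hr' : r ∈ (S : Set U) := hr
      simp only at hir hrot
      rcases hrot with ⟨h3, -, -⟩ | ⟨h3, h4, h5⟩ | ⟨-, h4, -⟩
      · exact hnotS s hs' r hr' 1 hds (hκ h3).symm
      · have h6 : a s 1 = a r i := hκ h3
        have hsr : s = r := by
          by_contra hne
          refine (hS s hs' r hr' hne).2 (a s 1) ⟨hN s hs' 1 hds, ?_⟩
          rw [h6]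
          exact hN r hr' i hir.le
        subst hsr
        rw [h5] at hx
        exact FS_GNE T' hU2 _ _ _ _ f1 hx rfl
      · exact hnotS s hs' r hr' 0 (by omega) (hκ h4).symm
    · obtain ⟨⟨x, y, w⟩, hxyw⟩ : ∃ t : U2 × U2 × U2, T'.F t.1 t.2.1 t.2.2 := by
        by_contra hcon
        push Not at hcon
        have h4 : IsEmpty {t : U2 × U2 × U2 // T'.F t.1 t.2.1 t.2.2} := ⟨fun t => hcon t.1 t.2⟩
        have h5 := T'.euler
        rw [Nat.card_of_isEmpty] at h5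
        omega
      refine ⟨x, y, w, hxyw, ?_⟩
      rintro ⟨s, hs⟩
      exact absurd ⟨s, hs⟩ hSe
  obtain ⟨T'', k', hfanT, hk', hdraw⟩ := FE_DRAWS T' A' hcA hcB hmono
    (S := {s // s ∈ S}) (fun s => ι (j s.1)) (fun s => d s.1) (fun s i => ι (j (a s.1 i)))
    (fun s => hd1 s.1 s.2) (fun s i hid => hF s.1 s.2 i hid)
    (fun s i k hik hkk h => hi s.1 s.2 i k hik hkk (hκ h))
    (by
      intro s r i k hsr hik hkk hrot
      have hsr' : s.1 ≠ r.1 := fun h => hsr (Subtype.ext h)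
      rcases hrot with ⟨h3, -, -⟩ | ⟨h3, -, -⟩ | ⟨h3, -, -⟩
      · exact hsr' (hκ h3).symm
      · exact hnotS s.1 s.2 r.1 r.2 i (le_of_lt hik) (hκ h3)
      · exact hnotS s.1 s.2 r.1 r.2 (i + 1) hik (hκ h3))
    (by
      intro s i hid
      rw [hκA, hκA]
      exact hb _ _ (hN s.1 s.2 i hid))
    hex
  have hst := FE_FADJ T' (fun s : {s // s ∈ S} => ι (j s.1)) (fun s => d s.1)
    (fun s i => ι (j (a s.1 i))) T'' (fun s => hd1 s.1 s.2) hfanT
  obtain ⟨φ, hφ1, hφ2⟩ : ∃ φ : U → U2 ⊕ {s // s ∈ S},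
      (∀ (x : U) (hx : x ∈ S), φ x = Sum.inr ⟨x, hx⟩) ∧
      (∀ (x : U) (_ : x ∉ S), φ x = Sum.inl (ι (j x))) := by
    refine ⟨fun x => if hx : x ∈ S then Sum.inr ⟨x, hx⟩ else Sum.inl (ι (j x)), ?_, ?_⟩
    · intro x hx
      simp only [hx, dif_pos]
    · intro x hx
      simp only [hx, dif_neg, not_false_eq_true]
  have hφi : Function.Injective φ := by
    intro x y hxy
    by_cases hx : x ∈ S
    · by_cases hy : y ∈ S
      · rw [hφ1 x hx, hφ1 y hy] at hxy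
        exact congrArg Subtype.val (Sum.inr.inj hxy)
      · rw [hφ1 x hx, hφ2 y hy] at hxy
        cases hxy
    · by_cases hy : y ∈ S
      · rw [hφ2 x hx, hφ1 y hy] at hxy
        cases hxy
      · rw [hφ2 x hx, hφ2 y hy] at hxy
        exact hκ (Sum.inl.inj hxy)
  have hmix : ∀ (x y : U) (hx : x ∈ S), H.Adj x y →
      T''.G.Adj (Sum.inr ⟨x, hx⟩) (Sum.inl (ι (j y))) := by
    intro x y hx hxy
    obtain ⟨i, hid, rfl⟩ := (hNiff x hx y).1 hxy
    exact hst.2.1 ⟨x, hx⟩ i hid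
  have hφadj : ∀ x y, H.Adj x y → T''.G.Adj (φ x) (φ y) := by
    intro x y hxy
    by_cases hx : x ∈ S
    · by_cases hy : y ∈ S
      · exact absurd hxy (hS x hx y hy hxy.ne).1
      · rw [hφ1 x hx, hφ2 y hy]
        exact hmix x y hx hxy
    · by_cases hy : y ∈ S
      · rw [hφ2 x hx, hφ1 y hy]
        exact (hmix y x hy hxy.symm).symm
      · rw [hφ2 x hx, hφ2 y hy]
        refine hst.1 _ _ (hHT' _ _ ((hH1 _ _).2 ⟨x, y, Or.inl hxy, rfl, rfl⟩)) ?_
        intro s i _ _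
        refine ⟨fun h => hx ?_, fun h => hy ?_⟩
        · have h3 : x = s.1 := hκ h.1
          rw [h3]
          exact s.2
        · have h3 : y = s.1 := hκ h.1
          rw [h3]
          exact s.2
  obtain ⟨k, hkd⟩ : ∃ k : U → ℕ, ∀ (x : U) (hx : x ∈ S), k x = k' ⟨x, hx⟩ := by
    refine ⟨fun x => if hx : x ∈ S then k' ⟨x, hx⟩ else 0, ?_⟩
    intro x hx
    simp only [hx, dif_pos]
  refine ⟨k, ?_, ?_⟩
  · intro s hs t ht hst'
    rw [hkd s hs, hkd t ht] at hst'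
    exact congrArg Subtype.val (hk' hst')
  · intro x y hxy
    obtain ⟨q, hq, hqs⟩ := hdraw (fun s => x s.1) (fun s => y s.1) (fun s t hst' =>
      hxy s.1 s.2 t.1 t.2 (by rw [hkd s.1 s.2, hkd t.1 t.2]; exact hst'))
    refine ⟨fun v => q (φ v), FS_PLANESUB H T''.G φ hφi hφadj q hq, ?_⟩
    intro s hs
    simp only
    rw [hφ1 s hs]
    exact hqs ⟨s, hs⟩


end Pool.Agent.H891WLC
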