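import Pool.Agent.H891FSS.Defs
import Pool.Agent.H891FSS.DefsE
import Pool.Agent.H891WLC.TRIANG
import Pool.Agent.H891FSS.FD_DUM
import Pool.Agent.H891FSS.FE_MAIN
import Pool.Agent.H891FSS.FS_PLANESUB

set_option autoImplicit false

namespace Pool.Agent.H891WLC

namespace W_FE_FIN

/-- the image of `G` under `Sum.inl` -/
def H0 {n : ℕ} (G : SimpleGraph (Fin n)) : SimpleGraph (Fin n ⊕ Fin 3) where
  Adj a b := ∃ u w, a = Sum.inl u ∧ b = Sum.inl w ∧ G.Adj u w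
  symm := ⟨by
    rintro a b ⟨u, w, h1, h2, h3⟩
    exact ⟨w, u, h2, h1, h3.symm⟩⟩
  loopless := ⟨by
    rintro a ⟨u, w, h1, h2, h3⟩
    have h4 : u = w := Sum.inl.inj (h1.symm.trans h2)
    subst h4
    exact h3.ne rfl⟩

theorem H0_adj {n : ℕ} (G : SimpleGraph (Fin n)) (u w : Fin n) :
    (H0 G).Adj (Sum.inl u) (Sum.inl w) ↔ G.Adj u w := by
  constructor
  · rintro ⟨u', w', h1, h2, h3⟩
    rw [Sum.inl.inj h1, Sum.inl.inj h2]
    exact h3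
  · intro h
    exact ⟨u, w, rfl, rfl, h⟩

theorem H0_nb {n : ℕ} (G : SimpleGraph (Fin n)) (u : Fin n) :
    {x | (H0 G).Adj (Sum.inl u) x} = Sum.inl '' {x | G.Adj u x} := by
  ext x
  constructor
  · rintro ⟨u', w', h1, h2, h3⟩
    exact ⟨w', by rw [Set.mem_ofPred_eq, Sum.inl.inj h1]; exact h3, h2.symm⟩
  · rintro ⟨w, hw, rfl⟩
    exact (H0_adj G u w).2 hw

theorem main_aux (n : ℕ) (hn : 1 ≤ n) (G : SimpleGraph (Fin n)) (p : Fin n → ℝ × ℝ)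
    (hp : Plane G p) (A : Set (Fin n))
    (hb : ∀ x y, G.Adj x y → (x ∈ A ↔ y ∉ A)) (S : Finset (Fin n))
    (hS : Sparse G (S : Set (Fin n))) :
    ∃ k : Fin n → ℕ, (∀ s ∈ S, ∀ t ∈ S, k s = k t → s = t) ∧
      ∀ x y : Fin n → ℝ, (∀ s ∈ S, ∀ t ∈ S, k s < k t → x s < x t) →
        ∃ q : Fin n → ℝ × ℝ, Plane G q ∧ ∀ s ∈ S, q s = (x s, y s) := by
  classical
  obtain ⟨T, _, hT⟩ := TRIANG n G p hp
  have hU : 4 ≤ Nat.card (Fin n ⊕ Fin 3) := by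
    rw [Nat.card_eq_fintype_card, Fintype.card_sum, Fintype.card_fin, Fintype.card_fin]
    omega
  have hH0 : ∀ x y, (H0 G).Adj x y → T.G.Adj x y := by
    rintro x y ⟨u, w, rfl, rfl, h⟩
    exact hT u w h
  let S1 : Finset (Fin n ⊕ Fin 3) :=
    (S.filter (fun s => Set.ncard {x | G.Adj s x} ≤ 3)).image Sum.inl
  have hS1 : ∀ v ∈ S1, ∃ s ∈ S, v = Sum.inl s ∧ Set.ncard {x | G.Adj s x} ≤ 3 := by
    intro v hv
    obtain ⟨s, hs, rfl⟩ := Finset.mem_image.1 hv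
    rw [Finset.mem_filter] at hs
    exact ⟨s, hs.1, rfl, hs.2⟩
  have hd : ∀ v ∈ S1, Set.ncard {x | (H0 G).Adj v x} ≤ 3 := by
    intro v hv
    obtain ⟨s, hs, rfl, h3⟩ := hS1 v hv
    rw [H0_nb, Set.ncard_image_of_injective _ Sum.inl_injective]
    exact h3
  obtain ⟨U', hfU, ι, T', H', hι, hT', hadj, h3, h5, hout⟩ := FD_DUM T hU (H0 G) hH0 S1 hd
  have hιinl : Function.Injective (fun i : Fin n => ι (Sum.inl i)) :=
    hι.comp Sum.inl_injective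
  have hadj2 : ∀ u w, H'.Adj (ι (Sum.inl u)) (ι (Sum.inl w)) ↔ G.Adj u w := by
    intro u w
    rw [hadj, H0_adj]
  have hedge : ∀ x y, H'.Adj x y → (∃ u w, x = ι (Sum.inl u) ∧ y = ι (Sum.inl w) ∧ G.Adj u w) ∨
      ((∀ z, x ≠ ι z) ∧ ∃ v, y = ι (Sum.inl v) ∧ ∀ p, H'.Adj x p ↔ p = ι (Sum.inl v)) ∨
      ((∀ z, y ≠ ι z) ∧ ∃ v, x = ι (Sum.inl v) ∧ ∀ p, H'.Adj y p ↔ p = ι (Sum.inl v)) := by
    intro x y hxy
    by_cases hx : ∀ z, x ≠ ι z
    · right; left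
      obtain ⟨v, hv, hvp⟩ := hout x hx
      obtain ⟨s, _, rfl, _⟩ := hS1 v hv
      exact ⟨hx, s, (hvp y).1 hxy, hvp⟩
    · by_cases hy : ∀ z, y ≠ ι z
      · right; right
        obtain ⟨v, hv, hvp⟩ := hout y hy
        obtain ⟨s, _, rfl, _⟩ := hS1 v hv
        exact ⟨hy, s, (hvp x).1 hxy.symm, hvp⟩
      · left
        push Not at hx hy
        obtain ⟨a, rfl⟩ := hx
        obtain ⟨b, rfl⟩ := hy
        obtain ⟨u, w, h1, h2, h4⟩ := (hadj a b).1 hxy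
        exact ⟨u, w, by rw [h1], by rw [h2], h4⟩
  let A' : Set U' := {m | (∃ x ∈ A, m = ι (Sum.inl x)) ∨
    ((∀ z, m ≠ ι z) ∧ ∃ x, x ∉ A ∧ H'.Adj m (ι (Sum.inl x)))}
  have hA1 : ∀ u, ι (Sum.inl u) ∈ A' ↔ u ∈ A := by
    intro u
    constructor
    · rintro (⟨x, hx, hxe⟩ | ⟨h, _⟩)
      · have h1 : u = x := hιinl hxe
        rw [h1]
        exact hx
      · exact absurd rfl (h (Sum.inl u))
    · intro h
      exact Or.inl ⟨u, h, rfl⟩
  have hA2 : ∀ m v, (∀ z, m ≠ ι z) → (∀ p, H'.Adj m p ↔ p = ι (Sum.inl v)) →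
      (m ∈ A' ↔ v ∉ A) := by
    intro m v hm hv
    constructor
    · rintro (⟨x, hx, hxe⟩ | ⟨_, x, hx, hxe⟩)
      · exact absurd hxe (hm _)
      · have h1 : x = v := hιinl ((hv _).1 hxe)
        rw [← h1]
        exact hx
    · intro h
      exact Or.inr ⟨hm, v, h, (hv _).2 rfl⟩
  have hb' : ∀ x y, H'.Adj x y → (x ∈ A' ↔ y ∉ A') := by
    intro x y hxy
    rcases hedge x y hxy with ⟨u, w, rfl, rfl, h⟩ | ⟨hx, v, rfl, hv⟩ | ⟨hy, v, rfl, hv⟩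
    · rw [hA1, hA1]
      exact hb u w h
    · rw [hA2 x v hx hv, hA1]
    · rw [hA1, hA2 y v hy hv, not_not]
  let S' : Finset U' := S.image (fun i => ι (Sum.inl i))
  have hS'mem : ∀ m ∈ S', ∃ s ∈ S, m = ι (Sum.inl s) := by
    intro m hm
    obtain ⟨s, hs, rfl⟩ := Finset.mem_image.1 hm
    exact ⟨s, hs, rfl⟩
  have hmemS' : ∀ s ∈ S, ι (Sum.inl s) ∈ S' := fun s hs => Finset.mem_image.2 ⟨s, hs, rfl⟩
  have hS' : Sparse H' (S' : Set U') := by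
    intro v hv w hw hvw
    obtain ⟨s, hs, rfl⟩ := hS'mem v hv
    obtain ⟨t, ht, rfl⟩ := hS'mem w hw
    have hst : s ≠ t := fun h => hvw (by rw [h])
    obtain ⟨h1, h2⟩ := hS s hs t ht hst
    refine ⟨fun h => h1 ((hadj2 s t).1 h), ?_⟩
    rintro m ⟨hm1, hm2⟩
    by_cases hm : ∀ z, m ≠ ι z
    · obtain ⟨v0, hv0, hv0p⟩ := hout m hm
      have e1 := (hv0p _).1 hm1.symm
      have e2 := (hv0p _).1 hm2.symm
      exact hvw (e1.trans e2.symm)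
    · push Not at hm
      obtain ⟨y, rfl⟩ := hm
      obtain ⟨u, w, e1, e2, e3⟩ := (hadj _ _).1 hm1
      obtain ⟨u', w', f1, f2, f3⟩ := (hadj _ _).1 hm2
      have g1 : s = u := Sum.inl.inj e1
      have g2 : t = u' := Sum.inl.inj f1
      have g3 : w' = w := Sum.inl.inj (f2.symm.trans e2)
      subst g1 g2 g3
      exact h2 w' ⟨e3, f3⟩
  have h2' : ∀ v ∈ S', 2 ≤ Set.ncard {x | H'.Adj v x} := by
    intro v hv
    obtain ⟨s, hs, rfl⟩ := hS'mem v hv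
    by_cases hc : Set.ncard {x | G.Adj s x} ≤ 3
    · have h1 : Sum.inl s ∈ S1 := Finset.mem_image.2 ⟨s, Finset.mem_filter.2 ⟨hs, hc⟩, rfl⟩
      rw [h3 _ h1]
      norm_num
    · have h1 : (fun i : Fin n => ι (Sum.inl i)) '' {x | G.Adj s x} ⊆
          {x | H'.Adj (ι (Sum.inl s)) x} := by
        rintro _ ⟨w, hw, rfl⟩
        exact (hadj2 s w).2 hw
      have h4 := Set.ncard_le_ncard h1 (Set.toFinite _)
      rw [Set.ncard_image_of_injective _ hιinl] at h4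
      omega
  have hU' : 4 ≤ Nat.card U' := hU.trans (Nat.card_le_card_of_injective ι hι)
  obtain ⟨k', hk1, hk2⟩ := FE_MAIN T' hU' H' hT' A' hb' S' hS' h2'
  refine ⟨fun i => k' (ι (Sum.inl i)), ?_, ?_⟩
  · intro s hs t ht hst
    exact hιinl (hk1 _ (hmemS' s hs) _ (hmemS' t ht) hst)
  · intro x y hxy
    let φ : Fin n → U' := fun i => ι (Sum.inl i)
    have hφx : ∀ (x : Fin n → ℝ) (i : Fin n),
        Function.extend φ x 0 (ι (Sum.inl i)) = x i := fun x i =>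
      hιinl.extend_apply x 0 i
    obtain ⟨q, hq1, hq2⟩ := hk2 (Function.extend φ x 0) (Function.extend φ y 0) (by
      intro s hs t ht hst
      obtain ⟨s, hs', rfl⟩ := hS'mem s hs
      obtain ⟨t, ht', rfl⟩ := hS'mem t ht
      rw [hφx, hφx]
      exact hxy s hs' t ht' hst)
    refine ⟨fun i => q (ι (Sum.inl i)), ?_, ?_⟩
    · exact FS_PLANESUB G H' (fun i => ι (Sum.inl i)) hιinl
        (fun u w h => (hadj2 u w).2 h) q hq1
    · intro s hs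
      change q (ι (Sum.inl s)) = _
      rw [hq2 _ (hmemS' s hs), hφx, hφx]

end W_FE_FIN

open W_FE_FIN in
theorem FE_FIN (n : ℕ) (G : SimpleGraph (Fin n)) (p : Fin n → ℝ × ℝ) (hp : Plane G p) (A : Set (Fin n))
    (hb : ∀ x y, G.Adj x y → (x ∈ A ↔ y ∉ A)) (S : Finset (Fin n)) (hS : Sparse G (S : Set (Fin n))) :
    ∃ k : Fin n → ℕ, (∀ s ∈ S, ∀ t ∈ S, k s = k t → s = t) ∧
      ∀ x y : Fin n → ℝ, (∀ s ∈ S, ∀ t ∈ S, k s < k t → x s < x t) →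
        ∃ q : Fin n → ℝ × ℝ, Plane G q ∧ ∀ s ∈ S, q s = (x s, y s) := by
  rcases Nat.eq_zero_or_pos n with rfl | hn
  · refine ⟨fun _ => 0, fun s => s.elim0, ?_⟩
    intro x y _
    exact ⟨p, hp, fun s => s.elim0⟩
  · exact main_aux n hn G p hp A hb S hS


end Pool.Agent.H891WLC
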