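import Pool.Agent.H891FSS.Defs
import Pool.Agent.H891FSS.DefsE

set_option autoImplicit false

namespace Pool.Agent.H891WLC

namespace W_FE_SEL

end W_FE_SEL

open W_FE_SEL in
theorem FE_SEL {V : Type} [Fintype V] [DecidableEq V] (G : SimpleGraph V) (D : ℕ) (hG : ∀ v, Set.ncard {x | G.Adj v x} ≤ D)
    (X : Finset V) : ∃ S : Finset V, S ⊆ X ∧ Sparse G (S : Set V) ∧ X.card ≤ (1 + D + D * D) * S.card := by
  classical
  let N : V → Finset V := fun v => Finset.univ.filter (fun x => G.Adj v x)
  have hN : ∀ v, (N v).card ≤ D := by
    intro v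
    have h := hG v
    have h2 : {x | G.Adj v x} = ((N v : Finset V) : Set V) := by ext x; simp [N]
    rw [h2, Set.ncard_coe_finset] at h
    exact h
  let B : V → Finset V := fun v => insert v (N v ∪ (N v).biUnion N)
  have hB : ∀ v, (B v).card ≤ 1 + D + D * D := by
    intro v
    have h1 : ((N v).biUnion N).card ≤ (N v).card * D :=
      Finset.card_biUnion_le_card_mul _ _ _ (fun y _ => hN y)
    have h2 : (N v).card * D ≤ D * D := Nat.mul_le_mul_right _ (hN v)
    have h3 := Finset.card_union_le (N v) ((N v).biUnion N)
    have h4 := Finset.card_insert_le v (N v ∪ (N v).biUnion N)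
    have h5 := hN v
    show (insert v (N v ∪ (N v).biUnion N)).card ≤ _
    omega
  obtain ⟨S, hS, hmax⟩ := Finset.exists_max_image
    (X.powerset.filter (fun S : Finset V => Sparse G (S : Set V))) (fun S : Finset V => S.card)
    ⟨∅, by simp [Sparse]⟩
  rw [Finset.mem_filter, Finset.mem_powerset] at hS
  refine ⟨S, hS.1, hS.2, ?_⟩
  have hsub : X ⊆ S.biUnion B := by
    intro x hx
    rw [Finset.mem_biUnion]
    by_cases hxS : x ∈ S
    · exact ⟨x, hxS, Finset.mem_insert_self _ _⟩
    · by_contra hcon
      have hbad : ∀ v ∈ S, ¬ G.Adj v x ∧ ∀ y, ¬ (G.Adj v y ∧ G.Adj x y) := by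
        intro v hv
        constructor
        · intro h'
          refine hcon ⟨v, hv, Finset.mem_insert_of_mem (Finset.mem_union_left _ ?_)⟩
          simp only [N, Finset.mem_filter, Finset.mem_univ, true_and]
          exact h'
        · rintro y ⟨h1, h2⟩
          refine hcon ⟨v, hv, Finset.mem_insert_of_mem (Finset.mem_union_right _ ?_)⟩
          rw [Finset.mem_biUnion]
          refine ⟨y, ?_, ?_⟩
          · simp only [N, Finset.mem_filter, Finset.mem_univ, true_and]
            exact h1
          · simp only [N, Finset.mem_filter, Finset.mem_univ, true_and]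
            exact h2.symm
      have hsp : Sparse G ((insert x S : Finset V) : Set V) := by
        intro v hv w hw hvw
        rw [Finset.mem_coe, Finset.mem_insert] at hv hw
        rcases hv with hv | hv <;> rcases hw with hw | hw
        · exact absurd (hv.trans hw.symm) hvw
        · subst hv
          obtain ⟨h1, h2⟩ := hbad w hw
          exact ⟨fun h => h1 h.symm, fun y hy => h2 y ⟨hy.2, hy.1⟩⟩
        · subst hw
          exact hbad v hv
        · exact hS.2 v hv w hw hvw
      have := hmax (insert x S) (by
        rw [Finset.mem_filter, Finset.mem_powerset]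
        exact ⟨Finset.insert_subset hx hS.1, hsp⟩)
      rw [Finset.card_insert_of_notMem hxS] at this
      omega
  have h1 := Finset.card_le_card hsub
  have h2 := Finset.card_biUnion_le_card_mul S B (1 + D + D*D) (fun v _ => hB v)
  rw [mul_comm]
  exact le_trans h1 h2


end Pool.Agent.H891WLC
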