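import Pool.Agent.H891FSS.Defs
import Pool.Agent.H891FSS.DefsE
import Pool.Agent.H891FSS.FE_SEL
import Pool.Agent.H891FSS.FE_FIN
import Pool.Agent.H891FSS.FD_SHEAR

set_option autoImplicit false

namespace Pool.Agent.H891WLC

namespace W_FE_RES

theorem plane_comap {V W : Type} (G : SimpleGraph V) (p : V → ℝ × ℝ) (e : W ≃ V)
    (G' : SimpleGraph W) (hG' : ∀ a b, G'.Adj a b ↔ G.Adj (e a) (e b)) (h : Plane G p) :
    Plane G' (p ∘ e) := by
  refine ⟨h.1.comp e.injective, ?_, ?_⟩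
  · intro u v w huv hwu hwv
    exact h.2.1 (e u) (e v) (e w) ((hG' u v).1 huv) (e.injective.ne hwu) (e.injective.ne hwv)
  · intro u v x y huv hxy hne z hz1 hz2
    have hne' : s(e u, e v) ≠ s(e x, e y) := by
      intro heq
      apply hne
      rw [Sym2.eq_iff] at heq ⊢
      rcases heq with ⟨a, b⟩ | ⟨a, b⟩
      · exact Or.inl ⟨e.injective a, e.injective b⟩
      · exact Or.inr ⟨e.injective a, e.injective b⟩
    obtain ⟨w, hw1, hw2, hw3⟩ := h.2.2 (e u) (e v) (e x) (e y) ((hG' u v).1 huv)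
      ((hG' x y).1 hxy) hne' z hz1 hz2
    refine ⟨e.symm w, ?_, ?_, ?_⟩
    · rcases hw1 with rfl | rfl
      · left; simp
      · right; simp
    · rcases hw2 with rfl | rfl
      · left; simp
      · right; simp
    · simp [hw3]

theorem mainV {V : Type} [Fintype V] (G : SimpleGraph V) (p : V → ℝ × ℝ) (hp : Plane G p)
    (A : Set V) (hb : ∀ x y, G.Adj x y → (x ∈ A ↔ y ∉ A))
    (S : Finset V) (hS : Sparse G (S : Set V)) :
    ∃ k : V → ℕ, (∀ s ∈ S, ∀ t ∈ S, k s = k t → s = t) ∧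
      ∀ x y : V → ℝ, (∀ s ∈ S, ∀ t ∈ S, k s < k t → x s < x t) →
        ∃ q : V → ℝ × ℝ, Plane G q ∧ ∀ s ∈ S, q s = (x s, y s) := by
  classical
  let φ : V ≃ Fin (Fintype.card V) := Fintype.equivFin V
  let G' : SimpleGraph (Fin (Fintype.card V)) := G.comap φ.symm
  have hG' : ∀ a b, G'.Adj a b ↔ G.Adj (φ.symm a) (φ.symm b) := fun a b => Iff.rfl
  have hG'' : ∀ a b, G.Adj a b ↔ G'.Adj (φ a) (φ b) := by
    intro a b; rw [hG']; simp
  have hmem : ∀ a, a ∈ S.map φ.toEmbedding ↔ φ.symm a ∈ S := by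
    intro a
    rw [Finset.mem_map_equiv]
  obtain ⟨k, hk1, hk2⟩ := FE_FIN (Fintype.card V) G' (p ∘ φ.symm)
    (plane_comap G p φ.symm G' hG' hp) (φ.symm ⁻¹' A)
    (fun a b hab => hb _ _ ((hG' a b).1 hab)) (S.map φ.toEmbedding) (by
      intro v hv w hw hne
      rw [Finset.mem_coe, hmem] at hv hw
      have := hS (φ.symm v) hv (φ.symm w) hw (φ.symm.injective.ne hne)
      refine ⟨this.1, fun x hx => this.2 (φ.symm x) hx⟩)
  refine ⟨k ∘ φ, ?_, ?_⟩
  · intro s hs t ht hst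
    have := hk1 (φ s) (by rw [hmem]; simpa using hs) (φ t) (by rw [hmem]; simpa using ht) hst
    exact φ.injective this
  · intro x y hxy
    obtain ⟨q, hq1, hq2⟩ := hk2 (x ∘ φ.symm) (y ∘ φ.symm) (by
      intro s hs t ht hst
      rw [hmem] at hs ht
      exact hxy _ hs _ ht (by simpa using hst))
    refine ⟨q ∘ φ, plane_comap G' q φ G hG'' hq1, ?_⟩
    intro s hs
    have := hq2 (φ s) (by rw [hmem]; simpa using hs)
    simpa using this


end W_FE_RES

open W_FE_RES in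
theorem FE_RES {V : Type} [Fintype V] (G : SimpleGraph V) (hP : ∃ p : V → ℝ × ℝ, Plane G p) (A : Set V)
    (hb : ∀ x y, G.Adj x y → (x ∈ A ↔ y ∉ A)) (D : ℕ) (hG : ∀ v, Set.ncard {x | G.Adj v x} ≤ D) (X : Finset V) :
    ∃ S : Finset V, S ⊆ X ∧ (X.card : ℝ) ≤ (1 + D + D * D) * S.card ∧
      (∃ v : Fin S.card → V, Function.Injective v ∧ (∀ a, a ∈ S ↔ ∃ i, v i = a) ∧
        ∀ x y : Fin S.card → ℝ, StrictMono x → ∃ q : V → ℝ × ℝ, Plane G q ∧ ∀ i, q (v i) = (x i, y i)) ∧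
      (∀ P : Finset (ℝ × ℝ), P.card = S.card →
        ∃ q : V → ℝ × ℝ, Plane G q ∧ ∀ z : ℝ × ℝ, (∃ s ∈ S, q s = z) ↔ z ∈ P) := by
  classical
  obtain ⟨p, hp⟩ := hP
  obtain ⟨S, hSX, hSs, hcard⟩ := FE_SEL G D hG X
  obtain ⟨k, hk1, hk2⟩ := mainV G p hp A hb S hSs
  refine ⟨S, hSX, ?_, ?_, fun P hPc => FD_SHEAR G S k hk1 hk2 P hPc⟩
  · exact_mod_cast hcard
  · set T : Finset ℕ := S.image k with hT
    have hinj : Set.InjOn k (S : Set V) := fun a ha b hb hab => hk1 a ha b hb hab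
    have hTc : T.card = S.card := Finset.card_image_of_injOn hinj
    have hex : ∀ i : Fin S.card, ∃ w ∈ S, k w = T.orderEmbOfFin hTc i := by
      intro i
      have := Finset.orderEmbOfFin_mem T hTc i
      exact Finset.mem_image.1 this
    choose v hvS hvk using hex
    have hvinj : Function.Injective v := by
      intro a b hab
      have : T.orderEmbOfFin hTc a = T.orderEmbOfFin hTc b := by rw [← hvk, ← hvk, hab]
      exact (T.orderEmbOfFin hTc).injective this
    have hsurj : ∀ w ∈ S, ∃ i, v i = w := by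
      intro w hw
      have h1 : k w ∈ (T : Set ℕ) := by
        rw [hT]; exact Finset.mem_coe.2 (Finset.mem_image_of_mem k hw)
      rw [← Finset.range_orderEmbOfFin T hTc] at h1
      obtain ⟨i, hi⟩ := h1
      refine ⟨i, hk1 _ (hvS i) _ hw ?_⟩
      rw [hvk, hi]
    refine ⟨v, hvinj, ?_, ?_⟩
    · intro a
      constructor
      · exact hsurj a
      · rintro ⟨i, rfl⟩
        exact hvS i
    · intro x y hx
      obtain ⟨q, hq1, hq2⟩ := hk2 (Function.extend v x 0) (Function.extend v y 0) (by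
        intro s hs t ht hst
        obtain ⟨i, rfl⟩ := hsurj s hs
        obtain ⟨j, rfl⟩ := hsurj t ht
        rw [hvinj.extend_apply, hvinj.extend_apply]
        rw [hvk, hvk] at hst
        exact hx ((T.orderEmbOfFin hTc).lt_iff_lt.1 hst))
      refine ⟨q, hq1, fun i => ?_⟩
      rw [hq2 _ (hvS i), hvinj.extend_apply, hvinj.extend_apply]



end Pool.Agent.H891WLC
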