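import Pool.Agent.H891FSS.Defs

set_option autoImplicit false

namespace Pool.Agent.H891WLC

namespace W_FU_FIX

section ES
open Function Finset

variable {α β : Type} [Fintype α] [LinearOrder α] [LinearOrder β] {f : α → β} {i : α}

noncomputable def incTo (f : α → β) (i : α) : Finset ℕ :=
  open scoped Classical in
  image card {t : Finset α | IsGreatest t i ∧ StrictMonoOn f t}

noncomputable def decTo (f : α → β) (i : α) : Finset ℕ :=
  open scoped Classical in
  image card {t : Finset α | IsGreatest t i ∧ StrictAntiOn f t}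

lemma one_mem_incTo : 1 ∈ incTo f i := mem_image.2 ⟨{i}, by simp⟩
lemma one_mem_decTo : 1 ∈ decTo f i := one_mem_incTo (β := βᵒᵈ)

lemma incTo_nonempty : (incTo f i).Nonempty := ⟨1, one_mem_incTo⟩
lemma decTo_nonempty : (decTo f i).Nonempty := ⟨1, one_mem_decTo⟩

noncomputable def maxIncTo (f : α → β) (i : α) : ℕ :=
  max' (incTo f i) incTo_nonempty

noncomputable def maxDecTo (f : α → β) (i : α) : ℕ :=
  max' (decTo f i) decTo_nonempty

lemma one_le_maxIncTo : 1 ≤ maxIncTo f i :=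
  le_max' _ _ one_mem_incTo
lemma one_le_maxDecTo : 1 ≤ maxDecTo f i :=
  le_max' _ _ one_mem_decTo

lemma maxIncTo_mem : maxIncTo f i ∈ incTo f i :=
  max'_mem _ incTo_nonempty
lemma maxDecTo_mem : maxDecTo f i ∈ decTo f i :=
  max'_mem _ decTo_nonempty

lemma maxIncTo_lt {i j : α} (hij : i < j) (hfij : f i < f j) :
    maxIncTo f i < maxIncTo f j := by
  rw [Nat.lt_iff_add_one_le]
  refine le_max' _ _ ?_
  have : maxIncTo f i ∈ incTo f i := max'_mem _ incTo_nonempty
  simp only [incTo, mem_image, mem_filter, mem_univ, true_and, and_assoc] at this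
  obtain ⟨t, hti, ht₁, ht₂⟩ := this
  simp only [incTo, mem_image, mem_filter, mem_univ, true_and, and_assoc]
  have : ∀ x ∈ t, x < j := by
    intro x hx
    exact (hti.2 hx).trans_lt hij
  refine ⟨insert j t, ?_, ?_, ?_⟩
  next =>
    convert hti.insert j
    next => simp
    next => rw [max_eq_left hij.le]
  next =>
    simp only [coe_insert]
    rw [strictMonoOn_insert_iff_of_forall_le]
    · refine ⟨?_, ht₁⟩
      intro x hx hxj
      exact (ht₁.monotoneOn hx hti.1 (hti.2 hx)).trans_lt hfij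
    · exact fun x hx ↦ (this x hx).le
  have : j ∉ t := fun hj ↦ lt_irrefl _ (this _ hj)
  simp [this, ht₂]

lemma maxDecTo_gt {i j : α} (hij : i < j) (hfij : f j < f i) :
    maxDecTo f i < maxDecTo f j :=
  maxIncTo_lt (β := βᵒᵈ) hij hfij

noncomputable def paired (f : α → β) (i : α) : ℕ × ℕ :=
  (maxIncTo f i, maxDecTo f i)

lemma paired_injective (hf : Injective f) : Injective (paired f) := by
  apply Injective.of_lt_imp_ne
  intro i j hij q
  cases lt_or_gt_of_ne (hf.ne hij.ne)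
  case inl h => exact (maxIncTo_lt hij h).ne congr($q.1)
  case inr h => exact (maxDecTo_gt hij h).ne congr($q.2)

theorem erdos_szekeres {r s : ℕ} {f : α → β} (hn : r * s < Fintype.card α) (hf : Injective f) :
    (∃ t : Finset α, r < #t ∧ StrictMonoOn f t) ∨
      ∃ t : Finset α, s < #t ∧ StrictAntiOn f t := by
  classical
  rsuffices ⟨i, hi⟩ : ∃ i, r < maxIncTo f i ∨ s < maxDecTo f i
  · refine Or.imp ?_ ?_ hi
    on_goal 1 =>
      have : maxIncTo f i ∈ image card _ := maxIncTo_mem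
    on_goal 2 =>
      have : maxDecTo f i ∈ image card _ := maxDecTo_mem
    all_goals
      intro hi
      obtain ⟨t, ht₁, ht₂⟩ := mem_image.1 this
      refine ⟨t, by rwa [ht₂], ?_⟩
      rw [mem_filter] at ht₁
      exact ht₁.2.2
  by_contra! q
  have : Set.MapsTo (paired f) (univ : Finset α) (Icc 1 r ×ˢ Icc 1 s : Finset _) := by
    simp [paired, one_le_maxIncTo, one_le_maxDecTo, Set.MapsTo, *]
  refine hn.not_ge ?_
  simpa using card_le_card_of_injOn (paired f) this (paired_injective hf).injOn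

end ES

theorem es_sq (s : ℕ) (a : Fin s → ℝ) (ha : Function.Injective a) :
    ∃ t : Finset (Fin s), s ≤ t.card * t.card ∧
      (StrictMonoOn a (t : Set (Fin s)) ∨ StrictAntiOn a (t : Set (Fin s))) := by
  classical
  let P : ℕ → Prop := fun k => ∃ t : Finset (Fin s), k ≤ t.card ∧
      (StrictMonoOn a (t : Set (Fin s)) ∨ StrictAntiOn a (t : Set (Fin s)))
  have hP0 : P 0 := ⟨∅, Nat.zero_le _, Or.inl (by intro x hx; simp at hx)⟩
  set T := Nat.findGreatest P s with hT
  have hPT : P T := Nat.findGreatest_spec (m := 0) (Nat.zero_le _) hP0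
  obtain ⟨t, ht1, ht2⟩ := hPT
  refine ⟨t, ?_, ht2⟩
  by_contra hcon
  push Not at hcon
  have h1 : T * T < s := lt_of_le_of_lt (Nat.mul_le_mul ht1 ht1) hcon
  have h2 : ∃ t' : Finset (Fin s), T < t'.card ∧
      (StrictMonoOn a (t' : Set (Fin s)) ∨ StrictAntiOn a (t' : Set (Fin s))) := by
    rcases erdos_szekeres (r := T) (s := T) (f := a) (by simpa using h1) ha with
      ⟨t', h3, h4⟩ | ⟨t', h3, h4⟩
    · exact ⟨t', h3, Or.inl h4⟩
    · exact ⟨t', h3, Or.inr h4⟩
  obtain ⟨t', h3, h4⟩ := h2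
  have h5 : t'.card ≤ s := by
    have := Finset.card_le_univ t'
    simpa using this
  have h6 : t'.card ≤ T := Nat.le_findGreatest h5 ⟨t', le_rfl, h4⟩
  omega

theorem ext_mono (s : ℕ) (a : Fin s → ℝ) (I : Finset (Fin s))
    (hI : StrictMonoOn a (I : Set (Fin s))) :
    ∃ x : Fin s → ℝ, StrictMono x ∧ ∀ i ∈ I, x i = a i := by
  classical
  -- minimal gap
  obtain ⟨m, hm0, hm⟩ : ∃ m : ℝ, 0 < m ∧ ∀ i ∈ I, ∀ i' ∈ I, i < i' → m ≤ a i' - a i := by
    set Q : Finset (Fin s × Fin s) := (I ×ˢ I).filter (fun p => p.1 < p.2) with hQ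
    rcases Q.eq_empty_or_nonempty with h | h
    · refine ⟨1, one_pos, fun i hi i' hi' hii => ?_⟩
      exfalso
      have : (i, i') ∈ Q := by simp [hQ, hi, hi', hii]
      rw [h] at this
      simp at this
    · obtain ⟨p, hp, hmin⟩ := Q.exists_min_image (fun p => a p.2 - a p.1) h
      rw [hQ, Finset.mem_filter, Finset.mem_product] at hp
      refine ⟨a p.2 - a p.1, sub_pos.2 (hI hp.1.1 hp.1.2 hp.2), fun i hi i' hi' hii => ?_⟩
      have : (i, i') ∈ Q := by simp [hQ, hi, hi', hii]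
      exact hmin _ this
  set δ : ℝ := m / (s + 1) with hδ
  have hδ0 : 0 < δ := by positivity
  have hδs : δ * s ≤ m := by
    rw [hδ, div_mul_eq_mul_div, div_le_iff₀ (by positivity)]
    nlinarith
  set L : ℝ := -(∑ i, |a i|) - δ * s with hL
  have hLle : ∀ (i j : Fin s), L + δ * (j : ℕ) ≤ a i := by
    intro i j
    have h1 : |a i| ≤ ∑ i, |a i| :=
      Finset.single_le_sum (f := fun i => |a i|) (fun i _ => abs_nonneg _) (Finset.mem_univ i)
    have h2 : -|a i| ≤ a i := neg_abs_le _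
    have h3 : ((j : ℕ) : ℝ) ≤ s := by exact_mod_cast j.2.le
    have h4 : δ * (j : ℕ) ≤ δ * s := mul_le_mul_of_nonneg_left h3 hδ0.le
    rw [hL]; linarith
  let g : Fin s → Option (Fin s) → ℝ := fun j o => o.elim (L + δ * (j : ℕ))
    (fun i => if i ∈ I ∧ i ≤ j then a i + δ * (((j : ℕ) : ℝ) - ((i : ℕ) : ℝ)) else L + δ * (j : ℕ))
  have hne : (Finset.univ : Finset (Option (Fin s))).Nonempty := ⟨none, Finset.mem_univ _⟩
  let x : Fin s → ℝ := fun j => Finset.univ.sup' hne (g j)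
  refine ⟨x, ?_, ?_⟩
  · intro j j' hjj
    have hj' : ((j : ℕ) : ℝ) < ((j' : ℕ) : ℝ) := by exact_mod_cast hjj
    have hlt : δ * ((j : ℕ) : ℝ) < δ * ((j' : ℕ) : ℝ) := mul_lt_mul_of_pos_left hj' hδ0
    have hnone : L + δ * (j : ℕ) < x j' := by
      have h1 : g j' none ≤ x j' := Finset.le_sup' (g j') (Finset.mem_univ none)
      have h2 : g j' none = L + δ * (j' : ℕ) := rfl
      linarith
    show Finset.univ.sup' hne (g j) < x j'
    rw [Finset.sup'_lt_iff]
    rintro (_ | i) _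
    · exact hnone
    · by_cases hi : i ∈ I ∧ i ≤ j
      · have e1 : g j (some i) = a i + δ * (((j : ℕ) : ℝ) - ((i : ℕ) : ℝ)) := if_pos hi
        have e2 : g j' (some i) = a i + δ * (((j' : ℕ) : ℝ) - ((i : ℕ) : ℝ)) :=
          if_pos ⟨hi.1, hi.2.trans hjj.le⟩
        have h1 : g j' (some i) ≤ x j' := Finset.le_sup' (g j') (Finset.mem_univ (some i))
        rw [e1]; rw [e2] at h1
        nlinarith
      · have e1 : g j (some i) = L + δ * (j : ℕ) := if_neg hi
        rw [e1]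
        exact hnone
  · intro i0 hi0
    apply le_antisymm
    · apply Finset.sup'_le
      rintro (_ | i) _
      · exact hLle i0 i0
      · by_cases hi : i ∈ I ∧ i ≤ i0
        · have e1 : g i0 (some i) = a i + δ * (((i0 : ℕ) : ℝ) - ((i : ℕ) : ℝ)) := if_pos hi
          rw [e1]
          rcases eq_or_lt_of_le hi.2 with h | h
          · rw [h]; simp
          · have h1 := hm i hi.1 i0 hi0 h
            have h2 : ((i0 : ℕ) : ℝ) - ((i : ℕ) : ℝ) ≤ s := by
              have h3 : ((i0 : ℕ) : ℝ) ≤ s := by exact_mod_cast i0.2.le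
              have h4 : (0 : ℝ) ≤ ((i : ℕ) : ℝ) := Nat.cast_nonneg _
              linarith
            have h5 := mul_le_mul_of_nonneg_left h2 hδ0.le
            linarith
        · have e1 : g i0 (some i) = L + δ * (i0 : ℕ) := if_neg hi
          rw [e1]
          exact hLle i0 i0
    · have e1 : g i0 (some i0) = a i0 + δ * (((i0 : ℕ) : ℝ) - ((i0 : ℕ) : ℝ)) :=
        if_pos ⟨hi0, le_rfl⟩
      have h1 : g i0 (some i0) ≤ x i0 := Finset.le_sup' (g i0) (Finset.mem_univ (some i0))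
      rw [e1, sub_self, mul_zero, add_zero] at h1
      exact h1

theorem plane_map {V : Type} (G : SimpleGraph V) (q : V → ℝ × ℝ) (A : ℝ × ℝ →ₗ[ℝ] ℝ × ℝ)
    (hA : Function.Injective A) (hq : Plane G q) : Plane G (fun v => A (q v)) := by
  have hseg : ∀ a b z : ℝ × ℝ, z ∈ segment ℝ (A a) (A b) → ∃ z0 ∈ segment ℝ a b, A z0 = z := by
    intro a b z hz
    obtain ⟨s, t, hs, ht, hst, rfl⟩ := hz
    exact ⟨s • a + t • b, ⟨s, t, hs, ht, hst, rfl⟩, by simp⟩
  refine ⟨fun u v h => hq.1 (hA h), ?_, ?_⟩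
  · intro u v w huv hwu hwv hw
    obtain ⟨z0, hz0, hz⟩ := hseg _ _ _ hw
    rw [hA hz] at hz0
    exact hq.2.1 u v w huv hwu hwv hz0
  · intro u v x y huv hxy hne z hz1 hz2
    obtain ⟨z0, hz0, hz⟩ := hseg _ _ _ hz1
    obtain ⟨z1, hz1', hz'⟩ := hseg _ _ _ hz2
    have h01 : z0 = z1 := hA (hz.trans hz'.symm)
    subst h01
    obtain ⟨w, hw1, hw2, hw3⟩ := hq.2.2 u v x y huv hxy hne z0 hz0 hz1'
    exact ⟨w, hw1, hw2, by rw [← hz, hw3]⟩

theorem exists_eps (s : ℕ) (P : Fin s → ℝ × ℝ) (hP : Function.Injective P) :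
    ∃ ε : ℝ, Function.Injective (fun i => (P i).1 + ε * (P i).2) := by
  classical
  set B : Finset ℝ := (Finset.univ : Finset (Fin s × Fin s)).image
    (fun p => -((P p.1).1 - (P p.2).1) / ((P p.1).2 - (P p.2).2)) with hB
  obtain ⟨ε, hε⟩ := Infinite.exists_notMem_finset B
  refine ⟨ε, fun i j hij => ?_⟩
  by_contra hne
  simp only at hij
  by_cases h2 : (P i).2 = (P j).2
  · rw [h2] at hij
    have h1 : (P i).1 = (P j).1 := by linarith
    exact hne (hP (Prod.ext h1 h2))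
  · apply hε
    rw [hB, Finset.mem_image]
    refine ⟨(i, j), Finset.mem_univ _, ?_⟩
    have h3 : (P i).2 - (P j).2 ≠ 0 := sub_ne_zero.2 h2
    simp only
    rw [div_eq_iff h3]
    linarith

/-- the linear map (X,Y) ↦ (c X - ε Y, Y) -/
noncomputable def shr (c ε : ℝ) : ℝ × ℝ →ₗ[ℝ] ℝ × ℝ :=
  LinearMap.prod (c • LinearMap.fst ℝ ℝ ℝ - ε • LinearMap.snd ℝ ℝ ℝ) (LinearMap.snd ℝ ℝ ℝ)

theorem shr_apply (c ε : ℝ) (z : ℝ × ℝ) : shr c ε z = (c * z.1 - ε * z.2, z.2) := by
  simp [shr]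

theorem shr_inj (c ε : ℝ) (hc : c ≠ 0) : Function.Injective (shr c ε) := by
  intro z w h
  rw [shr_apply, shr_apply, Prod.mk.injEq] at h
  obtain ⟨h1, h2⟩ := h
  rw [h2] at h1
  have h3 : c * z.1 = c * w.1 := by linarith
  exact Prod.ext (mul_left_cancel₀ hc h3) h2

end W_FU_FIX

open W_FU_FIX in
theorem FU_FIX {V : Type} [Fintype V] [DecidableEq V] (G : SimpleGraph V) (S : Finset V)
    (hS : ∃ v : Fin S.card → V, Function.Injective v ∧ (∀ a, a ∈ S ↔ ∃ i, v i = a) ∧
        ∀ x y : Fin S.card → ℝ, StrictMono x → ∃ q : V → ℝ × ℝ, Plane G q ∧ ∀ i, q (v i) = (x i, y i))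
    (Γ : V → ℝ × ℝ) (hΓ : Function.Injective Γ) :
    ∃ (F : Finset V) (q : V → ℝ × ℝ), S.card ≤ F.card * F.card ∧ Plane G q ∧ ∀ v ∈ F, q v = Γ v := by
  obtain ⟨v, hv, -, hdr⟩ := hS
  obtain ⟨ε, hε⟩ := exists_eps S.card (fun i => Γ (v i)) (hΓ.comp hv)
  obtain ⟨I, hI, hmono⟩ := es_sq S.card _ hε
  refine ⟨I.image v, ?_⟩
  rw [Finset.card_image_of_injective I hv]
  rcases hmono with hm | hm
  · obtain ⟨x, hx, hxI⟩ := ext_mono S.card _ I hm
    obtain ⟨q0, hq0, hq0v⟩ := hdr x (fun i => (Γ (v i)).2) hx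
    refine ⟨fun w => shr 1 ε (q0 w), hI, plane_map G q0 _ (shr_inj 1 ε one_ne_zero) hq0, ?_⟩
    intro w hw
    obtain ⟨i, hi, rfl⟩ := Finset.mem_image.1 hw
    simp only
    rw [hq0v i, shr_apply]
    apply Prod.ext
    · simp only
      rw [hxI i hi]
      simp
    · rfl
  · have hm' : StrictMonoOn (fun i => -((Γ (v i)).1 + ε * (Γ (v i)).2)) (I : Set (Fin S.card)) := by
      intro i hi j hj hij
      have := hm hi hj hij
      simp only at this ⊢
      linarith
    obtain ⟨x, hx, hxI⟩ := ext_mono S.card _ I hm'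
    obtain ⟨q0, hq0, hq0v⟩ := hdr x (fun i => (Γ (v i)).2) hx
    refine ⟨fun w => shr (-1) ε (q0 w), hI,
      plane_map G q0 _ (shr_inj (-1) ε (by norm_num)) hq0, ?_⟩
    intro w hw
    obtain ⟨i, hi, rfl⟩ := Finset.mem_image.1 hw
    simp only
    rw [hq0v i, shr_apply]
    apply Prod.ext
    · simp only
      rw [hxI i hi]
      ring
    · rfl


end Pool.Agent.H891WLC
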