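import Pool.Agent.H891FSS.Defs

set_option autoImplicit false

namespace Pool.Agent.H891WLC

namespace W_FU_OPEN

open Topology

theorem closed_ex {X Y Z : Type} [TopologicalSpace X] [CompactSpace X] [TopologicalSpace Y]
    [TopologicalSpace Z] [T2Space Z] (f g : X × Y → Z) (hf : Continuous f) (hg : Continuous g) :
    IsClosed {y | ∃ x, f (x, y) = g (x, y)} := by
  have h := isClosedMap_snd_of_compactSpace (X := X) (Y := Y) _ (isClosed_eq hf hg)
  have e : {y | ∃ x, f (x, y) = g (x, y)} = Prod.snd '' {p : X × Y | f p = g p} := by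
    ext y
    constructor
    · rintro ⟨x, hx⟩
      exact ⟨(x, y), hx, rfl⟩
    · rintro ⟨⟨x, y'⟩, hx, rfl⟩
      exact ⟨x, hx⟩
  rw [e]
  exact h

theorem mem_seg {a b z : ℝ × ℝ} : z ∈ segment ℝ a b ↔
    ∃ t : Set.Icc (0 : ℝ) 1, z = (1 - (t : ℝ)) • a + (t : ℝ) • b := by
  rw [segment_eq_image]
  constructor
  · rintro ⟨t, ht, h⟩
    exact ⟨⟨t, ht⟩, h.symm⟩
  · rintro ⟨⟨t, ht⟩, h⟩
    exact ⟨t, ht, h.symm⟩

theorem closed_pt {V : Type} (u v w : V) :
    IsClosed {q' : V → ℝ × ℝ | q' w ∈ segment ℝ (q' u) (q' v)} := by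
  have h := closed_ex (X := Set.Icc (0 : ℝ) 1) (Y := V → ℝ × ℝ)
    (fun p => p.2 w) (fun p => (1 - (p.1 : ℝ)) • p.2 u + (p.1 : ℝ) • p.2 v)
    (by fun_prop) (by fun_prop)
  have e : {q' : V → ℝ × ℝ | q' w ∈ segment ℝ (q' u) (q' v)} =
      {y | ∃ x : Set.Icc (0 : ℝ) 1, (fun p : (Set.Icc (0 : ℝ) 1) × (V → ℝ × ℝ) => p.2 w) (x, y) =
        (fun p : (Set.Icc (0 : ℝ) 1) × (V → ℝ × ℝ) =>
          (1 - (p.1 : ℝ)) • p.2 u + (p.1 : ℝ) • p.2 v) (x, y)} := by
    ext q'
    exact mem_seg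
  rw [e]
  exact h

theorem closed_seg {V : Type} (u v x y : V) :
    IsClosed {q' : V → ℝ × ℝ | ∃ z, z ∈ segment ℝ (q' u) (q' v) ∧ z ∈ segment ℝ (q' x) (q' y)} := by
  have h := closed_ex (X := Set.Icc (0 : ℝ) 1 × Set.Icc (0 : ℝ) 1) (Y := V → ℝ × ℝ)
    (fun p => (1 - (p.1.1 : ℝ)) • p.2 u + (p.1.1 : ℝ) • p.2 v)
    (fun p => (1 - (p.1.2 : ℝ)) • p.2 x + (p.1.2 : ℝ) • p.2 y)
    (by fun_prop) (by fun_prop)
  refine (Eq.subst (motive := fun S => IsClosed S) ?_ h)
  ext q'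
  constructor
  · rintro ⟨⟨s, t⟩, hst⟩
    exact ⟨_, mem_seg.2 ⟨s, rfl⟩, mem_seg.2 ⟨t, hst⟩⟩
  · rintro ⟨z, h1, h2⟩
    obtain ⟨s, hs⟩ := mem_seg.1 h1
    obtain ⟨t, ht⟩ := mem_seg.1 h2
    exact ⟨(s, t), hs.symm.trans ht⟩

theorem ray {a b c z : ℝ × ℝ} (h1 : z ∈ segment ℝ a b) (h2 : z ∈ segment ℝ a c) (hz : z ≠ a) :
    b ∈ segment ℝ a c ∨ c ∈ segment ℝ a b := by
  obtain ⟨⟨s, hs0, hs1⟩, hs⟩ := mem_seg.1 h1
  obtain ⟨⟨t, ht0, ht1⟩, ht⟩ := mem_seg.1 h2
  simp only at hs ht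
  have hs' : 0 < s := by
    rcases hs0.lt_or_eq with h | h
    · exact h
    · exfalso
      apply hz
      rw [hs, ← h]
      simp
  have ht' : 0 < t := by
    rcases ht0.lt_or_eq with h | h
    · exact h
    · exfalso
      apply hz
      rw [ht, ← h]
      simp
  have e1 := congrArg Prod.fst (hs.symm.trans ht)
  have e2 := congrArg Prod.snd (hs.symm.trans ht)
  simp only [Prod.fst_add, Prod.smul_fst, Prod.snd_add, Prod.smul_snd, smul_eq_mul] at e1 e2
  rcases le_total s t with hst | hst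
  · right
    rw [mem_seg]
    refine ⟨⟨s / t, by positivity, (div_le_one ht').2 hst⟩, ?_⟩
    ext
    · simp only [Prod.fst_add, Prod.smul_fst, smul_eq_mul]
      field_simp
      linarith
    · simp only [Prod.snd_add, Prod.smul_snd, smul_eq_mul]
      field_simp
      linarith
  · left
    rw [mem_seg]
    refine ⟨⟨t / s, by positivity, (div_le_one hs').2 hst⟩, ?_⟩
    ext
    · simp only [Prod.fst_add, Prod.smul_fst, smul_eq_mul]
      field_simp
      linarith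
    · simp only [Prod.snd_add, Prod.smul_snd, smul_eq_mul]
      field_simp
      linarith

/-- the finitely many open conditions -/
def Cond {V : Type} (G : SimpleGraph V) (p : V → ℝ × ℝ) : Prop :=
  (∀ u v : V, u ≠ v → p u ≠ p v) ∧
    (∀ u v w : V, G.Adj u v → w ≠ u → w ≠ v → p w ∉ segment ℝ (p u) (p v)) ∧
    (∀ u v x y : V, u ≠ x → u ≠ y → v ≠ x → v ≠ y → G.Adj u v → G.Adj x y →
      ¬ ∃ z, z ∈ segment ℝ (p u) (p v) ∧ z ∈ segment ℝ (p x) (p y))

theorem plane_cond {V : Type} (G : SimpleGraph V) (p : V → ℝ × ℝ) (h : Plane G p) : Cond G p := by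
  obtain ⟨h1, h2, h3⟩ := h
  refine ⟨fun u v huv he => huv (h1 he), h2, ?_⟩
  rintro u v x y hux huy hvx hvy huv hxy ⟨z, hz1, hz2⟩
  obtain ⟨w, hw1, hw2, _⟩ := h3 u v x y huv hxy (by
    intro he
    rw [Sym2.eq_iff] at he
    rcases he with ⟨he, _⟩ | ⟨he, _⟩
    · exact hux he
    · exact huy he) z hz1 hz2
  rcases hw1 with rfl | rfl
  · rcases hw2 with hw2 | hw2
    · exact hux hw2
    · exact huy hw2
  · rcases hw2 with hw2 | hw2
    · exact hvx hw2
    · exact hvy hw2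

theorem cond_common {V : Type} (G : SimpleGraph V) (p : V → ℝ × ℝ) (h : Cond G p) (u v y : V)
    (huv : G.Adj u v) (huy : G.Adj u y) (hvy : v ≠ y) (z : ℝ × ℝ)
    (hz1 : z ∈ segment ℝ (p u) (p v)) (hz2 : z ∈ segment ℝ (p u) (p y)) : z = p u := by
  by_contra hz
  rcases ray hz1 hz2 hz with h' | h'
  · exact h.2.1 u y v huy huv.ne.symm hvy h'
  · exact h.2.1 u v y huv huy.ne.symm hvy.symm h'

theorem cond_plane {V : Type} (G : SimpleGraph V) (p : V → ℝ × ℝ) (h : Cond G p) : Plane G p := by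
  refine ⟨fun u v he => ?_, h.2.1, ?_⟩
  · by_contra huv
    exact h.1 u v huv he
  · intro u v x y huv hxy hne z hz1 hz2
    by_cases hux : u = x
    · subst hux
      refine ⟨u, Or.inl rfl, Or.inl rfl, ?_⟩
      refine cond_common G p h u v y huv hxy ?_ z hz1 hz2
      rintro rfl
      exact hne rfl
    by_cases huy : u = y
    · subst huy
      refine ⟨u, Or.inl rfl, Or.inr rfl, ?_⟩
      rw [segment_symm] at hz2
      refine cond_common G p h u v x huv hxy.symm ?_ z hz1 hz2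
      rintro rfl
      exact hne Sym2.eq_swap
    by_cases hvx : v = x
    · subst hvx
      refine ⟨v, Or.inr rfl, Or.inl rfl, ?_⟩
      rw [segment_symm] at hz1
      refine cond_common G p h v u y huv.symm hxy ?_ z hz1 hz2
      rintro rfl
      exact huy rfl
    by_cases hvy : v = y
    · subst hvy
      refine ⟨v, Or.inr rfl, Or.inr rfl, ?_⟩
      rw [segment_symm] at hz1 hz2
      refine cond_common G p h v u x huv.symm hxy.symm ?_ z hz1 hz2
      rintro rfl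
      exact hux rfl
    exact absurd ⟨z, hz1, hz2⟩ (h.2.2 u v x y hux huy hvx hvy huv hxy)

theorem cond_open {V : Type} [Finite V] (G : SimpleGraph V) (q : V → ℝ × ℝ) (h : Cond G q) :
    ∀ᶠ q' in 𝓝 q, Cond G q' := by
  obtain ⟨h1, h2, h3⟩ := h
  refine Filter.Eventually.and ?_ (Filter.Eventually.and ?_ ?_)
  · refine Filter.eventually_all.2 fun u => Filter.eventually_all.2 fun v => ?_
    by_cases huv : u = v
    · exact Filter.Eventually.of_forall fun q' hn => absurd huv hn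
    · have ho : IsOpen {q' : V → ℝ × ℝ | q' u ≠ q' v} :=
        isOpen_ne_fun (continuous_apply u) (continuous_apply v)
      filter_upwards [ho.mem_nhds (h1 u v huv)] with q' hq' _
      exact hq'
  · refine Filter.eventually_all.2 fun u => Filter.eventually_all.2 fun v =>
      Filter.eventually_all.2 fun w => ?_
    by_cases hh : G.Adj u v ∧ w ≠ u ∧ w ≠ v
    · have ho := (closed_pt u v w).isOpen_compl
      filter_upwards [ho.mem_nhds (h2 u v w hh.1 hh.2.1 hh.2.2)] with q' hq' _ _ _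
      exact hq'
    · exact Filter.Eventually.of_forall fun q' a b c => absurd ⟨a, b, c⟩ hh
  · refine Filter.eventually_all.2 fun u => Filter.eventually_all.2 fun v =>
      Filter.eventually_all.2 fun x => Filter.eventually_all.2 fun y => ?_
    by_cases hh : u ≠ x ∧ u ≠ y ∧ v ≠ x ∧ v ≠ y ∧ G.Adj u v ∧ G.Adj x y
    · obtain ⟨a1, a2, a3, a4, a5, a6⟩ := hh
      have ho := (closed_seg u v x y).isOpen_compl
      filter_upwards [ho.mem_nhds (h3 u v x y a1 a2 a3 a4 a5 a6)] with q' hq' _ _ _ _ _ _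
      exact hq'
    · exact Filter.Eventually.of_forall fun q' a b c d e f => absurd ⟨a, b, c, d, e, f⟩ hh

end W_FU_OPEN

open W_FU_OPEN in
theorem FU_OPEN {V : Type} [Fintype V] [DecidableEq V] (G : SimpleGraph V) (q : V → ℝ × ℝ) (hq : Plane G q) :
    ∃ δ : ℝ, 0 < δ ∧ ∀ q' : V → ℝ × ℝ, (∀ v, |(q' v).1 - (q v).1| < δ ∧ |(q' v).2 - (q v).2| < δ) → Plane G q' := by
  have h := cond_open G q (plane_cond G q hq)
  rw [Metric.eventually_nhds_iff] at h
  obtain ⟨δ, hδ, h⟩ := h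
  refine ⟨δ, hδ, fun q' hq' => cond_plane G q' (h ?_)⟩
  rw [dist_pi_lt_iff hδ]
  intro v
  rw [Prod.dist_eq, Real.dist_eq, Real.dist_eq]
  exact max_lt (hq' v).1 (hq' v).2


end Pool.Agent.H891WLC
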