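import Pool.Agent.H891FSS.Defs
import Pool.Agent.H891FSS.FU_OPEN

set_option autoImplicit false

namespace Pool.Agent.H891WLC

namespace W_FU_SGE

theorem avoid_real (c δ : ℝ) (hδ : 0 < δ) (F : Finset ℝ) : ∃ x : ℝ, |x - c| < δ ∧ x ∉ F := by
  have hinf : (Set.Ioo (c - δ) (c + δ)).Infinite := Set.Ioo_infinite (by linarith)
  obtain ⟨x, hx, hxF⟩ := hinf.exists_notMem_finset F
  refine ⟨x, ?_, hxF⟩
  rw [abs_lt]
  constructor <;> linarith [hx.1, hx.2]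

theorem avoid_seg (c : ℝ × ℝ) (δ : ℝ) (hδ : 0 < δ) (F : Finset ((ℝ × ℝ) × (ℝ × ℝ))) :
    ∃ z : ℝ × ℝ, |z.1 - c.1| < δ ∧ |z.2 - c.2| < δ ∧ ∀ ab ∈ F, z ∉ segment ℝ ab.1 ab.2 := by
  classical
  obtain ⟨x, hx, hxF⟩ := avoid_real c.1 δ hδ (F.image (fun ab => ab.1.1))
  obtain ⟨y, hy, hyF⟩ := avoid_real c.2 δ hδ (F.image (fun ab =>
    ab.1.2 + (x - ab.1.1) / (ab.2.1 - ab.1.1) * (ab.2.2 - ab.1.2)))
  refine ⟨(x, y), hx, hy, fun ab hab hz => ?_⟩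
  rw [segment_eq_image'] at hz
  obtain ⟨t, _, ht⟩ := hz
  have h1 : ab.1.1 + t * (ab.2.1 - ab.1.1) = x := by
    have := congrArg Prod.fst ht
    simpa using this
  have h2 : ab.1.2 + t * (ab.2.2 - ab.1.2) = y := by
    have := congrArg Prod.snd ht
    simpa using this
  by_cases h0 : ab.2.1 - ab.1.1 = 0
  · apply hxF
    rw [Finset.mem_image]
    refine ⟨ab, hab, ?_⟩
    rw [h0, mul_zero, add_zero] at h1
    exact h1
  · apply hyF
    rw [Finset.mem_image]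
    refine ⟨ab, hab, ?_⟩
    have ht' : (x - ab.1.1) / (ab.2.1 - ab.1.1) = t := by
      rw [div_eq_iff h0]
      linarith
    rw [ht']
    exact h2

theorem choose_pts {V : Type} [DecidableEq V] (q0 : V → ℝ × ℝ) (δ : ℝ) (hδ : 0 < δ)
    (F : Finset ((ℝ × ℝ) × (ℝ × ℝ))) (T : Finset V) :
    ∃ q : V → ℝ × ℝ, (∀ v ∈ T, |(q v).1 - (q0 v).1| < δ ∧ |(q v).2 - (q0 v).2| < δ ∧
      ∀ ab ∈ F, q v ∉ segment ℝ ab.1 ab.2) := by
  classical
  have h : ∀ v : V, ∃ z : ℝ × ℝ, |z.1 - (q0 v).1| < δ ∧ |z.2 - (q0 v).2| < δ ∧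
      ∀ ab ∈ F, z ∉ segment ℝ ab.1 ab.2 := fun v => avoid_seg (q0 v) δ hδ F
  choose q hq using h
  exact ⟨q, fun v _ => hq v⟩

end W_FU_SGE

open W_FU_SGE in
theorem FU_SGE {V W : Type} [Fintype V] [Fintype W] [DecidableEq V] [DecidableEq W] (G : SimpleGraph V) (H : SimpleGraph W)
    (hVW : Fintype.card V = Fintype.card W) (S : Finset V)
    (hS : ∀ P : Finset (ℝ × ℝ), P.card = S.card →
        ∃ q : V → ℝ × ℝ, Plane G q ∧ ∀ z : ℝ × ℝ, (∃ s ∈ S, q s = z) ↔ z ∈ P)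
    (hH : ∃ p : W → ℝ × ℝ, Plane H p) (N : Finset W) (hN : ∀ x y, H.Adj x y → x ∈ N) (hNS : N.card ≤ S.card) :
    ∃ (q : V → ℝ × ℝ) (r : W → ℝ × ℝ), Plane G q ∧ Plane H r ∧ Set.range q = Set.range r := by
  classical
  obtain ⟨p, hp⟩ := hH
  obtain ⟨hpinj, hpv, hpe⟩ := hp
  obtain ⟨N', hNN', hN'c⟩ := Finset.exists_superset_card_eq hNS
    (by rw [← hVW]; exact Finset.card_le_univ S)
  obtain ⟨q0, hq0, hq0S⟩ := hS (N'.image p) (by rw [Finset.card_image_of_injective _ hpinj, hN'c])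
  obtain ⟨δ, hδ, hopen⟩ := FU_OPEN G q0 hq0
  obtain ⟨q1, hq1⟩ := choose_pts q0 δ hδ
    (Finset.univ.image (fun xy : W × W => (p xy.1, p xy.2))) Finset.univ
  have hbad : ∀ v x y, q1 v ∉ segment ℝ (p x) (p y) := fun v x y =>
    (hq1 v (Finset.mem_univ _)).2.2 (p x, p y)
      (Finset.mem_image.2 ⟨(x, y), Finset.mem_univ _, rfl⟩)
  set q : V → ℝ × ℝ := fun v => if v ∈ S then q0 v else q1 v with hq
  have hqS : ∀ v, v ∈ S → q v = q0 v := fun v hv => if_pos hv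
  have hqn : ∀ v, v ∉ S → q v = q1 v := fun v hv => if_neg hv
  have hPq : Plane G q := by
    apply hopen
    intro v
    by_cases hv : v ∈ S
    · rw [hqS v hv]
      simp [hδ]
    · rw [hqn v hv]
      exact ⟨(hq1 v (Finset.mem_univ _)).1, (hq1 v (Finset.mem_univ _)).2.1⟩
  have hcard : Fintype.card {w // w ∉ N'} = Fintype.card {v // v ∉ S} := by
    rw [Fintype.card_subtype_compl, Fintype.card_subtype_compl, Fintype.card_coe,
      Fintype.card_coe, hVW, hN'c]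
  obtain ⟨φ⟩ : Nonempty ({w // w ∉ N'} ≃ {v // v ∉ S}) := ⟨Fintype.equivOfCardEq hcard⟩
  set r : W → ℝ × ℝ := fun w => if h : w ∈ N' then p w else q (φ ⟨w, h⟩).1 with hr
  have hrN : ∀ w, w ∈ N' → r w = p w := fun w hw => dif_pos hw
  have hrn : ∀ w (hw : w ∉ N'), r w = q (φ ⟨w, hw⟩).1 := fun w hw => dif_neg hw
  have hrn' : ∀ w (hw : w ∉ N'), r w = q1 (φ ⟨w, hw⟩).1 := fun w hw => by
    rw [hrn w hw, hqn _ (φ ⟨w, hw⟩).2]
  have hrinj : Function.Injective r := by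
    intro w w' hww
    by_cases hw : w ∈ N'
    · by_cases hw' : w' ∈ N'
      · rw [hrN w hw, hrN w' hw'] at hww
        exact hpinj hww
      · rw [hrN w hw, hrn' w' hw'] at hww
        exact absurd (by rw [← hww]; exact left_mem_segment ℝ _ _) (hbad (φ ⟨w', hw'⟩).1 w w)
    · by_cases hw' : w' ∈ N'
      · rw [hrn' w hw, hrN w' hw'] at hww
        exact absurd (by rw [hww]; exact left_mem_segment ℝ _ _) (hbad (φ ⟨w, hw⟩).1 w' w')
      · rw [hrn w hw, hrn w' hw'] at hww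
        have h1 := φ.injective (Subtype.ext (hPq.1 hww))
        exact congrArg Subtype.val h1
  have hadj : ∀ x y, H.Adj x y → x ∈ N' ∧ y ∈ N' := fun x y h =>
    ⟨hNN' (hN x y h), hNN' (hN y x h.symm)⟩
  refine ⟨q, r, hPq, ⟨hrinj, ?_, ?_⟩, ?_⟩
  · intro u v w huv hwu hwv
    obtain ⟨hu, hv⟩ := hadj u v huv
    rw [hrN u hu, hrN v hv]
    by_cases hw : w ∈ N'
    · rw [hrN w hw]
      exact hpv u v w huv hwu hwv
    · rw [hrn' w hw]
      exact hbad _ u v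
  · intro u v x y huv hxy hne z hz1 hz2
    obtain ⟨hu, hv⟩ := hadj u v huv
    obtain ⟨hx, hy⟩ := hadj x y hxy
    rw [hrN u hu, hrN v hv] at hz1
    rw [hrN x hx, hrN y hy] at hz2
    obtain ⟨w, hw1, hw2, hw3⟩ := hpe u v x y huv hxy hne z hz1 hz2
    refine ⟨w, hw1, hw2, ?_⟩
    have hwN : w ∈ N' := by
      rcases hw1 with rfl | rfl
      · exact hu
      · exact hv
    rw [hrN w hwN]
    exact hw3
  · ext z
    constructor
    · rintro ⟨v, rfl⟩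
      by_cases hv : v ∈ S
      · have h1 : q0 v ∈ N'.image p := (hq0S _).1 ⟨v, hv, rfl⟩
        obtain ⟨w, hw, hwe⟩ := Finset.mem_image.1 h1
        exact ⟨w, by rw [hrN w hw, hwe, hqS v hv]⟩
      · refine ⟨(φ.symm ⟨v, hv⟩).1, ?_⟩
        rw [hrn _ (φ.symm ⟨v, hv⟩).2]
        congr 1
        have h2 : φ ⟨(φ.symm ⟨v, hv⟩).1, (φ.symm ⟨v, hv⟩).2⟩ = ⟨v, hv⟩ := φ.apply_symm_apply _
        exact congrArg Subtype.val h2
    · rintro ⟨w, rfl⟩
      by_cases hw : w ∈ N'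
      · obtain ⟨s, hs, hse⟩ := (hq0S (p w)).2 (Finset.mem_image.2 ⟨w, hw, rfl⟩)
        exact ⟨s, by rw [hqS s hs, hse, hrN w hw]⟩
      · exact ⟨(φ ⟨w, hw⟩).1, (hrn w hw).symm⟩


end Pool.Agent.H891WLC
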